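import Pool.Agent.Lib.MP_f02039_co.Spec

/-! MP_f02039_co: BASE1, the calculus of the `Y_i(o)`. -/

namespace MPf02039

open scoped commutatorElement

variable {G : Type*} [Group G]

/-! ### pure group lemmas -/

theorem zz_aux (bi bj zi zj : G) (hbi : bi * bi = 1) (hbj : bj * bj = 1)
    (hzi : zi * zi = 1) (hzj : zj * zj = 1) (h3 : bi * zj = zj * bi)
    (h4 : bj * zi = zi * bj) (h5 : bi * bj = bj * bi)
    (e : bi * zj * (bj * zi) = bj * zi * (bi * zj)) :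
    zi * zj * zi * zj = zi * bi * zi * bi * (bj * zj * bj * zj) := by
  have e' : zj * (bi * bj) * zi = zi * (bi * bj) * zj := by
    calc zj * (bi * bj) * zi = (zj * bi) * (bj * zi) := by group
      _ = (bi * zj) * (bj * zi) := by rw [h3]
      _ = (bj * zi) * (bi * zj) := e
      _ = (zi * bj) * (bi * zj) := by rw [h4]
      _ = zi * (bj * bi) * zj := by group
      _ = zi * (bi * bj) * zj := by rw [h5]
  have e1 : (bi * bj) * zi = zj * zi * (bi * bj) * zj := by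
    calc (bi * bj) * zi = zj * (zj * (bi * bj) * zi) := by
          rw [← mul_assoc, ← mul_assoc, hzj, one_mul]
      _ = zj * (zi * (bi * bj) * zj) := by rw [e']
      _ = zj * zi * (bi * bj) * zj := by group
  have hX : (bi * bj) * (bi * bj) = 1 := by
    calc (bi * bj) * (bi * bj) = (bi * bj) * (bj * bi) := by rw [h5]
      _ = bi * (bj * bj) * bi := by group
      _ = 1 := by rw [hbj, mul_one, hbi]
  have e2 : (bi * bj) * zi * zj * (bi * bj) = zj * zi := by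
    calc (bi * bj) * zi * zj * (bi * bj) = zj * zi * (bi * bj) * zj * zj * (bi * bj) := by rw [e1]
      _ = zj * zi * (bi * bj) * (zj * zj) * (bi * bj) := by group
      _ = zj * zi * ((bi * bj) * (bi * bj)) := by rw [hzj, mul_one, mul_assoc]
      _ = zj * zi := by rw [hX, mul_one]
  have e3 : (bi * zi * bi) * (bj * zj * bj) = (bi * bj) * zi * zj * (bi * bj) := by
    calc (bi * zi * bi) * (bj * zj * bj) = bi * zi * (bi * bj) * zj * bj := by group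
      _ = bi * zi * (bj * bi) * zj * bj := by rw [h5]
      _ = bi * (zi * bj) * (bi * zj) * bj := by group
      _ = bi * (bj * zi) * (zj * bi) * bj := by rw [h3, h4]
      _ = (bi * bj) * zi * zj * (bi * bj) := by group
  calc zi * zj * zi * zj = zi * (zj * zi) * zj := by group
    _ = zi * ((bi * zi * bi) * (bj * zj * bj)) * zj := by rw [e3, e2]
    _ = zi * bi * zi * bi * (bj * zj * bj * zj) := by group

namespace Sys
variable (s : Sys G)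

theorem cj_b_Z (o : ℕ) {j k : Fin 5} (h : j ≠ k) : cj (s.x (o ^^^ c j)) (s.zf k o) = s.zf k o := by
  have := s.zo_x k (o ^^^ c j)
  rw [s.zo_c_ne h] at this
  rw [cj, mul_inv_eq_iff_eq_mul]; exact this.symm

theorem cj_Z_b (o : ℕ) {j k : Fin 5} (h : j ≠ k) :
    cj (s.zf k o) (s.x (o ^^^ c j)) = s.x (o ^^^ c j) := by
  have := s.zo_x k (o ^^^ c j)
  rw [s.zo_c_ne h] at this
  rw [cj, mul_inv_eq_iff_eq_mul]; exact this

theorem cj_a_Z (o : ℕ) {i j : Fin 5} (h : i ≠ j) :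
    cj (s.x (o ^^^ c i ^^^ c j)) (s.zf i o) = s.zf i o := by
  have := s.zo_x i (o ^^^ c i ^^^ c j)
  rw [s.zo_c_ne (Ne.symm h), s.zf_c_self] at this
  rw [cj, mul_inv_eq_iff_eq_mul]; exact this.symm

theorem cj_a_Z' (o : ℕ) {i j : Fin 5} (h : i ≠ j) :
    cj (s.x (o ^^^ c i ^^^ c j)) (s.zf j o) = s.zf j o := by
  have := s.zo_x j (o ^^^ c i ^^^ c j)
  rw [s.zo_c_self, s.zo_c_ne h] at this
  rw [cj, mul_inv_eq_iff_eq_mul]; exact this.symm

theorem xor_swap (o : ℕ) (i j : Fin 5) : o ^^^ c i ^^^ c j = o ^^^ c j ^^^ c i := by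
  rw [Nat.xor_assoc, Nat.xor_comm (c i), ← Nat.xor_assoc]

/-- `(b_i a_ij)² = Z_j` -/
theorem ba (o : ℕ) {i j : Fin 5} (h : i ≠ j) :
    s.x (o ^^^ c i) * s.x (o ^^^ c i ^^^ c j) * s.x (o ^^^ c i) * s.x (o ^^^ c i ^^^ c j) =
      s.zf j o := by
  rw [s.x_zo, s.zo_c_ne h]

theorem ba' (o : ℕ) {i j : Fin 5} (h : i ≠ j) :
    s.x (o ^^^ c j) * s.x (o ^^^ c i ^^^ c j) * s.x (o ^^^ c j) * s.x (o ^^^ c i ^^^ c j) =
      s.zf i o := by
  rw [xor_swap]; exact s.ba o (Ne.symm h)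

theorem bb (o : ℕ) {i j : Fin 5} (h : i ≠ j) :
    s.x (o ^^^ c i) * s.x (o ^^^ c j) = s.x (o ^^^ c j) * s.x (o ^^^ c i) := by
  have := s.x_comm (o ^^^ c i) i j h
  rwa [xor_cancel] at this

theorem cj_b_b (o : ℕ) {i j : Fin 5} (h : i ≠ j) :
    cj (s.x (o ^^^ c i)) (s.x (o ^^^ c j)) = s.x (o ^^^ c j) := by
  rw [cj, mul_inv_eq_iff_eq_mul]; exact s.bb o h

/-- `a_ij . b_i = b_i Z_j` -/
theorem cj_a_b (o : ℕ) {i j : Fin 5} (h : i ≠ j) :
    cj (s.x (o ^^^ c i ^^^ c j)) (s.x (o ^^^ c i)) = s.x (o ^^^ c i) * s.zf j o := by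
  rw [← s.ba o h, cj, s.x_inv]
  simp only [← mul_assoc, s.x_sq, one_mul]

theorem cj_a_b' (o : ℕ) {i j : Fin 5} (h : i ≠ j) :
    cj (s.x (o ^^^ c i ^^^ c j)) (s.x (o ^^^ c j)) = s.x (o ^^^ c j) * s.zf i o := by
  rw [← s.ba' o h, cj, s.x_inv]
  simp only [← mul_assoc, s.x_sq, one_mul]

/-- `Y_i = [Z_i, b_i]` in conjugation form: `b_i . Z_i = Z_i Y_i` -/
theorem cj_b_Z_self (o : ℕ) (i : Fin 5) :
    cj (s.x (o ^^^ c i)) (s.zf i o) = s.zf i o * s.Y o i := by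
  rw [cj, s.x_inv, Y]
  simp only [← mul_assoc, s.zf_sq, one_mul]

theorem Y_inv (o : ℕ) (i : Fin 5) :
    (s.Y o i)⁻¹ = s.x (o ^^^ c i) * s.zf i o * s.x (o ^^^ c i) * s.zf i o := by
  simp only [Y, mul_inv_rev, s.x_inv, s.zf_inv, mul_assoc]

end Sys

variable (s : Sys G)

theorem b1_b_ne (o : ℕ) {j k : Fin 5} (h : j ≠ k) :
    cj (s.x (o ^^^ c j)) (s.Y o k) = s.Y o k := by
  simp only [Sys.Y, cj_mul, s.cj_b_Z o h, s.cj_b_b o h]

theorem b1_b_self (o : ℕ) (k : Fin 5) :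
    cj (s.x (o ^^^ c k)) (s.Y o k) = (s.Y o k)⁻¹ := by
  rw [s.Y_inv, cj, s.x_inv, Sys.Y]
  simp only [mul_assoc, s.x_sq, mul_one]

theorem b1_zf_self (o : ℕ) (k : Fin 5) :
    cj (s.zf k o) (s.Y o k) = (s.Y o k)⁻¹ := by
  rw [s.Y_inv, cj, s.zf_inv, Sys.Y]
  simp only [← mul_assoc, s.zf_sq, one_mul]

theorem b1_zz (o : ℕ) {i j : Fin 5} (h : i ≠ j) :
    s.zf i o * s.zf j o * s.zf i o * s.zf j o = s.Y o i * (s.Y o j)⁻¹ := by
  rw [s.Y_inv, Sys.Y]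
  have e : s.x (o ^^^ c i) * s.zf j o * (s.x (o ^^^ c j) * s.zf i o) =
      s.x (o ^^^ c j) * s.zf i o * (s.x (o ^^^ c i) * s.zf j o) := by
    have h1 := congrArg (cj (s.x (o ^^^ c i ^^^ c j))) (s.bb o h)
    rwa [cj_mul, cj_mul, s.cj_a_b o h, s.cj_a_b' o h] at h1
  have h3 : s.x (o ^^^ c i) * s.zf j o = s.zf j o * s.x (o ^^^ c i) := by
    have := s.cj_b_Z o h
    rwa [cj, mul_inv_eq_iff_eq_mul] at this
  have h4 : s.x (o ^^^ c j) * s.zf i o = s.zf i o * s.x (o ^^^ c j) := by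
    have := s.cj_b_Z o (Ne.symm h)
    rwa [cj, mul_inv_eq_iff_eq_mul] at this
  exact zz_aux _ _ _ _ (s.x_sq _) (s.x_sq _) (s.zf_sq _ _) (s.zf_sq _ _) h3 h4 (s.bb o h) e

/-- `D_ij = (Z_i Z_j)²`; inverted by `Z_i` and `Z_j` -/
theorem zz_inv (zi zj : G) (hzi : zi * zi = 1) (hzj : zj * zj = 1) :
    cj zj (zi * zj * zi * zj) = (zi * zj * zi * zj)⁻¹ := by
  have hi : zi⁻¹ = zi := inv_eq_of_mul_eq_one_left hzi
  have hj : zj⁻¹ = zj := inv_eq_of_mul_eq_one_left hzj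
  rw [cj]; simp only [mul_inv_rev, hi, hj]
  simp only [mul_assoc, hzj, mul_one]

theorem b1_zf_ne_aux (o : ℕ) {i j : Fin 5} (h : i ≠ j) :
    cj (s.zf j o) (s.Y o i) = s.Y o j * (s.Y o i)⁻¹ * (s.Y o j)⁻¹ := by
  have hD := b1_zz s o h
  have h1 := zz_inv (s.zf i o) (s.zf j o) (s.zf_sq _ _) (s.zf_sq _ _)
  rw [hD, cj_mul, cj_inv, b1_zf_self, inv_inv, mul_inv_rev, inv_inv] at h1
  rw [← h1]; group

theorem b1_a_left (o : ℕ) {i j : Fin 5} (h : i ≠ j) :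
    cj (s.x (o ^^^ c i ^^^ c j)) (s.Y o i) = (s.Y o j)⁻¹ := by
  have h1 : cj (s.x (o ^^^ c i ^^^ c j)) (s.Y o i) =
      s.zf i o * (s.x (o ^^^ c i) * s.zf j o) * s.zf i o * (s.x (o ^^^ c i) * s.zf j o) := by
    simp only [Sys.Y, cj_mul, s.cj_a_Z o h, s.cj_a_b o h]
  have h3 : s.x (o ^^^ c i) * s.zf j o = s.zf j o * s.x (o ^^^ c i) := by
    have := s.cj_b_Z o h
    rwa [cj, mul_inv_eq_iff_eq_mul] at this
  have h2 : cj (s.x (o ^^^ c i ^^^ c j)) (s.Y o i) =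
      (s.zf i o * s.zf j o * s.zf i o * s.zf j o) * cj (s.zf j o) (s.Y o i) := by
    rw [h1, cj, s.zf_inv, Sys.Y]
    calc s.zf i o * (s.x (o ^^^ c i) * s.zf j o) * s.zf i o * (s.x (o ^^^ c i) * s.zf j o)
        = s.zf i o * (s.zf j o * s.x (o ^^^ c i)) * s.zf i o * (s.x (o ^^^ c i) * s.zf j o) := by
          rw [h3]
      _ = s.zf i o * s.zf j o * (s.zf i o * (s.zf j o * s.zf j o) * s.zf i o) *
            s.x (o ^^^ c i) * s.zf i o * (s.x (o ^^^ c i) * s.zf j o) := by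
          rw [s.zf_sq, mul_one, s.zf_sq, mul_one]; group
      _ = _ := by group
  rw [h2, b1_zz s o h, b1_zf_ne_aux s o h]; group

theorem b1_a_right (o : ℕ) {i j : Fin 5} (h : i ≠ j) :
    cj (s.x (o ^^^ c i ^^^ c j)) (s.Y o j) = (s.Y o i)⁻¹ := by
  rw [Sys.xor_swap]; exact b1_a_left s o (Ne.symm h)

/-- `Z_j` inverts `Y_i` for `i ≠ j` -/
theorem b1_zf_ne (o : ℕ) {i j : Fin 5} (h : i ≠ j) :
    cj (s.zf j o) (s.Y o i) = (s.Y o i)⁻¹ := by
  rw [← s.ba o h]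
  simp only [mul_cj, b1_a_left s o h, cj_inv, b1_b_ne s o h, b1_a_right s o h, b1_b_self, inv_inv]

theorem b1_zf_Y (o : ℕ) (i j : Fin 5) : cj (s.zf j o) (s.Y o i) = (s.Y o i)⁻¹ := by
  by_cases h : i = j
  · subst h; exact b1_zf_self s o i
  · exact b1_zf_ne s o h

theorem b1_Y_comm (o : ℕ) (i j : Fin 5) : Commute (s.Y o i) (s.Y o j) := by
  by_cases h : i = j
  · subst h; exact Commute.refl _
  · have h1 := b1_zf_ne s o h
    rw [b1_zf_ne_aux s o h] at h1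
    have h2 : s.Y o j * (s.Y o i)⁻¹ = (s.Y o i)⁻¹ * s.Y o j := by
      rwa [mul_inv_eq_iff_eq_mul] at h1
    have h3 : Commute (s.Y o j) (s.Y o i)⁻¹ := h2
    exact (Commute.inv_right_iff.mp h3).symm

theorem b1_zzz (o : ℕ) {i j k : Fin 5} (hij : i ≠ j) (hik : i ≠ k) (hjk : j ≠ k) :
    s.zf i o * s.zf j o * s.zf k o * s.zf i o * s.zf j o * s.zf k o = 1 := by
  have hki := b1_zz s o (Ne.symm hik)
  have hkj := b1_zz s o (Ne.symm hjk)
  have hij' := b1_zz s o hij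
  -- `Z_k Z_i Z_k = D_ki Z_i`, `Z_k Z_j Z_k = D_kj Z_j`
  have e1 : s.zf k o * s.zf i o * s.zf k o = s.Y o k * (s.Y o i)⁻¹ * s.zf i o := by
    rw [← hki]; simp only [mul_assoc, s.zf_sq, mul_one]
  have e2 : s.zf k o * s.zf j o * s.zf k o = s.Y o k * (s.Y o j)⁻¹ * s.zf j o := by
    rw [← hkj]; simp only [mul_assoc, s.zf_sq, mul_one]
  -- `Z_i` inverts
  have e3 : s.zf i o * (s.Y o k * (s.Y o j)⁻¹) = (s.Y o k)⁻¹ * s.Y o j * s.zf i o := by
    have : cj (s.zf i o) (s.Y o k * (s.Y o j)⁻¹) = (s.Y o k)⁻¹ * s.Y o j := by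
      rw [cj_mul, cj_inv, b1_zf_Y, b1_zf_Y, inv_inv]
    rwa [cj, mul_inv_eq_iff_eq_mul] at this
  have e4 : s.zf k o * (s.zf i o * s.zf j o) * s.zf k o = s.zf j o * s.zf i o := by
    calc s.zf k o * (s.zf i o * s.zf j o) * s.zf k o
        = (s.zf k o * s.zf i o * s.zf k o) * (s.zf k o * s.zf j o * s.zf k o) := by
          simp only [mul_assoc]
          rw [← mul_assoc (s.zf k o) (s.zf k o), s.zf_sq, one_mul]
      _ = s.Y o k * (s.Y o i)⁻¹ * (s.zf i o * (s.Y o k * (s.Y o j)⁻¹)) * s.zf j o := by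
          rw [e1, e2]; group
      _ = s.Y o k * (s.Y o i)⁻¹ * ((s.Y o k)⁻¹ * s.Y o j) * (s.zf i o * s.zf j o) := by
          rw [e3]; group
      _ = (s.Y o i * (s.Y o j)⁻¹)⁻¹ * (s.zf i o * s.zf j o) := by
          congr 1
          have c1 : Commute (s.Y o k) (s.Y o i)⁻¹ := (b1_Y_comm s o k i).inv_right
          have c2 : Commute (s.Y o j) (s.Y o i)⁻¹ := (b1_Y_comm s o j i).inv_right
          rw [c1.eq, mul_assoc, ← mul_assoc (s.Y o k), mul_inv_cancel, one_mul, mul_inv_rev,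
            inv_inv, c2.eq]
      _ = s.zf j o * s.zf i o := by
          rw [← hij']
          simp only [mul_inv_rev, s.zf_inv, mul_assoc]
          rw [← mul_assoc (s.zf i o) (s.zf i o), s.zf_sq, one_mul, s.zf_sq, mul_one]
  calc s.zf i o * s.zf j o * s.zf k o * s.zf i o * s.zf j o * s.zf k o
      = s.zf i o * s.zf j o * (s.zf k o * (s.zf i o * s.zf j o) * s.zf k o) := by group
    _ = 1 := by
        rw [e4]; simp only [mul_assoc]
        rw [← mul_assoc (s.zf j o) (s.zf j o), s.zf_sq, one_mul, s.zf_sq]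

/-- cusps of the frame `o + c_l + c_m` -/
theorem Sys.zf_shift (o : ℕ) {i l m : Fin 5} (hl : l ≠ i) (hm : m ≠ i) :
    s.zf i (o ^^^ c l ^^^ c m) = s.zf i o := by
  rw [s.zf_c_ne hm, s.zo_c_ne hl]

theorem b1_D_shift (o : ℕ) {i j l m : Fin 5} (hij : i ≠ j) (hil : i ≠ l) (him : i ≠ m)
    (hjl : j ≠ l) (hjm : j ≠ m) :
    s.Y (o ^^^ c l ^^^ c m) i * (s.Y (o ^^^ c l ^^^ c m) j)⁻¹ = s.Y o i * (s.Y o j)⁻¹ := by
  rw [← b1_zz s _ hij, ← b1_zz s _ hij, s.zf_shift o hil.symm him.symm,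
    s.zf_shift o hjl.symm hjm.symm]

theorem b1_a_other (o : ℕ) {i j k l m : Fin 5} (h : D5 i j k l m) :
    cj (s.x (o ^^^ c i ^^^ c j)) (s.Y o k) =
      (s.Y (o ^^^ c l ^^^ c m) k)⁻¹ * (s.Y (o ^^^ c l ^^^ c m) i)⁻¹ * (s.Y o j)⁻¹ := by
  obtain ⟨hij, hik, hil, him, hjk, hjl, hjm, hkl, hkm, hlm⟩ := h
  have hv : o ^^^ c i ^^^ c j = (o ^^^ c l ^^^ c m) ^^^ c k := by
    have := c_two o i j l m k ⟨hij, hil, him, hik, hjl, hjm, hjk, hlm, hkl.symm, hkm.symm⟩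
    exact this.symm
  have hD := b1_D_shift s o (Ne.symm hik) hkl hkm hil him
  have hY : s.Y o k = s.Y (o ^^^ c l ^^^ c m) k * (s.Y (o ^^^ c l ^^^ c m) i)⁻¹ * s.Y o i := by
    rw [hD]; group
  rw [hY, cj_mul, cj_mul, cj_inv, b1_a_left s o hij, hv, b1_b_self, b1_b_ne s _ (Ne.symm hik)]

theorem b1_comm2_ne (o : ℕ) {i j l m : Fin 5} (hij : i ≠ j) (hlm : l ≠ m) (hil : i ≠ l)
    (him : i ≠ m) (hjl : j ≠ l) (hjm : j ≠ m) :
    Commute (s.Y o i) (s.Y (o ^^^ c l ^^^ c m) j) := by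
  obtain ⟨k, hk⟩ := exists_D5_4 hij hil him hjl hjm hlm
  obtain ⟨-, -, -, hik, -, -, hjk, -, hlk, hmk⟩ := hk
  -- `x (o'+c_j) = a_ik(o)`
  have hv : (o ^^^ c l ^^^ c m) ^^^ c j = o ^^^ c i ^^^ c k :=
    c_two o i k l m j ⟨hik, hil, him, hij, hlk.symm, hmk.symm, hjk.symm, hlm, hjl.symm, hjm.symm⟩
  have h : cj (s.Y (o ^^^ c l ^^^ c m) j) (s.Y o i) = s.Y o i := by
    rw [Sys.Y, hv, s.zf_shift o hjl.symm hjm.symm]
    simp only [mul_cj, b1_a_left s o hik, b1_a_right s o hik, cj_inv, b1_zf_Y, inv_inv]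
  rw [cj_eq_self_iff] at h
  exact (show Commute _ _ from h).symm

theorem b1_comm2 (o : ℕ) {i j l m : Fin 5} (hlm : l ≠ m) (hil : i ≠ l)
    (him : i ≠ m) (hjl : j ≠ l) (hjm : j ≠ m) :
    Commute (s.Y o i) (s.Y (o ^^^ c l ^^^ c m) j) := by
  by_cases hij : i = j
  · subst hij
    obtain ⟨k, a, hk⟩ := exists_D5_3 hlm (Ne.symm hil) (Ne.symm him)
    obtain ⟨-, -, hlk, -, -, hmk, -, hik, -, -⟩ := hk
    have hD := b1_D_shift s o hik hil him hlk.symm hmk.symm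
    have hY : s.Y (o ^^^ c l ^^^ c m) i =
        s.Y o i * (s.Y o k)⁻¹ * s.Y (o ^^^ c l ^^^ c m) k := by
      rw [← hD]; group
    rw [hY]
    exact (((b1_Y_comm s o i i).mul_right (b1_Y_comm s o i k).inv_right)).mul_right
      (b1_comm2_ne s o hik hlm hil him hlk.symm hmk.symm)
  · exact b1_comm2_ne s o hij hlm hil him hjl hjm

theorem cj_commute {g a b : G} (h : Commute (cj g a) (cj g b)) : Commute a b := by
  have h' : cj g (a * b) = cj g (b * a) := by rw [cj_mul, cj_mul, h.eq]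
  exact cj_injective g h'

theorem b1_comm2' (o : ℕ) {l m : Fin 5} (hlm : l ≠ m) :
    Commute (s.Y o l) (s.Y (o ^^^ c l ^^^ c m) m) := by
  obtain ⟨j, i, k, hk⟩ := exists_D5_2 hlm
  obtain ⟨-, hlj, hli, hlk, hmj, hmi, hmk, hji, hjk, hik⟩ := hk
  -- `a_lj(o) = a_mj(o')`
  have hv : o ^^^ c l ^^^ c j = (o ^^^ c l ^^^ c m) ^^^ c m ^^^ c j := by
    rw [xor_cancel]
  apply cj_commute (g := s.x (o ^^^ c l ^^^ c j))
  rw [b1_a_left s o hlj]
  rw [hv, b1_a_left s _ hmj]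
  exact (b1_comm2 s o hlm hlj.symm hmj.symm hlj.symm hmj.symm).inv_inv

theorem base1 (s : Sys G) : Base1 s where
  b_ne o _ _ h := b1_b_ne s o h
  b_self o k := b1_b_self s o k
  a_left o _ _ h := b1_a_left s o h
  a_right o _ _ h := b1_a_right s o h
  a_other o _ _ _ _ _ h := b1_a_other s o h
  zf_Y o i j := b1_zf_Y s o i j
  Y_comm o i j := b1_Y_comm s o i j
  zz o _ _ h := b1_zz s o h
  zzz o _ _ _ h1 h2 h3 := b1_zzz s o h1 h2 h3
  D_shift o _ _ _ _ hij _ hil him hjl hjm := b1_D_shift s o hij hil him hjl hjm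
  comm2 o _ _ _ _ hlm hil him hjl hjm := b1_comm2 s o hlm hil him hjl hjm
  comm2' o _ _ h := b1_comm2' s o h

end MPf02039
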