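import Pool.Agent.Lib.MP_f02039_co.Base1

/-! MP_f02039_co: BASE2, the elements `C_q` and `Θ_q`.
`W_{a,b} = Y (q ^^^ c b) a`, `w_a = zo a q`. -/

namespace MPf02039

open scoped commutatorElement

variable {G : Type*} [Group G]

/-! ### pure group lemmas -/

theorem comm_mul_right_of {a d b : G} (h1 : Commute d a) (h2 : Commute d b) :
    ⁅a, d * b⁆ = ⁅a, b⁆ := by
  have h3 : Commute d (⁅a, b⁆ * b) := by
    rw [commutatorElement_def]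
    have : Commute d (a * b * a⁻¹) := (h1.mul_right h2).mul_right h1.inv_right
    simpa [mul_assoc] using this
  rw [commutatorElement_def]
  calc a * (d * b) * a⁻¹ * (d * b)⁻¹ = (a * d) * b * a⁻¹ * b⁻¹ * d⁻¹ := by group
    _ = (d * a) * b * a⁻¹ * b⁻¹ * d⁻¹ := by rw [h1.eq]
    _ = (d * (⁅a, b⁆ * b)) * b⁻¹ * d⁻¹ := by rw [commutatorElement_def]; group
    _ = ⁅a, b⁆ * b * d * b⁻¹ * d⁻¹ := by rw [h3.eq]
    _ = ⁅a, b⁆ * (b * d) * b⁻¹ * d⁻¹ := by group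
    _ = ⁅a, b⁆ * (d * b) * b⁻¹ * d⁻¹ := by rw [h2.eq]
    _ = ⁅a, b⁆ := by group

theorem comm_mul_left_of {a d b : G} (h1 : Commute d a) (h2 : Commute d b) :
    ⁅d * b, a⁆ = ⁅b, a⁆ := by
  rw [← commutatorElement_inv, comm_mul_right_of h1 h2, commutatorElement_inv]

theorem comm_mul_right_of' {a d b : G} (h : Commute b a) : ⁅a, d * b⁆ = ⁅a, d⁆ := by
  rw [commutatorElement_def, commutatorElement_def]
  calc a * (d * b) * a⁻¹ * (d * b)⁻¹ = a * d * (b * a⁻¹) * b⁻¹ * d⁻¹ := by group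
    _ = a * d * (a⁻¹ * b) * b⁻¹ * d⁻¹ := by rw [h.inv_right.eq]
    _ = _ := by group

theorem comm_mul_left_of' {a d b : G} (h : Commute b a) : ⁅d * b, a⁆ = ⁅d, a⁆ := by
  rw [← commutatorElement_inv, comm_mul_right_of' h, commutatorElement_inv]

theorem comm_inv_right_of {a b : G} (h : Commute ⁅a, b⁆ b) : ⁅a, b⁻¹⁆ = ⁅a, b⁆⁻¹ := by
  have h' : Commute (⁅a, b⁆)⁻¹ b := h.inv_left
  calc ⁅a, b⁻¹⁆ = b⁻¹ * (b * (a * b⁻¹ * a⁻¹)) * b := by rw [commutatorElement_def]; group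
    _ = b⁻¹ * (⁅a, b⁆⁻¹ * b) := by rw [commutatorElement_def]; group
    _ = b⁻¹ * (b * ⁅a, b⁆⁻¹) := by rw [h'.eq]
    _ = _ := by group

theorem comm_inv_left_of {a b : G} (h : Commute ⁅a, b⁆ a) : ⁅a⁻¹, b⁆ = ⁅a, b⁆⁻¹ := by
  have h1 : Commute ⁅b, a⁆ a := by rw [← commutatorElement_inv]; exact h.inv_left
  rw [← commutatorElement_inv, comm_inv_right_of h1, inv_inv, commutatorElement_inv]

theorem comm_inv_inv_of {a b : G} (h1 : Commute ⁅a, b⁆ a) (h2 : Commute ⁅a, b⁆ b) :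
    ⁅a⁻¹, b⁻¹⁆ = ⁅a, b⁆ := by
  have h3 : Commute ⁅a⁻¹, b⁆ b := by rw [comm_inv_left_of h1]; exact h2.inv_left
  rw [comm_inv_right_of h3, comm_inv_left_of h1, inv_inv]

/-- the key computation of `w_m . W_{k,m}` -/
theorem key_conj (x wk wm : G) (hx : x * x = 1) (hk : wk * wk = 1) (hm : wm * wm = 1) :
    cj wm (wk * x * wk * x) = (wm * wk * wm * wk) *
      cj wk ((wm * x * wm * x) * cj x (wm * wk * wm * wk)) * (wk * x * wk * x) *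
        (wm * x * wm * x)⁻¹ := by
  have ix : x⁻¹ = x := inv_eq_of_mul_eq_one_left hx
  have ik : wk⁻¹ = wk := inv_eq_of_mul_eq_one_left hk
  have im : wm⁻¹ = wm := inv_eq_of_mul_eq_one_left hm
  have cx : ∀ a : G, x * (x * a) = a := fun a => by rw [← mul_assoc, hx, one_mul]
  have ck : ∀ a : G, wk * (wk * a) = a := fun a => by rw [← mul_assoc, hk, one_mul]
  have cm : ∀ a : G, wm * (wm * a) = a := fun a => by rw [← mul_assoc, hm, one_mul]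
  simp only [cj, mul_inv_rev, ix, ik, im, mul_assoc, cx, ck, cm]

theorem key_reduce {A B P Q T C : G} (h1 : Commute P B) (h2 : Commute P Q) (h3 : Commute T P)
    (h4 : Commute T Q) (h5 : Commute A Q) (hC : ⁅Q, B⁆ = C) (cA : Commute C A)
    (cB : Commute C B) (cQ : Commute C Q) :
    A * B⁻¹ * (P * Q⁻¹) * (B * T * P⁻¹ * A⁻¹) * Q = C⁻¹ * (A * T * A⁻¹) := by
  have e1 : B⁻¹ * Q⁻¹ * B = C⁻¹ * Q⁻¹ := by
    have : Q * B = C * (B * Q) := by rw [← hC, commutatorElement_def]; group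
    have h6 : B⁻¹ * Q * B = C * Q := by
      calc B⁻¹ * Q * B = B⁻¹ * (Q * B) := by group
        _ = (B⁻¹ * C) * B * Q := by rw [this]; group
        _ = (C * B⁻¹) * B * Q := by rw [cB.inv_right.eq]
        _ = C * Q := by group
    calc B⁻¹ * Q⁻¹ * B = (B⁻¹ * Q * B)⁻¹ := by group
      _ = (C * Q)⁻¹ := by rw [h6]
      _ = (Q * C)⁻¹ := by rw [cQ.eq]
      _ = C⁻¹ * Q⁻¹ := by group
  calc A * B⁻¹ * (P * Q⁻¹) * (B * T * P⁻¹ * A⁻¹) * Q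
      = A * B⁻¹ * (Q⁻¹ * P) * (B * T * P⁻¹ * A⁻¹) * Q := by rw [h2.inv_right.eq]
    _ = A * (B⁻¹ * Q⁻¹) * (P * B) * T * P⁻¹ * A⁻¹ * Q := by group
    _ = A * (B⁻¹ * Q⁻¹) * (B * P) * T * P⁻¹ * A⁻¹ * Q := by rw [h1.eq]
    _ = A * (B⁻¹ * Q⁻¹ * B) * P * (T * P⁻¹) * A⁻¹ * Q := by group
    _ = A * (C⁻¹ * Q⁻¹) * P * (P⁻¹ * T) * A⁻¹ * Q := by rw [e1, h3.inv_right.eq]
    _ = (A * C⁻¹) * (Q⁻¹ * T) * (A⁻¹ * Q) := by group
    _ = (C⁻¹ * A) * (T * Q⁻¹) * (Q * A⁻¹) := by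
        rw [cA.inv_left.eq, h4.inv_right.eq, h5.inv_left.eq]
    _ = _ := by group

/-! ### rules for `W_{a,b}` -/

section rules
variable (s : Sys G) (q : ℕ)

theorem W_zo {a b : Fin 5} (h : b ≠ a) (i : Fin 5) :
    cj (s.zo a q) (s.Y (q ^^^ c b) i) = (s.Y (q ^^^ c b) i)⁻¹ := by
  rw [← s.zf_c_ne h]; exact b1_zf_Y s _ _ _

theorem W_x {a b : Fin 5} (h : a ≠ b) :
    cj (s.x q) (s.Y (q ^^^ c b) a) = s.Y (q ^^^ c b) a := by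
  have := b1_b_ne s (q ^^^ c b) (Ne.symm h)
  rwa [xor_cancel] at this

theorem W_D {a k b : Fin 5} (hak : a ≠ k) (hab : a ≠ b) (hkb : k ≠ b) :
    s.zo a q * s.zo k q * s.zo a q * s.zo k q = s.Y (q ^^^ c b) a * (s.Y (q ^^^ c b) k)⁻¹ := by
  rw [← b1_zz s _ hak, s.zf_c_ne hab.symm, s.zf_c_ne hkb.symm]

theorem W_D_eq {a k b b' : Fin 5} (hak : a ≠ k) (hab : a ≠ b) (hkb : k ≠ b) (hab' : a ≠ b')
    (hkb' : k ≠ b') : s.Y (q ^^^ c b) a * (s.Y (q ^^^ c b) k)⁻¹ =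
      s.Y (q ^^^ c b') a * (s.Y (q ^^^ c b') k)⁻¹ := by
  rw [← W_D s q hak hab hkb, ← W_D s q hak hab' hkb']

theorem W_comm_ne {i j l m : Fin 5} (hlm : l ≠ m) (hil : i ≠ l) (him : i ≠ m) (hjl : j ≠ l)
    (hjm : j ≠ m) : Commute (s.Y (q ^^^ c l) i) (s.Y (q ^^^ c m) j) := by
  have := b1_comm2 s (q ^^^ c l) hlm hil him hjl hjm
  rwa [xor_cancel] at this

theorem W_comm' {l m : Fin 5} (h : l ≠ m) :
    Commute (s.Y (q ^^^ c m) l) (s.Y (q ^^^ c l) m) := by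
  have := b1_comm2' s (q ^^^ c m) h
  rwa [Sys.xor_swap, xor_cancel] at this

/-- `q + c_s + c_t = (q + c_b) + c_i + c_j` -/
theorem vert {i j s' t b : Fin 5} (h : D5 i j s' t b) :
    q ^^^ c s' ^^^ c t = (q ^^^ c b) ^^^ c i ^^^ c j := by
  have := c_two (q ^^^ c b) i j b s' t (by
    obtain ⟨h1, h2, h3, h4, h5, h6, h7, h8, h9, h10⟩ := h
    exact ⟨h1, h4, h2, h3, h7, h5, h6, h9.symm, h10.symm, h8⟩)
  rw [xor_cancel] at this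
  exact this

/-- `x_st : W_{i,b} ↦ W_{j,b}⁻¹` -/
theorem W_xx_i {i j s' t b : Fin 5} (h : D5 i j s' t b) :
    cj (s.x (q ^^^ c s' ^^^ c t)) (s.Y (q ^^^ c b) i) = (s.Y (q ^^^ c b) j)⁻¹ := by
  rw [vert q h]; exact b1_a_left s _ h.1

/-- `x_st : W_{s,b} ↦ W_{s,t}⁻¹ W_{i,t}⁻¹ W_{j,b}⁻¹` -/
theorem W_xx_s {i j s' t b : Fin 5} (h : D5 i j s' t b) :
    cj (s.x (q ^^^ c s' ^^^ c t)) (s.Y (q ^^^ c b) s') =
      (s.Y (q ^^^ c t) s')⁻¹ * (s.Y (q ^^^ c t) i)⁻¹ * (s.Y (q ^^^ c b) j)⁻¹ := by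
  rw [vert q h, b1_a_other s (q ^^^ c b) h]
  have : q ^^^ c b ^^^ c t ^^^ c b = q ^^^ c t := by rw [Sys.xor_swap, xor_cancel]
  rw [this]

/-- `x_st : W_{a,s} ↦ W_{a,s}`, `a ≠ t` -/
theorem W_xx_fix {a s' t : Fin 5} (h : a ≠ t) :
    cj (s.x (q ^^^ c s' ^^^ c t)) (s.Y (q ^^^ c s') a) = s.Y (q ^^^ c s') a :=
  b1_b_ne s _ (Ne.symm h)

end rules

/-! ### independence of the choices in `C` -/

section C
variable (s : Sys G) (q : ℕ)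

theorem CA_j {l m j j' : Fin 5} (_hlm : l ≠ m) (hjl : j ≠ l) (hjm : j ≠ m) (hjl' : j' ≠ l)
    (hjm' : j' ≠ m) : ⁅s.Y (q ^^^ c m) l, s.Y (q ^^^ c l) j⁆ =
      ⁅s.Y (q ^^^ c m) l, s.Y (q ^^^ c l) j'⁆ := by
  by_cases h : j = j'
  · rw [h]
  have hD := W_D_eq s q h hjl hjl' hjm hjm'
  have e : s.Y (q ^^^ c l) j = (s.Y (q ^^^ c l) j * (s.Y (q ^^^ c l) j')⁻¹) * s.Y (q ^^^ c l) j' := by
    group
  rw [e]
  apply comm_mul_right_of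
  · rw [hD]
    exact (b1_Y_comm s _ _ _).mul_left (b1_Y_comm s _ _ _).inv_left
  · exact (b1_Y_comm s _ _ _).mul_left (b1_Y_comm s _ _ _).inv_left

theorem CA_two {l m j : Fin 5} (hlm : l ≠ m) (hjl : j ≠ l) (hjm : j ≠ m) :
    ⁅s.Y (q ^^^ c m) l, s.Y (q ^^^ c l) j⁆ =
      ⁅s.zo l q * s.zo j q * s.zo l q * s.zo j q, s.Y (q ^^^ c l) j⁆ := by
  have e : s.Y (q ^^^ c m) l = (s.zo l q * s.zo j q * s.zo l q * s.zo j q) * s.Y (q ^^^ c m) j := by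
    rw [W_D s q hjl.symm hlm hjm]; group
  rw [e]
  apply comm_mul_left_of'
  exact W_comm_ne s q hlm.symm hjm hjl hjm hjl

theorem CA_three {l m j b : Fin 5} (hlm : l ≠ m) (hjl : j ≠ l) (hjm : j ≠ m) (hbj : b ≠ j)
    (hbm : b ≠ m) : ⁅s.Y (q ^^^ c m) l, s.Y (q ^^^ c l) j⁆ =
      ⁅s.Y (q ^^^ c m) l, s.Y (q ^^^ c b) j * (s.Y (q ^^^ c b) m)⁻¹⁆ := by
  have e : s.Y (q ^^^ c l) j =
      (s.Y (q ^^^ c b) j * (s.Y (q ^^^ c b) m)⁻¹) * s.Y (q ^^^ c l) m := by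
    rw [W_D_eq s q hjm hbj.symm hbm.symm hjl hlm.symm]; group
  rw [e]
  apply comm_mul_right_of'
  exact (W_comm' s q hlm).symm

theorem CA_l {l l' m j : Fin 5} (hlm : l ≠ m) (hjl : j ≠ l) (hjm : j ≠ m) (hlm' : l' ≠ m)
    (hjl' : j ≠ l') : ⁅s.Y (q ^^^ c m) l, s.Y (q ^^^ c l) j⁆ =
      ⁅s.Y (q ^^^ c m) l', s.Y (q ^^^ c l') j⁆ := by
  by_cases h : l = l'
  · rw [h]
  obtain ⟨b, hb⟩ := exists_D5_4 h hlm hjl.symm hlm' hjl'.symm hjm.symm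
  obtain ⟨-, -, -, hlb, -, -, hlb', -, hmb, hjb⟩ := hb
  rw [CA_three s q hlm hjl hjm hjb.symm hmb.symm, CA_three s q hlm' hjl' hjm hjb.symm hmb.symm]
  have e : s.Y (q ^^^ c m) l = (s.Y (q ^^^ c m) l * (s.Y (q ^^^ c m) l')⁻¹) * s.Y (q ^^^ c m) l' := by
    group
  rw [e]
  apply comm_mul_left_of
  · rw [W_D_eq s q h hlm hlm' hlb hlb']
    exact ((b1_Y_comm s _ _ _).mul_left (b1_Y_comm s _ _ _).inv_left).mul_right
      ((b1_Y_comm s _ _ _).mul_left (b1_Y_comm s _ _ _).inv_left).inv_right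
  · exact (b1_Y_comm s _ _ _).mul_left (b1_Y_comm s _ _ _).inv_left

theorem CA_m {l m m' j : Fin 5} (hlm : l ≠ m) (hjl : j ≠ l) (hjm : j ≠ m) (hlm' : l ≠ m')
    (hjm' : j ≠ m') : ⁅s.Y (q ^^^ c m) l, s.Y (q ^^^ c l) j⁆ =
      ⁅s.Y (q ^^^ c m') l, s.Y (q ^^^ c l) j⁆ := by
  rw [CA_two s q hlm hjl hjm, CA_two s q hlm' hjl hjm']

theorem b2_C_eq {l m j : Fin 5} (hlm : l ≠ m) (hjl : j ≠ l) (hjm : j ≠ m) :
    ⁅s.Y (q ^^^ c m) l, s.Y (q ^^^ c l) j⁆ = s.C q := by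
  obtain ⟨j1, a1, a2, a3, a4⟩ : ∃ j1 : Fin 5, j1 ≠ l ∧ j1 ≠ m ∧ j1 ≠ 0 ∧ j1 ≠ 1 := by
    clear hlm hjl hjm; revert l m; decide
  obtain ⟨m1, d1, d2, d3, d4⟩ : ∃ m1 : Fin 5, m1 ≠ l ∧ m1 ≠ j1 ∧ m1 ≠ 0 ∧ m1 ≠ 1 := by
    clear hlm hjl hjm a1 a2 a3 a4; revert l j1; decide
  rw [CA_j s q hlm hjl hjm a1 a2, CA_m s q hlm a1 a2 d1.symm d2.symm,
    CA_l s q d1.symm a1 d2.symm d3.symm a3, CA_m s q d3.symm a3 d2.symm (m' := 1) (by decide) a4,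
    CA_j s q (by decide) a3 a4 (j' := 2) (by decide) (by decide)]
  rfl

theorem b2_C_Y {a b : Fin 5} (hab : a ≠ b) : Commute (s.C q) (s.Y (q ^^^ c b) a) := by
  obtain ⟨m, l, j, hmb, hma, hlb, hlm, hjb, hjm, hjl⟩ : ∃ m l j : Fin 5, m ≠ b ∧ m ≠ a ∧ l ≠ b ∧
      l ≠ m ∧ j ≠ b ∧ j ≠ m ∧ j ≠ l := by
    clear hab; revert a b; decide
  rw [← b2_C_eq s q hlm hjl hjm, CA_three s q hlm hjl hjm hjb.symm hmb.symm]
  have h1 : Commute (s.Y (q ^^^ c m) l) (s.Y (q ^^^ c b) a) :=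
    W_comm_ne s q hmb hlm hlb hma.symm hab
  have h2 : Commute (s.Y (q ^^^ c b) j * (s.Y (q ^^^ c b) m)⁻¹) (s.Y (q ^^^ c b) a) :=
    (b1_Y_comm s _ _ _).mul_left (b1_Y_comm s _ _ _).inv_left
  rw [commutatorElement_def]
  exact ((h1.mul_left h2).mul_left h1.inv_left).mul_left h2.inv_left

theorem b2_x_C : cj (s.x q) (s.C q) = s.C q := by
  rw [Sys.C, cj_comm, W_x s q (by decide), W_x s q (by decide)]

theorem b2_zo_C (i : Fin 5) : cj (s.zo i q) (s.C q) = s.C q := by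
  obtain ⟨l, m, j, hl, hm, hlm, hjl, hjm⟩ : ∃ l m j : Fin 5, l ≠ i ∧ m ≠ i ∧ l ≠ m ∧ j ≠ l ∧
      j ≠ m := by
    revert i; decide
  have hC := b2_C_eq s q hlm hjl hjm
  rw [← hC, cj_comm, W_zo s q hm, W_zo s q hl]
  apply comm_inv_inv_of
  · rw [hC]; exact b2_C_Y s q hlm
  · rw [hC]; exact b2_C_Y s q hjl

theorem b2_xx_C {i j : Fin 5} (hij : i ≠ j) :
    cj (s.x (q ^^^ c i ^^^ c j)) (s.C q) = (s.C q)⁻¹ := by
  obtain ⟨k, l, b, hD⟩ := exists_D5_2 hij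
  obtain ⟨-, hik, hil, hib, hjk, hjl, hjb, hkl, hkb, hlb⟩ := hD
  -- `C = ⁅W_{b,i}, W_{k,b}⁆`
  have hC := b2_C_eq s q (l := b) (m := i) (j := k) hib.symm hkb hik.symm
  have hC' := b2_C_eq s q (l := b) (m := i) (j := l) hib.symm hlb hil.symm
  rw [← hC, cj_comm, W_xx_fix s q hjb.symm,
    W_xx_i s q (i := k) (j := l) (s' := i) (t := j) (b := b)
      ⟨hkl, hik.symm, hjk.symm, hkb, hil.symm, hjl.symm, hlb, hij, hib, hjb⟩, hC, ← hC']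
  apply comm_inv_right_of
  rw [hC']; exact b2_C_Y s q hlb

end C

/-! ### `Θ` -/

section Th
variable (s : Sys G) (q : ℕ)

/-- `Θ_m^k` -/
def ThA (m k : Fin 5) : G := cj (s.zo m q) (s.Y (q ^^^ c m) k) * s.Y (q ^^^ c m) k

theorem ThA_k {m k k' : Fin 5} (hk : k ≠ m) (hk' : k' ≠ m) : ThA s q m k = ThA s q m k' := by
  by_cases h : k = k'
  · rw [h]
  obtain ⟨b, j, hb⟩ := exists_D5_3 h hk hk'
  obtain ⟨-, -, hkb, -, -, hkb', -, hmb, -, -⟩ := hb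
  set D := s.Y (q ^^^ c m) k * (s.Y (q ^^^ c m) k')⁻¹ with hDdef
  have hD : D = s.Y (q ^^^ c b) k * (s.Y (q ^^^ c b) k')⁻¹ := W_D_eq s q h hk hk' hkb hkb'
  have hY : s.Y (q ^^^ c m) k = D * s.Y (q ^^^ c m) k' := by rw [hDdef]; group
  have hDinv : cj (s.zo m q) D = D⁻¹ := by
    rw [hD, cj_mul, cj_inv, W_zo s q hmb.symm, W_zo s q hmb.symm, inv_inv, mul_inv_rev, inv_inv]
    exact (b1_Y_comm s _ k k').inv_left.eq
  have hcomm : Commute D (s.Y (q ^^^ c m) k') :=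
    (b1_Y_comm s _ _ _).mul_left (b1_Y_comm s _ _ _).inv_left
  have hcomm2 : Commute D (cj (s.zo m q) (s.Y (q ^^^ c m) k')) := by
    have : Commute D⁻¹ (cj (s.zo m q) (s.Y (q ^^^ c m) k')) := by
      rw [← hDinv, Commute, SemiconjBy, ← cj_mul, ← cj_mul, hcomm.eq]
    exact Commute.inv_left_iff.mp this
  rw [ThA, ThA, hY, cj_mul, hDinv]
  calc D⁻¹ * cj (s.zo m q) (s.Y (q ^^^ c m) k') * (D * s.Y (q ^^^ c m) k')
      = D⁻¹ * (cj (s.zo m q) (s.Y (q ^^^ c m) k') * D) * s.Y (q ^^^ c m) k' := by group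
    _ = D⁻¹ * (D * cj (s.zo m q) (s.Y (q ^^^ c m) k')) * s.Y (q ^^^ c m) k' := by
        rw [hcomm2.eq]
    _ = _ := by group

/-- `Θ_m` commutes with `W_{a,b}` for `b ≠ m` -/
theorem ThA_W {m k a b : Fin 5} (hk : k ≠ m) (hab : a ≠ b) (hb : b ≠ m) :
    Commute (ThA s q m k) (s.Y (q ^^^ c b) a) := by
  have key : ∀ k' : Fin 5, k' ≠ m → Commute (s.Y (q ^^^ c m) k') (s.Y (q ^^^ c b) a) →
      Commute (ThA s q m k) (s.Y (q ^^^ c b) a) := by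
    intro k' hk' hc
    rw [ThA_k s q hk hk', ThA]
    refine Commute.mul_left ?_ hc
    have : Commute (cj (s.zo m q) (s.Y (q ^^^ c m) k')) (cj (s.zo m q) (s.Y (q ^^^ c b) a)) := by
      rw [Commute, SemiconjBy, ← cj_mul, ← cj_mul, hc.eq]
    rw [W_zo s q hb] at this
    exact Commute.inv_right_iff.mp this
  by_cases ham : a = m
  · subst ham
    exact key b hb (W_comm' s q hb)
  · obtain ⟨k', h1, h2⟩ : ∃ k' : Fin 5, k' ≠ b ∧ k' ≠ m := by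
      clear hk hab hb key ham; revert b m; decide
    exact key k' h2 (W_comm_ne s q hb.symm h2 h1 ham hab)

/-- (b) `Θ_m = C⁻¹ W_{m,k} Θ_k⁻¹ W_{m,k}⁻¹`, hence (c) `Θ_m = C⁻¹ Θ_k⁻¹` -/
theorem ThA_mk {m k i : Fin 5} (hkm : k ≠ m) (hik : i ≠ k) (him : i ≠ m) :
    ThA s q m k = (s.C q)⁻¹ * (ThA s q k i)⁻¹ := by
  obtain ⟨j, b, hD⟩ := exists_D5_3 hik him hkm
  obtain ⟨-, -, hij, hib, -, hkj, hkb, hmj, hmb, hjb⟩ := hD
  have hx := s.x_sq (q ^^^ c k ^^^ c m)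
  have eQ : s.Y (q ^^^ c m) k = s.zo k q * s.x (q ^^^ c k ^^^ c m) * s.zo k q *
      s.x (q ^^^ c k ^^^ c m) := by
    rw [Sys.Y, s.zf_c_ne hkm.symm, Sys.xor_swap q m k]
  have eA : s.Y (q ^^^ c k) m = s.zo m q * s.x (q ^^^ c k ^^^ c m) * s.zo m q *
      s.x (q ^^^ c k ^^^ c m) := by
    rw [Sys.Y, s.zf_c_ne hkm]
  have h1 := key_conj (s.x (q ^^^ c k ^^^ c m)) (s.zo k q) (s.zo m q) hx (s.zo_sq _ _)
    (s.zo_sq _ _)
  rw [← eQ, ← eA] at h1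
  -- `x . D`
  have hDm := W_D s q (a := m) (k := k) (b := b) hkm.symm hmb hkb
  have hxD : cj (s.x (q ^^^ c k ^^^ c m)) (s.zo m q * s.zo k q * s.zo m q * s.zo k q) =
      (s.Y (q ^^^ c k) m)⁻¹ * (s.Y (q ^^^ c k) i)⁻¹ * s.Y (q ^^^ c m) i * s.Y (q ^^^ c m) k := by
    rw [hDm, cj_mul, cj_inv]
    have e1 := W_xx_s s q (i := i) (j := j) (s' := m) (t := k) (b := b)
      ⟨hij, him, hik, hib, hmj.symm, hkj.symm, hjb, hkm.symm, hmb, hkb⟩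
    rw [Sys.xor_swap q m k] at e1
    have e2 := W_xx_s s q (i := i) (j := j) (s' := k) (t := m) (b := b)
      ⟨hij, hik, him, hib, hkj.symm, hmj.symm, hjb, hkm, hkb, hmb⟩
    rw [e1, e2]; group
  have hThk : cj (s.zo k q) (s.Y (q ^^^ c k) i) = ThA s q k i * (s.Y (q ^^^ c k) i)⁻¹ := by
    rw [ThA]; group
  have h2 : cj (s.zo k q) (s.Y (q ^^^ c k) m *
      cj (s.x (q ^^^ c k ^^^ c m)) (s.zo m q * s.zo k q * s.zo m q * s.zo k q)) =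
      s.Y (q ^^^ c k) i * (ThA s q k i)⁻¹ * (s.Y (q ^^^ c m) i)⁻¹ * (s.Y (q ^^^ c m) k)⁻¹ := by
    rw [hxD]
    have : s.Y (q ^^^ c k) m * ((s.Y (q ^^^ c k) m)⁻¹ * (s.Y (q ^^^ c k) i)⁻¹ *
        s.Y (q ^^^ c m) i * s.Y (q ^^^ c m) k) =
        (s.Y (q ^^^ c k) i)⁻¹ * s.Y (q ^^^ c m) i * s.Y (q ^^^ c m) k := by group
    rw [this, cj_mul, cj_mul, cj_inv, hThk, W_zo s q hkm.symm, W_zo s q hkm.symm]; group
  rw [h2, hDm] at h1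
  have hDD : s.Y (q ^^^ c b) m * (s.Y (q ^^^ c b) k)⁻¹ =
      s.Y (q ^^^ c k) m * (s.Y (q ^^^ c k) i)⁻¹ * (s.Y (q ^^^ c m) i * (s.Y (q ^^^ c m) k)⁻¹) := by
    rw [W_D_eq s q him.symm hkm.symm hik hmb hib, W_D_eq s q hik him hkm hib hkb]; group
  rw [hDD] at h1
  have hTi : Commute (ThA s q k i) (s.Y (q ^^^ c m) i) := ThA_W s q hik him hkm.symm
  have hTk : Commute (ThA s q k i) (s.Y (q ^^^ c m) k) := ThA_W s q hik hkm hkm.symm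
  have hfin : ThA s q m k = (s.C q)⁻¹ * (s.Y (q ^^^ c k) m * (ThA s q k i)⁻¹ *
      (s.Y (q ^^^ c k) m)⁻¹) := by
    rw [← key_reduce (A := s.Y (q ^^^ c k) m) (B := s.Y (q ^^^ c k) i) (P := s.Y (q ^^^ c m) i)
      (Q := s.Y (q ^^^ c m) k) (T := (ThA s q k i)⁻¹) (C := s.C q)
      (W_comm_ne s q hkm.symm him hik him hik) (b1_Y_comm s _ _ _) hTi.inv_left hTk.inv_left
      (W_comm' s q hkm.symm) (b2_C_eq s q hkm hik him) (b2_C_Y s q hkm.symm) (b2_C_Y s q hik)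
      (b2_C_Y s q hkm)]
    rw [ThA, h1]; group
  have hcomm : Commute (ThA s q m k) (s.Y (q ^^^ c k) m) := ThA_W s q hkm hkm.symm hkm
  have hC : Commute (s.C q) (s.Y (q ^^^ c k) m) := b2_C_Y s q hkm.symm
  calc ThA s q m k = (s.Y (q ^^^ c k) m)⁻¹ * (s.Y (q ^^^ c k) m * ThA s q m k) := by group
    _ = (s.Y (q ^^^ c k) m)⁻¹ * (ThA s q m k * s.Y (q ^^^ c k) m) := by rw [hcomm.eq]
    _ = ((s.Y (q ^^^ c k) m)⁻¹ * (s.C q)⁻¹) * s.Y (q ^^^ c k) m * (ThA s q k i)⁻¹ := by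
        rw [hfin]; group
    _ = ((s.C q)⁻¹ * (s.Y (q ^^^ c k) m)⁻¹) * s.Y (q ^^^ c k) m * (ThA s q k i)⁻¹ := by
        rw [hC.inv_inv.eq]
    _ = _ := by group

theorem ThA_m {m m' k k' : Fin 5} (hk : k ≠ m) (hk' : k' ≠ m') :
    ThA s q m k = ThA s q m' k' := by
  obtain ⟨a, i, ha, ha', hia, him, him'⟩ : ∃ a i : Fin 5, a ≠ m ∧ a ≠ m' ∧ i ≠ a ∧ i ≠ m ∧
      i ≠ m' := by
    clear hk hk'; revert m m'; decide
  rw [ThA_k s q hk ha, ThA_k s q hk' ha', ThA_mk s q ha hia him, ThA_mk s q ha' hia him']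

theorem b2_Th_eq {k m : Fin 5} (hk : k ≠ m) :
    cj (s.zo m q) (s.Y (q ^^^ c m) k) * s.Y (q ^^^ c m) k = s.Th q :=
  ThA_m s q (m := m) (m' := 0) (k := k) (k' := 1) hk (by decide)

theorem b2_Th_Y {a b : Fin 5} (hab : a ≠ b) : Commute (s.Th q) (s.Y (q ^^^ c b) a) := by
  obtain ⟨m, k, hm, hk⟩ : ∃ m k : Fin 5, b ≠ m ∧ k ≠ m := by
    clear hab; revert b; decide
  rw [← b2_Th_eq s q hk]
  exact ThA_W s q hk hab hm

theorem b2_Th_sq : s.Th q * s.Th q = (s.C q)⁻¹ := by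
  have h := ThA_mk s q (m := 0) (k := 1) (i := 2) (by decide) (by decide) (by decide)
  rw [ThA, b2_Th_eq s q (by decide : (1 : Fin 5) ≠ 0), ThA,
    b2_Th_eq s q (by decide : (2 : Fin 5) ≠ 1)] at h
  calc s.Th q * s.Th q = (s.C q)⁻¹ * (s.Th q)⁻¹ * s.Th q := by rw [← h]
    _ = _ := by group

theorem b2_x_Th : cj (s.x q) (s.Th q) = s.Th q := by
  have h1 : cj (s.x q) (cj (s.zo 0 q) (s.Y (q ^^^ c 0) 1)) = cj (s.zo 0 q) (s.Y (q ^^^ c 0) 1) := by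
    rw [← mul_cj, ← s.zo_x, mul_cj, W_x s q (by decide)]
  rw [Sys.Th, cj_mul, h1, W_x s q (by decide)]

/-- the two factors of `Θ` commute -/
theorem Th_factors {k m : Fin 5} (hk : k ≠ m) :
    Commute (cj (s.zo m q) (s.Y (q ^^^ c m) k)) (s.Y (q ^^^ c m) k) := by
  have h := b2_Th_Y s q hk
  rw [← b2_Th_eq s q hk] at h
  have h' : cj (s.zo m q) (s.Y (q ^^^ c m) k) = (cj (s.zo m q) (s.Y (q ^^^ c m) k) *
      s.Y (q ^^^ c m) k) * (s.Y (q ^^^ c m) k)⁻¹ := by group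
  rw [h']
  exact h.mul_left (Commute.refl _).inv_left

theorem b2_zo_Th (i : Fin 5) : cj (s.zo i q) (s.Th q) = s.Th q := by
  obtain ⟨k, hk⟩ : ∃ k : Fin 5, k ≠ i := by revert i; decide
  rw [← b2_Th_eq s q hk, cj_mul, s.cj_zo_zo, (Th_factors s q hk).eq]

theorem b2_xx_Th {i j : Fin 5} (hij : i ≠ j) :
    cj (s.x (q ^^^ c i ^^^ c j)) (s.Th q) = (s.Th q)⁻¹ := by
  obtain ⟨k, l, m, hD⟩ := exists_D5_2 hij
  obtain ⟨-, hik, hil, him, hjk, hjl, hjm, hkl, hkm, hlm⟩ := hD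
  have hz : s.zo m (q ^^^ c i ^^^ c j) = s.zo m q := by
    rw [s.zo_c_ne hjm, s.zf_c_ne him]
  have hzx : s.zo m q * s.x (q ^^^ c i ^^^ c j) = s.x (q ^^^ c i ^^^ c j) * s.zo m q := by
    have := s.zo_x m (q ^^^ c i ^^^ c j)
    rwa [hz] at this
  have hW := W_xx_i s q (i := k) (j := l) (s' := i) (t := j) (b := m)
    ⟨hkl, hik.symm, hjk.symm, hkm, hil.symm, hjl.symm, hlm, hij, him, hjm⟩
  rw [← b2_Th_eq s q hkm, cj_mul, ← mul_cj, ← hzx, mul_cj, hW, b2_Th_eq s q hkm,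
    ← b2_Th_eq s q hlm, mul_inv_rev, ← (Th_factors s q hlm).inv_inv.eq, cj_inv]

end Th

theorem base2 (s : Sys G) (_ : Base1 s) : Base2 s where
  C_eq q _ _ _ h1 h2 h3 := b2_C_eq s q h1 h2 h3
  C_Y q _ _ h := b2_C_Y s q h
  x_C q := b2_x_C s q
  xx_C q _ _ h := b2_xx_C s q h
  zo_C q i := b2_zo_C s q i
  Th_eq q _ _ h := b2_Th_eq s q h
  Th_Y q _ _ h := b2_Th_Y s q h
  x_Th q := b2_x_Th s q
  xx_Th q _ _ h := b2_xx_Th s q h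
  zo_Th q i := b2_zo_Th s q i
  Th_sq q := b2_Th_sq s q

end MPf02039
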