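import Mathlib

/-!
MP_f02039_co, counterexample `Γ(4,0,0,0)` is finite: basic definitions.

Vertices are masks `p : ℕ` (only the four low bits matter), the five directions are `Fin 5`,
`c 0 = 1, c 1 = 2, c 2 = 4, c 3 = 8, c 4 = 15` (so the xor of all five is `0`).
-/

namespace MPf02039

open scoped commutatorElement

/-- The five translation vectors. -/
def c : Fin 5 → ℕ
  | 0 => 1
  | 1 => 2
  | 2 => 4
  | 3 => 8
  | 4 => 15

/-- The cusp of direction `i` containing the vertex `p` (parity of the bits different from `i`). -/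
def ep (i : Fin 5) (p : ℕ) : Bool :=
  (p.testBit 0 && decide (i ≠ 0)) ^^ ((p.testBit 1 && decide (i ≠ 1)) ^^
    ((p.testBit 2 && decide (i ≠ 2)) ^^ (p.testBit 3 && decide (i ≠ 3))))

/-- `i, j, k, l, m` are the five directions in some order. -/
def D5 (i j k l m : Fin 5) : Prop :=
  i ≠ j ∧ i ≠ k ∧ i ≠ l ∧ i ≠ m ∧ j ≠ k ∧ j ≠ l ∧ j ≠ m ∧ k ≠ l ∧ k ≠ m ∧ l ≠ m

instance (i j k l m : Fin 5) : Decidable (D5 i j k l m) := by unfold D5; infer_instance

/-- Conjugation. -/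
def cj {G : Type*} [Group G] (g h : G) : G := g * h * g⁻¹

/-- The relations of the group `G`. -/
structure Sys (G : Type*) [Group G] where
  x : ℕ → G
  z : Fin 5 → Bool → G
  x_mod : ∀ p, x (p % 16) = x p
  x_sq : ∀ p, x p * x p = 1
  x_comm : ∀ (p : ℕ) (i j : Fin 5), i ≠ j →
    x p * x (p ^^^ c i ^^^ c j) = x (p ^^^ c i ^^^ c j) * x p
  x_z : ∀ (p : ℕ) (i : Fin 5), x p * x (p ^^^ c i) * x p * x (p ^^^ c i) = z i (ep i p)
  z_sq : ∀ i e, z i e * z i e = 1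

variable {G : Type*} [Group G]

/-! ### bits -/

theorem ep_xor (i : Fin 5) (a b : ℕ) : ep i (a ^^^ b) = (ep i a ^^ ep i b) := by
  simp only [ep, Nat.testBit_xor]
  cases a.testBit 0 <;> cases a.testBit 1 <;> cases a.testBit 2 <;> cases a.testBit 3 <;>
    cases b.testBit 0 <;> cases b.testBit 1 <;> cases b.testBit 2 <;> cases b.testBit 3 <;>
    fin_cases i <;> rfl

theorem ep_c (i j : Fin 5) : ep i (c j) = decide (j ≠ i) := by
  revert i j; decide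

theorem ep_zero (i : Fin 5) : ep i 0 = false := by
  revert i; decide

theorem ep_xor_c (i j : Fin 5) (p : ℕ) : ep i (p ^^^ c j) = (ep i p ^^ decide (j ≠ i)) := by
  rw [ep_xor, ep_c]

theorem xor_cancel (a b : ℕ) : a ^^^ b ^^^ b = a := by
  rw [Nat.xor_assoc, Nat.xor_self, Nat.xor_zero]

theorem c_sum (i j k l m : Fin 5) (h : D5 i j k l m) : c i ^^^ c j ^^^ c k ^^^ c l ^^^ c m = 0 := by
  revert i j k l m; decide

/-- `o + c_i + c_j = o + c_k + c_l + c_m` -/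
theorem c_two (o : ℕ) (i j k l m : Fin 5) (h : D5 i j k l m) :
    o ^^^ c k ^^^ c l ^^^ c m = o ^^^ c i ^^^ c j := by
  have h1 := c_sum i j k l m h
  have h2 : c k ^^^ c l ^^^ c m = c i ^^^ c j := by
    have : c i ^^^ c j ^^^ (c i ^^^ c j ^^^ c k ^^^ c l ^^^ c m) = c k ^^^ c l ^^^ c m := by
      rw [Nat.xor_assoc (c i ^^^ c j), Nat.xor_assoc (c i ^^^ c j), ← Nat.xor_assoc (c i ^^^ c j),
        Nat.xor_self, Nat.zero_xor, Nat.xor_assoc]
    rw [← this, h1, Nat.xor_zero]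
  rw [Nat.xor_assoc, Nat.xor_assoc, Nat.xor_assoc, ← Nat.xor_assoc (c k), h2]

/-! ### transport -/

/-- Action of a permutation of the directions on masks. -/
def fp (σ : Equiv.Perm (Fin 5)) (p : ℕ) : ℕ :=
  (if p.testBit 0 then c (σ 0) else 0) ^^^ ((if p.testBit 1 then c (σ 1) else 0) ^^^
    ((if p.testBit 2 then c (σ 2) else 0) ^^^ (if p.testBit 3 then c (σ 3) else 0)))

theorem fp_xor (σ : Equiv.Perm (Fin 5)) (a b : ℕ) : fp σ (a ^^^ b) = fp σ a ^^^ fp σ b := by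
  have key : ∀ (u v : Bool) (n : ℕ), (if (u ^^ v) = true then n else 0) =
      (if u = true then n else 0) ^^^ (if v = true then n else 0) := by
    intro u v n; cases u <;> cases v <;> simp
  simp only [fp, Nat.testBit_xor, key]
  generalize (if a.testBit 0 = true then c (σ 0) else 0) = a0
  generalize (if a.testBit 1 = true then c (σ 1) else 0) = a1
  generalize (if a.testBit 2 = true then c (σ 2) else 0) = a2
  generalize (if a.testBit 3 = true then c (σ 3) else 0) = a3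
  generalize (if b.testBit 0 = true then c (σ 0) else 0) = b0
  generalize (if b.testBit 1 = true then c (σ 1) else 0) = b1
  generalize (if b.testBit 2 = true then c (σ 2) else 0) = b2
  generalize (if b.testBit 3 = true then c (σ 3) else 0) = b3
  ac_rfl

theorem fp_c (σ : Equiv.Perm (Fin 5)) (i : Fin 5) : fp σ (c i) = c (σ i) := by
  have hD : D5 (σ 4) (σ 0) (σ 1) (σ 2) (σ 3) := by
    refine ⟨?_, ?_, ?_, ?_, ?_, ?_, ?_, ?_, ?_, ?_⟩ <;>
      exact fun h => absurd (σ.injective h) (by decide)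
  have h4 : c (σ 0) ^^^ (c (σ 1) ^^^ (c (σ 2) ^^^ c (σ 3))) = c (σ 4) := by
    have h := c_sum _ _ _ _ _ hD
    have h' : c (σ 4) ^^^ (c (σ 4) ^^^ c (σ 0) ^^^ c (σ 1) ^^^ c (σ 2) ^^^ c (σ 3)) =
        c (σ 0) ^^^ (c (σ 1) ^^^ (c (σ 2) ^^^ c (σ 3))) := by
      simp only [Nat.xor_assoc]
      rw [← Nat.xor_assoc, Nat.xor_self, Nat.zero_xor]
    rw [← h', h, Nat.xor_zero]
  fin_cases i
  · simp [fp, c, Nat.testBit]
  · simp [fp, c, Nat.testBit]
  · simp [fp, c, Nat.testBit]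
  · simp [fp, c, Nat.testBit]
  · have : fp σ 15 = c (σ 0) ^^^ (c (σ 1) ^^^ (c (σ 2) ^^^ c (σ 3))) := by
      simp [fp, Nat.testBit]
    simpa [c] using this.trans h4

theorem ep_fp (σ : Equiv.Perm (Fin 5)) (i : Fin 5) (p : ℕ) : ep (σ i) (fp σ p) = ep i p := by
  have key : ∀ (u : Bool) (j : Fin 5), ep (σ i) (if u = true then c (σ j) else 0) =
      (u && decide (i ≠ j)) := by
    intro u j
    cases u
    · simp [ep_zero]
    · simp only [↓reduceIte, ep_c, Bool.true_and]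
      have : (σ j ≠ σ i) ↔ (i ≠ j) := by
        rw [ne_eq, ne_eq, σ.injective.eq_iff]; exact ⟨fun h => Ne.symm h, fun h => Ne.symm h⟩
      simp only [this]
  simp only [fp, ep_xor, key]
  rfl

theorem testBit_mod16 (p : ℕ) (b : ℕ) (hb : b < 4) : (p % 16).testBit b = p.testBit b := by
  rw [show (16 : ℕ) = 2 ^ 4 from rfl, Nat.testBit_mod_two_pow]
  simp [hb]

theorem fp_mod (σ : Equiv.Perm (Fin 5)) (p : ℕ) : fp σ (p % 16) = fp σ p := by
  simp only [fp, testBit_mod16 p 0 (by decide), testBit_mod16 p 1 (by decide),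
    testBit_mod16 p 2 (by decide), testBit_mod16 p 3 (by decide)]

theorem ep_mod (i : Fin 5) (p : ℕ) : ep i (p % 16) = ep i p := by
  simp only [ep, testBit_mod16 p 0 (by decide), testBit_mod16 p 1 (by decide),
    testBit_mod16 p 2 (by decide), testBit_mod16 p 3 (by decide)]

/-- Transport of a system by the automorphism `p ↦ σ p + t`. -/
def Sys.T (s : Sys G) (σ : Equiv.Perm (Fin 5)) (t : ℕ) : Sys G where
  x p := s.x (fp σ p ^^^ t)
  z i e := s.z (σ i) (e ^^ ep (σ i) t)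
  x_mod p := by rw [fp_mod]
  x_sq p := s.x_sq _
  x_comm p i j hij := by
    have h : fp σ (p ^^^ c i ^^^ c j) ^^^ t = (fp σ p ^^^ t) ^^^ c (σ i) ^^^ c (σ j) := by
      rw [fp_xor, fp_xor, fp_c, fp_c]; ac_rfl
    rw [h]
    exact s.x_comm _ _ _ (fun h => hij (σ.injective h))
  x_z p i := by
    have h : fp σ (p ^^^ c i) ^^^ t = (fp σ p ^^^ t) ^^^ c (σ i) := by
      rw [fp_xor, fp_c]; ac_rfl
    rw [h, s.x_z, ep_xor, ep_fp]
  z_sq i e := s.z_sq _ _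

/-- Image of a system under a homomorphism. -/
def Sys.map {H : Type*} [Group H] (s : Sys G) (f : G →* H) : Sys H where
  x p := f (s.x p)
  z i e := f (s.z i e)
  x_mod p := by rw [s.x_mod]
  x_sq p := by rw [← map_mul, s.x_sq, map_one]
  x_comm p i j hij := by rw [← map_mul, s.x_comm p i j hij, map_mul]
  x_z p i := by rw [← map_mul, ← map_mul, ← map_mul, s.x_z]
  z_sq i e := by rw [← map_mul, s.z_sq, map_one]

/-! ### the named elements -/

/-- the cusp of direction `i` not containing `o` (a cusp of the frame `o`) -/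
def Sys.zf (s : Sys G) (i : Fin 5) (o : ℕ) : G := s.z i (!ep i o)

/-- the cusp of direction `i` containing `o` (opposite to the cusp of the frame `o`) -/
def Sys.zo (s : Sys G) (i : Fin 5) (o : ℕ) : G := s.z i (ep i o)

/-- `Y_i` of the frame `o` -/
def Sys.Y (s : Sys G) (o : ℕ) (i : Fin 5) : G :=
  s.zf i o * s.x (o ^^^ c i) * s.zf i o * s.x (o ^^^ c i)

/-- `Θ_q` -/
def Sys.Th (s : Sys G) (q : ℕ) : G :=
  cj (s.zo 0 q) (s.Y (q ^^^ c 0) 1) * s.Y (q ^^^ c 0) 1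

/-- `C_q = [Y_0(q+c_1), Y_2(q+c_0)]` -/
def Sys.C (s : Sys G) (q : ℕ) : G := ⁅s.Y (q ^^^ c 1) 0, s.Y (q ^^^ c 0) 2⁆

/-- `δ_o = [Y_0(o), Θ_{o+c_0}]` -/
def Sys.dl (s : Sys G) (o : ℕ) : G := ⁅s.Y o 0, s.Th (o ^^^ c 0)⁆

/-- `Ξ_ij` of the frame `o` -/
def Sys.Xi (s : Sys G) (o : ℕ) (i j : Fin 5) : G :=
  s.dl o * (cj (s.x (o ^^^ c i ^^^ c j)) (s.dl o))⁻¹

@[simp] theorem T_x (s : Sys G) (σ : Equiv.Perm (Fin 5)) (t p : ℕ) :
    (s.T σ t).x p = s.x (fp σ p ^^^ t) := rfl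

theorem T_zo (s : Sys G) (σ : Equiv.Perm (Fin 5)) (t : ℕ) (i : Fin 5) (o : ℕ) :
    (s.T σ t).zo i o = s.zo (σ i) (fp σ o ^^^ t) := by
  simp only [Sys.zo, Sys.T, ep_xor, ep_fp]

theorem T_zf (s : Sys G) (σ : Equiv.Perm (Fin 5)) (t : ℕ) (i : Fin 5) (o : ℕ) :
    (s.T σ t).zf i o = s.zf (σ i) (fp σ o ^^^ t) := by
  simp only [Sys.zf, Sys.T, ep_xor, ep_fp, Bool.not_xor]

theorem T_Y (s : Sys G) (σ : Equiv.Perm (Fin 5)) (t : ℕ) (o : ℕ) (i : Fin 5) :
    (s.T σ t).Y o i = s.Y (fp σ o ^^^ t) (σ i) := by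
  have h : fp σ (o ^^^ c i) ^^^ t = (fp σ o ^^^ t) ^^^ c (σ i) := by
    rw [fp_xor, fp_c]; ac_rfl
  simp only [Sys.Y, T_zf, T_x, h]

section map
variable {H : Type*} [Group H] (s : Sys G) (f : G →* H)

@[simp] theorem map_x (p : ℕ) : (s.map f).x p = f (s.x p) := rfl
@[simp] theorem map_z (i : Fin 5) (e : Bool) : (s.map f).z i e = f (s.z i e) := rfl
theorem map_cj (g h : G) : f (cj g h) = cj (f g) (f h) := by simp [cj]
@[simp] theorem map_zf (i : Fin 5) (o : ℕ) : (s.map f).zf i o = f (s.zf i o) := rfl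
@[simp] theorem map_zo (i : Fin 5) (o : ℕ) : (s.map f).zo i o = f (s.zo i o) := rfl
@[simp] theorem map_Y (o : ℕ) (i : Fin 5) : (s.map f).Y o i = f (s.Y o i) := by
  simp only [Sys.Y, map_mul, map_zf, map_x]
@[simp] theorem map_Th (q : ℕ) : (s.map f).Th q = f (s.Th q) := by
  simp only [Sys.Th, map_mul, map_zo, map_Y, map_cj]
@[simp] theorem map_C (q : ℕ) : (s.map f).C q = f (s.C q) := by
  simp only [Sys.C, map_Y, map_commutatorElement]
@[simp] theorem map_dl (o : ℕ) : (s.map f).dl o = f (s.dl o) := by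
  simp only [Sys.dl, map_Y, map_Th, map_commutatorElement]
@[simp] theorem map_Xi (o : ℕ) (i j : Fin 5) : (s.map f).Xi o i j = f (s.Xi o i j) := by
  simp only [Sys.Xi, map_dl, map_mul, map_inv, map_cj, map_x]
end map

/-! ### conjugation calculus -/

section cj
variable (g h a b : G)

@[simp] theorem cj_one : cj g (1 : G) = 1 := by simp [cj]
@[simp] theorem one_cj : cj (1 : G) a = a := by simp [cj]
theorem cj_mul : cj g (a * b) = cj g a * cj g b := by simp [cj]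
theorem cj_inv : cj g a⁻¹ = (cj g a)⁻¹ := by simp [cj, mul_assoc]
theorem cj_pow (n : ℕ) : cj g (a ^ n) = cj g a ^ n := by simp [cj]
theorem cj_zpow (n : ℤ) : cj g (a ^ n) = cj g a ^ n := by simp [cj]
theorem mul_cj : cj (g * h) a = cj g (cj h a) := by simp [cj, mul_assoc]
theorem cj_cj : cj g (cj h a) = cj (g * h) a := by simp [cj, mul_assoc]
theorem cj_comm : cj g ⁅a, b⁆ = ⁅cj g a, cj g b⁆ := by
  simp only [commutatorElement_def, cj_mul, cj_inv]
theorem cj_eq_self_iff : cj g a = a ↔ g * a = a * g := by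
  rw [cj, mul_inv_eq_iff_eq_mul]
theorem cj_self : cj g g = g := by simp [cj]
theorem inv_cj_cj : cj g⁻¹ (cj g a) = a := by simp [cj, mul_assoc]
theorem cj_inv_cj : cj g (cj g⁻¹ a) = a := by simp [cj, mul_assoc]
theorem cj_injective : Function.Injective (cj g) := fun u v h => by
  have := congrArg (cj g⁻¹) h
  rwa [inv_cj_cj, inv_cj_cj] at this
end cj

end MPf02039

namespace MPf02039

variable {G : Type*} [Group G]

/-! ### evaluation of the transport at the sixteen masks -/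

section num
variable (σ : Equiv.Perm (Fin 5)) (t : ℕ)

theorem fp_zero : fp σ 0 = 0 := by simp [fp]
theorem fT0 : fp σ 0 ^^^ t = t := by rw [fp_zero, Nat.zero_xor]
theorem fTc1 (i : Fin 5) : fp σ (c i) ^^^ t = t ^^^ c (σ i) := by rw [fp_c, Nat.xor_comm]
theorem fT1 : fp σ 1 ^^^ t = t ^^^ c (σ 0) := fTc1 σ t 0
theorem fT2 : fp σ 2 ^^^ t = t ^^^ c (σ 1) := fTc1 σ t 1
theorem fT4 : fp σ 4 ^^^ t = t ^^^ c (σ 2) := fTc1 σ t 2
theorem fT8 : fp σ 8 ^^^ t = t ^^^ c (σ 3) := fTc1 σ t 3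
theorem fT15 : fp σ 15 ^^^ t = t ^^^ c (σ 4) := fTc1 σ t 4
theorem fTc2 (i j : Fin 5) : fp σ (c i ^^^ c j) ^^^ t = t ^^^ c (σ i) ^^^ c (σ j) := by
  rw [fp_xor, fp_c, fp_c, Nat.xor_comm, Nat.xor_assoc]
theorem fT3 : fp σ 3 ^^^ t = t ^^^ c (σ 0) ^^^ c (σ 1) := fTc2 σ t 0 1
theorem fT5 : fp σ 5 ^^^ t = t ^^^ c (σ 0) ^^^ c (σ 2) := fTc2 σ t 0 2
theorem fT9 : fp σ 9 ^^^ t = t ^^^ c (σ 0) ^^^ c (σ 3) := fTc2 σ t 0 3
theorem fT14 : fp σ 14 ^^^ t = t ^^^ c (σ 0) ^^^ c (σ 4) := fTc2 σ t 0 4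
theorem fT6 : fp σ 6 ^^^ t = t ^^^ c (σ 1) ^^^ c (σ 2) := fTc2 σ t 1 2
theorem fT10 : fp σ 10 ^^^ t = t ^^^ c (σ 1) ^^^ c (σ 3) := fTc2 σ t 1 3
theorem fT13 : fp σ 13 ^^^ t = t ^^^ c (σ 1) ^^^ c (σ 4) := fTc2 σ t 1 4
theorem fT12 : fp σ 12 ^^^ t = t ^^^ c (σ 2) ^^^ c (σ 3) := fTc2 σ t 2 3
theorem fT11 : fp σ 11 ^^^ t = t ^^^ c (σ 2) ^^^ c (σ 4) := fTc2 σ t 2 4
theorem fT7 : fp σ 7 ^^^ t = t ^^^ c (σ 3) ^^^ c (σ 4) := fTc2 σ t 3 4
end num

theorem exists_perm5 {i j k l m : Fin 5} (h : D5 i j k l m) :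
    ∃ σ : Equiv.Perm (Fin 5), σ 0 = i ∧ σ 1 = j ∧ σ 2 = k ∧ σ 3 = l ∧ σ 4 = m := by
  have hinj : Function.Injective ![i, j, k, l, m] := by
    obtain ⟨h1, h2, h3, h4, h5, h6, h7, h8, h9, h10⟩ := h
    intro a b hab
    fin_cases a <;> fin_cases b <;> simp_all [eq_comm]
  refine ⟨Equiv.ofBijective _ (Finite.injective_iff_bijective.mp hinj), rfl, rfl, rfl, rfl, rfl⟩

theorem exists_D5_1 (i : Fin 5) : ∃ j k l m, D5 i j k l m := by
  revert i; decide

theorem exists_D5_2 {i j : Fin 5} (h : i ≠ j) : ∃ k l m, D5 i j k l m := by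
  revert i j; decide

theorem exists_D5_3 {i j k : Fin 5} (h1 : i ≠ j) (h2 : i ≠ k) (h3 : j ≠ k) :
    ∃ l m, D5 i j k l m := by
  revert i j k; decide

theorem exists_D5_4 {i j k l : Fin 5} (h1 : i ≠ j) (h2 : i ≠ k) (h3 : i ≠ l) (h4 : j ≠ k)
    (h5 : j ≠ l) (h6 : k ≠ l) : ∃ m, D5 i j k l m := by
  revert i j k l; decide

theorem xor_mod (a b : ℕ) : (a ^^^ b) % 16 = (a % 16) ^^^ (b % 16) := by
  apply Nat.eq_of_testBit_eq
  intro i
  rw [show (16 : ℕ) = 2 ^ 4 from rfl]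
  simp only [Nat.testBit_mod_two_pow, Nat.testBit_xor]
  by_cases h : i < 4 <;> simp [h]

theorem c_mod (i : Fin 5) : c i % 16 = c i := by revert i; decide

theorem xor_c_mod (a : ℕ) (i : Fin 5) : (a ^^^ c i) % 16 = (a % 16) ^^^ c i := by
  rw [xor_mod, c_mod]

/-- every vertex is (mod 16) one of `o`, `o + c_i`, `o + c_i + c_j` -/
theorem mod_cases (o p : ℕ) : p % 16 = o % 16 ∨ (∃ i, p % 16 = (o ^^^ c i) % 16) ∨
    ∃ i j, i ≠ j ∧ p % 16 = (o ^^^ c i ^^^ c j) % 16 := by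
  have key : ∀ a b : Fin 16, b.val = a.val ∨ (∃ i, b.val = a.val ^^^ c i) ∨
      ∃ i j, i ≠ j ∧ b.val = a.val ^^^ c i ^^^ c j := by decide
  have h := key ⟨o % 16, Nat.mod_lt _ (by norm_num)⟩ ⟨p % 16, Nat.mod_lt _ (by norm_num)⟩
  simp only [xor_c_mod]
  exact h

namespace Sys
variable (s : Sys G)

theorem x_congr {p q : ℕ} (h : p % 16 = q % 16) : s.x p = s.x q := by
  rw [← s.x_mod p, ← s.x_mod q, h]

theorem zf_congr (i : Fin 5) {p q : ℕ} (h : p % 16 = q % 16) : s.zf i p = s.zf i q := by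
  simp only [zf]; rw [← ep_mod i p, ← ep_mod i q, h]

theorem zo_congr (i : Fin 5) {p q : ℕ} (h : p % 16 = q % 16) : s.zo i p = s.zo i q := by
  simp only [zo]; rw [← ep_mod i p, ← ep_mod i q, h]

theorem congr_c {p q : ℕ} (h : p % 16 = q % 16) (i : Fin 5) :
    (p ^^^ c i) % 16 = (q ^^^ c i) % 16 := by rw [xor_c_mod, xor_c_mod, h]

theorem Y_congr (i : Fin 5) {p q : ℕ} (h : p % 16 = q % 16) : s.Y p i = s.Y q i := by
  simp only [Y, s.zf_congr i h, s.x_congr (congr_c h i)]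

theorem Th_congr {p q : ℕ} (h : p % 16 = q % 16) : s.Th p = s.Th q := by
  simp only [Th, s.zo_congr 0 h, s.Y_congr 1 (congr_c h 0)]

theorem C_congr {p q : ℕ} (h : p % 16 = q % 16) : s.C p = s.C q := by
  simp only [C, s.Y_congr 0 (congr_c h 1), s.Y_congr 2 (congr_c h 0)]

theorem dl_congr {p q : ℕ} (h : p % 16 = q % 16) : s.dl p = s.dl q := by
  simp only [dl, s.Y_congr 0 h, s.Th_congr (congr_c h 0)]

theorem Xi_congr (i j : Fin 5) {p q : ℕ} (h : p % 16 = q % 16) : s.Xi p i j = s.Xi q i j := by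
  simp only [Xi, s.dl_congr h, s.x_congr (congr_c (congr_c h i) j)]

/-! cusps of the neighbouring frames -/

theorem zf_c_self (i : Fin 5) (o : ℕ) : s.zf i (o ^^^ c i) = s.zf i o := by
  simp [zf, ep_xor_c]
theorem zo_c_self (i : Fin 5) (o : ℕ) : s.zo i (o ^^^ c i) = s.zo i o := by
  simp [zo, ep_xor_c]
theorem zf_c_ne {i j : Fin 5} (h : j ≠ i) (o : ℕ) : s.zf i (o ^^^ c j) = s.zo i o := by
  simp [zf, zo, ep_xor_c, h]
theorem zo_c_ne {i j : Fin 5} (h : j ≠ i) (o : ℕ) : s.zo i (o ^^^ c j) = s.zf i o := by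
  simp [zf, zo, ep_xor_c, h]

theorem x_inv (p : ℕ) : (s.x p)⁻¹ = s.x p := inv_eq_of_mul_eq_one_left (s.x_sq p)
theorem z_inv (i : Fin 5) (e : Bool) : (s.z i e)⁻¹ = s.z i e :=
  inv_eq_of_mul_eq_one_left (s.z_sq i e)
theorem zf_inv (i : Fin 5) (o : ℕ) : (s.zf i o)⁻¹ = s.zf i o := s.z_inv _ _
theorem zo_inv (i : Fin 5) (o : ℕ) : (s.zo i o)⁻¹ = s.zo i o := s.z_inv _ _
theorem zf_sq (i : Fin 5) (o : ℕ) : s.zf i o * s.zf i o = 1 := s.z_sq _ _
theorem zo_sq (i : Fin 5) (o : ℕ) : s.zo i o * s.zo i o = 1 := s.z_sq _ _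
theorem x_zo (p : ℕ) (i : Fin 5) :
    s.x p * s.x (p ^^^ c i) * s.x p * s.x (p ^^^ c i) = s.zo i p := s.x_z p i
theorem cj_x_x (p : ℕ) (a : G) : cj (s.x p) (cj (s.x p) a) = a := by
  rw [← mul_cj, s.x_sq, one_cj]
theorem cj_zf_zf (i : Fin 5) (o : ℕ) (a : G) : cj (s.zf i o) (cj (s.zf i o) a) = a := by
  rw [← mul_cj, s.zf_sq, one_cj]
theorem cj_zo_zo (i : Fin 5) (o : ℕ) (a : G) : cj (s.zo i o) (cj (s.zo i o) a) = a := by
  rw [← mul_cj, s.zo_sq, one_cj]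

/-- `x_p` commutes with the cusps containing `p` -/
theorem zo_x (i : Fin 5) (p : ℕ) : s.zo i p * s.x p = s.x p * s.zo i p := by
  have h := s.x_zo p i
  have h2 := s.zo_sq i p
  have hx := s.x_sq p
  have hy := s.x_sq (p ^^^ c i)
  have e1 : s.x p * s.zo i p * s.x p = (s.zo i p)⁻¹ := by
    rw [← h]
    simp only [mul_inv_rev, s.x_inv, mul_assoc]
    rw [← mul_assoc (s.x p) (s.x p), hx, one_mul]
  rw [s.zo_inv] at e1
  have e2 : s.x p * (s.x p * s.zo i p * s.x p) = s.x p * s.zo i p := by rw [e1]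
  rw [← e2, ← mul_assoc, ← mul_assoc, hx, one_mul]

end Sys

end MPf02039
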