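import Mathlib

/-!
Finiteness lemmas for groups: Dietzmann's lemma and consequences.
`FC t` : the element `t` has finitely many conjugates.
-/

namespace Pool.Agent.Lib.MP_f02039_co.Diet

open Subgroup
open scoped commutatorElement

variable {G : Type*} [Group G]

/-- `t` has finitely many conjugates. -/
def FC (t : G) : Prop := (Set.range fun g : G => g * t * g⁻¹).Finite

theorem FC.conj {t : G} (h : FC t) (a : G) : FC (a * t * a⁻¹) := by
  refine h.subset ?_
  rintro _ ⟨g, rfl⟩
  exact ⟨g * a, by simp [mul_assoc]⟩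

theorem FC.map {G' : Type*} [Group G'] {t : G} (h : FC t) (f : G →* G')
    (hf : Function.Surjective f) : FC (f t) := by
  refine (h.image f).subset ?_
  rintro _ ⟨g, rfl⟩
  obtain ⟨a, rfl⟩ := hf g
  exact ⟨a * t * a⁻¹, ⟨a, rfl⟩, by simp⟩

theorem FC.finiteIndex {t : G} (h : FC t) : (centralizer {t}).FiniteIndex := by
  have : Finite (Set.range fun g : G => g * t * g⁻¹) := h
  have hfin : Finite (G ⧸ centralizer {t}) := by
    refine Finite.of_injective
      (fun q : G ⧸ centralizer {t} =>
        (⟨q.out * t * q.out⁻¹, ⟨q.out, rfl⟩⟩ : Set.range fun g : G => g * t * g⁻¹)) ?_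
    intro q q' hq
    have h1 : q.out * t * q.out⁻¹ = q'.out * t * q'.out⁻¹ := congrArg Subtype.val hq
    rw [← q.out_eq', ← q'.out_eq', QuotientGroup.eq, mem_centralizer_singleton_iff]
    have h2 : q.out⁻¹ * (q.out * t * q.out⁻¹) * q'.out
        = q.out⁻¹ * (q'.out * t * q'.out⁻¹) * q'.out := by rw [h1]
    simp only [mul_assoc, inv_mul_cancel_left, inv_mul_cancel, mul_one] at h2
    simp only [mul_assoc]
    exact h2.symm
  exact finiteIndex_of_finite_quotient

theorem FC.of_finiteIndex {t : G} (h : (centralizer {t}).FiniteIndex) : FC t := by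
  have : Finite (G ⧸ centralizer {t}) := inferInstance
  refine (Set.finite_range fun q : G ⧸ centralizer {t} => q.out * t * q.out⁻¹).subset ?_
  rintro _ ⟨g, rfl⟩
  refine ⟨(QuotientGroup.mk g : G ⧸ centralizer {t}), ?_⟩
  have h1 : ((QuotientGroup.mk g : G ⧸ centralizer {t}).out)⁻¹ * g ∈ centralizer {t} := by
    rw [← QuotientGroup.eq]
    exact Quotient.out_eq' _
  rw [mem_centralizer_singleton_iff] at h1
  have h2 : g * t = (QuotientGroup.mk g : G ⧸ centralizer {t}).out * t *
      ((QuotientGroup.mk g : G ⧸ centralizer {t}).out)⁻¹ * g := by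
    calc g * t = (QuotientGroup.mk g : G ⧸ centralizer {t}).out *
          (((QuotientGroup.mk g : G ⧸ centralizer {t}).out)⁻¹ * g * t) := by group
      _ = _ := by rw [h1]; group
  show _ = g * t * g⁻¹
  rw [h2]; group

/-- If a subgroup of finite index maps a finite set into itself by conjugation, then the elements
of this set have finitely many conjugates. -/
theorem FC.of_stable {T : Set G} (hT : T.Finite) (H : Subgroup G) (hH : H.FiniteIndex)
    (hst : ∀ h ∈ H, ∀ t ∈ T, h * t * h⁻¹ ∈ T) {t : G} (ht : t ∈ T) : FC t := by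
  have : Finite (G ⧸ H) := inferInstance
  have hfin : (⋃ q : G ⧸ H, (fun s => q.out * s * q.out⁻¹) '' T).Finite :=
    Set.finite_iUnion fun q => hT.image _
  refine hfin.subset ?_
  rintro _ ⟨g, rfl⟩
  rw [Set.mem_iUnion]
  refine ⟨(QuotientGroup.mk g : G ⧸ H), ?_⟩
  have h1 : ((QuotientGroup.mk g : G ⧸ H).out)⁻¹ * g ∈ H := by
    rw [← QuotientGroup.eq]
    exact Quotient.out_eq' _
  refine ⟨_, hst _ h1 t ht, ?_⟩
  show _ = g * t * g⁻¹
  group

/-- Finite index from the centralizer of a set of generators. -/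
theorem closure_stable {S T : Set G} (hS : ∀ a ∈ S, ∀ t ∈ T, a * t * a⁻¹ ∈ T)
    (hS' : ∀ a ∈ S, ∀ t ∈ T, a⁻¹ * t * a ∈ T) :
    ∀ h ∈ closure S, ∀ t ∈ T, h * t * h⁻¹ ∈ T := by
  intro h hh
  induction hh using closure_induction'' with
  | one => intro t ht; simpa using ht
  | mem a ha => exact hS a ha
  | inv_mem a ha => intro t ht; simpa using hS' a ha t ht
  | mul a b _ _ iha ihb =>
      intro t ht
      have := iha _ (ihb t ht)
      simpa [mul_assoc] using this

/-- The version for involutions. -/
theorem closure_stable_invol {S T : Set G} (hS : ∀ a ∈ S, a * a = 1)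
    (hST : ∀ a ∈ S, ∀ t ∈ T, a * t * a ∈ T) :
    ∀ h ∈ closure S, ∀ t ∈ T, h * t * h⁻¹ ∈ T := by
  have hinv : ∀ a ∈ S, a⁻¹ = a := fun a ha => inv_eq_of_mul_eq_one_left (hS a ha)
  refine closure_stable ?_ ?_
  · intro a ha t ht; rw [hinv a ha]; exact hST a ha t ht
  · intro a ha t ht; rw [hinv a ha]; exact hST a ha t ht

theorem fc_of_stable_gens {S T : Set G} (hgen : closure S = ⊤) (hS : ∀ a ∈ S, a * a = 1)
    (hT : T.Finite) (hST : ∀ a ∈ S, ∀ t ∈ T, a * t * a ∈ T) {t : G} (ht : t ∈ T) : FC t :=
  FC.of_stable hT (closure S) (by rw [hgen]; infer_instance) (closure_stable_invol hS hST) ht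

theorem finite_commutatorSet_of_center (h : Finite (G ⧸ center G)) : Finite (commutatorSet G) := by
  have hfin := Set.finite_range (fun p : (G ⧸ center G) × (G ⧸ center G) =>
    ⁅p.1.out, p.2.out⁆)
  refine (hfin.subset ?_).to_subtype
  rintro _ ⟨a, b, rfl⟩
  refine ⟨(QuotientGroup.mk a, QuotientGroup.mk b), ?_⟩
  have hz : ∀ a : G, ∃ z ∈ center G, (QuotientGroup.mk a : G ⧸ center G).out = a * z := by
    intro a
    refine ⟨a⁻¹ * (QuotientGroup.mk a : G ⧸ center G).out, ?_, by group⟩
    rw [← QuotientGroup.eq]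
    exact (Quotient.out_eq' _).symm
  obtain ⟨z, hz1, hz2⟩ := hz a
  obtain ⟨w, hw1, hw2⟩ := hz b
  rw [mem_center_iff] at hz1 hw1
  simp only [hz2, hw2, commutatorElement_def, mul_inv_rev]
  have e1 : a * z * (b * w) * (z⁻¹ * a⁻¹) * (w⁻¹ * b⁻¹)
      = a * (z * (b * w)) * z⁻¹ * a⁻¹ * w⁻¹ * b⁻¹ := by group
  rw [e1, ← hz1 (b * w)]
  have e2 : a * (b * w * z) * z⁻¹ * a⁻¹ * w⁻¹ * b⁻¹ = a * b * (w * a⁻¹) * w⁻¹ * b⁻¹ := by group
  rw [e2, ← hw1 a⁻¹]
  group

/-- Dietzmann's lemma, in the group generated by the elements. -/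
theorem dietz_top {S : Set G} (hS : S.Finite) (hgen : closure S = ⊤) (hfc : ∀ s ∈ S, FC s)
    (htor : ∀ s ∈ S, IsOfFinOrder s) : Finite G := by
  have hfg : Group.FG G := Group.fg_iff.2 ⟨S, hgen, hS⟩
  have hcen : (center G).FiniteIndex := by
    have h1 : center G = ⨅ s : S, centralizer {(s : G)} := by
      rw [← centralizer_univ, ← coe_top, ← hgen, centralizer_closure, centralizer_eq_iInf,
        iInf_subtype]
    rw [h1]
    have : Finite S := hS
    exact finiteIndex_iInf fun s => (hfc s s.2).finiteIndex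
  have : Finite (G ⧸ center G) := inferInstance
  have : Finite (commutatorSet G) := finite_commutatorSet_of_center this
  have : Finite (_root_.commutator G) := inferInstance
  have hab : Finite (Abelianization G) := by
    have : Group.FG (Abelianization G) :=
      Group.fg_of_surjective (f := Abelianization.of) (QuotientGroup.mk'_surjective _)
    refine CommGroup.finite_of_fg_isMulTorsion _ ?_
    intro q
    have hle : closure S ≤ (CommGroup.torsion (Abelianization G)).comap Abelianization.of := by
      rw [closure_le]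
      intro s hs
      exact MonoidHom.isOfFinOrder (Abelianization.of : G →* Abelianization G) (htor s hs)
    obtain ⟨g, rfl⟩ := QuotientGroup.mk'_surjective _ q
    have : g ∈ closure S := by rw [hgen]; trivial
    exact hle this
  have : Finite (G ⧸ _root_.commutator G) := hab
  exact Finite.of_subgroup_quotient (_root_.commutator G)

/-- Dietzmann's lemma. -/
theorem dietz {S : Set G} (hS : S.Finite) (hfc : ∀ s ∈ S, FC s)
    (htor : ∀ s ∈ S, IsOfFinOrder s) : Finite (closure S) := by
  refine dietz_top (G := closure S) (S := {s : closure S | (s : G) ∈ S}) ?_ ?_ ?_ ?_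
  · exact hS.preimage Subtype.val_injective.injOn
  · rw [← closure_closure_coe_preimage (k := S)]
    rfl
  · intro s hs
    have h := hfc s hs
    have h2 : ((fun a : closure S => (a : G)) '' Set.range fun g : closure S => g * s * g⁻¹).Finite := by
      refine h.subset ?_
      rintro _ ⟨_, ⟨g, rfl⟩, rfl⟩
      exact ⟨g, rfl⟩
    exact h2.of_finite_image Subtype.val_injective.injOn
  · intro s hs
    exact Submonoid.isOfFinOrder_coe.1 (htor s hs)

/-- The set of conjugates. -/
theorem finite_conjugates {T : Set G} (hT : T.Finite) (hfc : ∀ t ∈ T, FC t) :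
    (Group.conjugatesOfSet T).Finite := by
  have : Group.conjugatesOfSet T = ⋃ t ∈ T, Set.range fun g : G => g * t * g⁻¹ := by
    ext a
    simp only [Group.mem_conjugatesOfSet_iff, Set.mem_iUnion, Set.mem_range, isConj_iff,
      exists_prop]
  rw [this]
  exact hT.biUnion fun t ht => hfc t ht

theorem fc_of_mem_conjugates {T : Set G} (hfc : ∀ t ∈ T, FC t) {s : G}
    (hs : s ∈ Group.conjugatesOfSet T) : FC s := by
  rw [Group.mem_conjugatesOfSet_iff] at hs
  obtain ⟨t, ht, h⟩ := hs
  obtain ⟨c, rfl⟩ := isConj_iff.1 h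
  exact (hfc t ht).conj c

theorem finite_normalClosure {T : Set G} (hT : T.Finite) (hfc : ∀ t ∈ T, FC t)
    (htor : ∀ t ∈ T, IsOfFinOrder t) : Finite (normalClosure T) := by
  refine dietz (finite_conjugates hT hfc) (fun s hs => fc_of_mem_conjugates hfc hs) ?_
  intro s hs
  rw [Group.mem_conjugatesOfSet_iff] at hs
  obtain ⟨t, ht, h⟩ := hs
  obtain ⟨c, rfl⟩ := isConj_iff.1 h
  have := (MulAut.conj c).toMonoidHom.isOfFinOrder (htor t ht)
  simpa using this

/-- Step of the reduction: torsion elements with finitely many conjugates can be killed. -/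
theorem finite_of_torsion {T : Set G} (hT : T.Finite) (hfc : ∀ t ∈ T, FC t)
    (htor : ∀ t ∈ T, IsOfFinOrder t) (hq : Finite (G ⧸ normalClosure T)) : Finite G := by
  have := finite_normalClosure hT hfc htor
  exact Finite.of_subgroup_quotient (normalClosure T)

theorem heis_pow_right {a b t : G} (hab : a * b = t * b * a) (hb : t * b = b * t) (n : ℕ) :
    a * b ^ n = t ^ n * b ^ n * a := by
  have hb' : Commute t b := hb
  induction n with
  | zero => simp
  | succ n ih =>
      calc a * b ^ (n + 1) = a * b ^ n * b := by rw [pow_succ]; group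
        _ = t ^ n * b ^ n * (a * b) := by rw [ih]; group
        _ = t ^ n * (b ^ n * t) * b * a := by rw [hab]; group
        _ = t ^ n * (t * b ^ n) * b * a := by rw [(hb'.pow_right n).eq]
        _ = t ^ (n + 1) * b ^ (n + 1) * a := by rw [pow_succ, pow_succ]; group

/-- In a Heisenberg situation the commutator of powers is a power of the commutator. -/
theorem heis_pow {a b t : G} (hab : a * b = t * b * a) (ha : t * a = a * t)
    (hb : t * b = b * t) (m n : ℕ) : a ^ m * b ^ n = t ^ (m * n) * b ^ n * a ^ m := by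
  have h1 := heis_pow_right hab hb n
  have ha' : Commute t a := ha
  induction m with
  | zero => simp
  | succ m ih =>
      calc a ^ (m + 1) * b ^ n = a * (a ^ m * b ^ n) := by rw [pow_succ']; group
        _ = a * t ^ (m * n) * b ^ n * a ^ m := by rw [ih]; group
        _ = t ^ (m * n) * (a * b ^ n) * a ^ m := by rw [← (ha'.pow_left _).eq]; group
        _ = t ^ (m * n) * t ^ n * b ^ n * (a * a ^ m) := by rw [h1]; group
        _ = t ^ ((m + 1) * n) * b ^ n * a ^ (m + 1) := by
              rw [← pow_add, ← pow_succ']; congr 3; ring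

/-- Torsion from a subgroup of finite index whose elements commute with enough powers. -/
theorem isOfFinOrder_of_comm {a b t : G} (hab : a * b = t * b * a) (ha : t * a = a * t)
    (hb : t * b = b * t) {m n : ℕ} (hm : 0 < m) (hn : 0 < n)
    (h : a ^ m * b ^ n = b ^ n * a ^ m) : IsOfFinOrder t := by
  rw [isOfFinOrder_iff_pow_eq_one]
  refine ⟨m * n, Nat.mul_pos hm hn, ?_⟩
  have := heis_pow hab ha hb m n
  rw [h] at this
  have h2 : t ^ (m * n) * (b ^ n * a ^ m) = 1 * (b ^ n * a ^ m) := by
    rw [one_mul, ← mul_assoc]; exact this.symm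
  exact mul_right_cancel h2

/-- Step of the reduction: elements `t` with finitely many conjugates, which are torsion or
commutators `t = [a,b]` commuting with `a` and `b`, can be killed. -/
theorem finite_of_fc {T : Set G} (hT : T.Finite) (hfc : ∀ t ∈ T, FC t)
    (hcom : ∀ t ∈ T, IsOfFinOrder t ∨
      ∃ a b : G, a * b = t * b * a ∧ t * a = a * t ∧ t * b = b * t)
    (hq : Finite (G ⧸ normalClosure T)) : Finite G := by
  refine finite_of_torsion hT hfc ?_ hq
  intro t ht
  rcases hcom t ht with h | ⟨a, b, hab, ha, hb⟩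
  · exact h
  have hN : (normalClosure T).index ≠ 0 := (finiteIndex_of_finite_quotient).index_ne_zero
  -- the centralizer of the normal closure
  have hcen : (centralizer (normalClosure T : Set G)).FiniteIndex := by
    have h1 : centralizer (normalClosure T : Set G)
        = ⨅ s : Group.conjugatesOfSet T, centralizer {(s : G)} := by
      rw [normalClosure, centralizer_closure, centralizer_eq_iInf, iInf_subtype]
    rw [h1]
    have : Finite (Group.conjugatesOfSet T) := finite_conjugates hT hfc
    exact finiteIndex_iInf fun s => (fc_of_mem_conjugates hfc s.2).finiteIndex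
  obtain ⟨m, hm, _, hma⟩ := exists_pow_mem_of_index_ne_zero hcen.index_ne_zero a
  obtain ⟨n, hn, _, hnb⟩ := exists_pow_mem_of_index_ne_zero hN b
  refine isOfFinOrder_of_comm hab ha hb hm hn ?_
  exact ((mem_centralizer_iff.1 hma) _ hnb).symm

end Pool.Agent.Lib.MP_f02039_co.Diet
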