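import Pool.Agent.Lib.MP_f02039_co.Spec

/-! MP_f02039_co: the chain of reductions. -/

namespace MPf02039

theorem finite_of_specs (h1 : SpecR1) (h4 : SpecR4) (h5 : SpecR5) (h6 : SpecR6) (h7 : SpecR7)
    (h8 : SpecR8) (h8b : SpecR8b) (h9 : SpecR9) (h10 : SpecR10)
    (G : Type) [Group G] (s : Sys G) (hs : Subgroup.closure (Set.range s.x) = ⊤) : Finite G :=
  h1 (h4 (h5 (h6 (h7 (h8 (h8b (h9 h10))))))) G s hs trivial

end MPf02039
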