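import Pool.Agent.Lib.MP_f02039_co.Spec

/-!
MP_f02039_co: STEP 1 (modules NU and STEP1).
-/

set_option linter.all false

namespace MPf02039

open scoped commutatorElement

namespace S1

variable {G : Type*} [Group G] (s : Sys G) (o : ℕ)

theorem xcomm (a b : ℕ) : o ^^^ a ^^^ b = o ^^^ b ^^^ a := by
  rw [Nat.xor_assoc, Nat.xor_comm a, ← Nat.xor_assoc]

/-! ### the elements of the frame -/

section

variable {s} (hb : Base1 s) (h2 : Base2 s)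
include h2

theorem Z_u {a m : Fin 5} (h : a ≠ m) : cj (s.zf a o) (s.Th (o ^^^ c m)) = s.Th (o ^^^ c m) := by
  have := h2.zo_Th (o ^^^ c m) a
  rwa [s.zo_c_ne (Ne.symm h)] at this

theorem Z_C {a m : Fin 5} (h : a ≠ m) : cj (s.zf a o) (s.C (o ^^^ c m)) = s.C (o ^^^ c m) := by
  have := h2.zo_C (o ^^^ c m) a
  rwa [s.zo_c_ne (Ne.symm h)] at this

theorem b_u {a m : Fin 5} (h : a ≠ m) :
    cj (s.x (o ^^^ c a)) (s.Th (o ^^^ c m)) = (s.Th (o ^^^ c m))⁻¹ := by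
  have := h2.xx_Th (o ^^^ c m) m a (Ne.symm h)
  rwa [xor_cancel] at this

theorem b_C {a m : Fin 5} (h : a ≠ m) :
    cj (s.x (o ^^^ c a)) (s.C (o ^^^ c m)) = (s.C (o ^^^ c m))⁻¹ := by
  have := h2.xx_C (o ^^^ c m) m a (Ne.symm h)
  rwa [xor_cancel] at this

theorem Y_u {a m : Fin 5} (h : a ≠ m) : Commute (s.Th (o ^^^ c m)) (s.Y o a) := by
  have := h2.Th_Y (o ^^^ c m) a m h
  rwa [xor_cancel] at this

theorem Y_C {a m : Fin 5} (h : a ≠ m) : Commute (s.C (o ^^^ c m)) (s.Y o a) := by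
  have := h2.C_Y (o ^^^ c m) a m h
  rwa [xor_cancel] at this

theorem Y2_u {l m j : Fin 5} (hl : j ≠ l) :
    Commute (s.Th (o ^^^ c m)) (s.Y (o ^^^ c l ^^^ c m) j) := by
  have := h2.Th_Y (o ^^^ c m) j l hl
  rwa [xcomm] at this

theorem Y2_u' {l m j : Fin 5} (hm : j ≠ m) :
    Commute (s.Th (o ^^^ c l)) (s.Y (o ^^^ c l ^^^ c m) j) :=
  h2.Th_Y (o ^^^ c l) j m hm

theorem Y2_C {l m j : Fin 5} (hl : j ≠ l) :
    Commute (s.C (o ^^^ c m)) (s.Y (o ^^^ c l ^^^ c m) j) := by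
  have := h2.C_Y (o ^^^ c m) j l hl
  rwa [xcomm] at this

theorem Y2_C' {l m j : Fin 5} (hm : j ≠ m) :
    Commute (s.C (o ^^^ c l)) (s.Y (o ^^^ c l ^^^ c m) j) :=
  h2.C_Y (o ^^^ c l) j m hm

theorem T1 {l m j : Fin 5} (hlm : l ≠ m) (hl : j ≠ l) :
    cj (s.zf l o) (s.Y (o ^^^ c l ^^^ c m) j) =
      s.Th (o ^^^ c m) * (s.Y (o ^^^ c l ^^^ c m) j)⁻¹ := by
  have := h2.Th_eq (o ^^^ c m) j l hl
  rw [s.zo_c_ne (Ne.symm hlm), xcomm] at this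
  rw [← this, mul_inv_cancel_right]

theorem T1' {l m j : Fin 5} (hlm : l ≠ m) (hm : j ≠ m) :
    cj (s.zf m o) (s.Y (o ^^^ c l ^^^ c m) j) =
      s.Th (o ^^^ c l) * (s.Y (o ^^^ c l ^^^ c m) j)⁻¹ := by
  have := h2.Th_eq (o ^^^ c l) j m hm
  rw [s.zo_c_ne hlm] at this
  rw [← this, mul_inv_cancel_right]

omit h2 in
theorem b_Z {k m : Fin 5} (h : k ≠ m) (a : G) :
    cj (s.x (o ^^^ c k)) (cj (s.zf m o) a) = cj (s.zf m o) (cj (s.x (o ^^^ c k)) a) := by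
  have := s.zo_x m (o ^^^ c k)
  rw [s.zo_c_ne h] at this
  rw [← mul_cj, ← mul_cj, this]

include hb
omit h2

theorem T2 {l m j k : Fin 5} (hl : k ≠ l) (hm : k ≠ m) :
    cj (s.zf k o) (s.Y (o ^^^ c l ^^^ c m) j) = (s.Y (o ^^^ c l ^^^ c m) j)⁻¹ := by
  have := hb.zf_Y (o ^^^ c l ^^^ c m) j k
  rwa [s.zf_c_ne (Ne.symm hm), s.zo_c_ne (Ne.symm hl)] at this

theorem zzz' {i j k : Fin 5} (hij : i ≠ j) (hik : i ≠ k) (hjk : j ≠ k) (a : G) :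
    cj (s.zf i o) (cj (s.zf j o) (cj (s.zf k o) a)) =
      cj (s.zf k o) (cj (s.zf j o) (cj (s.zf i o) a)) := by
  have h := hb.zzz o i j k hij hik hjk
  have e : s.zf i o * s.zf j o * s.zf k o = s.zf k o * s.zf j o * s.zf i o := by
    have h3 : s.zf i o * s.zf j o * s.zf k o * (s.zf i o * s.zf j o * s.zf k o) = 1 := by
      simpa only [mul_assoc] using h
    have h4 := inv_eq_of_mul_eq_one_left h3
    rw [← h4]
    simp only [mul_inv_rev, s.zf_inv, mul_assoc]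
  rw [← mul_cj, ← mul_cj, ← mul_cj, ← mul_cj, e]

/-- `(Z_i Z_j)²` -/
theorem zz' {i j : Fin 5} (hij : i ≠ j) (a : G) :
    cj (s.zf i o) (cj (s.zf j o) (cj (s.zf i o) (cj (s.zf j o) a))) =
      cj (s.Y o i) (cj (s.Y o j)⁻¹ a) := by
  rw [← mul_cj, ← mul_cj, ← mul_cj, ← mul_cj, hb.zz o i j hij]

include h2

/-- (7) -/
theorem eq7 {l m : Fin 5} (hlm : l ≠ m) :
    cj (s.zf m o) (s.Th (o ^^^ c m)) * s.Th (o ^^^ c l) =
      cj (s.zf l o) (s.Th (o ^^^ c l)) * s.Th (o ^^^ c m) := by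
  obtain ⟨k, j, n, hD⟩ := exists_D5_2 hlm
  obtain ⟨-, d1, d2, d3, d4, d5, d6, d7, d8, d9⟩ := hD
  have hl := T1 (s := s) o h2 hlm (Ne.symm d2)
  have hm := T1' (s := s) o h2 hlm (Ne.symm d5)
  have hk : cj (s.zf k o) (s.Y (o ^^^ c l ^^^ c m) j) = (s.Y (o ^^^ c l ^^^ c m) j)⁻¹ :=
    T2 o hb (Ne.symm d1) (Ne.symm d4)
  generalize s.Y (o ^^^ c l ^^^ c m) j = Y' at hl hm hk
  have hum := Z_u (s := s) o h2 (Ne.symm d4)
  have hul := Z_u (s := s) o h2 (Ne.symm d1)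
  have t1 : cj (s.zf k o) (cj (s.zf l o) Y') = s.Th (o ^^^ c m) * Y' := by
    rw [hl, cj_mul, hum, cj_inv, hk, inv_inv]
  have t2 : cj (s.zf k o) (cj (s.zf m o) Y') = s.Th (o ^^^ c l) * Y' := by
    rw [hm, cj_mul, hul, cj_inv, hk, inv_inv]
  have t3 := zzz' (s := s) o hb d4 (Ne.symm hlm) (Ne.symm d1) Y'
  rw [t1, t2, cj_mul, cj_mul, hm, hl, ← mul_assoc, ← mul_assoc] at t3
  exact mul_right_cancel t3

/-- (8) -/
theorem eq8 {l m : Fin 5} (hlm : l ≠ m) :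
    s.Th (o ^^^ c l) * cj (s.zf m o) (s.Th (o ^^^ c m)) =
      s.Th (o ^^^ c m) * cj (s.zf l o) (s.Th (o ^^^ c l)) := by
  obtain ⟨k, j, n, hD⟩ := exists_D5_2 hlm
  obtain ⟨-, d1, d2, d3, d4, d5, d6, d7, d8, d9⟩ := hD
  have h := congrArg (cj (s.x (o ^^^ c k))) (eq7 o hb h2 hlm)
  rw [cj_mul, cj_mul, b_Z o (Ne.symm d4), b_Z o (Ne.symm d1), b_u o h2 (Ne.symm d4),
    b_u o h2 (Ne.symm d1), cj_inv, cj_inv] at h
  have h3 := congrArg (fun a => a⁻¹) h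
  simpa only [mul_inv_rev, inv_inv] using h3

theorem eq9 {l m : Fin 5} (hlm : l ≠ m) :
    s.Th (o ^^^ c l) * cj (s.Y o m) (s.Th (o ^^^ c m)) =
      cj (s.Y o l) (s.Th (o ^^^ c l)) * s.Th (o ^^^ c m) := by
  obtain ⟨a, j, n, hD⟩ := exists_D5_2 hlm
  obtain ⟨-, d1, d2, d3, d4, d5, d6, d7, d8, d9⟩ := hD
  have hul := Z_u (s := s) o h2 (Ne.symm d1)
  have hum := Z_u (s := s) o h2 (Ne.symm d4)
  have hlu := Z_u (s := s) o h2 hlm
  have hmu := Z_u (s := s) o h2 (Ne.symm hlm)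
  -- the square of `Z_l Z_a` on `u_l`
  have sq : ∀ {l : Fin 5}, l ≠ a → cj (s.zf a o) (s.Th (o ^^^ c l)) = s.Th (o ^^^ c l) →
      cj (s.zf l o) (cj (s.zf a o) (cj (s.zf l o) (s.Th (o ^^^ c l)))) =
        cj (s.Y o l) (s.Th (o ^^^ c l)) := by
    intro l hla hfix
    have h := zz' (s := s) o hb hla (s.Th (o ^^^ c l))
    rw [hfix] at h
    rw [h]
    have h5 : cj (s.Y o a)⁻¹ (s.Th (o ^^^ c l)) = s.Th (o ^^^ c l) := by
      rw [cj_eq_self_iff]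
      exact (Y_u o h2 (Ne.symm hla)).inv_right.eq.symm
    rw [h5]
  have e1 := congrArg (fun t => cj (s.zf l o) (cj (s.zf a o) t)) (eq7 o hb h2 hlm)
  simp only [cj_mul] at e1
  rw [zzz' o hb d1 hlm (Ne.symm d4), hlu, hum, hul, sq d1 hul, hlu] at e1
  have e2 := congrArg (fun t => cj (s.zf m o) (cj (s.zf a o) t)) (eq8 o hb h2 hlm)
  simp only [cj_mul] at e2
  rw [hul, hmu, sq d4 hum, hum, zzz' o hb d4 (Ne.symm hlm) (Ne.symm d1), hmu, hul] at e2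
  rw [e2, e1]

/-- the commutators `[Y_m, u_m]` are all equal -/
theorem dl_aux {l m : Fin 5} (hlm : l ≠ m) :
    (s.Th (o ^^^ c l))⁻¹ * cj (s.Y o l) (s.Th (o ^^^ c l)) =
      cj (s.Y o m) (s.Th (o ^^^ c m)) * (s.Th (o ^^^ c m))⁻¹ := by
  rw [inv_mul_eq_iff_eq_mul, ← mul_assoc, eq9 o hb h2 hlm, mul_inv_cancel_right]

theorem dl_right (m : Fin 5) :
    cj (s.Y o m) (s.Th (o ^^^ c m)) * (s.Th (o ^^^ c m))⁻¹ = s.dl o := by
  have h0 : cj (s.Y o 0) (s.Th (o ^^^ c 0)) * (s.Th (o ^^^ c 0))⁻¹ = s.dl o := by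
    simp only [cj, Sys.dl, commutatorElement_def]
  obtain ⟨l, h1, h3⟩ : ∃ l : Fin 5, l ≠ m ∧ l ≠ 0 := by revert m; decide
  rw [← dl_aux o hb h2 h1, dl_aux o hb h2 h3, h0]

theorem dl_left (l : Fin 5) :
    (s.Th (o ^^^ c l))⁻¹ * cj (s.Y o l) (s.Th (o ^^^ c l)) = s.dl o := by
  obtain ⟨m, h1⟩ : ∃ m : Fin 5, l ≠ m := by revert l; decide
  rw [dl_aux o hb h2 h1, dl_right o hb h2]

theorem Yu (m : Fin 5) : cj (s.Y o m) (s.Th (o ^^^ c m)) = s.dl o * s.Th (o ^^^ c m) := by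
  rw [← dl_right o hb h2 m, inv_mul_cancel_right]

theorem dl_eq (m : Fin 5) : ⁅s.Y o m, s.Th (o ^^^ c m)⁆ = s.dl o := by
  rw [← dl_right o hb h2 m, cj, commutatorElement_def]

theorem dl_Th (m : Fin 5) : Commute (s.dl o) (s.Th (o ^^^ c m)) := by
  have h := dl_left o hb h2 m
  rw [Yu o hb h2 m, inv_mul_eq_iff_eq_mul] at h
  exact h

theorem dl_C (m : Fin 5) : Commute (s.dl o) (s.C (o ^^^ c m)) := by
  have h := h2.Th_sq (o ^^^ c m)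
  have h3 : s.C (o ^^^ c m) = (s.Th (o ^^^ c m) * s.Th (o ^^^ c m))⁻¹ := by rw [h, inv_inv]
  rw [h3]
  exact ((dl_Th o hb h2 m).mul_right (dl_Th o hb h2 m)).inv_right

theorem dl_Y (a : Fin 5) : Commute (s.dl o) (s.Y o a) := by
  obtain ⟨m, h1⟩ : ∃ m : Fin 5, a ≠ m := by revert a; decide
  rw [← dl_eq o hb h2 m, commutatorElement_def]
  have e1 : Commute (s.Y o m) (s.Y o a) := hb.Y_comm o m a
  have e2 : Commute (s.Th (o ^^^ c m)) (s.Y o a) := Y_u o h2 h1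
  exact ((e1.mul_left e2).mul_left e1.inv_left).mul_left e2.inv_left

theorem Yu_inv (m : Fin 5) :
    cj (s.Y o m)⁻¹ (s.Th (o ^^^ c m)) = (s.dl o)⁻¹ * s.Th (o ^^^ c m) := by
  apply cj_injective (s.Y o m)
  rw [cj_inv_cj, cj_mul, Yu o hb h2, (cj_eq_self_iff _ _).2, inv_mul_cancel_left]
  exact (dl_Y o hb h2 m).inv_left.eq.symm

theorem zf_dl (a : Fin 5) : cj (s.zf a o) (s.dl o) = (s.dl o)⁻¹ := by
  obtain ⟨m, h1⟩ : ∃ m : Fin 5, a ≠ m := by revert a; decide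
  conv_lhs => rw [← dl_eq o hb h2 m]
  rw [cj_comm, hb.zf_Y, Z_u o h2 h1, commutatorElement_def]
  have := Yu_inv o hb h2 m
  rw [cj] at this
  rw [this, mul_inv_cancel_right]

theorem b_dl (k : Fin 5) : cj (s.x (o ^^^ c k)) (s.dl o) = (s.dl o)⁻¹ := by
  obtain ⟨m, h1⟩ : ∃ m : Fin 5, k ≠ m := by revert k; decide
  conv_lhs => rw [← dl_eq o hb h2 m]
  rw [cj_comm, hb.b_ne o k m h1, b_u o h2 h1, commutatorElement_def, inv_inv]
  have := congrArg (fun t => t⁻¹) (Yu o hb h2 m)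
  rw [← cj_inv, cj] at this
  rw [this, (dl_Th o hb h2 m).eq, mul_inv_rev, inv_mul_cancel_right]

omit hb h2 in
theorem comm_inv_inv {x y c : G} (h : ⁅x, y⁆ = c) (hx : Commute c x) (hy : Commute c y) :
    x⁻¹ * y⁻¹ * x * y = c := by
  have h1 : x * y = c * (y * x) := by
    rw [← h, commutatorElement_def]; group
  have h3 : x⁻¹ * y⁻¹ * x * y = (y * x)⁻¹ * (x * y) := by group
  rw [h3, h1, ← mul_assoc, ← (hy.mul_right hx).inv_right.eq, mul_assoc, inv_mul_cancel, mul_one]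

/-- (10) -/
theorem eq10 {l m : Fin 5} (hlm : l ≠ m) :
    cj (s.zf m o) (s.C (o ^^^ c m)) =
      (s.dl o)⁻¹ * (s.Th (o ^^^ c l) * s.C (o ^^^ c m) * (s.Th (o ^^^ c l))⁻¹) := by
  obtain ⟨j, k, n, hD⟩ := exists_D5_2 hlm
  obtain ⟨-, d1, d2, d3, d4, d5, d6, d7, d8, d9⟩ := hD
  have hC := h2.C_eq (o ^^^ c m) l m j hlm (Ne.symm d1) (Ne.symm d4)
  rw [xor_cancel, xcomm] at hC
  have hc1 := Y_C (s := s) o h2 hlm
  have hc2 := Y2_C (s := s) o h2 (l := l) (m := m) (Ne.symm d1)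
  have hm := T1' (s := s) o h2 hlm (Ne.symm d4)
  conv_lhs => rw [← hC]
  rw [cj_comm, hb.zf_Y, hm, commutatorElement_def, inv_inv]
  have e1 := comm_inv_inv hC hc1 hc2
  have e2 := Yu_inv o hb h2 l
  rw [cj, inv_inv] at e2
  have e3 : (s.Y o l)⁻¹ * s.Th (o ^^^ c l) = (s.dl o)⁻¹ * s.Th (o ^^^ c l) * (s.Y o l)⁻¹ := by
    rw [← e2]; group
  calc (s.Y o l)⁻¹ * (s.Th (o ^^^ c l) * (s.Y (o ^^^ c l ^^^ c m) j)⁻¹) * s.Y o l *
        (s.Th (o ^^^ c l) * (s.Y (o ^^^ c l ^^^ c m) j)⁻¹)⁻¹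
      = ((s.Y o l)⁻¹ * s.Th (o ^^^ c l)) * ((s.Y (o ^^^ c l ^^^ c m) j)⁻¹ * s.Y o l *
        s.Y (o ^^^ c l ^^^ c m) j) * (s.Th (o ^^^ c l))⁻¹ := by group
    _ = (s.dl o)⁻¹ * (s.Th (o ^^^ c l) * ((s.Y o l)⁻¹ * (s.Y (o ^^^ c l ^^^ c m) j)⁻¹ * s.Y o l *
        s.Y (o ^^^ c l ^^^ c m) j) * (s.Th (o ^^^ c l))⁻¹) := by rw [e3]; group
    _ = _ := by rw [e1]

/-- (10), second form -/
theorem eq10' {l m : Fin 5} (hlm : l ≠ m) :
    s.Th (o ^^^ c l) * s.C (o ^^^ c m) * (s.Th (o ^^^ c l))⁻¹ =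
      s.dl o * cj (s.zf m o) (s.C (o ^^^ c m)) := by
  rw [eq10 o hb h2 hlm, mul_inv_cancel_left]

theorem eq10'' {l m : Fin 5} (hlm : l ≠ m) :
    cj (s.zf m o) (s.C (o ^^^ c m)) =
      ((s.Th (o ^^^ c l))⁻¹ * s.C (o ^^^ c m) * s.Th (o ^^^ c l)) * (s.dl o)⁻¹ := by
  obtain ⟨k, j, n, hD⟩ := exists_D5_2 hlm
  obtain ⟨-, d1, d2, d3, d4, d5, d6, d7, d8, d9⟩ := hD
  have h := congrArg (cj (s.x (o ^^^ c k))) (eq10 o hb h2 hlm)
  simp only [cj_mul, cj_inv] at h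
  rw [b_Z o (Ne.symm d4), b_C o h2 (Ne.symm d4), b_u o h2 (Ne.symm d1), b_dl o hb h2, inv_inv,
    inv_inv, cj_inv] at h
  have h3 := congrArg (fun a => a⁻¹) h
  simp only [mul_inv_rev, inv_inv, ← mul_assoc] at h3
  rw [h3]

theorem C_comm {l m : Fin 5} (hlm : l ≠ m) : Commute (s.C (o ^^^ c l)) (s.C (o ^^^ c m)) := by
  have h1 := eq10 o hb h2 hlm
  have h3 := eq10'' o hb h2 hlm
  have hdu := dl_Th o hb h2 l
  have hdc := dl_C o hb h2 m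
  have h4 : Commute (s.dl o) ((s.Th (o ^^^ c l))⁻¹ * s.C (o ^^^ c m) * s.Th (o ^^^ c l)) :=
    (hdu.inv_right.mul_right hdc).mul_right hdu
  rw [h1, ← h4.inv_left.eq] at h3
  have h5 := mul_left_cancel h3
  have h6 : Commute (s.Th (o ^^^ c l) * s.Th (o ^^^ c l)) (s.C (o ^^^ c m)) := by
    show s.Th (o ^^^ c l) * s.Th (o ^^^ c l) * s.C (o ^^^ c m) =
      s.C (o ^^^ c m) * (s.Th (o ^^^ c l) * s.Th (o ^^^ c l))
    calc s.Th (o ^^^ c l) * s.Th (o ^^^ c l) * s.C (o ^^^ c m)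
        = s.Th (o ^^^ c l) * (s.Th (o ^^^ c l) * s.C (o ^^^ c m) * (s.Th (o ^^^ c l))⁻¹) *
          s.Th (o ^^^ c l) := by group
      _ = s.C (o ^^^ c m) * (s.Th (o ^^^ c l) * s.Th (o ^^^ c l)) := by rw [h5]; group
  rw [h2.Th_sq] at h6
  exact Commute.inv_left_iff.1 h6

/-! ### `κ` and `ν` -/

omit hb h2 in
variable (s) in
/-- `κ` -/
def kap (l : Fin 5) : G := (s.C (o ^^^ c l))⁻¹ * cj (s.zf l o) (s.C (o ^^^ c l))

/-- (11) -/
theorem eq11 {l m j : Fin 5} (hlm : l ≠ m) (hl : j ≠ l) (hm : j ≠ m) :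
    cj (s.Y (o ^^^ c l ^^^ c m) j) (s.dl o) = s.dl o * s.dl o * kap s o l := by
  have hB := h2.C_eq (o ^^^ c l) m l j (Ne.symm hlm) hm hl
  rw [xor_cancel] at hB
  have hBu := Y2_u (s := s) o h2 (l := l) (m := m) hl
  have e1 : cj (s.Y (o ^^^ c l ^^^ c m) j) (s.Y o m) = (s.C (o ^^^ c l))⁻¹ * s.Y o m := by
    rw [← hB, cj, commutatorElement_def]; group
  have e2 : cj (s.Y (o ^^^ c l ^^^ c m) j) (s.Th (o ^^^ c m)) = s.Th (o ^^^ c m) :=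
    (cj_eq_self_iff _ _).2 hBu.eq.symm
  conv_lhs => rw [← dl_eq o hb h2 m]
  rw [cj_comm, e1, e2, commutatorElement_def]
  have e3 := Yu o hb h2 m
  rw [cj] at e3
  have e4 := eq10' o hb h2 (Ne.symm hlm)
  calc (s.C (o ^^^ c l))⁻¹ * s.Y o m * s.Th (o ^^^ c m) * ((s.C (o ^^^ c l))⁻¹ * s.Y o m)⁻¹ *
        (s.Th (o ^^^ c m))⁻¹
      = (s.C (o ^^^ c l))⁻¹ * (s.Y o m * s.Th (o ^^^ c m) * (s.Y o m)⁻¹) * s.C (o ^^^ c l) *
        (s.Th (o ^^^ c m))⁻¹ := by group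
    _ = (s.C (o ^^^ c l))⁻¹ * s.dl o *
        (s.Th (o ^^^ c m) * s.C (o ^^^ c l) * (s.Th (o ^^^ c m))⁻¹) := by rw [e3]; group
    _ = (s.dl o) * (s.C (o ^^^ c l))⁻¹ * (s.dl o * cj (s.zf l o) (s.C (o ^^^ c l))) := by
        rw [e4, (dl_C o hb h2 l).inv_right.eq]
    _ = s.dl o * ((s.C (o ^^^ c l))⁻¹ * s.dl o) * cj (s.zf l o) (s.C (o ^^^ c l)) := by group
    _ = s.dl o * s.dl o * kap s o l := by
        rw [← (dl_C o hb h2 l).inv_right.eq, kap]; group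

theorem kap_eq {l m : Fin 5} : kap s o l = kap s o m := by
  by_cases hlm : l = m
  · rw [hlm]
  obtain ⟨j, k, n, hD⟩ := exists_D5_2 hlm
  obtain ⟨-, d1, d2, d3, d4, d5, d6, d7, d8, d9⟩ := hD
  have h1 := eq11 o hb h2 hlm (Ne.symm d1) (Ne.symm d4)
  have h3 := eq11 o hb h2 (Ne.symm hlm) (Ne.symm d4) (Ne.symm d1)
  rw [xcomm, h1] at h3
  exact mul_left_cancel h3

theorem kap_C {l m : Fin 5} : Commute (kap s o l) (s.C (o ^^^ c m)) := by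
  obtain ⟨l', h1⟩ : ∃ l' : Fin 5, l' ≠ m := by revert m; decide
  rw [kap_eq o hb h2 (l := l) (m := l'), kap]
  have e1 := C_comm o hb h2 h1
  have e2 : Commute (cj (s.zf l' o) (s.C (o ^^^ c l'))) (s.C (o ^^^ c m)) := by
    have h3 : s.C (o ^^^ c m) = cj (s.zf l' o) (s.C (o ^^^ c m)) := (Z_C o h2 h1).symm
    rw [h3]
    show _ * _ = _ * _
    rw [← cj_mul, ← cj_mul, e1.eq]
  exact e1.inv_left.mul_left e2

theorem kap_dl {l : Fin 5} : Commute (kap s o l) (s.dl o) := by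
  have e1 := (dl_C o hb h2 l).symm
  have e2 : Commute (cj (s.zf l o) (s.C (o ^^^ c l))) (s.dl o) := by
    have h3 : s.dl o = cj (s.zf l o) (s.dl o)⁻¹ := by
      rw [cj_inv, zf_dl o hb h2, inv_inv]
    rw [h3]
    show _ * _ = _ * _
    rw [← cj_mul, ← cj_mul, e1.inv_right.eq]
  exact e1.inv_left.mul_left e2

/-- `ν = δ κ` -/
theorem nu_eq {l m : Fin 5} (hlm : l ≠ m) (k : Fin 5) :
    ⁅s.Th (o ^^^ c l), s.C (o ^^^ c m)⁆ = s.dl o * kap s o k := by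
  rw [kap_eq o hb h2 (l := k) (m := m), commutatorElement_def, eq10' o hb h2 hlm]
  have h1 : cj (s.zf m o) (s.C (o ^^^ c m)) = s.C (o ^^^ c m) * kap s o m := by
    rw [kap, mul_inv_cancel_left]
  rw [h1, ← (kap_C o hb h2 (l := m) (m := m)).eq, ← mul_assoc, mul_inv_cancel_right]

theorem Z_kap (m l : Fin 5) : cj (s.zf m o) (kap s o l) = (kap s o l)⁻¹ := by
  rw [kap_eq o hb h2 (l := l) (m := m), kap, cj_mul, cj_inv, s.cj_zf_zf]
  simp only [mul_inv_rev, inv_inv]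

theorem YC (l : Fin 5) : cj (s.Y o l) (s.C (o ^^^ c l)) =
    (s.dl o)⁻¹ * (s.dl o)⁻¹ * s.C (o ^^^ c l) := by
  have h := h2.Th_sq (o ^^^ c l)
  have h3 : s.C (o ^^^ c l) = (s.Th (o ^^^ c l) * s.Th (o ^^^ c l))⁻¹ := by rw [h, inv_inv]
  have hd := (dl_Th o hb h2 l)
  rw [h3, cj_inv, cj_mul, Yu o hb h2]
  have h5 : s.dl o * s.Th (o ^^^ c l) * (s.dl o * s.Th (o ^^^ c l)) =
      s.Th (o ^^^ c l) * s.Th (o ^^^ c l) * (s.dl o * s.dl o) := by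
    have h6 : s.dl o * s.Th (o ^^^ c l) = s.Th (o ^^^ c l) * s.dl o := hd
    rw [h6]
    calc s.Th (o ^^^ c l) * s.dl o * (s.Th (o ^^^ c l) * s.dl o)
        = s.Th (o ^^^ c l) * (s.dl o * s.Th (o ^^^ c l)) * s.dl o := by group
      _ = _ := by rw [h6]; group
  rw [h5]
  simp only [mul_inv_rev, mul_assoc]

theorem Z_kap' {m l : Fin 5} (hml : m ≠ l) :
    cj (s.zf m o) (kap s o l) = s.dl o * s.dl o * kap s o l := by
  have e1 := zz' (s := s) o hb (Ne.symm hml) (s.C (o ^^^ c l))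
  have e2 : cj (s.Y o m)⁻¹ (s.C (o ^^^ c l)) = s.C (o ^^^ c l) := by
    rw [cj_eq_self_iff]
    exact (Y_C o h2 hml).inv_right.eq.symm
  rw [Z_C o h2 hml, e2, YC o hb h2] at e1
  have e3 := congrArg (cj (s.zf l o)) e1
  rw [s.cj_zf_zf, cj_mul, cj_mul, cj_inv, zf_dl o hb h2, inv_inv] at e3
  rw [kap, cj_mul, cj_inv, Z_C o h2 hml, e3]
  have hdc := dl_C o hb h2 l
  rw [← mul_assoc, ← mul_assoc, ← mul_assoc]
  rw [mul_assoc (s.C (o ^^^ c l))⁻¹, ← (hdc.mul_left hdc).inv_right.eq]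

theorem kap_inv (l : Fin 5) : (kap s o l)⁻¹ = s.dl o * s.dl o * kap s o l := by
  obtain ⟨m, h1⟩ : ∃ m : Fin 5, m ≠ l := by revert l; decide
  rw [← Z_kap o hb h2 m l, Z_kap' o hb h2 h1]

theorem nu_sq (l : Fin 5) : s.dl o * kap s o l * (s.dl o * kap s o l) = 1 := by
  have h := kap_inv o hb h2 l
  have hc := (kap_dl o hb h2 (l := l)).eq
  calc s.dl o * kap s o l * (s.dl o * kap s o l)
      = s.dl o * (kap s o l * s.dl o) * kap s o l := by group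
    _ = (s.dl o * s.dl o * kap s o l) * kap s o l := by rw [hc]; group
    _ = 1 := by rw [← h, inv_mul_cancel]

theorem b_kap (k l : Fin 5) : cj (s.x (o ^^^ c k)) (kap s o l) = (kap s o l)⁻¹ := by
  obtain ⟨m, h1⟩ : ∃ m : Fin 5, k ≠ m := by revert k; decide
  rw [kap_eq o hb h2 (l := l) (m := m)]
  have hc := (kap_C o hb h2 (l := m) (m := m)).eq
  have e1 : cj (s.x (o ^^^ c k)) (kap s o m) =
      s.C (o ^^^ c m) * (cj (s.zf m o) (s.C (o ^^^ c m)))⁻¹ := by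
    rw [kap, cj_mul, cj_inv, b_Z o h1, b_C o h2 h1, inv_inv, cj_inv]
  have e2 : cj (s.zf m o) (s.C (o ^^^ c m)) = s.C (o ^^^ c m) * kap s o m := by
    rw [kap, mul_inv_cancel_left]
  rw [e1, e2, ← hc]
  group

theorem b_nu (k l : Fin 5) :
    cj (s.x (o ^^^ c k)) (s.dl o * kap s o l) = s.dl o * kap s o l := by
  rw [cj_mul, b_dl o hb h2, b_kap o hb h2]
  have h := nu_sq o hb h2 l
  have hc := (kap_dl o hb h2 (l := l))
  rw [← mul_inv_rev, hc.eq]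
  exact inv_eq_of_mul_eq_one_left h

/-- `ν` of the frame `o` -/
theorem nu_shift {l m : Fin 5} (hlm : l ≠ m) (k k' : Fin 5) :
    s.dl (o ^^^ c l ^^^ c m) * kap s (o ^^^ c l ^^^ c m) k = s.dl o * kap s o k' := by
  rw [← nu_eq o hb h2 hlm k', ← nu_eq (o ^^^ c l ^^^ c m) hb h2 (Ne.symm hlm) k, xor_cancel,
    xcomm o (c l) (c m), xor_cancel]

theorem nu_shift1 (i k k' : Fin 5) :
    s.dl (o ^^^ c i) * kap s (o ^^^ c i) k = s.dl o * kap s o k' := by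
  obtain ⟨j, k1, l, m, hD⟩ := exists_D5_1 i
  have h1 := c_two o i j k1 l m hD
  obtain ⟨d0, d1, d2, d3, d4, d5, d6, d7, d8, d9⟩ := hD
  have h3 : o ^^^ c i = o ^^^ c k1 ^^^ c l ^^^ c m ^^^ c j := by rw [h1, xor_cancel]
  rw [h3, nu_shift (o ^^^ c k1 ^^^ c l) hb h2 (Ne.symm d6) k k', nu_shift o hb h2 d7 k' k']

omit hb h2 in
theorem C_congr {p q : ℕ} (h : p % 16 = q % 16) : s.C p = s.C q := by
  simp only [Sys.C, s.Y_congr _ (Sys.congr_c h _)]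

theorem nu_all (o' : ℕ) (k k' : Fin 5) :
    s.dl o' * kap s o' k = s.dl o * kap s o k' := by
  have key : ∀ p q : ℕ, p % 16 = q % 16 → s.dl p * kap s p k = s.dl q * kap s q k := by
    intro p q h
    rw [← nu_eq p hb h2 (show (0 : Fin 5) ≠ 1 by decide) k,
      ← nu_eq q hb h2 (show (0 : Fin 5) ≠ 1 by decide) k,
      s.Th_congr (Sys.congr_c h _), C_congr (Sys.congr_c h _)]
  rcases mod_cases o o' with h | ⟨i, h⟩ | ⟨i, j, hij, h⟩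
  · rw [key _ _ h, kap_eq o hb h2 (l := k) (m := k')]
  · rw [key _ _ h, nu_shift1 o hb h2 i k k']
  · rw [key _ _ h, nu_shift o hb h2 hij k k']

end

end S1

open S1

/-- NU, for all universes -/
theorem exists_nu {G : Type*} [Group G] (s : Sys G) (hb : Base1 s) (h2 : Base2 s) :
    ∃ ν : G, ν * ν = 1 ∧ (∀ p : ℕ, cj (s.x p) ν = ν) ∧
      ∀ (o : ℕ) (l m : Fin 5), l ≠ m → ⁅s.Th (o ^^^ c l), s.C (o ^^^ c m)⁆ = ν := by
  refine ⟨s.dl 0 * kap s 0 0, nu_sq 0 hb h2 0, fun p => ?_, fun o l m hlm => ?_⟩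
  · have h1 : s.x p = s.x ((p ^^^ c 0) ^^^ c 0) := by rw [xor_cancel]
    rw [h1, ← nu_all 0 hb h2 (p ^^^ c 0) 0 0]
    exact b_nu (p ^^^ c 0) hb h2 0 0
  · rw [nu_eq o hb h2 hlm 0]
    exact nu_all 0 hb h2 o 0 0

/-- NU -/
theorem specNu : SpecNu := fun G _ s hb h2 => exists_nu s hb h2

/-- STEP 1 -/
theorem step1 {G : Type*} [Group G] (s : Sys G) (hb : Base1 s) (h2 : Base2 s) (h : St1 s) :
    Step1 s := by
  have hk : ∀ (o : ℕ) (k : Fin 5), kap s o k = (s.dl o)⁻¹ := by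
    intro o k
    have h1 := nu_eq o hb h2 (show (0 : Fin 5) ≠ 1 by decide) k
    rw [(commutatorElement_eq_one_iff_commute.2 (h o 0 1 (by decide)))] at h1
    exact (inv_eq_of_mul_eq_one_right h1.symm).symm
  refine ⟨h, fun o m => dl_eq o hb h2 m, fun o i => dl_Y o hb h2 i, fun o m => dl_Th o hb h2 m,
    fun o m => dl_C o hb h2 m, fun o k => b_dl o hb h2 k, fun o k => zf_dl o hb h2 k,
    fun q m => ?_, fun q m => ?_, fun o i l m hlm hil him => ?_⟩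
  · have h1 := hk (q ^^^ c m) m
    rw [kap, xor_cancel, s.zf_c_self, inv_mul_eq_iff_eq_mul] at h1
    exact h1
  · have h1 := YC (q ^^^ c m) hb h2 m
    rw [xor_cancel] at h1
    rw [h1, sq]
  · have h1 := eq11 o hb h2 hlm hil him
    rw [hk, mul_inv_cancel_right] at h1
    exact ((cj_eq_self_iff _ _).1 h1).symm

end MPf02039
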