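import Pool.Agent.Lib.MP_f02039_co.Base1

/-! MP_f02039_co: STEP 2, the elements `Ξ`. -/

namespace MPf02039

open scoped commutatorElement

universe u

variable {G : Type u} [Group G]

/-! ### group lemmas -/

theorem commute_cj {g a b : G} (h : Commute a b) : Commute (cj g a) (cj g b) := by
  have : cj g (a * b) = cj g (b * a) := by rw [h.eq]
  rwa [cj_mul, cj_mul] at this

theorem cj_of_commute {a b : G} (h : Commute a b) : cj a b = b := by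
  rw [cj_eq_self_iff]; exact h.eq

theorem commute_of_cj {a b : G} (h : cj a b = b) : Commute a b := by
  rw [cj_eq_self_iff] at h; exact h

/-- The core computation.  `Z` the cusp, `a` the facet with `Z a Z a = Yk`. -/
theorem s2_core {Z a Yk Yi Yj Y0 Cq dl E : G}
    (hZ : Z * Z = 1) (ha : a * a = 1) (hYk : Z * a * Z * a = Yk)
    (hE : cj a dl = E) (hZC : cj Z Cq = Cq * dl⁻¹) (haC : cj a Cq = Cq⁻¹)
    (hCd : Commute dl Cq) (hZd : cj Z dl = dl⁻¹) (hdYk : Commute dl Yk)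
    (haYk : cj a Yk = Yk⁻¹) (hdYi : Commute dl Yi) (haYi : cj a Yi = Yi)
    (hother : cj a Y0 = Yk⁻¹ * Yi⁻¹ * Yj⁻¹) (hYj : Commute Cq Yj)
    (hY0 : cj Y0 Cq = dl⁻¹ ^ 2 * Cq) :
    Commute dl E ∧ Commute E Cq ∧ Commute E Yk ∧ Commute E Yi ∧ cj Z E = E⁻¹ ∧
      cj Yk Cq = dl * E⁻¹ * dl⁻¹ ^ 2 * Cq ∧ cj Yi Cq = dl * E⁻¹ * Cq := by
  have haa : ∀ u, cj a (cj a u) = u := fun u => by rw [← mul_cj, ha, one_cj]
  have hZZ : ∀ u, cj Z (cj Z u) = u := fun u => by rw [← mul_cj, hZ, one_cj]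
  have haE : cj a E = dl := by rw [← hE, haa]
  -- `Z` inverts `E`
  have hZE : cj Z E = E⁻¹ := by
    have h1 : cj Yk dl = dl := cj_of_commute hdYk.symm
    rw [← hYk, mul_cj, mul_cj, mul_cj, hE] at h1
    have h2 : cj a (cj Z E) = dl⁻¹ := by
      rw [← hZZ (cj a (cj Z E)), h1, hZd]
    rw [← haa (cj Z E), h2, cj_inv, hE]
  -- the commutator with `Yk`
  have hEC : Commute E Cq := by
    have h1 : Commute (cj a dl) (cj a Cq) := commute_cj hCd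
    rw [hE, haC] at h1
    exact Commute.inv_right_iff.1 h1
  have hZa : cj a Z = Z * Yk := by
    rw [← hYk, cj]
    have : a⁻¹ = a := inv_eq_of_mul_eq_one_left ha
    rw [this]
    calc a * Z * a = (Z * Z) * a * Z * a := by rw [hZ, one_mul]
      _ = Z * (Z * a * Z * a) := by group
  have h3 : cj Z (cj Yk Cq) = E * Cq := by
    have h4 : cj a (cj Z Cq) = cj (cj a Z) (cj a Cq) := by simp only [cj]; group
    rw [hZC, hZa, haC, mul_cj, cj_mul, cj_inv, haC, hE, cj_inv, cj_inv] at h4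
    have h5 := congrArg (fun u => u⁻¹) h4
    simp only [mul_inv_rev, inv_inv] at h5
    exact h5.symm
  have h6 : cj Yk Cq = E⁻¹ * dl⁻¹ * Cq := by
    rw [← hZZ (cj Yk Cq), h3, cj_mul, hZE, hZC]
    rw [mul_assoc, hCd.inv_left.eq]
  have hdE : Commute dl E := by
    have h7 : Commute (cj Yk dl) (cj Yk Cq) := commute_cj hCd
    rw [cj_of_commute hdYk.symm, h6] at h7
    have h8 : Commute dl (E⁻¹ * dl⁻¹ * Cq * Cq⁻¹ * dl) :=
      (h7.mul_right hCd.inv_right).mul_right (Commute.refl dl)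
    have h9 : E⁻¹ * dl⁻¹ * Cq * Cq⁻¹ * dl = E⁻¹ := by group
    rw [h9] at h8
    exact Commute.inv_right_iff.1 h8
  have hEYk : Commute E Yk := by
    have h1 : Commute (cj a dl) (cj a Yk) := commute_cj hdYk
    rw [hE, haYk] at h1
    exact Commute.inv_right_iff.1 h1
  have hEYi : Commute E Yi := by
    have h1 : Commute (cj a dl) (cj a Yi) := commute_cj hdYi
    rwa [hE, haYi] at h1
  -- the commutator with `Yi`
  have hYi : cj Yi⁻¹ Cq = E * dl⁻¹ * Cq := by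
    have h1 : Yi⁻¹ = Yk * cj a Y0 * Yj := by rw [hother]; group
    have h2 : cj (cj a Y0) Cq = Cq * E ^ 2 := by
      have h4 : cj (cj a Y0) Cq = cj a (cj Y0 (cj a Cq)) := by
        have h0 : a⁻¹ = a := inv_eq_of_mul_eq_one_left ha
        have h5 : cj (cj a Y0) Cq = cj a (cj Y0 (cj a⁻¹ Cq)) := by simp only [cj]; group
        rw [h5, h0]
      rw [h4, haC, cj_inv, hY0, cj_inv, cj_mul, haC, cj_pow, cj_inv, hE]
      simp only [mul_inv_rev, inv_inv, inv_pow]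
    rw [h1, mul_cj, mul_cj, cj_of_commute hYj.symm, h2, cj_mul, h6, cj_pow,
      cj_of_commute hEYk.symm]
    have e1 : Commute Cq (E ^ 2) := (hEC.symm.pow_right 2)
    have e2 : Commute dl⁻¹ (E ^ 2) := (hdE.inv_left.pow_right 2)
    calc E⁻¹ * dl⁻¹ * Cq * E ^ 2 = E⁻¹ * dl⁻¹ * (Cq * E ^ 2) := by group
      _ = E⁻¹ * (dl⁻¹ * E ^ 2) * Cq := by rw [e1.eq]; group
      _ = E⁻¹ * (E ^ 2 * dl⁻¹) * Cq := by rw [e2.eq]
      _ = E * dl⁻¹ * Cq := by group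
  refine ⟨hdE, hEC, hEYk, hEYi, hZE, ?_, ?_⟩
  · rw [h6]
    have e2 : Commute dl E⁻¹ := hdE.inv_right
    calc E⁻¹ * dl⁻¹ * Cq = E⁻¹ * dl * dl⁻¹ ^ 2 * Cq := by group
      _ = dl * E⁻¹ * dl⁻¹ ^ 2 * Cq := by rw [e2.eq]
  · have h1 : cj Yi (cj Yi⁻¹ Cq) = Cq := cj_inv_cj _ _
    have h2 : Commute Yi (E * dl⁻¹) := hEYi.symm.mul_right hdYi.symm.inv_right
    rw [hYi, cj_mul, cj_of_commute h2] at h1
    have h3 : cj Yi Cq = (E * dl⁻¹)⁻¹ * Cq := by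
      calc cj Yi Cq = (E * dl⁻¹)⁻¹ * (E * dl⁻¹ * cj Yi Cq) := by group
        _ = (E * dl⁻¹)⁻¹ * Cq := by rw [h1]
    rw [h3]; group

/-! ### the facts for a frame `o` and directions `i, j` and `k` -/

theorem Xi_eq (s : Sys G) (o : ℕ) (i j : Fin 5) :
    s.Xi o i j = s.dl o * (cj (s.x (o ^^^ c i ^^^ c j)) (s.dl o))⁻¹ := rfl

theorem s2_symm (s : Sys G) (o : ℕ) (i j : Fin 5) : s.Xi o j i = s.Xi o i j := by
  rw [Xi_eq, Xi_eq, Sys.xor_swap]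

section
variable (s : Sys G) (hb : Base1 s) (h2 : Base2 s) (h1 : Step1 s)
include hb h2 h1

theorem s2_all (o : ℕ) {i j k l m : Fin 5} (h : D5 i j k l m) :
    Commute (s.dl o) (cj (s.x (o ^^^ c i ^^^ c j)) (s.dl o)) ∧
    Commute (cj (s.x (o ^^^ c i ^^^ c j)) (s.dl o)) (s.C (o ^^^ c k)) ∧
    Commute (cj (s.x (o ^^^ c i ^^^ c j)) (s.dl o)) (s.Y (o ^^^ c l ^^^ c m) k) ∧
    Commute (cj (s.x (o ^^^ c i ^^^ c j)) (s.dl o)) (s.Y (o ^^^ c l ^^^ c m) i) ∧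
    cj (s.zf k o) (cj (s.x (o ^^^ c i ^^^ c j)) (s.dl o)) =
      (cj (s.x (o ^^^ c i ^^^ c j)) (s.dl o))⁻¹ ∧
    cj (s.Y (o ^^^ c l ^^^ c m) k) (s.C (o ^^^ c k)) =
      s.dl o * (cj (s.x (o ^^^ c i ^^^ c j)) (s.dl o))⁻¹ * (s.dl o)⁻¹ ^ 2 * s.C (o ^^^ c k) ∧
    cj (s.Y (o ^^^ c l ^^^ c m) i) (s.C (o ^^^ c k)) =
      s.dl o * (cj (s.x (o ^^^ c i ^^^ c j)) (s.dl o))⁻¹ * s.C (o ^^^ c k) := by
  obtain ⟨hij, hik, hil, him, hjk, hjl, hjm, hkl, hkm, hlm⟩ := h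
  have hv1 : o ^^^ c l ^^^ c m ^^^ c k = o ^^^ c i ^^^ c j :=
    c_two o i j l m k ⟨hij, hil, him, hik, hjl, hjm, hjk, hlm, hkl.symm, hkm.symm⟩
  have hv2 : o ^^^ c k ^^^ c l ^^^ c m = o ^^^ c i ^^^ c j :=
    c_two o i j k l m ⟨hij, hik, hil, him, hjk, hjl, hjm, hkl, hkm, hlm⟩
  refine s2_core (Z := s.zf k o) (a := s.x (o ^^^ c i ^^^ c j)) (Y0 := s.Y o k) (Yj := s.Y o j)
    (s.zf_sq k o) (s.x_sq _) ?_ rfl ?_ ?_ (h1.dl_C o k) (h1.zf_dl o k)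
    (h1.dl_Y2 o k l m hlm hkl hkm) ?_ (h1.dl_Y2 o i l m hlm hil him) ?_
    (hb.a_other o i j k l m ⟨hij, hik, hil, him, hjk, hjl, hjm, hkl, hkm, hlm⟩) ?_ ?_
  · rw [Sys.Y, s.zf_shift o hkl.symm hkm.symm, hv1]
  · have := h1.zf_C (o ^^^ c k) k
    rwa [s.zf_c_self, xor_cancel] at this
  · have := h2.xx_C (o ^^^ c k) l m hlm
    rwa [hv2] at this
  · have := hb.b_self (o ^^^ c l ^^^ c m) k
    rwa [hv1] at this
  · have := hb.b_ne (o ^^^ c l ^^^ c m) k i hik.symm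
    rwa [hv1] at this
  · have := h2.C_Y (o ^^^ c k) j k hjk
    rwa [xor_cancel] at this
  · have := h1.Y_C (o ^^^ c k) k
    rwa [xor_cancel] at this

/-- `[Y_i(q+c_i+c_j), C_q] = Ξ(q+c_k)` for every third direction `k`. -/
theorem s2_YC (q : ℕ) {i j k : Fin 5} (hij : i ≠ j) (hik : i ≠ k) (hjk : j ≠ k) :
    cj (s.Y (q ^^^ c i ^^^ c j) i) (s.C q) = s.Xi (q ^^^ c k) i j * s.C q := by
  obtain ⟨l, m, hD⟩ := exists_D5_3 hij hik hjk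
  have h := (s2_all s hb h2 h1 (q ^^^ c k) hD).2.2.2.2.2.2
  rwa [c_two q i j k l m hD, xor_cancel] at h

theorem s2_YC' (q : ℕ) {i j k : Fin 5} (hij : i ≠ j) (hik : i ≠ k) (hjk : j ≠ k) :
    cj (s.Y (q ^^^ c i ^^^ c j) k) (s.C q) =
      s.Xi (q ^^^ c k) i j * (s.dl (q ^^^ c k))⁻¹ ^ 2 * s.C q := by
  obtain ⟨l, m, hD⟩ := exists_D5_3 hij hik hjk
  have h := (s2_all s hb h2 h1 (q ^^^ c k) hD).2.2.2.2.2.1
  rwa [c_two q i j k l m hD, xor_cancel] at h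

theorem s2_shift (o : ℕ) {i j l m : Fin 5} (hij : i ≠ j) (hil : i ≠ l) (him : i ≠ m)
    (hjl : j ≠ l) (hjm : j ≠ m) : s.Xi (o ^^^ c l ^^^ c m) i j = s.Xi o i j := by
  have e1 := s2_YC s hb h2 h1 (o ^^^ c l) hij hil hjl
  have e2 := s2_YC s hb h2 h1 (o ^^^ c l) hij him hjm
  rw [e1] at e2
  have e3 := mul_right_cancel e2
  rw [xor_cancel] at e3
  exact e3.symm

theorem s2_dE (o : ℕ) {i j : Fin 5} (hij : i ≠ j) :
    Commute (s.dl o) (cj (s.x (o ^^^ c i ^^^ c j)) (s.dl o)) := by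
  obtain ⟨k, l, m, hD⟩ := exists_D5_2 hij
  exact (s2_all s hb h2 h1 o hD).1

theorem s2_dl (o : ℕ) {i j : Fin 5} (hij : i ≠ j) : Commute (s.Xi o i j) (s.dl o) := by
  rw [Xi_eq]
  exact (Commute.refl _).mul_left (s2_dE s hb h2 h1 o hij).symm.inv_left

theorem s2_C (o : ℕ) {i j k : Fin 5} (hij : i ≠ j) (hik : i ≠ k) (hjk : j ≠ k) :
    Commute (s.Xi o i j) (s.C (o ^^^ c k)) := by
  obtain ⟨l, m, hD⟩ := exists_D5_3 hij hik hjk
  rw [Xi_eq]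
  exact (h1.dl_C o k).mul_left (s2_all s hb h2 h1 o hD).2.1.inv_left

theorem s2_C' (o : ℕ) {i j : Fin 5} (hij : i ≠ j) :
    Commute (s.Xi o i j) (s.C (o ^^^ c i ^^^ c j)) := by
  obtain ⟨k, l, m, hD⟩ := exists_D5_2 hij
  have hD' := hD
  obtain ⟨-, hik, hil, him, hjk, hjl, hjm, hkl, hkm, hlm⟩ := hD'
  have e := s2_C s hb h2 h1 (o ^^^ c l ^^^ c m) hij hik hjk
  rw [s2_shift s hb h2 h1 o hij hil him hjl hjm] at e
  have hv : o ^^^ c l ^^^ c m ^^^ c k = o ^^^ c i ^^^ c j :=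
    c_two o i j l m k ⟨hij, hil, him, hik, hjl, hjm, hjk, hlm, hkl.symm, hkm.symm⟩
  rwa [hv] at e

/-- `Ξ(o)` commutes with `Y_i`, `Y_j`, `Y_k` of the frame `o + c_l + c_m` -/
theorem s2_Y3 (o : ℕ) {i j k l m : Fin 5} (hD : D5 i j k l m) :
    Commute (s.Xi o i j) (s.Y (o ^^^ c l ^^^ c m) i) ∧
    Commute (s.Xi o i j) (s.Y (o ^^^ c l ^^^ c m) k) := by
  have hD' := hD
  obtain ⟨hij, hik, hil, him, hjk, hjl, hjm, hkl, hkm, hlm⟩ := hD'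
  have h := s2_all s hb h2 h1 o hD
  rw [Xi_eq]
  exact ⟨(h1.dl_Y2 o i l m hlm hil him).mul_left h.2.2.2.1.inv_left,
    (h1.dl_Y2 o k l m hlm hkl hkm).mul_left h.2.2.1.inv_left⟩

theorem s2_Y (o : ℕ) {i j : Fin 5} (a : Fin 5) (hij : i ≠ j) :
    Commute (s.Xi o i j) (s.Y o a) := by
  by_cases hi : a = i
  · subst hi
    obtain ⟨k, l, m, hD⟩ := exists_D5_2 hij
    have hD' := hD
    obtain ⟨-, hik, hil, him, hjk, hjl, hjm, hkl, hkm, hlm⟩ := hD'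
    have e := (s2_Y3 s hb h2 h1 (o ^^^ c l ^^^ c m) hD).1
    have hv : o ^^^ c l ^^^ c m ^^^ c l ^^^ c m = o := by
      rw [Sys.xor_swap o, xor_cancel, xor_cancel]
    rwa [hv, s2_shift s hb h2 h1 o hij hil him hjl hjm] at e
  · by_cases hj : a = j
    · subst hj
      obtain ⟨k, l, m, hD⟩ := exists_D5_2 hij.symm
      have hD' := hD
      obtain ⟨-, hik, hil, him, hjk, hjl, hjm, hkl, hkm, hlm⟩ := hD'
      have e := (s2_Y3 s hb h2 h1 (o ^^^ c l ^^^ c m) hD).1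
      have hv : o ^^^ c l ^^^ c m ^^^ c l ^^^ c m = o := by
        rw [Sys.xor_swap o, xor_cancel, xor_cancel]
      rwa [hv, s2_shift s hb h2 h1 o hij.symm hil him hjl hjm, s2_symm] at e
    · obtain ⟨l, m, hD⟩ := exists_D5_3 hij (Ne.symm hi) (Ne.symm hj)
      have hD' := hD
      obtain ⟨-, hik, hil, him, hjk, hjl, hjm, hkl, hkm, hlm⟩ := hD'
      have e := (s2_Y3 s hb h2 h1 (o ^^^ c l ^^^ c m) hD).2
      have hv : o ^^^ c l ^^^ c m ^^^ c l ^^^ c m = o := by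
        rw [Sys.xor_swap o, xor_cancel, xor_cancel]
      rwa [hv, s2_shift s hb h2 h1 o hij hil him hjl hjm] at e

theorem s2_b (o : ℕ) {i j k : Fin 5} (hij : i ≠ j) (hik : i ≠ k) (hjk : j ≠ k) :
    cj (s.x (o ^^^ c k)) (s.Xi o i j) = (s.Xi o i j)⁻¹ := by
  obtain ⟨l, m, hD⟩ := exists_D5_3 hij hik hjk
  have hlm : l ≠ m := hD.2.2.2.2.2.2.2.2.2
  have hcom : s.x (o ^^^ c k) * s.x (o ^^^ c i ^^^ c j) =
      s.x (o ^^^ c i ^^^ c j) * s.x (o ^^^ c k) := by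
    have := s.x_comm (o ^^^ c k) l m hlm
    rwa [c_two o i j k l m hD] at this
  rw [Xi_eq, cj_mul, cj_inv, h1.b_dl, ← mul_cj, hcom, mul_cj, h1.b_dl, cj_inv, inv_inv]
  rw [mul_inv_rev, inv_inv]
  exact (s2_dE s hb h2 h1 o hij).inv_left.eq

theorem s2_zf (o : ℕ) {i j : Fin 5} (k : Fin 5) (hij : i ≠ j) :
    cj (s.zf k o) (s.Xi o i j) = (s.Xi o i j)⁻¹ := by
  have key : cj (s.zf k o) (cj (s.x (o ^^^ c i ^^^ c j)) (s.dl o)) =
      (cj (s.x (o ^^^ c i ^^^ c j)) (s.dl o))⁻¹ := by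
    have comm : ∀ {Z : G}, cj (s.x (o ^^^ c i ^^^ c j)) Z = Z →
        Z * s.x (o ^^^ c i ^^^ c j) = s.x (o ^^^ c i ^^^ c j) * Z := by
      intro Z hZ
      rw [cj_eq_self_iff] at hZ
      exact hZ.symm
    by_cases hi : k = i
    · subst hi
      rw [← mul_cj, comm (s.cj_a_Z o hij), mul_cj, h1.zf_dl, cj_inv]
    · by_cases hj : k = j
      · subst hj
        rw [← mul_cj, comm (s.cj_a_Z' o hij), mul_cj, h1.zf_dl, cj_inv]
      · obtain ⟨l, m, hD⟩ := exists_D5_3 hij (Ne.symm hi) (Ne.symm hj)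
        exact (s2_all s hb h2 h1 o hD).2.2.2.2.1
  rw [Xi_eq, cj_mul, cj_inv, h1.zf_dl, key, inv_inv, mul_inv_rev, inv_inv]
  exact (s2_dE s hb h2 h1 o hij).inv_left.eq

theorem s2_zo (o : ℕ) {i j k : Fin 5} (hij : i ≠ j) (hik : i ≠ k) (hjk : j ≠ k) :
    cj (s.zo k o) (s.Xi o i j) = (s.Xi o i j)⁻¹ := by
  obtain ⟨l, m, hD⟩ := exists_D5_3 hij hik hjk
  obtain ⟨-, -, hil, him, -, hjl, hjm, hkl, hkm, hlm⟩ := hD
  have e := s2_zf s hb h2 h1 (o ^^^ c k ^^^ c l) k hij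
  rwa [s2_shift s hb h2 h1 o hij hik hil hjk hjl, s.zf_c_ne hkl.symm, s.zo_c_self] at e

end

theorem s2_a_dl (s : Sys G) (o : ℕ) (i j : Fin 5) :
    cj (s.x (o ^^^ c i ^^^ c j)) (s.dl o) = (s.Xi o i j)⁻¹ * s.dl o := by
  rw [Xi_eq]; group

/-- (X2) -/
theorem s2_b' (s : Sys G) (h1 : Step1 s) (o : ℕ) {i j : Fin 5} (hij : i ≠ j) :
    cj (s.x (o ^^^ c i)) (s.Xi o i j) = (s.dl o)⁻¹ ^ 2 * s.Xi o i j := by
  have hZ := h1.zf_dl o j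
  have ha := s2_a_dl s o i j
  rw [← s.ba o hij, mul_cj, mul_cj, mul_cj, ha, cj_mul, cj_inv, h1.b_dl] at hZ
  have e1 : cj (s.x (o ^^^ c i ^^^ c j)) ((cj (s.x (o ^^^ c i)) (s.Xi o i j))⁻¹ * (s.dl o)⁻¹) =
      s.dl o := by
    have := congrArg (cj (s.x (o ^^^ c i))) hZ
    rwa [s.cj_x_x, cj_inv, h1.b_dl, inv_inv] at this
  have e2 := congrArg (cj (s.x (o ^^^ c i ^^^ c j))) e1
  rw [s.cj_x_x, ha] at e2
  have e3 : (cj (s.x (o ^^^ c i)) (s.Xi o i j))⁻¹ = (s.Xi o i j)⁻¹ * s.dl o * s.dl o := by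
    rw [← e2]; group
  rw [← inv_inv (cj (s.x (o ^^^ c i)) (s.Xi o i j)), e3]
  group

theorem s2_a (s : Sys G) (o : ℕ) (i j : Fin 5) :
    cj (s.x (o ^^^ c i ^^^ c j)) (s.Xi o i j) = (s.Xi o i j)⁻¹ := by
  rw [Xi_eq, cj_mul, cj_inv, s.cj_x_x]; group

/-! ### commutation -/

theorem cg_E4 {K : Type*} [CommGroup K] (X P Q e e' : K)
    (h : (e'⁻¹ * P) ^ 2 * e' * (Q ^ 2 * e⁻¹) * (e'⁻¹ * X) = X⁻¹ * e) :
    Q ^ 2 * P ^ 2 * X ^ 2 = e ^ 2 * e' ^ 2 := by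
  have h1 : Q ^ 2 * P ^ 2 * X ^ 2 =
      ((e'⁻¹ * P) ^ 2 * e' * (Q ^ 2 * e⁻¹) * (e'⁻¹ * X)) * (X * e * e' ^ 2) := by
    apply Additive.ofMul.injective
    simp only [ofMul_mul, ofMul_pow, ofMul_inv]; abel
  rw [h1, h]
  apply Additive.ofMul.injective
  simp only [ofMul_mul, ofMul_pow, ofMul_inv]; abel

/-- Pairwise commuting elements lie in the image of a commutative group. -/
theorem exists_comm (S : Set G) (hS : ∀ x ∈ S, ∀ y ∈ S, x * y = y * x) :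
    ∃ (K : Type u) (_ : CommGroup K) (f : K →* G), Function.Injective f ∧
      ∀ x ∈ S, ∃ x', f x' = x := by
  have hc : IsMulCommutative (Subgroup.closure S) := Subgroup.isMulCommutative_closure hS
  refine ⟨Subgroup.closure S, { (inferInstance : Group (Subgroup.closure S)) with
    mul_comm := fun a b => hc.is_comm.comm a b }, (Subgroup.closure S).subtype,
    Subtype.val_injective, ?_⟩
  intro x hx
  exact ⟨⟨x, Subgroup.subset_closure hx⟩, rfl⟩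

theorem comm5 {X P Q e e' : G} (h12 : Commute X P) (h13 : Commute X Q) (h14 : Commute X e)
    (h15 : Commute X e') (h23 : Commute P Q) (h24 : Commute P e) (h25 : Commute P e')
    (h34 : Commute Q e) (h35 : Commute Q e') (h45 : Commute e e')
    (h : (e'⁻¹ * P) ^ 2 * e' * (Q ^ 2 * e⁻¹) * (e'⁻¹ * X) = X⁻¹ * e) :
    Q ^ 2 * P ^ 2 * X ^ 2 = e ^ 2 * e' ^ 2 := by
  obtain ⟨K, _, f, hf, hS⟩ := exists_comm ({X, P, Q, e, e'} : Set G) (by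
    intro x hx y hy
    simp only [Set.mem_insert_iff, Set.mem_singleton_iff] at hx hy
    rcases hx with rfl | rfl | rfl | rfl | rfl <;> rcases hy with rfl | rfl | rfl | rfl | rfl <;>
      first
        | rfl
        | exact Commute.eq (by assumption)
        | exact Commute.eq (Commute.symm (by assumption)))
  obtain ⟨X, rfl⟩ := hS X (by simp)
  obtain ⟨P, rfl⟩ := hS P (by simp)
  obtain ⟨Q, rfl⟩ := hS Q (by simp)
  obtain ⟨e, rfl⟩ := hS e (by simp)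
  obtain ⟨e', rfl⟩ := hS e' (by simp)
  simp only [← map_mul, ← map_pow, ← map_inv] at h ⊢
  exact congrArg f (cg_E4 X P Q e e' (hf h))

/-- The computation for (E4). -/
theorem e4_core {b b' X P Q D D' : G}
    (hb : ∀ u, cj b (cj b u) = u)
    (h : cj b (cj b' (cj b (cj b' X))) = X⁻¹)
    (hbX : cj b X = D⁻¹ ^ 2 * X) (hb'X : cj b' X = D'⁻¹ ^ 2 * X)
    (hbD' : cj b D' = P⁻¹ * D') (hb'D : cj b' D = Q⁻¹ * D)
    (hb'D' : cj b' D' = D'⁻¹)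
    (hb'P : cj b' P = D'⁻¹ ^ 2 * P)
    (hXP : Commute X P) (hXQ : Commute X Q) (hPQ : Commute P Q)
    (hXD : Commute X D) (hXD' : Commute X D') (hPD : Commute P D) (hPD' : Commute P D')
    (hQD : Commute Q D) (hQD' : Commute Q D') (hDD : Commute (D ^ 2) (D' ^ 2)) :
    Q ^ 2 * P ^ 2 * X ^ 2 = D ^ 4 * D' ^ 4 := by
  have h1 : cj b (cj b' X) = P ^ 2 * (D' ^ 2)⁻¹ * (D ^ 2)⁻¹ * X := by
    rw [hb'X, cj_mul, cj_pow, cj_inv, hbD', hbX]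
    have e1 : (P⁻¹ * D')⁻¹ ^ 2 = P ^ 2 * (D' ^ 2)⁻¹ := by
      rw [inv_pow, (hPD'.inv_left).mul_pow, mul_inv_rev, inv_pow, inv_inv]
      exact ((hPD'.pow_pow 2 2).inv_right).eq.symm
    rw [e1, inv_pow]; group
  have h2 : cj b' (P ^ 2 * (D' ^ 2)⁻¹ * (D ^ 2)⁻¹ * X) =
      ((D' ^ 2)⁻¹ * P) ^ 2 * D' ^ 2 * (Q ^ 2 * (D ^ 2)⁻¹) * ((D' ^ 2)⁻¹ * X) := by
    rw [cj_mul, cj_mul, cj_mul, cj_pow, cj_inv, cj_pow, cj_inv, cj_pow, hb'P, hb'D', hb'D, hb'X]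
    have e1 : ((Q⁻¹ * D) ^ 2)⁻¹ = Q ^ 2 * (D ^ 2)⁻¹ := by
      rw [(hQD.inv_left).mul_pow, mul_inv_rev, inv_pow, inv_inv]
      exact ((hQD.pow_pow 2 2).inv_right).eq.symm
    have e2 : (D'⁻¹ ^ 2)⁻¹ = D' ^ 2 := by rw [inv_pow, inv_inv]
    rw [e1, e2, inv_pow]
  have h3 : cj b' (cj b (cj b' X)) = X⁻¹ * D ^ 2 := by
    have h4 := congrArg (cj b) h
    rw [hb, cj_inv, hbX] at h4
    rw [h4, mul_inv_rev, inv_pow, inv_inv]
  rw [h1, h2] at h3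
  have h5 := comm5 hXP hXQ (hXD.pow_right 2) (hXD'.pow_right 2) hPQ (hPD.pow_right 2)
    (hPD'.pow_right 2) (hQD.pow_right 2) (hQD'.pow_right 2) hDD h3
  rw [h5, ← pow_mul, ← pow_mul]

section
variable (s : Sys G) (hb : Base1 s) (h2 : Base2 s) (h1 : Step1 s)
include hb h2 h1

/-- `Ξ` of two pairs with a common cusp commute. -/
theorem s2_XX (o : ℕ) {i j k : Fin 5} (hij : i ≠ j) (hik : i ≠ k) (hjk : j ≠ k) :
    Commute (s.Xi o i j) (s.Xi o i k) := by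
  obtain ⟨l, m, hD⟩ := exists_D5_3 hij hik hjk
  have hD' := hD
  obtain ⟨-, -, hil, him, -, hjl, hjm, hkl, hkm, hlm⟩ := hD'
  -- `o'' = o + c_l + c_m`, `a_ij(o) = b_k(o'')`, `a_ik(o) = b_j(o'')`
  have v1 : o ^^^ c l ^^^ c m ^^^ c k = o ^^^ c i ^^^ c j :=
    c_two o i j l m k ⟨hij, hil, him, hik, hjl, hjm, hjk, hlm, hkl.symm, hkm.symm⟩
  have v2 : o ^^^ c l ^^^ c m ^^^ c j = o ^^^ c i ^^^ c k :=
    c_two o i k l m j ⟨hik, hil, him, hij, hkl, hkm, hjk.symm, hlm, hjl.symm, hjm.symm⟩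
  have x1 : s.Xi (o ^^^ c l ^^^ c m) i j = s.Xi o i j :=
    s2_shift s hb h2 h1 o hij hil him hjl hjm
  have x2 : s.Xi (o ^^^ c l ^^^ c m) i k = s.Xi o i k :=
    s2_shift s hb h2 h1 o hik hil him hkl hkm
  have a1 : cj (s.x (o ^^^ c i ^^^ c j)) (s.Xi o i k) =
      (s.dl (o ^^^ c l ^^^ c m))⁻¹ ^ 2 * s.Xi o i k := by
    have := s2_b' s h1 (o ^^^ c l ^^^ c m) hik.symm
    rwa [v1, s2_symm s _ i k, x2] at this
  have a2 : cj (s.x (o ^^^ c i ^^^ c k)) (s.Xi o i j) =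
      (s.dl (o ^^^ c l ^^^ c m))⁻¹ ^ 2 * s.Xi o i j := by
    have := s2_b' s h1 (o ^^^ c l ^^^ c m) hij.symm
    rwa [v2, s2_symm s _ i j, x1] at this
  have hcom : s.x (o ^^^ c i ^^^ c j) * s.x (o ^^^ c i ^^^ c k) =
      s.x (o ^^^ c i ^^^ c k) * s.x (o ^^^ c i ^^^ c j) := by
    have := s.x_comm (o ^^^ c i ^^^ c j) j k hjk
    rwa [xor_cancel] at this
  have e1 : cj (s.x (o ^^^ c i ^^^ c j)) (cj (s.x (o ^^^ c i ^^^ c k)) (s.dl o)) =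
      cj (s.x (o ^^^ c i ^^^ c k)) (cj (s.x (o ^^^ c i ^^^ c j)) (s.dl o)) := by
    rw [← mul_cj, hcom, mul_cj]
  rw [s2_a_dl, s2_a_dl, cj_mul, cj_inv, a1, s2_a_dl, cj_mul, cj_inv, a2, s2_a_dl] at e1
  -- cancel
  have hd1 : Commute (s.Xi o i j) (s.dl (o ^^^ c l ^^^ c m)) := by
    have := s2_dl s hb h2 h1 (o ^^^ c l ^^^ c m) hij
    rwa [x1] at this
  have hd2 : Commute (s.Xi o i k) (s.dl (o ^^^ c l ^^^ c m)) := by
    have := s2_dl s hb h2 h1 (o ^^^ c l ^^^ c m) hik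
    rwa [x2] at this
  have e2 : (s.Xi o i k)⁻¹ * s.dl (o ^^^ c l ^^^ c m) ^ 2 * (s.Xi o i j)⁻¹ =
      (s.Xi o i j)⁻¹ * s.dl (o ^^^ c l ^^^ c m) ^ 2 * (s.Xi o i k)⁻¹ := by
    have e3 : (s.Xi o i k)⁻¹ * s.dl (o ^^^ c l ^^^ c m) ^ 2 * (s.Xi o i j)⁻¹ * s.dl o =
        (s.Xi o i j)⁻¹ * s.dl (o ^^^ c l ^^^ c m) ^ 2 * (s.Xi o i k)⁻¹ * s.dl o := by
      simp only [mul_inv_rev, inv_pow, inv_inv] at e1
      simpa only [mul_assoc] using e1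
    exact mul_right_cancel e3
  have c1 : Commute (s.dl (o ^^^ c l ^^^ c m) ^ 2) (s.Xi o i j)⁻¹ :=
    (hd1.symm.pow_left 2).inv_right
  have c2 : Commute (s.dl (o ^^^ c l ^^^ c m) ^ 2) (s.Xi o i k)⁻¹ :=
    (hd2.symm.pow_left 2).inv_right
  rw [mul_assoc, c1.eq, mul_assoc _ (s.dl (o ^^^ c l ^^^ c m) ^ 2), c2.eq, ← mul_assoc,
    ← mul_assoc] at e2
  have e4 : (s.Xi o i k)⁻¹ * (s.Xi o i j)⁻¹ = (s.Xi o i j)⁻¹ * (s.Xi o i k)⁻¹ :=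
    mul_right_cancel e2
  have e5 : Commute (s.Xi o i k)⁻¹ (s.Xi o i j)⁻¹ := e4
  exact (Commute.inv_inv_iff.1 e5).symm

/-- `δ_{o+c_l+c_m}` commutes with `δ_o²`. -/
theorem s2_dd (o : ℕ) {l m : Fin 5} (hlm : l ≠ m) :
    Commute (s.dl (o ^^^ c l ^^^ c m)) (s.dl o ^ 2) := by
  obtain ⟨i, j, k, hD⟩ := exists_D5_2 hlm
  obtain ⟨-, hli, hlj, hlk, hmi, hmj, hmk, hij, hik, hjk⟩ := hD
  -- `b_j(o) = a_ik(o')`
  have v2 : o ^^^ c l ^^^ c m ^^^ c i ^^^ c k = o ^^^ c j := by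
    have := c_two (o ^^^ c j) l m i k j ⟨hlm, hli, hlk, hlj, hmi, hmk, hmj, hik, hij, hjk.symm⟩
    rw [← xor_cancel (o ^^^ c l ^^^ c m ^^^ c i ^^^ c k) (c j)]
    have e := c_sum l m i k j ⟨hlm, hli, hlk, hlj, hmi, hmk, hmj, hik, hij, hjk.symm⟩
    have e2 : o ^^^ c l ^^^ c m ^^^ c i ^^^ c k ^^^ c j = o := by
      have : o ^^^ c l ^^^ c m ^^^ c i ^^^ c k ^^^ c j =
          o ^^^ (c l ^^^ c m ^^^ c i ^^^ c k ^^^ c j) := by
        simp only [Nat.xor_assoc]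
      rw [this, e, Nat.xor_zero]
    rw [e2]
  have x1 : s.Xi (o ^^^ c l ^^^ c m) j k = s.Xi o j k :=
    s2_shift s hb h2 h1 o hjk hlj.symm hmj.symm hlk.symm hmk.symm
  have x2 : s.Xi (o ^^^ c l ^^^ c m) i k = s.Xi o i k :=
    s2_shift s hb h2 h1 o hik hli.symm hmi.symm hlk.symm hmk.symm
  have hA : Commute (s.Xi o j k) (s.dl (o ^^^ c l ^^^ c m)) := by
    have := s2_dl s hb h2 h1 (o ^^^ c l ^^^ c m) hjk
    rwa [x1] at this
  have hB : Commute (cj (s.x (o ^^^ c j)) (s.Xi o j k))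
      (cj (s.x (o ^^^ c j)) (s.dl (o ^^^ c l ^^^ c m))) := commute_cj hA
  have e1 : cj (s.x (o ^^^ c j)) (s.dl (o ^^^ c l ^^^ c m)) =
      (s.Xi o i k)⁻¹ * s.dl (o ^^^ c l ^^^ c m) := by
    have := s2_a_dl s (o ^^^ c l ^^^ c m) i k
    rwa [v2, x2] at this
  rw [s2_b' s h1 o hjk, e1] at hB
  -- `Ξ_ik` commutes with `δ_o` and `Ξ_jk`
  have c1 : Commute (s.Xi o i k) ((s.dl o)⁻¹ ^ 2 * s.Xi o j k) := by
    refine Commute.mul_right ((s2_dl s hb h2 h1 o hik).inv_right.pow_right 2) ?_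
    have := s2_XX s hb h2 h1 o hik.symm hjk.symm hij
    rwa [s2_symm s o i k, s2_symm s o j k] at this
  have c2 : Commute ((s.dl o)⁻¹ ^ 2 * s.Xi o j k) (s.dl (o ^^^ c l ^^^ c m)) := by
    have := (c1.symm).mul_right hB
    rwa [mul_inv_cancel_left] at this
  have c3 : Commute ((s.dl o)⁻¹ ^ 2) (s.dl (o ^^^ c l ^^^ c m)) := by
    have := c2.mul_left hA.inv_left
    rwa [mul_assoc, mul_inv_cancel, mul_one] at this
  rw [inv_pow] at c3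
  exact (Commute.inv_left_iff.1 c3).symm

/-- (E4) -/
theorem s2_E4 (o : ℕ) {i j k l m : Fin 5} (hD : D5 i j k l m) :
    s.Xi o i j ^ 2 * s.Xi o i k ^ 2 * s.Xi o j k ^ 2 =
      s.dl o ^ 4 * s.dl (o ^^^ c l ^^^ c m) ^ 4 := by
  have hD' := hD
  obtain ⟨hij, hik, hil, him, hjk, hjl, hjm, hkl, hkm, hlm⟩ := hD'
  -- `b = b_j(o) = a_ik(o')`, `b' = b_k(o') = a_ij(o)`
  have v1 : o ^^^ c l ^^^ c m ^^^ c k = o ^^^ c i ^^^ c j :=
    c_two o i j l m k ⟨hij, hil, him, hik, hjl, hjm, hjk, hlm, hkl.symm, hkm.symm⟩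
  have v2 : o ^^^ c l ^^^ c m ^^^ c i ^^^ c k = o ^^^ c j := by
    have e := c_sum l m i k j ⟨hlm, hil.symm, hkl.symm, hjl.symm, him.symm, hkm.symm, hjm.symm,
      hik, hij, hjk.symm⟩
    rw [← xor_cancel (o ^^^ c l ^^^ c m ^^^ c i ^^^ c k) (c j)]
    have e2 : o ^^^ c l ^^^ c m ^^^ c i ^^^ c k ^^^ c j =
          o ^^^ (c l ^^^ c m ^^^ c i ^^^ c k ^^^ c j) := by
        simp only [Nat.xor_assoc]
    rw [e2, e, Nat.xor_zero]
  have x1 : s.Xi (o ^^^ c l ^^^ c m) j k = s.Xi o j k :=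
    s2_shift s hb h2 h1 o hjk hjl hjm hkl hkm
  have x2 : s.Xi (o ^^^ c l ^^^ c m) i k = s.Xi o i k :=
    s2_shift s hb h2 h1 o hik hil him hkl hkm
  have x3 : s.Xi (o ^^^ c l ^^^ c m) i j = s.Xi o i j :=
    s2_shift s hb h2 h1 o hij hil him hjl hjm
  have y1 : cj (s.x (o ^^^ c i ^^^ c j)) (s.Xi o j k) =
      (s.dl (o ^^^ c l ^^^ c m))⁻¹ ^ 2 * s.Xi o j k := by
    have := s2_b' s h1 (o ^^^ c l ^^^ c m) hjk.symm
    rwa [v1, s2_symm s _ j k, x1] at this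
  have y2 : cj (s.x (o ^^^ c i ^^^ c j)) (s.Xi o i k) =
      (s.dl (o ^^^ c l ^^^ c m))⁻¹ ^ 2 * s.Xi o i k := by
    have := s2_b' s h1 (o ^^^ c l ^^^ c m) hik.symm
    rwa [v1, s2_symm s _ i k, x2] at this
  have y3 : cj (s.x (o ^^^ c j)) (s.dl (o ^^^ c l ^^^ c m)) =
      (s.Xi o i k)⁻¹ * s.dl (o ^^^ c l ^^^ c m) := by
    have := s2_a_dl s (o ^^^ c l ^^^ c m) i k
    rwa [v2, x2] at this
  have y4 : cj (s.x (o ^^^ c i ^^^ c j)) (s.dl (o ^^^ c l ^^^ c m)) =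
      (s.dl (o ^^^ c l ^^^ c m))⁻¹ := by
    have := h1.b_dl (o ^^^ c l ^^^ c m) k
    rwa [v1] at this
  refine e4_core (b := s.x (o ^^^ c j)) (b' := s.x (o ^^^ c i ^^^ c j)) (s.cj_x_x _) ?_
    (s2_b' s h1 o hjk) y1 y3 (s2_a_dl s o i j) y4 y2 ?_ ?_ ?_ (s2_dl s hb h2 h1 o hjk) ?_
    (s2_dl s hb h2 h1 o hik) ?_ (s2_dl s hb h2 h1 o hij) ?_
    ((s2_dd s hb h2 h1 o hlm).symm.pow_right 2)
  · have := s2_zf s hb h2 h1 o i hjk
    rwa [← s.ba' o hij, mul_cj, mul_cj, mul_cj] at this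
  · have := s2_XX s hb h2 h1 o hjk.symm hik.symm hij.symm
    rwa [s2_symm s o i k, s2_symm s o j k] at this
  · have := s2_XX s hb h2 h1 o hjk hij.symm hik.symm
    rwa [s2_symm s o i j] at this
  · exact s2_XX s hb h2 h1 o hik hij hjk.symm
  · have := s2_dl s hb h2 h1 (o ^^^ c l ^^^ c m) hjk
    rwa [x1] at this
  · have := s2_dl s hb h2 h1 (o ^^^ c l ^^^ c m) hik
    rwa [x2] at this
  · have := s2_dl s hb h2 h1 (o ^^^ c l ^^^ c m) hij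
    rwa [x3] at this

theorem s2_d4 (o : ℕ) {l m : Fin 5} (hlm : l ≠ m) :
    Commute (s.dl o) (s.dl (o ^^^ c l ^^^ c m) ^ 4) := by
  have h := s2_dd s hb h2 h1 (o ^^^ c l ^^^ c m) hlm
  have hv : o ^^^ c l ^^^ c m ^^^ c l ^^^ c m = o := by
    rw [Sys.xor_swap o, xor_cancel, xor_cancel]
  rw [hv] at h
  have := h.pow_right 2
  rwa [← pow_mul] at this

theorem s2_pair (o : ℕ) {i j k l m : Fin 5} (hD : D5 i j k l m) :
    Commute (s.dl o) (s.Xi (o ^^^ c j ^^^ c k) i j ^ 2 * s.Xi (o ^^^ c j ^^^ c k) l j ^ 2) := by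
  obtain ⟨hij, hik, hil, him, hjk, hjl, hjm, hkl, hkm, hlm⟩ := hD
  have e := s2_E4 s hb h2 h1 (o ^^^ c j ^^^ c k) (i := i) (j := l) (k := j) (l := k) (m := m)
    ⟨hil, hij, hik, him, hjl.symm, hkl.symm, hlm, hjk, hjm, hkm⟩
  have hv : o ^^^ c j ^^^ c k ^^^ c k ^^^ c m = o ^^^ c j ^^^ c m := by rw [xor_cancel]
  rw [hv, s2_shift s hb h2 h1 o hil hij hik hjl.symm hkl.symm] at e
  have e2 : s.Xi (o ^^^ c j ^^^ c k) i j ^ 2 * s.Xi (o ^^^ c j ^^^ c k) l j ^ 2 =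
      (s.Xi o i l ^ 2)⁻¹ * (s.dl (o ^^^ c j ^^^ c k) ^ 4 * s.dl (o ^^^ c j ^^^ c m) ^ 4) := by
    rw [← e]; group
  rw [e2]
  exact (((s2_dl s hb h2 h1 o hil).symm.pow_right 2).inv_right).mul_right
    ((s2_d4 s hb h2 h1 o hjk).mul_right (s2_d4 s hb h2 h1 o hjm))

theorem s2_K5 (o : ℕ) {i j k : Fin 5} (hij : i ≠ j) (hik : i ≠ k) (hjk : j ≠ k) :
    Commute (s.dl o) (s.Xi (o ^^^ c j ^^^ c k) i j ^ 4) := by
  obtain ⟨l, m, hD⟩ := exists_D5_3 hij hik hjk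
  have hD' := hD
  obtain ⟨-, -, hil, him, -, hjl, hjm, hkl, hkm, hlm⟩ := hD'
  have p1 := s2_pair s hb h2 h1 o hD
  have p2 := s2_pair s hb h2 h1 o (i := i) (j := j) (k := k) (l := m) (m := l)
    ⟨hij, hik, him, hil, hjk, hjm, hjl, hkm, hkl, hlm.symm⟩
  have p3 := s2_pair s hb h2 h1 o (i := l) (j := j) (k := k) (l := m) (m := i)
    ⟨hjl.symm, hkl.symm, hlm, hil.symm, hjk, hjm, hij.symm, hkm, hik.symm, him.symm⟩
  have q := (p1.mul_right p2).mul_right p3.inv_right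
  have c1 : Commute (s.Xi (o ^^^ c j ^^^ c k) i j) (s.Xi (o ^^^ c j ^^^ c k) l j) := by
    have := s2_XX s hb h2 h1 (o ^^^ c j ^^^ c k) hij.symm hjl hil
    rwa [s2_symm s _ i j, s2_symm s _ l j] at this
  have e : s.Xi (o ^^^ c j ^^^ c k) i j ^ 2 * s.Xi (o ^^^ c j ^^^ c k) l j ^ 2 *
      (s.Xi (o ^^^ c j ^^^ c k) i j ^ 2 * s.Xi (o ^^^ c j ^^^ c k) m j ^ 2) *
      (s.Xi (o ^^^ c j ^^^ c k) l j ^ 2 * s.Xi (o ^^^ c j ^^^ c k) m j ^ 2)⁻¹ =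
      s.Xi (o ^^^ c j ^^^ c k) i j ^ 4 := by
    have c2 := (c1.pow_pow 2 2).symm.eq
    calc _ = s.Xi (o ^^^ c j ^^^ c k) i j ^ 2 * (s.Xi (o ^^^ c j ^^^ c k) l j ^ 2 *
          s.Xi (o ^^^ c j ^^^ c k) i j ^ 2) * (s.Xi (o ^^^ c j ^^^ c k) l j ^ 2)⁻¹ := by group
      _ = s.Xi (o ^^^ c j ^^^ c k) i j ^ 4 := by rw [c2]; group
  rwa [e] at q

end

theorem step2 (s : Sys G) (hb : Base1 s) (h2 : Base2 s) (h1 : Step1 s) : Step2 s where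
  Xi_symm o i j _ := s2_symm s o i j
  Xi_shift o i j l m hij _ hil him hjl hjm := s2_shift s hb h2 h1 o hij hil him hjl hjm
  Xi_dl o i j hij := s2_dl s hb h2 h1 o hij
  Xi_C o i j k hij hki hkj := s2_C s hb h2 h1 o hij hki.symm hkj.symm
  Xi_C' o i j hij := s2_C' s hb h2 h1 o hij
  Xi_Y o i j a hij := s2_Y s hb h2 h1 o a hij
  b_Xi o i j k hij hki hkj := s2_b s hb h2 h1 o hij hki.symm hkj.symm
  a_Xi o i j _ := s2_a s o i j
  zf_Xi o i j k hij := s2_zf s hb h2 h1 o k hij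
  zo_Xi o i j k hij hki hkj := s2_zo s hb h2 h1 o hij hki.symm hkj.symm
  a_dl o i j _ := s2_a_dl s o i j
  b_Xi' o i j hij := s2_b' s h1 o hij
  Y_C_i q i j hij := by
    obtain ⟨k, l, m, hD⟩ := exists_D5_2 hij
    have hD' := hD
    obtain ⟨-, hik, hil, him, hjk, hjl, hjm, hkl, hkm, hlm⟩ := hD'
    have e := s2_YC s hb h2 h1 q hij hik hjk
    have x := s2_shift s hb h2 h1 (q ^^^ c k) hij hil him hjl hjm
    rw [c_two q i j k l m hD] at x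
    rw [e, x]
  Y_C_k q i j k hij hki hkj := by
    obtain ⟨l, m, hD⟩ := exists_D5_3 hij hki.symm hkj.symm
    have hD' := hD
    obtain ⟨-, hik, hil, him, hjk, hjl, hjm, hkl, hkm, hlm⟩ := hD'
    have e := s2_YC' s hb h2 h1 q hij hik hjk
    have x := s2_shift s hb h2 h1 (q ^^^ c k) hij hil him hjl hjm
    rw [c_two q i j k l m hD] at x
    rw [e, x]
  dl_sq_comm o l m hlm := (s2_dd s hb h2 h1 o hlm).symm.pow_right 2
  dl_four o l m hlm := s2_d4 s hb h2 h1 o hlm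
  Xi_sq_comm o i j k hij hik hjk := (s2_XX s hb h2 h1 o hij hik hjk).pow_left 2
  E4 o i j k l m hD := s2_E4 s hb h2 h1 o hD
  K5 o i j k hij hki hkj := s2_K5 s hb h2 h1 o hij hki.symm hkj.symm

end MPf02039
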