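import Pool.Agent.Lib.MP_f02039_co.Spec

/-!
MP_f02039_co: STEP 3, torsion of `δ` and `Ξ`.
-/

namespace MPf02039

variable {G : Type*} [Group G]

namespace S3

/-- the abstract computation -/
theorem core (x KL KA LA AC AB dk dl db dc : G)
    (Ea : KL ^ 2 * KA ^ 2 * LA ^ 2 = db ^ 4 * dc ^ 4)
    (h1 : Commute (KL ^ 2) (KA ^ 2)) (h2 : Commute (KL ^ 2) (LA ^ 2))
    (h3 : Commute (KA ^ 2) (LA ^ 2)) (h4 : Commute (db ^ 4) (dc ^ 4))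
    (x1 : cj x KA = dl⁻¹ ^ 2 * KA) (x2 : cj x LA = dk⁻¹ ^ 2 * LA)
    (x3 : cj x db = AC⁻¹ * db) (x4 : cj x dc = AB⁻¹ * dc)
    (c1 : Commute dl KA) (c2 : Commute dk LA) (c3 : Commute AC db) (c4 : Commute AB dc)
    (c5 : Commute dk (KA ^ 4)) (c6 : Commute db (AB ^ 4)) :
    cj x (KL ^ 4) * (dl⁻¹) ^ 8 * (dk⁻¹) ^ 8 * (KL ^ 4)⁻¹ = (AC⁻¹) ^ 8 * (AB⁻¹) ^ 8 := by
  have A0 : KL ^ 4 * KA ^ 4 * LA ^ 4 = db ^ 8 * dc ^ 8 := by
    have e : (KL ^ 2 * KA ^ 2 * LA ^ 2) ^ 2 = (db ^ 4 * dc ^ 4) ^ 2 := by rw [Ea]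
    rw [(h2.mul_left h3).mul_pow, h1.mul_pow, h4.mul_pow] at e
    simp only [← pow_mul] at e
    exact e
  have A1 := congrArg (cj x) A0
  simp only [cj_mul, cj_pow, x1, x2, x3, x4] at A1
  have p1 : (dl⁻¹ ^ 2 * KA) ^ 4 = dl⁻¹ ^ 8 * KA ^ 4 := by
    rw [((c1.inv_left).pow_left 2).mul_pow, ← pow_mul]
  have p2 : (dk⁻¹ ^ 2 * LA) ^ 4 = dk⁻¹ ^ 8 * LA ^ 4 := by
    rw [((c2.inv_left).pow_left 2).mul_pow, ← pow_mul]
  have p3 : (AC⁻¹ * db) ^ 8 = AC⁻¹ ^ 8 * db ^ 8 := (c3.inv_left).mul_pow 8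
  have p4 : (AB⁻¹ * dc) ^ 8 = AB⁻¹ ^ 8 * dc ^ 8 := (c4.inv_left).mul_pow 8
  rw [p1, p2, p3, p4] at A1
  have q1 : Commute (KA ^ 4) (dk⁻¹ ^ 8) := ((c5.inv_left).pow_left 8).symm
  have q2 : Commute (db ^ 8) (AB⁻¹ ^ 8) := by
    have h := ((c6.inv_right).pow_left 8).pow_right 2
    rwa [← inv_pow, ← pow_mul] at h
  have r1 : cj x (KL ^ 4) * dl⁻¹ ^ 8 * dk⁻¹ ^ 8 * (KA ^ 4 * LA ^ 4) =
      AC⁻¹ ^ 8 * AB⁻¹ ^ 8 * (db ^ 8 * dc ^ 8) := by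
    calc cj x (KL ^ 4) * dl⁻¹ ^ 8 * dk⁻¹ ^ 8 * (KA ^ 4 * LA ^ 4)
        = cj x (KL ^ 4) * dl⁻¹ ^ 8 * (dk⁻¹ ^ 8 * KA ^ 4) * LA ^ 4 := by group
      _ = cj x (KL ^ 4) * dl⁻¹ ^ 8 * (KA ^ 4 * dk⁻¹ ^ 8) * LA ^ 4 := by rw [q1.eq]
      _ = cj x KL ^ 4 * (dl⁻¹ ^ 8 * KA ^ 4) * (dk⁻¹ ^ 8 * LA ^ 4) := by
          rw [cj_pow]; group
      _ = AC⁻¹ ^ 8 * db ^ 8 * (AB⁻¹ ^ 8 * dc ^ 8) := A1
      _ = AC⁻¹ ^ 8 * (db ^ 8 * AB⁻¹ ^ 8) * dc ^ 8 := by group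
      _ = AC⁻¹ ^ 8 * (AB⁻¹ ^ 8 * db ^ 8) * dc ^ 8 := by rw [q2.eq]
      _ = AC⁻¹ ^ 8 * AB⁻¹ ^ 8 * (db ^ 8 * dc ^ 8) := by group
  have r2 : KA ^ 4 * LA ^ 4 = (KL ^ 4)⁻¹ * (db ^ 8 * dc ^ 8) := by
    rw [← A0]; group
  rw [r2, ← mul_assoc] at r1
  exact mul_right_cancel r1

section
variable {s : Sys G} (h : Step2 s)

include h in
/-- the cusp pair `i, j` of the vertex `v` seen from the frames `v + c_e` -/
theorem sh (v : ℕ) {i j e f : Fin 5} (hij : i ≠ j) (hei : e ≠ i) (hej : e ≠ j) (hfi : f ≠ i)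
    (hfj : f ≠ j) : s.Xi (v ^^^ c e) i j = s.Xi (v ^^^ c f) i j := by
  by_cases hef : e = f
  · rw [hef]
  · have h1 := h.Xi_shift (v ^^^ c e) i j e f hij hef hei.symm hfi.symm hej.symm hfj.symm
    rw [xor_cancel] at h1
    exact h1.symm

include h in
theorem k5 (v : ℕ) {i j e : Fin 5} (hij : i ≠ j) (hei : e ≠ i) (hej : e ≠ j) :
    Commute (s.dl (v ^^^ c i)) (s.Xi (v ^^^ c e) i j ^ 4) := by
  have h1 := h.K5 (v ^^^ c i) j i e hij.symm hej hei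
  rw [xor_cancel] at h1
  rwa [h.Xi_symm _ i j hij] at h1

include h in
theorem dl44 (v : ℕ) {i j : Fin 5} (hij : i ≠ j) :
    Commute (s.dl (v ^^^ c i) ^ 4) (s.dl (v ^^^ c j) ^ 4) := by
  have h1 := h.dl_four (v ^^^ c i) i j hij
  rw [xor_cancel] at h1
  exact h1.pow_left 4

include h in
theorem sq2 (o : ℕ) {i j k : Fin 5} (h1 : i ≠ j) (h2 : i ≠ k) (h3 : j ≠ k) :
    Commute (s.Xi o i j ^ 2) (s.Xi o i k ^ 2) := (h.Xi_sq_comm o i j k h1 h2 h3).pow_right 2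

include h in
theorem half (v : ℕ) (k l a b e : Fin 5) (hD : D5 k l a b e) :
    cj (s.x (v ^^^ c k ^^^ c l)) (s.Xi (v ^^^ c e) k l ^ 4) * (s.dl (v ^^^ c l))⁻¹ ^ 8 *
      (s.dl (v ^^^ c k))⁻¹ ^ 8 * (s.Xi (v ^^^ c e) k l ^ 4)⁻¹ =
    (s.Xi (v ^^^ c k) a e)⁻¹ ^ 8 * (s.Xi (v ^^^ c k) a b)⁻¹ ^ 8 := by
  obtain ⟨hkl, hka, hkb, hke, hla, hlb, hle, hab, hae, hbe⟩ := id hD
  have E := h.E4 (v ^^^ c b) k l a b e hD
  rw [xor_cancel] at E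
  have hx : v ^^^ c k ^^^ c l = v ^^^ c b ^^^ c a ^^^ c e := by
    have := c_two v k l b a e ⟨hkl, hkb, hka, hke, hlb, hla, hle, hab.symm, hbe, hae⟩
    exact this.symm
  have hx' : v ^^^ c k ^^^ c l = v ^^^ c e ^^^ c a ^^^ c b := by
    have := c_two v k l e a b ⟨hkl, hke, hka, hkb, hle, hla, hlb, hae.symm, hbe.symm, hab⟩
    exact this.symm
  refine core (s.x (v ^^^ c k ^^^ c l)) (s.Xi (v ^^^ c e) k l) (s.Xi (v ^^^ c l) k a)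
    (s.Xi (v ^^^ c k) l a) (s.Xi (v ^^^ c k) a e) (s.Xi (v ^^^ c k) a b)
    (s.dl (v ^^^ c k)) (s.dl (v ^^^ c l)) (s.dl (v ^^^ c b)) (s.dl (v ^^^ c e))
    ?_ ?_ ?_ ?_ ?_ ?_ ?_ ?_ ?_ ?_ ?_ ?_ ?_ ?_ ?_
  · rw [sh h v (e := e) (f := b) hkl hke.symm hle.symm hkb.symm hlb.symm,
      sh h v (e := l) (f := b) hka hkl.symm hla hkb.symm hab.symm,
      sh h v (e := k) (f := b) hla hkl hka hlb.symm hab.symm]
    exact E
  · rw [sh h v (e := l) (f := e) hka hkl.symm hla hke.symm hae.symm]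
    exact sq2 h _ hkl hka hla
  · rw [sh h v (e := k) (f := e) hla hkl hka hle.symm hae.symm, ← h.Xi_symm _ k l hkl]
    exact sq2 h _ hkl.symm hla hka
  · rw [sh h v (e := l) (f := e) hka hkl.symm hla hke.symm hae.symm,
      sh h v (e := k) (f := e) hla hkl hka hle.symm hae.symm, ← h.Xi_symm _ k a hka,
      ← h.Xi_symm _ l a hla]
    exact sq2 h _ hka.symm hla.symm hkl
  · exact dl44 h v hbe
  · have h1 := h.b_Xi' (v ^^^ c l) k a hka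
    have e1 : v ^^^ c l ^^^ c k = v ^^^ c k ^^^ c l := by
      rw [Nat.xor_assoc, Nat.xor_comm (c l), ← Nat.xor_assoc]
    rwa [e1] at h1
  · exact h.b_Xi' (v ^^^ c k) l a hla
  · have h1 := h.a_dl (v ^^^ c b) a e hae
    rw [← hx] at h1
    rw [h1, sh h v (e := b) (f := k) hae hab.symm hbe hka hke]
  · have h1 := h.a_dl (v ^^^ c e) a b hab
    rw [← hx'] at h1
    rw [h1, sh h v (e := e) (f := k) hab hae.symm hbe.symm hka hkb]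
  · exact (h.Xi_dl (v ^^^ c l) k a hka).symm
  · exact (h.Xi_dl (v ^^^ c k) l a hla).symm
  · rw [sh h v (e := k) (f := b) hae hka hke hab.symm hbe]
    exact h.Xi_dl _ a e hae
  · rw [sh h v (e := k) (f := e) hab hka hkb hae.symm hbe.symm]
    exact h.Xi_dl _ a b hab
  · exact k5 h v hka hkl.symm hla
  · rw [← h.Xi_symm _ a b hab]
    exact k5 h v hab.symm hkb hka

include h in
theorem eight (v : ℕ) (k l a b e : Fin 5) (hD : D5 k l a b e) :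
    s.Xi (v ^^^ c k) a e ^ 8 = s.Xi (v ^^^ c k) b e ^ 8 := by
  obtain ⟨hkl, hka, hkb, hke, hla, hlb, hle, hab, hae, hbe⟩ := id hD
  have h1 := half h v k l a b e hD
  have h2 := half h v k l b a e ⟨hkl, hkb, hka, hke, hlb, hla, hle, hab.symm, hbe, hae⟩
  rw [h1, h.Xi_symm _ a b hab] at h2
  have h3 := mul_right_cancel h2
  rw [inv_pow, inv_pow] at h3
  exact inv_injective h3

include h in
/-- all `Ξ⁸` of one frame are equal -/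
theorem eight' (o : ℕ) (i j k : Fin 5) (hij : i ≠ j) (hik : i ≠ k) (hjk : j ≠ k) :
    s.Xi o i k ^ 8 = s.Xi o j k ^ 8 := by
  obtain ⟨l, m, hD⟩ := exists_D5_3 hij hik hjk
  obtain ⟨-, -, hil, him, -, hjl, hjm, hkl, hkm, hlm⟩ := hD
  have h1 := eight h (o ^^^ c l) l m i j k
    ⟨hlm, hil.symm, hjl.symm, hkl.symm, him.symm, hjm.symm, hkm.symm, hij, hik, hjk⟩
  rwa [xor_cancel] at h1

end

end S3

open S3 in
/-- STEP 3 -/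
theorem step3 (s : Sys G) (h : Step2 s) : Step3 s := by
  -- all `Ξ⁸` of a frame are equal
  have all : ∀ (o : ℕ) (i j k : Fin 5), i ≠ j → i ≠ k → j ≠ k →
      s.Xi o i j ^ 8 = s.Xi o i k ^ 8 ∧ s.Xi o i k ^ 8 = s.Xi o j k ^ 8 := by
    intro o i j k hij hik hjk
    refine ⟨?_, eight' h o i j k hij hik hjk⟩
    rw [← h.Xi_symm o i j hij, ← h.Xi_symm o i k hik]
    exact eight' h o j k i hjk hij.symm hik.symm
  -- `δ¹⁶ = Ξ¹⁶`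
  have d16 : ∀ (o : ℕ) (i j : Fin 5), i ≠ j → s.dl o ^ 16 = s.Xi o i j ^ 16 := by
    intro o i j hij
    obtain ⟨k, l, m, hD⟩ := exists_D5_2 hij
    obtain ⟨-, hik, -, -, hjk, -, -, -, -, -⟩ := hD
    -- `b_k` inverts `Ξ_ij`, maps `Ξ_ki`
    have h1 : cj (s.x (o ^^^ c k)) (s.Xi o i j ^ 8) = (s.Xi o i j ^ 8)⁻¹ := by
      rw [cj_pow, h.b_Xi o i j k hij hik.symm hjk.symm, inv_pow]
    have h2 : cj (s.x (o ^^^ c k)) (s.Xi o k i ^ 8) = (s.dl o)⁻¹ ^ 16 * s.Xi o k i ^ 8 := by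
      rw [cj_pow, h.b_Xi' o k i hik.symm,
        (((h.Xi_dl o k i hik.symm).symm.inv_left).pow_left 2).mul_pow, ← pow_mul]
    have h3 : s.Xi o k i ^ 8 = s.Xi o i j ^ 8 := by
      rw [h.Xi_symm o i k hik, (all o i j k hij hik hjk).1]
    rw [h3, h1] at h2
    have h4 : (s.dl o) ^ 16 = s.Xi o i j ^ 8 * s.Xi o i j ^ 8 := by
      have := congrArg (fun t => (s.dl o) ^ 16 * t * s.Xi o i j ^ 8) h2
      simp only [inv_pow, inv_mul_cancel_right, mul_inv_cancel_left] at this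
      exact this
    rw [h4, ← pow_add]
  have dl16 : ∀ o : ℕ, s.dl o ^ 16 = 1 := by
    intro o
    have h1 : cj (s.x (o ^^^ c 0 ^^^ c 1)) (s.dl o ^ 16) = 1 := by
      rw [cj_pow, h.a_dl o 0 1 (by decide),
        ((h.Xi_dl o 0 1 (by decide)).inv_left).mul_pow, d16 o 0 1 (by decide), inv_pow,
        inv_mul_cancel]
    apply cj_injective (s.x (o ^^^ c 0 ^^^ c 1))
    rw [h1, cj_one]
  refine ⟨dl16, ?_⟩
  intro o i j hij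
  obtain ⟨k, l, m, hD⟩ := exists_D5_2 hij
  obtain ⟨-, hik, hil, him, hjk, hjl, hjm, hkl, hkm, hlm⟩ := id hD
  have hsq : (s.Xi o i j ^ 8) ^ 2 = 1 := by
    rw [← pow_mul, ← d16 o i j hij, dl16]
  have E := h.E4 o i j k l m hD
  have hc1 : Commute (s.Xi o i j ^ 2) (s.Xi o i k ^ 2) := sq2 h o hij hik hjk
  have hc2 : Commute (s.Xi o i j ^ 2) (s.Xi o j k ^ 2) := by
    rw [← h.Xi_symm o i j hij]; exact sq2 h o hij.symm hjk hik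
  have hc3 : Commute (s.Xi o i k ^ 2) (s.Xi o j k ^ 2) := by
    rw [← h.Xi_symm o i k hik, ← h.Xi_symm o j k hjk]; exact sq2 h o hik.symm hjk.symm hij
  have hc4 : Commute (s.dl o ^ 4) (s.dl (o ^^^ c l ^^^ c m) ^ 4) :=
    (h.dl_four o l m hlm).pow_left 4
  have e : (s.Xi o i j ^ 2 * s.Xi o i k ^ 2 * s.Xi o j k ^ 2) ^ 4 =
      (s.dl o ^ 4 * s.dl (o ^^^ c l ^^^ c m) ^ 4) ^ 4 := by rw [E]
  rw [(hc2.mul_left hc3).mul_pow, hc1.mul_pow, hc4.mul_pow] at e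
  simp only [← pow_mul] at e
  have e8 : s.Xi o i j ^ 8 * s.Xi o i k ^ 8 * s.Xi o j k ^ 8 = 1 := by
    have : s.Xi o i j ^ 8 * s.Xi o i k ^ 8 * s.Xi o j k ^ 8 =
      s.dl o ^ 16 * s.dl (o ^^^ c l ^^^ c m) ^ 16 := e
    rw [this, dl16, dl16, one_mul]
  rw [← (all o i j k hij hik hjk).2, ← (all o i j k hij hik hjk).1] at e8
  have : (s.Xi o i j ^ 8) ^ 2 * s.Xi o i j ^ 8 = 1 := by rw [pow_two]; exact e8
  rwa [hsq, one_mul] at this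

end MPf02039
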