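import Pool.Agent.Lib.MP_f02039_co.Base2
import Pool.Agent.Lib.MP_f02039_co.Step1
import Pool.Agent.Lib.MP_f02039_co.Step2
import Pool.Agent.Lib.MP_f02039_co.Step3

/-! MP_f02039_co: the facts about all systems, in the form used by the reductions. -/

namespace MPf02039

theorem hB1 (G : Type) [Group G] (s : Sys G) : Base1 s := base1 s

theorem hB2 (G : Type) [Group G] (s : Sys G) : Base2 s := base2 s (base1 s)

theorem hS1 (G : Type) [Group G] (s : Sys G) (h : St1 s) : Step1 s :=
  step1 s (hB1 G s) (hB2 G s) h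

theorem hS2 (G : Type) [Group G] (s : Sys G) (h : St1 s) : Step2 s :=
  step2 s (hB1 G s) (hB2 G s) (hS1 G s h)

theorem hS3 (G : Type) [Group G] (s : Sys G) (h : St1 s) : Step3 s :=
  step3 s (hS2 G s h)

end MPf02039
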