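import Pool.Agent.Lib.MP_f02039_co.Step1
import Pool.Agent.Lib.MP_f02039_co.Base2
import Pool.Agent.Lib.MP_f02039_co.Diet

/-!
MP_f02039_co: R1, the element `ν` can be killed.
-/

set_option linter.all false

namespace MPf02039

open scoped commutatorElement
open Pool.Agent.Lib.MP_f02039_co

/-- R1 -/
theorem specR1 : SpecR1 := by
  intro hfin G _ s hgen _
  have hb := base1 s
  have h2 := base2 s hb
  obtain ⟨ν, hν, hx, hc⟩ := exists_nu s hb h2
  have hT : ({ν} : Set G).Finite := Set.finite_singleton ν
  refine Diet.finite_of_torsion hT (fun t ht => ?_) (fun t ht => ?_) ?_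
  · refine Diet.fc_of_stable_gens hgen ?_ hT ?_ ht
    · rintro _ ⟨p, rfl⟩
      exact s.x_sq p
    · rintro _ ⟨p, rfl⟩ t ht
      have h := hx p
      rw [Set.mem_singleton_iff] at ht ⊢
      rw [ht]
      rwa [cj, s.x_inv] at h
  · rw [Set.mem_singleton_iff] at ht
    rw [ht, isOfFinOrder_iff_pow_eq_one]
    exact ⟨2, by norm_num, by rw [sq, hν]⟩
  · refine hfin _ (s.map (QuotientGroup.mk' (Subgroup.normalClosure {ν}))) ?_ ?_
    · have h1 : Set.range (s.map (QuotientGroup.mk' (Subgroup.normalClosure {ν}))).x =
          (QuotientGroup.mk' (Subgroup.normalClosure {ν})) '' Set.range s.x := by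
        rw [← Set.range_comp]
        rfl
      rw [h1, ← MonoidHom.map_closure, hgen, ← MonoidHom.range_eq_map]
      exact MonoidHom.range_eq_top.2 (QuotientGroup.mk'_surjective _)
    · intro o l m hlm
      rw [map_Th, map_C]
      have h1 : (QuotientGroup.mk' (Subgroup.normalClosure {ν})) ν = 1 :=
        (QuotientGroup.eq_one_iff _).2 (Subgroup.subset_normalClosure (Set.mem_singleton ν))
      have h3 := congrArg (QuotientGroup.mk' (Subgroup.normalClosure {ν})) (hc o l m hlm)
      rw [h1, map_commutatorElement] at h3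
      exact commutatorElement_eq_one_iff_commute.1 h3

end MPf02039
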