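import Pool.Agent.Lib.MP_f02039_co.TCData

/-!
Finite index of two subgroups, from the coset enumeration certificates.
-/

namespace Pool.Agent.Lib.MP_f02039_co.TC

open Subgroup

variable {G : Type*} [Group G]

theorem hrel_of {g : ℕ → G} (hg : Rel g) {rels : Tr (List ℕ)} {lab : List ℕ}
    (h : rels.all (fun w => valid (w.map fun i => lab.getD i 0)) = true) (i : ℕ) :
    ((rels.get i).map fun j => g (lab.getD j 0)).prod = 1 := by
  have h1 := valid_sound hg (Tr.get_of_all h i)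
  rwa [List.map_map] at h1

/-- The relative index statement of a certificate. -/
theorem relIndex_of {g : ℕ → G} (hg : Rel g) {n k W A B : ℕ} {rels : Tr (List ℕ)}
    {lab sub : List ℕ} {par tab : Tr ℕ}
    (hC : check n k W A B rels sub par tab = true)
    (hv : rels.all (fun w => valid (w.map fun i => lab.getD i 0)) = true)
    (hlab : ∀ i, i < k → lab.getD i 0 < 26)
    (H : Subgroup G) (hsub : ∀ i ∈ sub, g (lab.getD i 0) ∈ H) :
    H.relIndex (closure {a | ∃ i, i < k ∧ g (lab.getD i 0) = a}) ≠ 0 :=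
  relIndex_ne_zero hC (fun j => g (lab.getD j 0)) (fun i hi => hg.sq _ (hlab i hi))
    (hrel_of hg hv) H hsub

/-- All generators generate. -/
theorem full_eq {g : ℕ → G} (hgen : closure {a | ∃ p, p < 16 ∧ g p = a} = ⊤) {lab : List ℕ}
    {k : ℕ} (h : ∀ p, p < 16 → ∃ i, i < k ∧ lab.getD i 0 = p) :
    closure {a | ∃ i, i < k ∧ g (lab.getD i 0) = a} = ⊤ := by
  rw [eq_top_iff, ← hgen]
  refine closure_mono ?_
  rintro _ ⟨p, hp, rfl⟩
  obtain ⟨i, hi, rfl⟩ := h p hp
  exact ⟨i, hi, rfl⟩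

theorem index_C {g : ℕ → G} (hg : Rel g) (hgen : closure {a | ∃ p, p < 16 ∧ g p = a} = ⊤)
    (H : Subgroup G)
    (hH : ∀ i ∈ [0, 3, 5, 6, 7, 9, 10, 11, 12, 13, 14, 17, 19, 21, 23, 25], g i ∈ H) :
    H.FiniteIndex := by
  have h1 := relIndex_of hg checkC relC (by decide) H (by
    intro i hi
    have : labC.getD i 0 ∈ [0, 3, 5, 6, 7, 9, 10, 11, 12, 13, 14, 17, 19, 21, 23, 25] := by
      revert i; decide
    exact hH _ this)
  rw [full_eq hgen (by decide), relIndex_top_right] at h1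
  exact ⟨h1⟩

theorem index_L {g : ℕ → G} (hg : Rel g) (hgen : closure {a | ∃ p, p < 16 ∧ g p = a} = ⊤)
    (H : Subgroup G)
    (hH : ∀ i ∈ [0, 1, 2, 5, 6, 7, 9, 10, 11, 12, 13, 14], g i ∈ H) :
    H.FiniteIndex := by
  -- replace `H` by the subgroup generated by the twelve elements
  set L : Subgroup G := closure {a | ∃ i ∈ [0, 1, 2, 5, 6, 7, 9, 10, 11, 12, 13, 14], g i = a}
    with hLdef
  have hLH : L ≤ H := by
    rw [hLdef, closure_le]
    rintro _ ⟨i, hi, rfl⟩
    exact hH i hi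
  have hmem : ∀ i ∈ [0, 1, 2, 5, 6, 7, 9, 10, 11, 12, 13, 14], g i ∈ L := fun i hi =>
    subset_closure ⟨i, hi, rfl⟩
  have hz : ∀ a b e, a ∈ [0, 1, 2, 5, 6, 7, 9, 10, 11, 12, 13, 14] →
      b ∈ [0, 1, 2, 5, 6, 7, 9, 10, 11, 12, 13, 14] → zOK a b e = true → g e ∈ L := by
    intro a b e ha hb h
    rw [← hg.zz a b e h]
    exact L.mul_mem (L.mul_mem (L.mul_mem (hmem a ha) (hmem b hb)) (hmem a ha)) (hmem b hb)
  have hzz : ∀ e ∈ [16, 18, 20, 21, 22, 23, 24, 25],
      ∃ a ∈ [0, 1, 2, 5, 6, 7, 9, 10, 11, 12, 13, 14],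
      ∃ b ∈ [0, 1, 2, 5, 6, 7, 9, 10, 11, 12, 13, 14], zOK a b e = true := by
    decide
  have hall : ∀ i ∈ [0, 1, 2, 5, 6, 7, 9, 10, 11, 12, 13, 14, 16, 18, 20, 21, 22, 23, 24, 25],
      g i ∈ L := by
    intro i hi
    have : i ∈ [0, 1, 2, 5, 6, 7, 9, 10, 11, 12, 13, 14] ∨
        i ∈ [16, 18, 20, 21, 22, 23, 24, 25] := by
      revert i; decide
    rcases this with h | h
    · exact hmem i h
    · obtain ⟨a, ha, b, hb, hab⟩ := hzz i h
      exact hz a b i ha hb hab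
  have hB := relIndex_of hg checkB relB (by decide) L (by
    intro i hi
    have : labB.getD i 0 ∈ [0, 1, 2, 5, 6, 7, 9, 10, 11, 12, 13, 14, 16, 18, 20, 21, 22, 23,
        24, 25] := by
      revert i; decide
    exact hall _ this)
  set K : Subgroup G := closure {a | ∃ i, i < 23 ∧ g (labB.getD i 0) = a} with hK
  have hKmem : ∀ i, i < 23 → g (labB.getD i 0) ∈ K := fun i hi => subset_closure ⟨i, hi, rfl⟩
  have hA := relIndex_of hg checkA relA (by decide) K (by
    intro i hi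
    have : ∃ j, j < 23 ∧ labB.getD j 0 = labA.getD i 0 := by
      revert i; decide
    obtain ⟨j, hj, hj'⟩ := this
    rw [← hj']
    exact hKmem j hj)
  rw [full_eq hgen (by decide)] at hA
  have hLK : L ≤ K := by
    rw [hLdef, closure_le]
    rintro _ ⟨i, hi, rfl⟩
    have : ∃ j, j < 23 ∧ labB.getD j 0 = i := by
      revert i; decide
    obtain ⟨j, hj, hj'⟩ := this
    rw [← hj']
    exact hKmem j hj
  have h2 : L.relIndex ⊤ ≠ 0 := by
    rw [← relIndex_mul_relIndex L K ⊤ hLK le_top]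
    exact Nat.mul_ne_zero hB hA
  rw [relIndex_top_right] at h2
  have : L.FiniteIndex := ⟨h2⟩
  exact finiteIndex_of_le hLH

end Pool.Agent.Lib.MP_f02039_co.TC
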