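import Pool.Agent.Lib.MP_f02039_co.Spec
import Pool.Agent.Lib.MP_f02039_co.TCIndex

/-!
The coset enumeration certificates for a system `s : Sys G`.
-/

namespace MPf02039

open Pool.Agent.Lib.MP_f02039_co.TC
open Subgroup

variable {G : Type*} [Group G]

/-- The direction with a given number. -/
def dir : ℕ → Fin 5
  | 0 => 0
  | 1 => 1
  | 2 => 2
  | 3 => 3
  | _ => 4

/-- The numbered generators. -/
def Sys.gx (s : Sys G) (a : ℕ) : G :=
  if a < 16 then s.x a else s.z (dir ((a - 16) / 2)) ((a - 16) % 2 == 1)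

theorem eptab_eq (i : ℕ) (p : ℕ) (hp : p < 16) : (eptab i).testBit p = ep (dir i) p := by
  have h : ∀ i : Fin 5, ∀ p : Fin 16, (eptab i.val).testBit p.val = ep (dir i.val) p.val := by
    decide
  rcases Nat.lt_or_ge i 5 with hi | hi
  · exact h ⟨i, hi⟩ ⟨p, hp⟩
  · have h1 : eptab i = eptab 4 := by
      match i, hi with
      | n + 5, _ => rfl
    have h2 : dir i = dir 4 := by
      match i, hi with
      | n + 5, _ => rfl
    rw [h1, h2]
    exact h 4 ⟨p, hp⟩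

theorem cc_eq (i : ℕ) : cc i = c (dir i) := by
  match i with
  | 0 => rfl
  | 1 => rfl
  | 2 => rfl
  | 3 => rfl
  | n + 4 => rfl

theorem exists_frame {i j k : Fin 5} (hij : i ≠ j) (hik : i ≠ k) (hjk : j ≠ k) (a b d : Bool) :
    ∃ o : Fin 16, (!ep i o.val) = a ∧ (!ep j o.val) = b ∧ (!ep k o.val) = d := by
  have h : ∀ i j k : Fin 5, (i ≠ j ∧ i ≠ k ∧ j ≠ k) → ∀ v : Fin 8,
      ∃ o : Fin 16, ((!ep i o.val) = v.val.testBit 0 ∧ (!ep j o.val) = v.val.testBit 1) ∧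
        (!ep k o.val) = v.val.testBit 2 := by decide
  have h' : ∃ v : Fin 8, v.val.testBit 0 = a ∧ v.val.testBit 1 = b ∧ v.val.testBit 2 = d := by
    revert a b d; decide
  obtain ⟨v, h1, h2, h3⟩ := h'
  obtain ⟨o, ⟨h4, h5⟩, h6⟩ := h i j k ⟨hij, hik, hjk⟩ v
  exact ⟨o, h4.trans h1, h5.trans h2, h6.trans h3⟩

/-- The triple relation. -/
def Trip (s : Sys G) : Prop := ∀ (o : ℕ) (i j k : Fin 5), i ≠ j → i ≠ k → j ≠ k →
    s.zf i o * s.zf j o * s.zf k o * s.zf i o * s.zf j o * s.zf k o = 1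

theorem Trip.T {s : Sys G} (h : Trip s) (σ : Equiv.Perm (Fin 5)) (t : ℕ) : Trip (s.T σ t) := by
  intro o i j k hij hik hjk
  simp only [T_zf]
  exact h _ _ _ _ (fun e => hij (σ.injective e)) (fun e => hik (σ.injective e))
    (fun e => hjk (σ.injective e))

theorem rel_gx (s : Sys G) (hz : Trip s) : Rel s.gx where
  sq a _ := by
    unfold Sys.gx
    split
    · exact s.x_sq a
    · exact s.z_sq _ _
  comm a b ha hb h := by
    unfold commOK at h
    unfold Sys.gx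
    by_cases ha' : a < 16
    · by_cases hb' : b < 16
      · rw [if_pos ha', if_pos hb'] at h
        rw [if_pos ha', if_pos hb']
        have key : ∀ a b : Fin 16, (!([0, 1, 2, 4, 8, 15].elem (a.val ^^^ b.val))) = true →
            ∃ i j : Fin 5, i ≠ j ∧ b.val = a.val ^^^ c i ^^^ c j := by decide
        obtain ⟨i, j, hij, hb1⟩ := key ⟨a, ha'⟩ ⟨b, hb'⟩ h
        simp only at hb1
        rw [hb1]
        exact s.x_comm a i j hij
      · rw [if_pos ha', if_neg hb', beq_iff_eq, eptab_eq _ _ ha'] at h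
        rw [if_pos ha', if_neg hb', ← h]
        exact (s.zo_x _ a).symm
    · by_cases hb' : b < 16
      · rw [if_neg ha', if_pos hb', beq_iff_eq, eptab_eq _ _ hb'] at h
        rw [if_neg ha', if_pos hb', ← h]
        exact s.zo_x _ b
      · rw [if_neg ha', if_neg hb'] at h
        exact absurd h (by simp)
  zz a b e h := by
    simp only [zOK, Bool.and_eq_true, decide_eq_true_eq, beq_iff_eq] at h
    obtain ⟨⟨⟨⟨⟨ha, hb⟩, he⟩, _⟩, hx⟩, hp⟩ := h
    unfold Sys.gx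
    rw [if_pos ha, if_pos hb, if_neg (by omega)]
    rw [eptab_eq _ _ ha] at hp
    have hb2 : b = a ^^^ c (dir ((e - 16) / 2)) := by
      rw [← cc_eq, ← hx, ← Nat.xor_assoc, Nat.xor_self, Nat.zero_xor]
    rw [hb2, s.x_z, hp]
  triple a b d h := by
    simp only [tripleOK, Bool.and_eq_true, decide_eq_true_eq, bne_iff_ne] at h
    obtain ⟨⟨⟨⟨⟨⟨⟨⟨ha, hb⟩, hd⟩, ha'⟩, hb'⟩, hd'⟩, h1⟩, h2⟩, h3⟩ := h
    unfold Sys.gx
    rw [if_neg (by omega), if_neg (by omega), if_neg (by omega)]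
    have hinj : ∀ a b : ℕ, 16 ≤ a → 16 ≤ b → a < 26 → b < 26 → a / 2 ≠ b / 2 →
        dir ((a - 16) / 2) ≠ dir ((b - 16) / 2) := by
      intro a b ha hb ha' hb' hab
      have key : ∀ u v : Fin 5, u ≠ v → dir u.val ≠ dir v.val := by decide
      exact key ⟨(a - 16) / 2, by omega⟩ ⟨(b - 16) / 2, by omega⟩
        (fun e => by simp only [Fin.mk.injEq] at e; omega)
    obtain ⟨o, e1, e2, e3⟩ := exists_frame (hinj a b ha hb ha' hb' h1) (hinj a d ha hd ha' hd' h3)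
      (hinj b d hb hd hb' hd' h2) ((a - 16) % 2 == 1) ((b - 16) % 2 == 1) ((d - 16) % 2 == 1)
    have := hz o.val _ _ _ (hinj a b ha hb ha' hb' h1) (hinj a d ha hd ha' hd' h3)
      (hinj b d hb hd hb' hd' h2)
    simp only [Sys.zf, e1, e2, e3] at this
    simpa only [mul_assoc] using this

theorem fp_ite (σ : Equiv.Perm (Fin 5)) (u : Bool) (j : Fin 5) :
    fp σ (if u = true then c j else 0) = if u = true then c (σ j) else 0 := by
  cases u
  · simp [fp_zero]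
  · simp [fp_c]

theorem fp_fp (σ τ : Equiv.Perm (Fin 5)) (q : ℕ) : fp σ (fp τ q) = fp (σ * τ) q := by
  rw [fp.eq_1 τ, fp_xor, fp_xor, fp_xor, fp_ite, fp_ite, fp_ite, fp_ite]
  rfl

theorem fp_one (q : ℕ) : fp 1 q = q % 16 := by
  rw [← fp_mod]
  have : ∀ q : Fin 16, fp 1 q.val = q.val := by decide
  exact this ⟨q % 16, Nat.mod_lt _ (by norm_num)⟩

theorem T_surj (s : Sys G) (σ : Equiv.Perm (Fin 5)) (t q : ℕ) :
    ∃ p, p < 16 ∧ (s.T σ t).x p = s.x q := by
  refine ⟨(fp σ⁻¹ (q ^^^ t)) % 16, Nat.mod_lt _ (by norm_num), ?_⟩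
  rw [T_x, fp_mod, fp_fp, mul_inv_cancel, fp_one]
  apply s.x_congr
  rw [xor_mod, Nat.mod_mod, ← xor_mod, xor_cancel]

theorem gx_gen (s : Sys G) (hgen : closure (Set.range s.x) = ⊤) :
    closure {a | ∃ p, p < 16 ∧ s.gx p = a} = ⊤ := by
  rw [eq_top_iff, ← hgen]
  refine closure_mono ?_
  rintro _ ⟨p, rfl⟩
  refine ⟨p % 16, Nat.mod_lt _ (by norm_num), ?_⟩
  rw [Sys.gx, if_pos (Nat.mod_lt _ (by norm_num)), s.x_mod]

theorem T_gen (s : Sys G) (hgen : closure (Set.range s.x) = ⊤) (σ : Equiv.Perm (Fin 5)) (t : ℕ) :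
    closure (Set.range (s.T σ t).x) = ⊤ := by
  rw [eq_top_iff, ← hgen]
  refine closure_mono ?_
  rintro _ ⟨q, rfl⟩
  obtain ⟨p, _, hp⟩ := T_surj s σ t q
  exact ⟨p, hp⟩

/-- A subgroup containing the twelve `x p`, `p` in one of two cusps of different directions, has
finite index. -/
theorem finiteIndex_L (s : Sys G) (hz : Trip s) (hgen : closure (Set.range s.x) = ⊤)
    {i j : Fin 5} (hij : i ≠ j) (e e' : Bool) (H : Subgroup G)
    (hH : ∀ p, ep i p = e ∨ ep j p = e' → s.x p ∈ H) : H.FiniteIndex := by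
  obtain ⟨k, l, m, hD⟩ := exists_D5_2 hij
  obtain ⟨σ, h0, h1, _, _, _⟩ := exists_perm5 hD
  obtain ⟨t, ht, ht'⟩ : ∃ t : ℕ, ep i t = e ∧ ep j t = e' := by
    have : ∀ i j : Fin 5, i ≠ j → ∀ e e' : Bool, ∃ t : Fin 16, ep i t.val = e ∧ ep j t.val = e' := by
      decide
    obtain ⟨t, h⟩ := this i j hij e e'
    exact ⟨t.val, h⟩
  refine index_L (rel_gx _ (hz.T σ t)) (gx_gen _ (T_gen s hgen σ t)) H ?_
  intro p hp
  have hp16 : p < 16 ∧ (ep 0 p = false ∨ ep 1 p = false) := by revert p; decide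
  rw [Sys.gx, if_pos hp16.1, T_x]
  apply hH
  rcases hp16.2 with h | h
  · left; rw [ep_xor, ← h0, ep_fp, h, h0, ht, Bool.false_xor]
  · right; rw [ep_xor, ← h1, ep_fp, h, h1, ht', Bool.false_xor]

/-- A subgroup containing `x q`, the ten `x (q + c_i + c_j)` and the five `z` of the cusps not
containing `q` has finite index. -/
theorem finiteIndex_C (s : Sys G) (hz : Trip s) (hgen : closure (Set.range s.x) = ⊤)
    (q : ℕ) (H : Subgroup G) (h0 : s.x q ∈ H)
    (h2 : ∀ i j : Fin 5, i ≠ j → s.x (q ^^^ c i ^^^ c j) ∈ H)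
    (hzf : ∀ i, s.zf i q ∈ H) : H.FiniteIndex := by
  refine index_C (rel_gx _ (hz.T 1 q)) (gx_gen _ (T_gen s hgen 1 q)) H ?_
  intro a ha
  have key : a = 0 ∨ (a < 16 ∧ ∃ i j : Fin 5, i ≠ j ∧ a = c i ^^^ c j) ∨
      (16 ≤ a ∧ (a - 16) % 2 = 1) := by revert a; decide
  rcases key with h | ⟨h16, i, j, hij, h⟩ | ⟨h16, h⟩
  · rw [h, Sys.gx, if_pos (by norm_num), T_x, fp_zero, Nat.zero_xor]
    exact h0
  · rw [Sys.gx, if_pos h16, T_x, h, fTc2]
    exact h2 i j hij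
  · rw [Sys.gx, if_neg (by omega)]
    have : (s.T 1 q).z (dir ((a - 16) / 2)) ((a - 16) % 2 == 1) = s.zf (dir ((a - 16) / 2)) q := by
      rw [h, Sys.zf]
      show s.z ((1 : Equiv.Perm (Fin 5)) _) _ = _
      simp
    rw [this]
    exact hzf _

end MPf02039
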