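import Pool.Agent.Lib.MP_f02039_co.Spec
import Pool.Agent.Lib.MP_f02039_co.Diet
import Pool.Agent.Lib.MP_f02039_co.TCSys

/-!
MP_f02039_co, module R4: killing all powers of `Ξ` and `δ`.
-/

namespace MPf02039

namespace R4

open scoped commutatorElement
open Subgroup
open Pool.Agent.Lib.MP_f02039_co.Diet

variable {G : Type} [Group G]

/-- One step of the reduction. -/
theorem finIf_kill {P : ∀ {G : Type} [Group G], Sys G → Prop} (hQ : FinIf P)
    (s : Sys G) (hgen : closure (Set.range s.x) = ⊤)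
    (T : Set G) (hT : T.Finite) (hfc : ∀ t ∈ T, FC t) (htor : ∀ t ∈ T, IsOfFinOrder t)
    (hP : P (s.map (QuotientGroup.mk' (normalClosure T)))) : Finite G := by
  refine finite_of_torsion hT hfc htor ?_
  refine hQ _ (s.map (QuotientGroup.mk' (normalClosure T))) ?_ hP
  have h1 : Set.range (s.map (QuotientGroup.mk' (normalClosure T))).x =
      (QuotientGroup.mk' (normalClosure T)) '' Set.range s.x := by
    rw [← Set.range_comp]; rfl
  rw [h1, ← MonoidHom.map_closure, hgen, ← MonoidHom.range_eq_map]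
  exact MonoidHom.range_eq_top.2 (QuotientGroup.mk'_surjective _)

/-- An element fixed by all `x_p` has one conjugate. -/
theorem fc_of_fixed (s : Sys G) (hgen : closure (Set.range s.x) = ⊤) (t : G)
    (h : ∀ p, cj (s.x p) t = t) : FC t := by
  refine fc_of_stable_gens (T := {t}) hgen ?_ (Set.finite_singleton _) ?_ rfl
  · rintro _ ⟨p, rfl⟩; exact s.x_sq p
  · rintro _ ⟨p, rfl⟩ t' rfl
    have h1 := h p
    rw [cj, s.x_inv] at h1
    exact h1

theorem ne1 (o : ℕ) (j : Fin 5) : (o ^^^ c j) % 16 ≠ o % 16 := by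
  have key : ∀ (a : Fin 16) (j : Fin 5), a.val ^^^ c j ≠ a.val := by decide
  rw [xor_c_mod]
  exact key ⟨o % 16, Nat.mod_lt _ (by norm_num)⟩ j

theorem ne2 (o : ℕ) {j k : Fin 5} (h : j ≠ k) : (o ^^^ c j ^^^ c k) % 16 ≠ o % 16 := by
  have key : ∀ (a : Fin 16) (j k : Fin 5), j ≠ k → a.val ^^^ c j ^^^ c k ≠ a.val := by decide
  rw [xor_c_mod, xor_c_mod]
  exact key ⟨o % 16, Nat.mod_lt _ (by norm_num)⟩ j k h

theorem ne3 (o : ℕ) {i j k : Fin 5} (h1 : i ≠ j) (h2 : i ≠ k) (h3 : j ≠ k) :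
    (o ^^^ c j ^^^ c k ^^^ c i) % 16 ≠ o % 16 := by
  have key : ∀ (a : Fin 16) (i j k : Fin 5), i ≠ j → i ≠ k → j ≠ k →
      a.val ^^^ c j ^^^ c k ^^^ c i ≠ a.val := by decide
  rw [xor_c_mod, xor_c_mod, xor_c_mod]
  exact key ⟨o % 16, Nat.mod_lt _ (by norm_num)⟩ i j k h1 h2 h3

/-- An element fixed by all `x_p` except `x_o` has at most two conjugates. -/
theorem fc_of_fixed_except (s : Sys G) (hgen : closure (Set.range s.x) = ⊤) (o : ℕ) (t : G)
    (h : ∀ p, p % 16 ≠ o % 16 → cj (s.x p) t = t) : FC t := by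
  have hz : ∀ i, cj (s.zo i o) t = t := by
    intro i
    obtain ⟨j, k, l, m, hD⟩ := exists_D5_1 i
    have hij : i ≠ j := hD.1
    have hik : i ≠ k := hD.2.1
    have hjk : j ≠ k := hD.2.2.2.2.1
    have e1 : s.zo i (o ^^^ c j ^^^ c k) = s.zo i o := by
      rw [s.zo_c_ne hik.symm, s.zf_c_ne hij.symm]
    rw [← e1, ← s.x_zo, mul_cj, mul_cj, mul_cj]
    have e2 := h _ (ne2 o hjk)
    have e3 := h _ (ne3 o hij hik hjk)
    rw [e3, e2, e3, e2]
  refine fc_of_stable_gens (T := {t, cj (s.x o) t}) hgen ?_ (by simp) ?_ (Set.mem_insert _ _)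
  · rintro _ ⟨p, rfl⟩; exact s.x_sq p
  · rintro _ ⟨p, rfl⟩ t' ht'
    have e0 : ∀ u, s.x p * u * s.x p = cj (s.x p) u := by
      intro u; rw [cj, s.x_inv]
    rw [e0]
    rcases mod_cases o p with hp | ⟨i, hp⟩ | ⟨i, j, hij, hp⟩
    · rw [s.x_congr hp]
      rcases ht' with rfl | rfl
      · right; rfl
      · left; exact s.cj_x_x _ _
    · have hfix : cj (s.x p) t = t := h p (by rw [hp]; exact ne1 o i)
      rcases ht' with rfl | rfl
      · left; exact hfix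
      · right
        rw [s.x_congr hp] at hfix ⊢
        have e1 := s.x_zo o i
        have e2 : s.x (o ^^^ c i) * s.x o = s.x o * s.zo i o * s.x (o ^^^ c i) := by
          rw [← e1]
          have hx := s.x_sq o
          have hy := s.x_sq (o ^^^ c i)
          calc s.x (o ^^^ c i) * s.x o = (s.x o * s.x o) * s.x (o ^^^ c i) * s.x o *
                (s.x (o ^^^ c i) * s.x (o ^^^ c i)) := by rw [hx, hy]; simp
            _ = _ := by simp only [mul_assoc]
        rw [← mul_cj, e2, mul_cj, hfix, mul_cj, hz]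
        rfl
    · have hfix : cj (s.x p) t = t := h p (by rw [hp]; exact ne2 o hij)
      rcases ht' with rfl | rfl
      · left; exact hfix
      · right
        rw [s.x_congr hp] at hfix ⊢
        rw [← mul_cj, ← s.x_comm o i j hij, mul_cj, hfix]
        rfl

/-- The states in the chain. -/
def P (a b : ℕ) {G : Type} [Group G] (s : Sys G) : Prop :=
  St1 s ∧ (∀ o : ℕ, s.dl o ^ a = 1) ∧ ∀ (o : ℕ) (i j : Fin 5), i ≠ j → s.Xi o i j ^ b = 1

theorem St1.map' {s : Sys G} (h : St1 s) {H : Type} [Group H] (f : G →* H) : St1 (s.map f) := by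
  intro o l m hlm
  rw [map_Th, map_C]
  exact (h o l m hlm).map f

theorem P.map {a b : ℕ} {s : Sys G} (h : P a b s) {H : Type} [Group H] (f : G →* H) :
    P a b (s.map f) := by
  refine ⟨St1.map' h.1 f, ?_, ?_⟩
  · intro o; rw [map_dl, ← map_pow, h.2.1 o, map_one]
  · intro o i j hij; rw [map_Xi, ← map_pow, h.2.2 o i j hij, map_one]

/-- Kill all `δ^n`. -/
theorem killD (hS1 : ∀ (G : Type) [Group G] (s : Sys G), St1 s → Step1 s)
    (hS2 : ∀ (G : Type) [Group G] (s : Sys G), St1 s → Step2 s) (n : ℕ)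
    (hQ : FinIf (fun s => P n n s)) : FinIf (fun s => P (2 * n) n s) := by
  intro G _ s hgen hP
  have h1 := hS1 G s hP.1
  have h2 := hS2 G s hP.1
  have hfix : ∀ o p, p % 16 ≠ o % 16 → cj (s.x p) (s.dl o ^ n) = s.dl o ^ n := by
    intro o p hp
    rcases mod_cases o p with hp' | ⟨i, hp'⟩ | ⟨i, j, hij, hp'⟩
    · exact absurd hp' hp
    · rw [s.x_congr hp', cj_pow, h1.b_dl, inv_pow, inv_eq_iff_mul_eq_one, ← pow_add, ← two_mul]
      exact hP.2.1 o
    · rw [s.x_congr hp', cj_pow, h2.a_dl o i j hij]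
      rw [((h2.Xi_dl o i j hij).inv_left).mul_pow, inv_pow, hP.2.2 o i j hij, inv_one, one_mul]
  let T : Set G := Set.range fun o : ℕ => s.dl o ^ n
  have hT : T.Finite := by
    refine (Set.finite_range fun o : Fin 16 => s.dl o.val ^ n).subset ?_
    rintro _ ⟨o, rfl⟩
    refine ⟨⟨o % 16, Nat.mod_lt _ (by norm_num)⟩, ?_⟩
    have : s.dl (o % 16) = s.dl o := s.dl_congr (by simp)
    simp only [this]
  refine finIf_kill hQ s hgen T hT ?_ ?_ ⟨St1.map' hP.1 _, ?_, ?_⟩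
  · rintro _ ⟨o, rfl⟩
    exact fc_of_fixed_except s hgen o _ (hfix o)
  · rintro _ ⟨o, rfl⟩
    rw [isOfFinOrder_iff_pow_eq_one]
    exact ⟨2, by norm_num, by rw [← pow_mul, mul_comm]; exact hP.2.1 o⟩
  · intro o
    rw [map_dl, ← map_pow]
    exact (QuotientGroup.eq_one_iff _).2 (subset_normalClosure ⟨o, rfl⟩)
  · intro o i j hij
    rw [map_Xi, ← map_pow, hP.2.2 o i j hij, map_one]

section fix
variable {s : Sys G} {n : ℕ}

theorem fix1 (h2 : Step2 s) (hP : P (2 * n) (2 * n) s) (o : ℕ) (i j k : Fin 5) (hij : i ≠ j)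
    (hki : k ≠ i) (hkj : k ≠ j) : cj (s.x (o ^^^ c k)) (s.Xi o i j ^ n) = s.Xi o i j ^ n := by
  rw [cj_pow, h2.b_Xi o i j k hij hki hkj, inv_pow, inv_eq_iff_mul_eq_one, ← pow_add, ← two_mul]
  exact hP.2.2 o i j hij

theorem fix2 (h2 : Step2 s) (hP : P (2 * n) (2 * n) s) (o : ℕ) (i j : Fin 5) (hij : i ≠ j) :
    cj (s.x (o ^^^ c i ^^^ c j)) (s.Xi o i j ^ n) = s.Xi o i j ^ n := by
  rw [cj_pow, h2.a_Xi o i j hij, inv_pow, inv_eq_iff_mul_eq_one, ← pow_add, ← two_mul]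
  exact hP.2.2 o i j hij

theorem fix3 (h2 : Step2 s) (hP : P (2 * n) (2 * n) s) (o : ℕ) (i j : Fin 5) (hij : i ≠ j) :
    cj (s.x (o ^^^ c i)) (s.Xi o i j ^ n) = s.Xi o i j ^ n := by
  rw [cj_pow, h2.b_Xi' o i j hij]
  rw [(((h2.Xi_dl o i j hij).symm.inv_left).pow_left 2).mul_pow, ← pow_mul, inv_pow,
    hP.2.1 o, inv_one, one_mul]

theorem fix3' (h2 : Step2 s) (hP : P (2 * n) (2 * n) s) (o : ℕ) (i j : Fin 5) (hij : i ≠ j) :
    cj (s.x (o ^^^ c j)) (s.Xi o i j ^ n) = s.Xi o i j ^ n := by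
  rw [← h2.Xi_symm o i j hij]
  exact fix3 h2 hP o j i hij.symm

theorem fix4 (h2 : Step2 s) (hP : P (2 * n) (2 * n) s) (o : ℕ) (i j k : Fin 5) (hij : i ≠ j)
    (hki : k ≠ i) (hkj : k ≠ j) :
    cj (s.x (o ^^^ c i ^^^ c k)) (s.Xi o i j ^ n) = s.Xi o i j ^ n := by
  obtain ⟨l, m, hD⟩ := exists_D5_3 hki.symm hij hkj
  obtain ⟨d1, d2, d3, d4, d5, d6, d7, d8, d9, d10⟩ := hD
  have e1 : o ^^^ c i ^^^ c k = o ^^^ c l ^^^ c m ^^^ c j := by
    rw [← c_two o i k l m j ⟨d1, d3, d4, d2, d6, d7, d5, d10, d8.symm, d9.symm⟩]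
  rw [e1, ← h2.Xi_shift o i j l m hij d10 d3 d4 d8 d9]
  exact fix3' h2 hP _ i j hij

theorem fix4' (h2 : Step2 s) (hP : P (2 * n) (2 * n) s) (o : ℕ) (i j k : Fin 5) (hij : i ≠ j)
    (hki : k ≠ i) (hkj : k ≠ j) :
    cj (s.x (o ^^^ c j ^^^ c k)) (s.Xi o i j ^ n) = s.Xi o i j ^ n := by
  rw [← h2.Xi_symm o i j hij]
  exact fix4 h2 hP o j i k hij.symm hkj hki

theorem swap2 (o : ℕ) (a b : Fin 5) : o ^^^ c a ^^^ c b = o ^^^ c b ^^^ c a := by
  rw [Nat.xor_assoc, Nat.xor_comm (c a), ← Nat.xor_assoc]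

/-- all `x_p` with `p` in one of the two cusps -/
theorem fix12 (h2 : Step2 s) (hP : P (2 * n) (2 * n) s) (o : ℕ) (i j : Fin 5) (hij : i ≠ j)
    (p : ℕ) (hp : ep i p ≠ ep i o ∨ ep j p ≠ ep j o) :
    cj (s.x p) (s.Xi o i j ^ n) = s.Xi o i j ^ n := by
  rcases mod_cases o p with hp' | ⟨a, hp'⟩ | ⟨a, b, hab, hp'⟩
  · exfalso
    rw [← ep_mod i p, ← ep_mod j p, hp', ep_mod, ep_mod] at hp
    simp at hp
  · rw [s.x_congr hp']
    by_cases hai : a = i
    · subst hai; exact fix3 h2 hP o a j hij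
    by_cases haj : a = j
    · subst haj; exact fix3' h2 hP o i a hij
    exact fix1 h2 hP o i j a hij hai haj
  · rw [s.x_congr hp']
    by_cases hai : a = i
    · subst hai
      by_cases hbj : b = j
      · subst hbj; exact fix2 h2 hP o a b hij
      exact fix4 h2 hP o a j b hij hab.symm hbj
    by_cases haj : a = j
    · subst haj
      by_cases hbi : b = i
      · subst hbi; rw [swap2]; exact fix2 h2 hP o b a hij
      exact fix4' h2 hP o i a b hij hbi hab.symm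
    by_cases hbi : b = i
    · subst hbi
      rw [swap2]
      exact fix4 h2 hP o b j a hij hai haj
    by_cases hbj : b = j
    · subst hbj
      rw [swap2]
      exact fix4' h2 hP o i b a hij hai haj
    exfalso
    rw [← ep_mod i p, ← ep_mod j p, hp', ep_mod, ep_mod] at hp
    simp [ep_xor_c, hai, haj, hbi, hbj] at hp

/-- all other `x_p` -/
theorem fix5 (h2 : Step2 s) (hP : P (2 * n) (2 * n) s)
    (hE : ∀ (o : ℕ) (i j k l m : Fin 5), D5 i j k l m →
      s.Xi o i j ^ n * s.Xi o i k ^ n * s.Xi o j k ^ n = 1)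
    (o : ℕ) (i j l m : Fin 5) (hij : i ≠ j) (hil : i ≠ l) (him : i ≠ m) (hjl : j ≠ l)
    (hjm : j ≠ m) (hlm : l ≠ m) :
    cj (s.x (o ^^^ c l ^^^ c m)) (s.Xi o i j ^ n) = s.Xi o i j ^ n := by
  obtain ⟨k, hD⟩ := exists_D5_4 hij hil him hjl hjm hlm
  have e := hE o i j l m k hD
  have e1 : s.Xi o i j ^ n = (s.Xi o j l ^ n)⁻¹ * (s.Xi o i l ^ n)⁻¹ := by
    rw [mul_assoc, mul_eq_one_iff_eq_inv, mul_inv_rev] at e
    exact e
  rw [e1, cj_mul, cj_inv, cj_inv, fix4' h2 hP o j l m hjl hjm.symm hlm.symm,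
    fix4' h2 hP o i l m hil him.symm hlm.symm]

theorem fixall (h2 : Step2 s) (hP : P (2 * n) (2 * n) s)
    (hE : ∀ (o : ℕ) (i j k l m : Fin 5), D5 i j k l m →
      s.Xi o i j ^ n * s.Xi o i k ^ n * s.Xi o j k ^ n = 1)
    (o : ℕ) (i j : Fin 5) (hij : i ≠ j) (p : ℕ) :
    cj (s.x p) (s.Xi o i j ^ n) = s.Xi o i j ^ n := by
  by_cases hp : ep i p ≠ ep i o ∨ ep j p ≠ ep j o
  · exact fix12 h2 hP o i j hij p hp
  rcases mod_cases o p with hp' | ⟨a, hp'⟩ | ⟨a, b, hab, hp'⟩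
  · obtain ⟨k, l, m, hD⟩ := exists_D5_2 hij
    obtain ⟨d1, d2, d3, d4, d5, d6, d7, d8, d9, d10⟩ := hD
    rw [s.x_congr hp']
    have e1 : o ^^^ c l ^^^ c m ^^^ c l ^^^ c m = o := by
      rw [swap2 o l m, xor_cancel (o ^^^ c m) (c l), xor_cancel]
    have h := fix5 h2 hP hE (o ^^^ c l ^^^ c m) i j l m hij d3 d4 d6 d7 d10
    rwa [e1, h2.Xi_shift o i j l m hij d10 d3 d4 d6 d7] at h
  · exfalso
    apply hp
    rw [← ep_mod i p, ← ep_mod j p, hp', ep_mod, ep_mod]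
    by_cases hai : a = i
    · subst hai; right; simp [ep_xor_c, hij]
    · left; simp [ep_xor_c, hai]
  · have hai : a ≠ i := by
      rintro rfl
      apply hp; left
      rw [← ep_mod a p, hp', ep_mod]
      simp [ep_xor_c, hab.symm]
    have haj : a ≠ j := by
      rintro rfl
      apply hp; right
      rw [← ep_mod a p, hp', ep_mod]
      simp [ep_xor_c, hab.symm]
    have hbi : b ≠ i := by
      rintro rfl
      apply hp; left
      rw [← ep_mod b p, hp', ep_mod]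
      simp [ep_xor_c, hab]
    have hbj : b ≠ j := by
      rintro rfl
      apply hp; right
      rw [← ep_mod b p, hp', ep_mod]
      simp [ep_xor_c, hab]
    rw [s.x_congr hp']
    exact fix5 h2 hP hE o i j a b hij hai.symm hbi.symm haj.symm hbj.symm hab

end fix

/-- Kill all `Ξ^n`. -/
theorem killX_aux (n : ℕ) (hQ : FinIf (fun s => P (2 * n) n s))
    (hfc : ∀ (G : Type) [Group G] (s : Sys G), closure (Set.range s.x) = ⊤ →
      P (2 * n) (2 * n) s → ∀ o i j, i ≠ j → FC (s.Xi o i j ^ n)) :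
    FinIf (fun s => P (2 * n) (2 * n) s) := by
  intro G _ s hgen hP
  let T : Set G := {t | ∃ (o : ℕ) (i j : Fin 5), i ≠ j ∧ s.Xi o i j ^ n = t}
  have hT : T.Finite := by
    refine (Set.finite_range fun q : Fin 16 × Fin 5 × Fin 5 =>
      s.Xi q.1.val q.2.1 q.2.2 ^ n).subset ?_
    rintro _ ⟨o, i, j, -, rfl⟩
    refine ⟨⟨⟨o % 16, Nat.mod_lt _ (by norm_num)⟩, i, j⟩, ?_⟩
    have : s.Xi (o % 16) i j = s.Xi o i j := s.Xi_congr i j (by simp)
    simp only [this]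
  refine finIf_kill hQ s hgen T hT ?_ ?_ ⟨St1.map' hP.1 _, ?_, ?_⟩
  · rintro _ ⟨o, i, j, hij, rfl⟩
    exact hfc G s hgen hP o i j hij
  · rintro _ ⟨o, i, j, hij, rfl⟩
    rw [isOfFinOrder_iff_pow_eq_one]
    exact ⟨2, by norm_num, by rw [← pow_mul, mul_comm]; exact hP.2.2 o i j hij⟩
  · intro o
    rw [map_dl, ← map_pow, hP.2.1 o, map_one]
  · intro o i j hij
    rw [map_Xi, ← map_pow]
    exact (QuotientGroup.eq_one_iff _).2 (subset_normalClosure ⟨o, i, j, hij, rfl⟩)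

theorem killX2 (hS2 : ∀ (G : Type) [Group G] (s : Sys G), St1 s → Step2 s)
    (hQ : FinIf (fun s => P 4 2 s)) : FinIf (fun s => P 4 4 s) := by
  refine killX_aux 2 hQ ?_
  intro G _ s hgen hP o i j hij
  have h2 := hS2 G s hP.1
  refine fc_of_fixed s hgen _ (fixall h2 hP ?_ o i j hij)
  intro o i j k l m hD
  have h4 : ∀ o, s.dl o ^ 4 = 1 := hP.2.1
  rw [h2.E4 o i j k l m hD, h4, h4, one_mul]

theorem killX4 (hS2 : ∀ (G : Type) [Group G] (s : Sys G), St1 s → Step2 s)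
    (hQ : FinIf (fun s => P 8 4 s)) : FinIf (fun s => P 8 8 s) := by
  refine killX_aux 4 hQ ?_
  intro G _ s hgen hP o i j hij
  have h2 := hS2 G s hP.1
  refine fc_of_fixed s hgen _ (fixall h2 hP ?_ o i j hij)
  intro o i j k l m hD
  have hE := h2.E4 o i j k l m hD
  obtain ⟨d1, d2, d3, d4, d5, d6, d7, d8, d9, d10⟩ := hD
  have h8 : ∀ o, s.dl o ^ 8 = 1 := hP.2.1
  have cAB : Commute (s.Xi o i j ^ 2) (s.Xi o i k ^ 2) :=
    (h2.Xi_sq_comm o i j k d1 d2 d5).pow_right 2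
  have cAC : Commute (s.Xi o i j ^ 2) (s.Xi o j k ^ 2) := by
    have h := (h2.Xi_sq_comm o j i k d1.symm d5 d2).pow_right 2
    rwa [h2.Xi_symm o i j d1] at h
  have cBC : Commute (s.Xi o i k ^ 2) (s.Xi o j k ^ 2) := by
    have h := (h2.Xi_sq_comm o k i j d2.symm d5.symm d1).pow_right 2
    rwa [h2.Xi_symm o i k d2, h2.Xi_symm o j k d5] at h
  have cD : Commute (s.dl o ^ 4) (s.dl (o ^^^ c l ^^^ c m) ^ 4) := by
    have h := ((h2.dl_sq_comm o l m d10).pow_left 2).pow_right 2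
    rwa [← pow_mul, ← pow_mul] at h
  have e1 : (s.Xi o i j ^ 2 * s.Xi o i k ^ 2 * s.Xi o j k ^ 2) ^ 2 = 1 := by
    rw [hE, cD.mul_pow, ← pow_mul, ← pow_mul]
    show s.dl o ^ 8 * s.dl (o ^^^ c l ^^^ c m) ^ 8 = 1
    rw [h8, h8, one_mul]
  rw [(cAC.mul_left cBC).mul_pow, cAB.mul_pow, ← pow_mul, ← pow_mul, ← pow_mul] at e1
  exact e1

/-- Kill all `Ξ`, with the coset enumeration. -/
theorem killX1 (hB1 : ∀ (G : Type) [Group G] (s : Sys G), Base1 s)
    (hS2 : ∀ (G : Type) [Group G] (s : Sys G), St1 s → Step2 s)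
    (hQ : FinIf (fun s => P 2 1 s)) : FinIf (fun s => P 2 2 s) := by
  refine killX_aux 1 hQ ?_
  intro G _ s hgen hP o i j hij
  have h2 := hS2 G s hP.1
  refine FC.of_finiteIndex ?_
  refine finiteIndex_L s (hB1 G s).zzz hgen hij (!ep i o) (!ep j o) _ ?_
  intro p hp
  rw [mem_centralizer_singleton_iff]
  have h := fix12 (n := 1) h2 hP o i j hij p (by
    rcases hp with hp | hp
    · left; rw [hp]; simp
    · right; rw [hp]; simp)
  rw [cj_eq_self_iff] at h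
  exact h

end R4

open R4 in
theorem specR4 (hB1 : ∀ (G : Type) [Group G] (s : Sys G), Base1 s)
    (hS1 : ∀ (G : Type) [Group G] (s : Sys G), St1 s → Step1 s)
    (hS2 : ∀ (G : Type) [Group G] (s : Sys G), St1 s → Step2 s)
    (hS3 : ∀ (G : Type) [Group G] (s : Sys G), St1 s → Step3 s) : SpecR4 := by
  intro hD
  have h11 : FinIf (fun s => P 1 1 s) := by
    intro G _ s hgen hP
    refine hD G s hgen ⟨hP.1, ?_⟩
    intro o
    have := hP.2.1 o
    rwa [pow_one] at this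
  have h21 := killD hS1 hS2 1 h11
  have h22 := killX1 hB1 hS2 h21
  have h42 := killD hS1 hS2 2 h22
  have h44 := killX2 hS2 h42
  have h84 := killD hS1 hS2 4 h44
  have h88 := killX4 hS2 h84
  have h16 := killD hS1 hS2 8 h88
  intro G _ s hgen hs
  have h3 := hS3 G s hs
  exact h16 G s hgen ⟨hs, h3.dl16, h3.Xi8⟩

end MPf02039
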