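import Pool.Agent.Lib.MP_f02039_co.RelSys
import Pool.Agent.Lib.MP_f02039_co.Diet

/-!
MP_f02039_co, module R5: kill all `C_q`.
-/

namespace MPf02039

open Pool.Agent.Lib.MP_f02039_co
open scoped commutatorElement

/-- the hypothesis `x * x = 1` in the form needed below -/
theorem cj_eq_of_invol {G : Type*} [Group G] {g : G} (hg : g * g = 1) (a : G) :
    cj g a = g * a * g := by
  rw [cj, inv_eq_of_mul_eq_one_left hg]

theorem cj_conj {G : Type*} [Group G] (g a : G) : cj g a = g * a * g⁻¹ := rfl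

theorem T_fp_one (t p : ℕ) (hp : p < 16) : fp (1 : Equiv.Perm (Fin 5)) p ^^^ t = p ^^^ t := by
  have h : ∀ p : Fin 16, fp (1 : Equiv.Perm (Fin 5)) p.val = p.val := by decide +kernel
  have := h ⟨p, hp⟩
  simp only at this
  rw [this]

/-- the elements of the index 64 subgroup act on `C_q` by inversion or trivially -/
theorem fc_C {G : Type} [Group G] (s : Sys G) (hgen : Subgroup.closure (Set.range s.x) = ⊤)
    (hb : ∀ (t : ℕ), Base1 (s.T 1 t)) (h2 : Base2 s)
    (hzf : ∀ (q : ℕ) (m : Fin 5), cj (s.zf m q) (s.C q) = s.C q) (q : ℕ) :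
    Diet.FC (s.C q) := by
  -- the translated system
  have hgen' : Subgroup.closure (Set.range (s.T 1 q).x) = ⊤ := by
    rw [eq_top_iff, ← hgen]
    apply Subgroup.closure_mono
    rintro _ ⟨p, rfl⟩
    refine ⟨(p ^^^ q) % 16, ?_⟩
    rw [T_x, T_fp_one _ _ (Nat.mod_lt _ (by norm_num))]
    apply s.x_congr
    rw [xor_mod, Nat.mod_mod, xor_mod p q, Nat.xor_assoc, Nat.xor_self, Nat.xor_zero]
  set H : Subgroup G := Subgroup.closure
    ({g | g = s.x q} ∪ {g | ∃ i j : Fin 5, i ≠ j ∧ g = s.x (q ^^^ c i ^^^ c j)} ∪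
      {g | ∃ i : Fin 5, g = s.zf i q}) with hH
  have hx0 : s.x q ∈ H := Subgroup.subset_closure (Or.inl (Or.inl rfl))
  have hxx : ∀ i j : Fin 5, i ≠ j → s.x (q ^^^ c i ^^^ c j) ∈ H := fun i j hij =>
    Subgroup.subset_closure (Or.inl (Or.inr ⟨i, j, hij, rfl⟩))
  have hz : ∀ i : Fin 5, s.zf i q ∈ H := fun i => Subgroup.subset_closure (Or.inr ⟨i, rfl⟩)
  have hidx : H.FiniteIndex := by
    refine TC.index_C (relSys (s.T 1 q) (hb q)) (num_gen _ hgen') H ?_
    intro i hi
    have hcase : i = 0 ∨ (i < 16 ∧ ∃ u v : Fin 5, u ≠ v ∧ i = c u ^^^ c v) ∨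
        (∃ u : Fin 5, i = 17 + 2 * u.val) := by
      revert i; decide
    rcases hcase with rfl | ⟨hi16, u, v, huv, hi'⟩ | ⟨u, rfl⟩
    · rw [num_x _ (by norm_num), T_x, T_fp_one _ _ (by norm_num), Nat.zero_xor]
      exact hx0
    · rw [num_x _ hi16, T_x, T_fp_one _ _ hi16, hi', Nat.xor_comm, ← Nat.xor_assoc]
      exact hxx u v huv
    · have hu := u.isLt
      rw [num_z _ (by omega)]
      have e1 : (17 + 2 * u.val - 16) / 2 = u.val := by omega
      have e2 : (17 + 2 * u.val - 16) % 2 = 1 := by omega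
      rw [e1, e2]
      have e3 : Fin.ofNat 5 u.val = u := by
        ext
        simp [Fin.ofNat, Nat.mod_eq_of_lt hu]
      rw [e3]
      have e4 : (s.T 1 q).z u (1 == 1) = s.zf u q := by
        simp [Sys.T, Sys.zf]
      rw [e4]
      exact hz u
  refine Diet.FC.of_stable (T := {s.C q, (s.C q)⁻¹}) (Set.toFinite _) H hidx ?_ (by simp)
  refine Diet.closure_stable_invol ?_ ?_
  · rintro a ((rfl | ⟨i, j, hij, rfl⟩) | ⟨i, rfl⟩)
    · exact s.x_sq _
    · exact s.x_sq _
    · exact s.zf_sq _ _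
  · rintro a ((rfl | ⟨i, j, hij, rfl⟩) | ⟨i, rfl⟩) t ht
    · rw [← cj_eq_of_invol (s.x_sq _)]
      rcases ht with rfl | rfl
      · left; exact h2.x_C q
      · right; rw [cj_inv, h2.x_C q]; rfl
    · rw [← cj_eq_of_invol (s.x_sq _)]
      rcases ht with rfl | rfl
      · right; exact h2.xx_C q i j hij
      · left; rw [cj_inv, h2.xx_C q i j hij, inv_inv]
    · rw [← cj_eq_of_invol (s.zf_sq _ _)]
      rcases ht with rfl | rfl
      · left; exact hzf q i
      · right; rw [cj_inv, hzf q i]; rfl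

/-- Module R5. -/
theorem specR5 (hB1 : ∀ (G : Type) [Group G] (s : Sys G), Base1 s)
    (hB2 : ∀ (G : Type) [Group G] (s : Sys G), Base2 s)
    (hS1 : ∀ (G : Type) [Group G] (s : Sys G), St1 s → Step1 s) : SpecR5 := by
  intro hfin G _ s hgen hs
  obtain ⟨hst, hdl⟩ := hs
  have h2 := hB2 G s
  have h1 := hS1 G s hst
  set T : Set G := Set.range (fun q : Fin 16 => s.C q.val) with hT
  have hmem : ∀ q : ℕ, s.C q ∈ T := by
    intro q
    refine ⟨⟨q % 16, Nat.mod_lt _ (by norm_num)⟩, ?_⟩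
    exact s.C_congr (Nat.mod_mod q 16)
  refine Diet.finite_of_fc (T := T) (Set.finite_range _) ?_ ?_ ?_
  · rintro _ ⟨q, rfl⟩
    refine fc_C s hgen (fun t => hB1 G _) h2 ?_ q.val
    intro q m
    rw [h1.zf_C q m, hdl, inv_one, mul_one]
  · rintro _ ⟨q, rfl⟩
    right
    refine ⟨s.Y (q.val ^^^ c 1) 0, s.Y (q.val ^^^ c 0) 2, ?_, ?_, ?_⟩
    · simp only [Sys.C, commutatorElement_def]
      group
    · exact (h2.C_Y q.val 0 1 (by decide)).eq
    · exact (h2.C_Y q.val 2 0 (by decide)).eq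
  · set N := Subgroup.normalClosure T with hN
    refine hfin (G ⧸ N) (s.map (QuotientGroup.mk' N)) ?_ ⟨?_, ?_⟩
    · have h3 : Set.range (s.map (QuotientGroup.mk' N)).x =
          (QuotientGroup.mk' N) '' Set.range s.x := by
        rw [← Set.range_comp]
        rfl
      rw [h3, ← MonoidHom.map_closure, hgen]
      exact Subgroup.map_top_of_surjective _ (QuotientGroup.mk'_surjective N)
    · intro q
      rw [map_C]
      exact (QuotientGroup.eq_one_iff (s.C q)).2 (Subgroup.subset_normalClosure (hmem q))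
    · intro o
      rw [map_dl, hdl o, map_one]

end MPf02039
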