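import Pool.Agent.Lib.MP_f02039_co.Spec
import Pool.Agent.Lib.MP_f02039_co.Diet

/-!
MP_f02039_co: modules R6 and R7.
-/

namespace MPf02039

namespace R6

open scoped commutatorElement
open Subgroup

/-! ### killing elements -/

theorem finite_of_kill {P : ∀ {G : Type} [Group G], Sys G → Prop} (hP : FinIf P)
    {G : Type} [Group G] (s : Sys G) (hgen : closure (Set.range s.x) = ⊤) (T : Set G)
    (hT : T.Finite) (hfc : ∀ t ∈ T, Pool.Agent.Lib.MP_f02039_co.Diet.FC t)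
    (htor : ∀ t ∈ T, IsOfFinOrder t)
    (h : ∀ (H : Type) [Group H] (f : G →* H), (∀ t ∈ T, f t = 1) → P (s.map f)) : Finite G := by
  refine Pool.Agent.Lib.MP_f02039_co.Diet.finite_of_torsion hT hfc htor ?_
  apply hP (G ⧸ normalClosure T) (s.map (QuotientGroup.mk' (normalClosure T)))
  · have h1 : Set.range (s.map (QuotientGroup.mk' (normalClosure T))).x =
        (QuotientGroup.mk' (normalClosure T)) '' (Set.range s.x) := by
      rw [← Set.range_comp]; rfl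
    rw [h1, ← MonoidHom.map_closure, hgen]
    exact Subgroup.map_top_of_surjective _ (QuotientGroup.mk'_surjective _)
  · apply h
    intro t ht
    rw [QuotientGroup.mk'_apply, QuotientGroup.eq_one_iff]
    exact subset_normalClosure ht

theorem fc_of_central {G : Type} [Group G] (s : Sys G) (hgen : closure (Set.range s.x) = ⊤)
    {a : G} (ha : ∀ p, cj (s.x p) a = a) : Pool.Agent.Lib.MP_f02039_co.Diet.FC a := by
  refine Pool.Agent.Lib.MP_f02039_co.Diet.fc_of_stable_gens (T := {a}) hgen ?_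
    (Set.finite_singleton a) ?_ rfl
  · rintro _ ⟨p, rfl⟩; exact s.x_sq p
  · rintro _ ⟨p, rfl⟩ _ rfl
    have := ha p
    rw [cj, s.x_inv] at this
    exact this

/-! ### commutators -/

section comm
variable {G : Type*} [Group G]

theorem g1 {b y d e : G} (h3 : Commute b d)
    (h4 : Commute y e) (h : Commute (e * b) (d * y * y)) : ⁅b, y * y⁆ = ⁅d⁻¹, e⁻¹⁆ := by
  have H : e * d * (b * (y * y)) = d * e * (y * y * b) := by
    calc e * d * (b * (y * y)) = e * (d * b) * (y * y) := by group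
      _ = e * (b * d) * (y * y) := by rw [h3.eq]
      _ = (e * b) * (d * y * y) := by group
      _ = (d * y * y) * (e * b) := h.eq
      _ = d * (y * (y * e)) * b := by group
      _ = d * (y * (e * y)) * b := by rw [h4.eq]
      _ = d * ((y * e) * y) * b := by group
      _ = d * ((e * y) * y) * b := by rw [h4.eq]
      _ = d * e * (y * y * b) := by group
  calc ⁅b, y * y⁆ = (e * d)⁻¹ * (e * d * (b * (y * y))) * (y * y * b)⁻¹ := by group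
    _ = (e * d)⁻¹ * (d * e * (y * y * b)) * (y * y * b)⁻¹ := by rw [H]
    _ = ⁅d⁻¹, e⁻¹⁆ := by group

theorem g2 {d e t : G} (h : t = ⁅d⁻¹, e⁻¹⁆) (h1 : Commute t d) (h2 : Commute t e) :
    ⁅d, e⁆ = t := by
  have H : d * e = e * d * t := by rw [h]; group
  calc ⁅d, e⁆ = d * e * (e * d)⁻¹ := by group
    _ = e * d * t * (e * d)⁻¹ := by rw [H]
    _ = t * (e * d) * (e * d)⁻¹ := by rw [(h2.mul_right h1).eq]
    _ = t := by group

/-- `[d, e⁻¹ w] = [d, e]⁻¹` -/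
theorem g3 {w d e : G} (h1 : Commute ⁅d, e⁆ e) (h3 : Commute w d) :
    ⁅d, e⁻¹ * w⁆ = ⁅d, e⁆⁻¹ := by
  calc ⁅d, e⁻¹ * w⁆ = d * e⁻¹ * (w * d⁻¹) * w⁻¹ * e := by group
    _ = d * e⁻¹ * (d⁻¹ * w) * w⁻¹ * e := by rw [h3.inv_right.eq]
    _ = (⁅d, e⁆ * e)⁻¹ * e := by group
    _ = (e * ⁅d, e⁆)⁻¹ * e := by rw [h1.eq]
    _ = ⁅d, e⁆⁻¹ := by group

/-- `[f_m f_n, g_m⁻¹ g_a⁻¹ f_a f_n] = [f_m, g_m⁻¹]` -/
theorem g4 {fm fn fa gm ga : G} (h1 : Commute fm fn) (h2 : Commute fm fa) (h3 : Commute fn fa)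
    (h4 : Commute fn gm) (h5 : Commute fn ga) (h8 : Commute ga fm) :
    ⁅fm * fn, gm⁻¹ * ga⁻¹ * fa * fn⁆ = ⁅fm, gm⁻¹⁆ := by
  have e1 : Commute fn (gm⁻¹ * ga⁻¹ * fa * fn) :=
    (((h4.inv_right).mul_right h5.inv_right).mul_right h3).mul_right (Commute.refl fn)
  calc ⁅fm * fn, gm⁻¹ * ga⁻¹ * fa * fn⁆
      = fm * (fn * (gm⁻¹ * ga⁻¹ * fa * fn)) * fn⁻¹ * fm⁻¹ * (gm⁻¹ * ga⁻¹ * fa * fn)⁻¹ := by group
    _ = fm * ((gm⁻¹ * ga⁻¹ * fa * fn) * fn) * fn⁻¹ * fm⁻¹ * (gm⁻¹ * ga⁻¹ * fa * fn)⁻¹ := by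
        rw [e1.eq]
    _ = fm * gm⁻¹ * (ga⁻¹ * fa * fn * fm⁻¹) * (gm⁻¹ * ga⁻¹ * fa * fn)⁻¹ := by group
    _ = fm * gm⁻¹ * (fm⁻¹ * (ga⁻¹ * fa * fn)) * (gm⁻¹ * ga⁻¹ * fa * fn)⁻¹ := by
        rw [(((h8.inv_left.mul_left h2.symm).mul_left h1.symm).inv_right).eq]
    _ = ⁅fm, gm⁻¹⁆ := by group

theorem g5 {fm fi gm gi : G} (h2 : Commute fi gm) (h3 : Commute gi fm) (h5 : Commute gi fi) :
    ⁅gm * gi⁻¹, fm * fi⁻¹⁆ = ⁅gm, fm⁆ := by
  have e1 : Commute gi⁻¹ (fm * fi⁻¹) := (h3.mul_right h5.inv_right).inv_left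
  calc ⁅gm * gi⁻¹, fm * fi⁻¹⁆ = gm * (gi⁻¹ * (fm * fi⁻¹)) * gi * gm⁻¹ * (fm * fi⁻¹)⁻¹ := by group
    _ = gm * ((fm * fi⁻¹) * gi⁻¹) * gi * gm⁻¹ * (fm * fi⁻¹)⁻¹ := by rw [e1.eq]
    _ = gm * fm * (fi⁻¹ * gm⁻¹) * (fm * fi⁻¹)⁻¹ := by group
    _ = gm * fm * (gm⁻¹ * fi⁻¹) * (fm * fi⁻¹)⁻¹ := by rw [h2.inv_left.inv_right.eq]
    _ = gm * fm * gm⁻¹ * fm⁻¹ := by group
    _ = ⁅gm, fm⁆ := by group

theorem g6 {fm gm t : G} (h : ⁅gm, fm⁆ = t) (h1 : Commute t gm) : ⁅fm, gm⁻¹⁆ = t := by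
  calc ⁅fm, gm⁻¹⁆ = gm⁻¹ * ⁅gm, fm⁆ * gm := by group
    _ = gm⁻¹ * (t * gm) := by rw [h]; group
    _ = gm⁻¹ * (gm * t) := by rw [h1.eq]
    _ = t := by group

theorem commute_of_cj {u a b a' b' : G} (h : Commute a b) (ha : cj u a = a') (hb : cj u b = b') :
    Commute a' b' := by
  rw [← ha, ← hb]
  show cj u a * cj u b = cj u b * cj u a
  rw [← cj_mul, ← cj_mul, h.eq]

end comm

/-! ### the distances two and one -/

variable {G : Type*} [Group G]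

/-- all distance-two commutators except the equal directions in `{l, m}` -/
theorem cm2 {s : Sys G} (hb : Base1 s) (h2 : Base2 s) (hC : ∀ q, s.C q = 1) (o : ℕ)
    (l m i j : Fin 5) (hlm : l ≠ m) (h1 : ¬ (i = l ∧ j = l)) (h1' : ¬ (i = m ∧ j = m)) :
    Commute (s.Y o i) (s.Y (o ^^^ c l ^^^ c m) j) := by
  -- one of the two in `{l, m}`
  have key : ∀ (o : ℕ) (l m j : Fin 5), l ≠ m → j ≠ l → j ≠ m →
      Commute (s.Y o l) (s.Y (o ^^^ c l ^^^ c m) j) := by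
    intro o l m j hlm hjl hjm
    have h := h2.C_eq (o ^^^ c m) l m j hlm hjl hjm
    rw [hC, commutatorElement_eq_one_iff_commute, xor_cancel] at h
    have e : o ^^^ c m ^^^ c l = o ^^^ c l ^^^ c m := by
      rw [Nat.xor_assoc, Nat.xor_comm (c m), ← Nat.xor_assoc]
    rwa [e] at h
  have key' : ∀ (o : ℕ) (l m j : Fin 5), l ≠ m → j ≠ l → j ≠ m →
      Commute (s.Y o m) (s.Y (o ^^^ c l ^^^ c m) j) := by
    intro o l m j hlm hjl hjm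
    have h := key o m l j hlm.symm hjm hjl
    have e : o ^^^ c m ^^^ c l = o ^^^ c l ^^^ c m := by
      rw [Nat.xor_assoc, Nat.xor_comm (c m), ← Nat.xor_assoc]
    rwa [e] at h
  have e2 : o ^^^ c l ^^^ c m ^^^ c l ^^^ c m = o := by
    have e : o ^^^ c l ^^^ c m = o ^^^ c m ^^^ c l := by
      rw [Nat.xor_assoc, Nat.xor_comm (c l), ← Nat.xor_assoc]
    rw [e, xor_cancel, xor_cancel]
  by_cases hil : i = l
  · subst hil
    by_cases hjm : j = m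
    · subst hjm
      exact hb.comm2' o i j hlm
    · exact key o i m j hlm (fun h => h1 ⟨rfl, h⟩) hjm
  by_cases him : i = m
  · subst him
    by_cases hjl : j = l
    · subst hjl
      have h := hb.comm2' o i j hlm.symm
      have e : o ^^^ c i ^^^ c j = o ^^^ c j ^^^ c i := by
        rw [Nat.xor_assoc, Nat.xor_comm (c i), ← Nat.xor_assoc]
      rwa [e] at h
    · exact key' o l i j hlm hjl (fun h => h1' ⟨rfl, h⟩)
  by_cases hjl : j = l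
  · subst hjl
    have h := key (o ^^^ c j ^^^ c m) j m i hlm hil him
    rw [e2] at h
    exact h.symm
  by_cases hjm : j = m
  · subst hjm
    have h := key' (o ^^^ c l ^^^ c j) l j i hlm hil him
    rw [e2] at h
    exact h.symm
  exact hb.comm2 o i j l m hlm hil him hjl hjm


/-- (E1), canonical frame -/
theorem e1_can {s : Sys G} (hb : Base1 s) (h2 : Base2 s) (hC : ∀ q, s.C q = 1) :
    Commute (s.Y 0 0) (s.Y 2 0 * s.Y 2 1) := by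
  -- directions: m = 0, n = 1, j = 2, b = 3, b' = 4; q = 1
  have hn1 : Commute (s.Y 0 1) (s.Y 3 2) := cm2 hb h2 hC 0 0 1 1 2 (by decide) (by decide) (by decide)
  have hn2 : Commute (s.Y 0 1) (s.Y 3 0) := cm2 hb h2 hC 0 0 1 1 0 (by decide) (by decide) (by decide)
  have hD : s.Y 9 2 * (s.Y 9 0)⁻¹ = s.Y 3 2 * (s.Y 3 0)⁻¹ :=
    hb.D_shift 3 2 0 1 3 (by decide) (by decide) (by decide) (by decide) (by decide) (by decide)
  have h : Commute (s.Y 0 1) (s.Y 9 2 * (s.Y 9 0)⁻¹) := by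
    rw [hD]; exact hn1.mul_right hn2.inv_right
  have a1 : cj (s.x 3) (s.Y 0 1) = (s.Y 0 0)⁻¹ := hb.a_right 0 0 1 (by decide)
  have a2 : cj (s.x 3) (s.Y 9 2) = (s.Y 7 2)⁻¹ * (s.Y 7 1)⁻¹ * (s.Y 9 3)⁻¹ :=
    hb.a_other 9 1 3 2 0 4 (by decide)
  have a3 : cj (s.x 3) (s.Y 9 0) = (s.Y 2 0)⁻¹ * (s.Y 2 1)⁻¹ * (s.Y 9 3)⁻¹ :=
    hb.a_other 9 1 3 0 2 4 (by decide)
  have h' := commute_of_cj h a1 (show _ = (s.Y 7 2)⁻¹ * (s.Y 7 1)⁻¹ * (s.Y 2 1 * s.Y 2 0) by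
    rw [cj_mul, cj_inv, a2, a3]; group)
  have c1 : Commute (s.Y 0 0) (s.Y 7 2) :=
    cm2 hb h2 hC 0 3 4 0 2 (by decide) (by decide) (by decide)
  have c2 : Commute (s.Y 0 0) (s.Y 7 1) :=
    cm2 hb h2 hC 0 3 4 0 1 (by decide) (by decide) (by decide)
  have h3 : Commute (s.Y 0 0) ((s.Y 7 2)⁻¹ * (s.Y 7 1)⁻¹ * (s.Y 2 1 * s.Y 2 0)) := by
    have := h'.inv_left; rwa [inv_inv] at this
  have h4 : Commute (s.Y 0 0) (((s.Y 7 2)⁻¹ * (s.Y 7 1)⁻¹)⁻¹ *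
      ((s.Y 7 2)⁻¹ * (s.Y 7 1)⁻¹ * (s.Y 2 1 * s.Y 2 0))) :=
    ((c1.inv_right.mul_right c2.inv_right).inv_right).mul_right h3
  rw [inv_mul_cancel_left] at h4
  rwa [(hb.Y_comm 2 0 1).eq]

/-- the transported system -/
theorem T_C1 {s : Sys G} (h2 : Base2 s) (hC : ∀ q, s.C q = 1) (σ : Equiv.Perm (Fin 5)) (t : ℕ)
    (q : ℕ) : (s.T σ t).C q = 1 := by
  have h := h2.C_eq (fp σ q ^^^ t) (σ 0) (σ 1) (σ 2) (fun h => absurd (σ.injective h) (by decide))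
    (fun h => absurd (σ.injective h) (by decide)) (fun h => absurd (σ.injective h) (by decide))
  rw [hC] at h
  have e1 : fp σ (q ^^^ c 1) ^^^ t = fp σ q ^^^ t ^^^ c (σ 1) := by
    rw [fp_xor, fp_c]; ac_rfl
  have e2 : fp σ (q ^^^ c 0) ^^^ t = fp σ q ^^^ t ^^^ c (σ 0) := by
    rw [fp_xor, fp_c]; ac_rfl
  rw [Sys.C, T_Y, T_Y, e1, e2]
  exact h

variable (hB1 : ∀ (G : Type) [Group G] (s : Sys G), Base1 s)
  (hB2 : ∀ (G : Type) [Group G] (s : Sys G), Base2 s)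

include hB1 hB2

theorem e1 {G : Type} [Group G] (s : Sys G) (hC : ∀ q, s.C q = 1) (o : ℕ) {m n : Fin 5}
    (hmn : m ≠ n) : Commute (s.Y o m) (s.Y (o ^^^ c n) m * s.Y (o ^^^ c n) n) := by
  obtain ⟨j, k, l, hD⟩ := exists_D5_2 hmn
  obtain ⟨σ, h0, h1, -⟩ := exists_perm5 hD
  have h := e1_can (hB1 G (s.T σ o)) (hB2 G (s.T σ o)) (T_C1 (hB2 G s) hC σ o)
  simp only [T_x, T_Y, T_zf, T_zo, fT0, fT1, fT2, fT3, fT4, fT5, fT6, fT7, fT8, fT9,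
    fT10, fT11, fT12, fT13, fT14, fT15] at h
  rw [h0, h1] at h
  exact h


/-- `λ` -/
def lam {G : Type} [Group G] (s : Sys G) (o : ℕ) (n : Fin 5) : G :=
  ⁅s.Y o n, s.Y (o ^^^ c n) n * s.Y (o ^^^ c n) n⁆

/-- `d'_m` -/
def dd {G : Type} [Group G] (s : Sys G) (o : ℕ) (n m : Fin 5) : G := s.Y o m * (s.Y o n)⁻¹

omit hB1 hB2 in
theorem xc (o a b : ℕ) : o ^^^ a ^^^ b = o ^^^ b ^^^ a := by
  rw [Nat.xor_assoc, Nat.xor_comm a, ← Nat.xor_assoc]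

/-- `[b, d_m] = 1` -/
theorem b_dm {G : Type} [Group G] (s : Sys G) (hC : ∀ q, s.C q = 1) (o : ℕ) {m n : Fin 5}
    (hmn : m ≠ n) : Commute (s.Y o n) (dd s (o ^^^ c n) n m) := by
  have hb := hB1 G s
  have h := e1 hB1 hB2 s hC o hmn
  have a1 := hb.a_left o m n hmn
  have a2 := hb.b_self (o ^^^ c n) m
  have a3 := hb.b_ne (o ^^^ c n) m n hmn
  rw [xc o (c n) (c m)] at a2 a3
  have h' := commute_of_cj h a1 (show _ = (s.Y (o ^^^ c n) m)⁻¹ * s.Y (o ^^^ c n) n by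
    rw [cj_mul, a2, a3])
  have h2 := h'.inv_left.inv_right
  rw [inv_inv, mul_inv_rev, inv_inv] at h2
  rwa [dd, (hb.Y_comm (o ^^^ c n) m n).inv_right.eq]

theorem lam_eq {G : Type} [Group G] (s : Sys G) (hC : ∀ q, s.C q = 1) (o : ℕ) {m n : Fin 5}
    (hmn : m ≠ n) : lam s o n = ⁅(dd s (o ^^^ c n) n m)⁻¹, (dd s o n m)⁻¹⁆ := by
  have hb := hB1 G s
  apply g1 (b_dm hB1 hB2 s hC o hmn)
  · have h := b_dm hB1 hB2 s hC (o ^^^ c n) hmn
    rwa [xor_cancel] at h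
  · have h := e1 hB1 hB2 s hC o hmn
    have e1 : dd s o n m * s.Y o n = s.Y o m := by rw [dd, inv_mul_cancel_right]
    have e2 : dd s (o ^^^ c n) n m * s.Y (o ^^^ c n) n * s.Y (o ^^^ c n) n =
        s.Y (o ^^^ c n) m * s.Y (o ^^^ c n) n := by rw [dd, inv_mul_cancel_right]
    rwa [e1, e2]

omit hB2 in
theorem dd_comm {G : Type} [Group G] (s : Sys G) (o : ℕ) (m m' n : Fin 5) :
    Commute (dd s o n m) (dd s o n m') := by
  have hb := hB1 G s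
  unfold dd
  exact ((hb.Y_comm o m m').mul_left (hb.Y_comm o n m').inv_left).mul_right
    (((hb.Y_comm o m n).inv_right).mul_left ((Commute.refl (s.Y o n)⁻¹)))

omit hB2 in
/-- `dd` depends only on the two cusps -/
theorem dd_shift {G : Type} [Group G] (s : Sys G) (o : ℕ) {m n a b : Fin 5} (hmn : m ≠ n)
    (hab : a ≠ b) (h1 : m ≠ a) (h2 : m ≠ b) (h3 : n ≠ a) (h4 : n ≠ b) :
    dd s (o ^^^ c a ^^^ c b) n m = dd s o n m :=
  (hB1 G s).D_shift o m n a b hmn hab h1 h2 h3 h4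

omit hB2 in
/-- the frames `o + c_n` and `o + c_m + c_b` share the cusps `m`, `n` -/
theorem dd_shift' {G : Type} [Group G] (s : Sys G) (o : ℕ) {m n b e f : Fin 5}
    (hD : D5 m b n e f) : dd s (o ^^^ c m ^^^ c b) n m = dd s (o ^^^ c n) n m := by
  have h := dd_shift hB1 s (o ^^^ c n) (m := m) (n := n) (a := e) (b := f) hD.2.1
    hD.2.2.2.2.2.2.2.2.2 hD.2.2.1 hD.2.2.2.1 hD.2.2.2.2.2.2.2.1 hD.2.2.2.2.2.2.2.2.1
  rwa [c_two o m b n e f hD] at h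

omit hB2 in
theorem dd_comm2 {G : Type} [Group G] (s : Sys G) (o : ℕ) {m m' n : Fin 5} (h1 : m ≠ n)
    (h2 : m' ≠ n) (h3 : m ≠ m') : Commute (dd s (o ^^^ c n) n m) (dd s o n m') := by
  obtain ⟨b, f, hD⟩ := exists_D5_3 h1 h3 h2.symm
  -- `m n m' b f`
  obtain ⟨d1, d2, d3, d4, d5, d6, d7, d8, d9, d10⟩ := hD
  have e1 := dd_shift' hB1 s o (m := m) (n := n) (b := b) (e := m') (f := f)
    ⟨d3, d1, d2, d4, d6.symm, d8.symm, d10, d5, d7, d9⟩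
  have e2 := dd_shift hB1 s o (m := m') (n := n) (a := m) (b := b) h2 d3 h3.symm d8 h1.symm d6
  rw [← e1, ← e2]
  exact dd_comm hB1 s _ _ _ _

theorem lam_comm {G : Type} [Group G] (s : Sys G) (hC : ∀ q, s.C q = 1) (o : ℕ) {m n : Fin 5}
    (hmn : m ≠ n) : Commute (lam s o n) (dd s o n m) ∧
      Commute (lam s o n) (dd s (o ^^^ c n) n m) := by
  obtain ⟨m', k, l, hD⟩ := exists_D5_2 hmn
  have h1 : m' ≠ n := hD.2.2.2.2.1.symm
  have h2 : m ≠ m' := hD.2.1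
  rw [lam_eq hB1 hB2 s hC o h1]
  constructor
  · -- `d'_m` commutes with `d_m'` and `d'_m'`
    have c1 : Commute (dd s (o ^^^ c n) n m')⁻¹ (dd s o n m) :=
      (dd_comm2 hB1 s o h1 hmn h2.symm).inv_left
    have c2 : Commute (dd s o n m')⁻¹ (dd s o n m) := (dd_comm hB1 s o m' m n).inv_left
    rw [commutatorElement_def]
    exact ((c1.mul_left c2).mul_left c1.inv_left).mul_left c2.inv_left
  · have c1 : Commute (dd s (o ^^^ c n) n m')⁻¹ (dd s (o ^^^ c n) n m) :=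
      (dd_comm hB1 s (o ^^^ c n) m' m n).inv_left
    have c2 : Commute (dd s o n m')⁻¹ (dd s (o ^^^ c n) n m) :=
      (dd_comm2 hB1 s o hmn h1 h2).symm.inv_left
    rw [commutatorElement_def]
    exact ((c1.mul_left c2).mul_left c1.inv_left).mul_left c2.inv_left

theorem lam_eq2 {G : Type} [Group G] (s : Sys G) (hC : ∀ q, s.C q = 1) (o : ℕ) {m n : Fin 5}
    (hmn : m ≠ n) : ⁅dd s (o ^^^ c n) n m, dd s o n m⁆ = lam s o n :=
  g2 (lam_eq hB1 hB2 s hC o hmn) (lam_comm hB1 hB2 s hC o hmn).2 (lam_comm hB1 hB2 s hC o hmn).1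

theorem lam_cn {G : Type} [Group G] (s : Sys G) (hC : ∀ q, s.C q = 1) (o : ℕ) (n : Fin 5) :
    lam s (o ^^^ c n) n = (lam s o n)⁻¹ := by
  obtain ⟨m, hmn⟩ : ∃ m, m ≠ n := exists_ne n
  have h := lam_eq2 hB1 hB2 s hC (o ^^^ c n) hmn
  rw [xor_cancel] at h
  rw [← h, ← lam_eq2 hB1 hB2 s hC o hmn, commutatorElement_inv]

/-- `λ² = 1` and the shift by two directions -/
theorem lam_shift {G : Type} [Group G] (s : Sys G) (hC : ∀ q, s.C q = 1) (o : ℕ)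
    {a b n : Fin 5} (hab : a ≠ b) (han : a ≠ n) (hbn : b ≠ n) :
    lam s (o ^^^ c a ^^^ c b) n = lam s o n ∧ lam s (o ^^^ c a ^^^ c b) n = (lam s o n)⁻¹ := by
  obtain ⟨e, f, hD⟩ := exists_D5_3 hab han hbn
  obtain ⟨d1, d2, d3, d4, d5, d6, d7, d8, d9, d10⟩ := hD
  constructor
  · -- direction `e`
    have e1 : dd s (o ^^^ c a ^^^ c b) n e = dd s o n e :=
      dd_shift hB1 s o d8.symm hab d3.symm d6.symm han.symm hbn.symm
    have e2 : dd s (o ^^^ c a ^^^ c b ^^^ c n) n e = dd s (o ^^^ c n) n e := by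
      have h := dd_shift hB1 s (o ^^^ c n) (m := e) (n := n) (a := a) (b := b) d8.symm hab d3.symm
        d6.symm han.symm hbn.symm
      have ex : o ^^^ c n ^^^ c a ^^^ c b = o ^^^ c a ^^^ c b ^^^ c n := by
        rw [xc o (c n), xc (o ^^^ c a) (c n)]
      rwa [ex] at h
    rw [← lam_eq2 hB1 hB2 s hC _ d8.symm, ← lam_eq2 hB1 hB2 s hC o d8.symm, e1, e2]
  · -- direction `a`
    have e1 : dd s (o ^^^ c a ^^^ c b) n a = dd s (o ^^^ c n) n a :=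
      dd_shift' hB1 s o (m := a) (n := n) (b := b) (e := e) (f := f)
        ⟨d1, d2, d3, d4, d5, d6, d7, d8, d9, d10⟩
    have e2 : dd s (o ^^^ c a ^^^ c b ^^^ c n) n a = dd s o n a := by
      have h := dd_shift hB1 s o (m := a) (n := n) (a := e) (b := f) han d10 d3 d4 d8 d9
      rwa [← c_two o e f a b n ⟨d10, d3.symm, d6.symm, d8.symm, d4.symm, d7.symm, d9.symm,
        d1, d2, d5⟩] at h
    rw [← lam_eq2 hB1 hB2 s hC _ han, e1, e2, ← lam_eq2 hB1 hB2 s hC o han, commutatorElement_inv]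

theorem lam_inv {G : Type} [Group G] (s : Sys G) (hC : ∀ q, s.C q = 1) (o : ℕ) (n : Fin 5) :
    (lam s o n)⁻¹ = lam s o n := by
  obtain ⟨a, b, k, l, hD⟩ := exists_D5_1 n
  obtain ⟨h1, h2⟩ := lam_shift hB1 hB2 s hC o (a := a) (b := b) (n := n) hD.2.2.2.2.1 hD.1.symm
    hD.2.1.symm
  rw [← h2, h1]

/-- `x_{o + c_m}` fixes `λ` -/
theorem x_lam {G : Type} [Group G] (s : Sys G) (hC : ∀ q, s.C q = 1) (o : ℕ) {m n : Fin 5}
    (hmn : m ≠ n) : cj (s.x (o ^^^ c m)) (lam s o n) = lam s o n := by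
  have hb := hB1 G s
  have a1 := hb.a_left (o ^^^ c n) m n hmn
  have a2 := hb.a_right (o ^^^ c n) m n hmn
  have ex : o ^^^ c n ^^^ c m ^^^ c n = o ^^^ c m := by rw [xc o, xor_cancel]
  rw [ex] at a1 a2
  have e1 : cj (s.x (o ^^^ c m)) (dd s (o ^^^ c n) n m) = dd s (o ^^^ c n) n m := by
    rw [dd, cj_mul, cj_inv, a1, a2, inv_inv, (hb.Y_comm (o ^^^ c n) m n).inv_right.eq]
  have e2 : cj (s.x (o ^^^ c m)) (dd s o n m) =
      (dd s o n m)⁻¹ * ((s.Y o n)⁻¹ * (s.Y o n)⁻¹) := by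
    rw [dd, cj_mul, cj_inv, hb.b_self, hb.b_ne o m n hmn, mul_inv_rev, inv_inv, mul_assoc,
      ← mul_assoc (s.Y o m)⁻¹, ((hb.Y_comm o m n).inv_left.inv_right).eq, mul_assoc,
      mul_inv_cancel_left, ((hb.Y_comm o m n).inv_left.inv_right).eq]
  have h := lam_eq2 hB1 hB2 s hC o hmn
  have hc := lam_comm hB1 hB2 s hC o hmn
  have hbd : Commute (s.Y o n)⁻¹ (dd s (o ^^^ c n) n m) := (b_dm hB1 hB2 s hC o hmn).inv_left
  rw [← h] at hc
  conv_lhs => rw [← h]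
  rw [cj_comm, e1, e2, g3 hc.1 (hbd.mul_left hbd), h, lam_inv hB1 hB2 s hC]


/-- `x_o` maps `λ(z_n)` to `λ(z̄_i)`, canonical form (`m, n, i, e, f = 0, 1, 2, 3, 4`) -/
theorem x_lam_can {G : Type} [Group G] (s : Sys G) (hC : ∀ q, s.C q = 1) :
    cj (s.x 0) ⁅s.Y 0 1, s.Y 2 1 * s.Y 2 1⁆ = ⁅s.Y 2 2, s.Y 6 2 * s.Y 6 2⁆ := by
  have hb := hB1 G s
  have h2 := hB2 G s
  have h := lam_eq2 hB1 hB2 s hC 0 (m := 0) (n := 1) (by decide)
  have h' := lam_eq2 hB1 hB2 s hC 2 (m := 0) (n := 2) (by decide)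
  have hc' := (lam_comm hB1 hB2 s hC 2 (m := 0) (n := 2) (by decide)).2
  have hl : lam s 0 1 = ⁅s.Y 0 1, s.Y 2 1 * s.Y 2 1⁆ := rfl
  have hl' : lam s 2 2 = ⁅s.Y 2 2, s.Y 6 2 * s.Y 6 2⁆ := rfl
  have ed1 : dd s (0 ^^^ c 1) 1 0 = s.Y 2 0 * (s.Y 2 1)⁻¹ := rfl
  have ed2 : dd s 0 1 0 = s.Y 0 0 * (s.Y 0 1)⁻¹ := rfl
  have ed3 : dd s (2 ^^^ c 2) 2 0 = s.Y 6 0 * (s.Y 6 2)⁻¹ := rfl
  have ed4 : dd s 2 2 0 = s.Y 2 0 * (s.Y 2 2)⁻¹ := rfl
  have s1 : s.Y 7 0 * (s.Y 7 1)⁻¹ = s.Y 0 0 * (s.Y 0 1)⁻¹ :=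
    hb.D_shift 0 0 1 3 4 (by decide) (by decide) (by decide) (by decide) (by decide) (by decide)
  have s2 : s.Y 6 0 * (s.Y 6 2)⁻¹ = s.Y 1 0 * (s.Y 1 2)⁻¹ :=
    hb.D_shift 1 0 2 3 4 (by decide) (by decide) (by decide) (by decide) (by decide) (by decide)
  have a1 : cj (s.x 0) (s.Y 2 0) = s.Y 2 0 := hb.b_ne 2 1 0 (by decide)
  have a2 : cj (s.x 0) (s.Y 2 1) = (s.Y 2 1)⁻¹ := hb.b_self 2 1
  have a3 : cj (s.x 0) (s.Y 7 0) = (s.Y 1 0)⁻¹ * (s.Y 1 3)⁻¹ * (s.Y 7 4)⁻¹ :=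
    hb.a_other 7 3 4 0 1 2 (by decide)
  have a4 : cj (s.x 0) (s.Y 7 1) = (s.Y 2 1)⁻¹ * (s.Y 2 3)⁻¹ * (s.Y 7 4)⁻¹ :=
    hb.a_other 7 3 4 1 0 2 (by decide)
  -- the frames `2` and `1`
  have k := fun (i j : Fin 5) (h1 : ¬ (i = 0 ∧ j = 0)) (h1' : ¬ (i = 1 ∧ j = 1)) =>
    (show Commute (s.Y 2 i) (s.Y 1 j) from cm2 hb h2 hC 2 0 1 i j (by decide) h1 h1')
  have e1 : cj (s.x 0) (dd s (0 ^^^ c 1) 1 0) = s.Y 2 0 * s.Y 2 1 := by
    rw [ed1, cj_mul, cj_inv, a1, a2, inv_inv]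
  have e2 : cj (s.x 0) (dd s 0 1 0) = (s.Y 1 0)⁻¹ * (s.Y 1 3)⁻¹ * s.Y 2 3 * s.Y 2 1 := by
    rw [ed2, ← s1, cj_mul, cj_inv, a3, a4]; group
  rw [← hl, ← hl', ← h, cj_comm, e1, e2,
    g4 (hb.Y_comm 2 0 1) (hb.Y_comm 2 0 3) (hb.Y_comm 2 1 3) (k 1 0 (by decide) (by decide))
      (k 1 3 (by decide) (by decide)) (k 0 3 (by decide) (by decide)).symm]
  have h5 := g5 (fm := s.Y 2 0) (fi := s.Y 2 2) (gm := s.Y 1 0) (gi := s.Y 1 2)
    (k 2 0 (by decide) (by decide)) (k 0 2 (by decide) (by decide)).symm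
    (k 2 2 (by decide) (by decide)).symm
  rw [ed3, ed4, s2, h5] at h'
  apply g6 h'
  -- `λ` commutes with `gm gi⁻¹` and with `gi`
  rw [ed3, s2] at hc'
  have c2 : Commute (lam s 2 2) (s.Y 1 2) := by
    rw [← h', commutatorElement_def]
    have q1 : Commute (s.Y 1 0) (s.Y 1 2) := hb.Y_comm 1 0 2
    have q2 : Commute (s.Y 2 0) (s.Y 1 2) := k 0 2 (by decide) (by decide)
    exact ((q1.mul_left q2).mul_left q1.inv_left).mul_left q2.inv_left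
  have := hc'.mul_right c2
  rwa [inv_mul_cancel_right] at this

theorem x_lam' {G : Type} [Group G] (s : Sys G) (hC : ∀ q, s.C q = 1) (p : ℕ) {n i : Fin 5}
    (hni : n ≠ i) : cj (s.x p) (lam s p n) = lam s (p ^^^ c n) i := by
  obtain ⟨m, k, l, hD⟩ := exists_D5_2 hni
  obtain ⟨d1, d2, d3, d4, d5, d6, d7, d8, d9, d10⟩ := hD
  obtain ⟨σ, h0, h1, h2, -⟩ := exists_perm5 (i := m) (j := n) (k := i) (l := k) (m := l)
    ⟨d2.symm, d5.symm, d8, d9, d1, d3, d4, d6, d7, d10⟩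
  have h := x_lam_can hB1 hB2 (s.T σ p) (T_C1 (hB2 G s) hC σ p)
  simp only [T_x, T_Y, T_zf, T_zo, fT0, fT1, fT2, fT3, fT4, fT5, fT6, fT7, fT8, fT9,
    fT10, fT11, fT12, fT13, fT14, fT15] at h
  rw [h1, h2] at h
  exact h

theorem lam_dir {G : Type} [Group G] (s : Sys G) (hC : ∀ q, s.C q = 1) (p : ℕ) (n i : Fin 5) :
    lam s p n = lam s p i := by
  by_cases hni : n = i
  · rw [hni]
  have h1 := x_lam' hB1 hB2 s hC (p ^^^ c n) hni
  rw [xor_cancel] at h1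
  have h2 := x_lam hB1 hB2 s hC p hni
  have h3 : lam s (p ^^^ c n) n = lam s p i := by
    rw [← s.cj_x_x (p ^^^ c n) (lam s (p ^^^ c n) n), h1, h2]
  rw [← h3, lam_cn hB1 hB2 s hC, lam_inv hB1 hB2 s hC]

theorem lam_frame {G : Type} [Group G] (s : Sys G) (hC : ∀ q, s.C q = 1) (p : ℕ) (n : Fin 5) :
    lam s (p ^^^ c n) 0 = lam s p 0 := by
  rw [lam_dir hB1 hB2 s hC (p ^^^ c n) 0 n, lam_cn hB1 hB2 s hC, lam_inv hB1 hB2 s hC,
    lam_dir hB1 hB2 s hC p n 0]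

omit hB1 hB2 in
theorem lam_congr {G : Type} [Group G] (s : Sys G) {p q : ℕ} (h : p % 16 = q % 16) (n : Fin 5) :
    lam s p n = lam s q n := by
  rw [lam, lam, s.Y_congr n h, s.Y_congr n (Sys.congr_c h n)]

theorem lam_all {G : Type} [Group G] (s : Sys G) (hC : ∀ q, s.C q = 1) (p : ℕ) (n : Fin 5) :
    lam s p n = lam s 0 0 := by
  rw [lam_dir hB1 hB2 s hC p n 0]
  rcases mod_cases 0 p with h | ⟨i, h⟩ | ⟨i, j, _, h⟩
  · exact lam_congr s h 0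
  · rw [lam_congr s h 0, lam_frame hB1 hB2 s hC]
  · rw [lam_congr s h 0, lam_frame hB1 hB2 s hC, lam_frame hB1 hB2 s hC]

theorem x_lam_all {G : Type} [Group G] (s : Sys G) (hC : ∀ q, s.C q = 1) (p : ℕ) :
    cj (s.x p) (lam s 0 0) = lam s 0 0 := by
  have h := x_lam' hB1 hB2 s hC p (n := 0) (i := 1) (by decide)
  rwa [lam_all hB1 hB2 s hC p 0, lam_all hB1 hB2 s hC (p ^^^ c 0) 1] at h

theorem specR6 : SpecR6 := by
  intro hP G _ s hgen hst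
  have hC : ∀ q, s.C q = 1 := hst.1
  have hli : (lam s 0 0)⁻¹ = lam s 0 0 := lam_inv hB1 hB2 s hC 0 0
  refine finite_of_kill hP s hgen {lam s 0 0} (Set.finite_singleton _) ?_ ?_ ?_
  · rintro _ rfl
    exact fc_of_central s hgen (x_lam_all hB1 hB2 s hC)
  · rintro _ rfl
    rw [isOfFinOrder_iff_pow_eq_one]
    refine ⟨2, by norm_num, ?_⟩
    rw [pow_two]
    nth_rewrite 1 [← hli]
    exact inv_mul_cancel _
  · intro H _ f hf
    have hf1 : f (lam s 0 0) = 1 := hf _ rfl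
    refine ⟨⟨fun q => ?_, fun o => ?_⟩, fun o m n hmn => ?_⟩
    · rw [map_C, hC, map_one]
    · rw [map_dl, hst.2, map_one]
    · have h := lam_eq2 hB1 hB2 s hC o hmn
      rw [lam_all hB1 hB2 s hC o n] at h
      have h2 : f ⁅dd s (o ^^^ c n) n m, dd s o n m⁆ = 1 := by rw [h, hf1]
      rw [map_commutatorElement, commutatorElement_eq_one_iff_commute] at h2
      simp only [dd, map_mul, map_inv] at h2
      simp only [map_Y]
      exact h2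

end R6

end MPf02039
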