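import Pool.Agent.Lib.MP_f02039_co.R6

/-!
MP_f02039_co: module R7.
-/

namespace MPf02039

namespace R7

open scoped commutatorElement
open Subgroup R6

section comm
variable {G : Type*} [Group G]

theorem g7 {e b d y : G} (h1 : Commute e b) (h2 : Commute e y) (h3 : Commute e d)
    (h4 : Commute d b) (h5 : Commute d y) : ⁅e * b, d * y⁆ = ⁅b, y⁆ := by
  calc ⁅e * b, d * y⁆ = e * (b * d * y) * b⁻¹ * e⁻¹ * y⁻¹ * d⁻¹ := by group
    _ = (b * d * y) * e * b⁻¹ * e⁻¹ * y⁻¹ * d⁻¹ := by rw [((h1.mul_right h3).mul_right h2).eq]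
    _ = b * d * y * (e * b⁻¹) * e⁻¹ * y⁻¹ * d⁻¹ := by group
    _ = b * d * y * (b⁻¹ * e) * e⁻¹ * y⁻¹ * d⁻¹ := by rw [h1.inv_right.eq]
    _ = b * (d * (y * b⁻¹ * y⁻¹)) * d⁻¹ := by group
    _ = b * ((y * b⁻¹ * y⁻¹) * d) * d⁻¹ := by
        rw [((h5.mul_right h4.inv_right).mul_right h5.inv_right).eq]
    _ = ⁅b, y⁆ := by group

theorem g8 {b y : G} (h : Commute (b * b) y) : cj b ⁅b, y⁆ = ⁅b, y⁆⁻¹ := by
  calc cj b ⁅b, y⁆ = (b * b * y) * b⁻¹ * y⁻¹ * b⁻¹ := by rw [cj]; group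
    _ = (y * (b * b)) * b⁻¹ * y⁻¹ * b⁻¹ := by rw [h.eq]
    _ = ⁅b, y⁆⁻¹ := by group

theorem g9 {b y : G} (h : Commute b (y * y)) : cj y ⁅b, y⁆ = ⁅b, y⁆⁻¹ := by
  have h' : Commute b (y * y)⁻¹ := h.inv_right
  calc cj y ⁅b, y⁆ = y * b * y * (b⁻¹ * (y * y)⁻¹) := by rw [cj]; group
    _ = y * b * y * ((y * y)⁻¹ * b⁻¹) := by rw [h'.inv_left.eq]
    _ = ⁅b, y⁆⁻¹ := by group

theorem cj_of_commute {e a : G} (h : Commute e a) : cj e a = a := by
  rw [cj, h.eq, mul_inv_cancel_right]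

/-- `[A, B⁻¹] = [A, B]` if `B` inverts `[A, B]` -/
theorem g10 {a b : G} (h : cj b ⁅a, b⁆ = ⁅a, b⁆⁻¹) : ⁅a, b⁻¹⁆ = ⁅a, b⁆ := by
  have h1 : b * ⁅a, b⁆ * b⁻¹ = ⁅a, b⁆⁻¹ := h
  calc ⁅a, b⁻¹⁆ = b⁻¹ * ⁅a, b⁆⁻¹ * b := by group
    _ = b⁻¹ * (b * ⁅a, b⁆ * b⁻¹) * b := by rw [h1]
    _ = ⁅a, b⁆ := by group

theorem g11 {a b : G} (h : cj a ⁅a, b⁆ = ⁅a, b⁆⁻¹) : ⁅a⁻¹, b⁆ = ⁅a, b⁆ := by
  have h1 : a * ⁅a, b⁆ * a⁻¹ = ⁅a, b⁆⁻¹ := h
  calc ⁅a⁻¹, b⁆ = a⁻¹ * ⁅a, b⁆⁻¹ * a := by group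
    _ = a⁻¹ * (a * ⁅a, b⁆ * a⁻¹) * a := by rw [h1]
    _ = ⁅a, b⁆ := by group

end comm

/-- `ζ_n(o)` -/
def zet {G : Type} [Group G] (s : Sys G) (o : ℕ) (n : Fin 5) : G := ⁅s.Y o n, s.Y (o ^^^ c n) n⁆

/-- the state `St6` in terms of `λ` -/
structure S6 {G : Type} [Group G] (s : Sys G) : Prop where
  hC : ∀ q, s.C q = 1
  h6 : ∀ (o : ℕ) (m n : Fin 5), m ≠ n → Commute (dd s (o ^^^ c n) n m) (dd s o n m)

theorem S6.of {G : Type} [Group G] {s : Sys G} (h : St6 s) : S6 s :=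
  ⟨h.1.1, h.2⟩

variable (hB1 : ∀ (G : Type) [Group G] (s : Sys G), Base1 s)
  (hB2 : ∀ (G : Type) [Group G] (s : Sys G), Base2 s)

include hB1 hB2

theorem S6.lam_one {G : Type} [Group G] {s : Sys G} (h : S6 s) (o : ℕ) (n : Fin 5) :
    lam s o n = 1 := by
  obtain ⟨m, hmn⟩ : ∃ m, m ≠ n := exists_ne n
  rw [← lam_eq2 hB1 hB2 s h.hC o hmn, commutatorElement_eq_one_iff_commute]
  exact h.h6 o m n hmn

/-- `[b, y²] = 1` -/
theorem S6.sq_right {G : Type} [Group G] {s : Sys G} (h : S6 s) (o : ℕ) (n : Fin 5) :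
    Commute (s.Y o n) (s.Y (o ^^^ c n) n * s.Y (o ^^^ c n) n) := by
  rw [← commutatorElement_eq_one_iff_commute]
  exact h.lam_one hB1 hB2 o n

/-- `[b², y] = 1` -/
theorem S6.sq_left {G : Type} [Group G] {s : Sys G} (h : S6 s) (o : ℕ) (n : Fin 5) :
    Commute (s.Y o n * s.Y o n) (s.Y (o ^^^ c n) n) := by
  have := (h.sq_right hB1 hB2 (o ^^^ c n) n).symm
  rwa [xor_cancel] at this

theorem S6.eq_dir_can {G : Type} [Group G] {s : Sys G} (h : S6 s) :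
    Commute (s.Y 1 0) (s.Y 2 0) := by
  have hb := hB1 G s
  have h2 := hB2 G s
  have h' := lam_eq2 hB1 hB2 s h.hC 2 (m := 0) (n := 2) (by decide)
  rw [h.lam_one hB1 hB2] at h'
  have ed3 : dd s (2 ^^^ c 2) 2 0 = s.Y 6 0 * (s.Y 6 2)⁻¹ := rfl
  have ed4 : dd s 2 2 0 = s.Y 2 0 * (s.Y 2 2)⁻¹ := rfl
  have s2 : s.Y 6 0 * (s.Y 6 2)⁻¹ = s.Y 1 0 * (s.Y 1 2)⁻¹ :=
    hb.D_shift 1 0 2 3 4 (by decide) (by decide) (by decide) (by decide) (by decide) (by decide)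
  have k := fun (i j : Fin 5) (h1 : ¬ (i = 0 ∧ j = 0)) (h1' : ¬ (i = 1 ∧ j = 1)) =>
    (show Commute (s.Y 2 i) (s.Y 1 j) from cm2 hb h2 h.hC 2 0 1 i j (by decide) h1 h1')
  have h5 := g5 (fm := s.Y 2 0) (fi := s.Y 2 2) (gm := s.Y 1 0) (gi := s.Y 1 2)
    (k 2 0 (by decide) (by decide)) (k 0 2 (by decide) (by decide)).symm
    (k 2 2 (by decide) (by decide)).symm
  rw [ed3, ed4, s2, h5] at h'
  rwa [commutatorElement_eq_one_iff_commute] at h'

theorem S6.T {G : Type} [Group G] {s : Sys G} (h : S6 s) (σ : Equiv.Perm (Fin 5)) (t : ℕ) :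
    S6 (s.T σ t) := by
  refine ⟨T_C1 (hB2 G s) h.hC σ t, fun o m n hmn => ?_⟩
  have e : fp σ (o ^^^ c n) ^^^ t = fp σ o ^^^ t ^^^ c (σ n) := by
    rw [fp_xor, fp_c]; ac_rfl
  simp only [dd, T_Y, e]
  exact h.h6 (fp σ o ^^^ t) (σ m) (σ n) (fun hc => hmn (σ.injective hc))

theorem S6.eq_dir {G : Type} [Group G] {s : Sys G} (h : S6 s) (p : ℕ) {m n : Fin 5}
    (hmn : m ≠ n) : Commute (s.Y (p ^^^ c m) m) (s.Y (p ^^^ c n) m) := by
  obtain ⟨j, k, l, hD⟩ := exists_D5_2 hmn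
  obtain ⟨σ, h0, h1, -⟩ := exists_perm5 hD
  have h := (h.T hB1 hB2 σ p).eq_dir_can hB1 hB2
  simp only [T_Y, fT1, fT2] at h
  rw [h0, h1] at h
  exact h

/-- all `Y` of frames at distance two commute -/
theorem S6.dist2 {G : Type} [Group G] {s : Sys G} (h : S6 s) (o : ℕ) {l m : Fin 5}
    (hlm : l ≠ m) (i j : Fin 5) : Commute (s.Y o i) (s.Y (o ^^^ c l ^^^ c m) j) := by
  by_cases h1 : i = l ∧ j = l
  · obtain ⟨rfl, rfl⟩ := h1
    have := h.eq_dir hB1 hB2 (o ^^^ c j) hlm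
    rwa [xor_cancel] at this
  by_cases h2 : i = m ∧ j = m
  · obtain ⟨rfl, rfl⟩ := h2
    have := h.eq_dir hB1 hB2 (o ^^^ c j) hlm.symm
    rwa [xor_cancel, xc] at this
  exact cm2 (hB1 G s) (hB2 G s) h.hC o l m i j hlm h1 h2

/-- `[Y_i(o), Y_j(o+c_n)] = ζ_n(o)` -/
theorem S6.zet_eq {G : Type} [Group G] {s : Sys G} (h : S6 s) (o : ℕ) (n i j : Fin 5) :
    ⁅s.Y o i, s.Y (o ^^^ c n) j⁆ = zet s o n := by
  have hb := hB1 G s
  have e1 : dd s o n i * s.Y o n = s.Y o i := by rw [dd, inv_mul_cancel_right]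
  have e2 : dd s (o ^^^ c n) n j * s.Y (o ^^^ c n) n = s.Y (o ^^^ c n) j := by
    rw [dd, inv_mul_cancel_right]
  have c1 : Commute (dd s o n i) (s.Y o n) := by
    unfold dd; exact (hb.Y_comm o i n).mul_left (Commute.refl _).inv_left
  have c5 : Commute (dd s (o ^^^ c n) n j) (s.Y (o ^^^ c n) n) := by
    unfold dd; exact (hb.Y_comm _ j n).mul_left (Commute.refl _).inv_left
  have c2 : Commute (dd s o n i) (s.Y (o ^^^ c n) n) := by
    by_cases hin : i = n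
    · rw [dd, hin, mul_inv_cancel]; exact Commute.one_left _
    · have := b_dm hB1 hB2 s h.hC (o ^^^ c n) hin
      rw [xor_cancel] at this
      exact this.symm
  have c4 : Commute (dd s (o ^^^ c n) n j) (s.Y o n) := by
    by_cases hjn : j = n
    · rw [dd, hjn, mul_inv_cancel]; exact Commute.one_left _
    · exact (b_dm hB1 hB2 s h.hC o hjn).symm
  have c3 : Commute (dd s o n i) (dd s (o ^^^ c n) n j) := by
    by_cases hin : i = n
    · rw [dd, hin, mul_inv_cancel]; exact Commute.one_left _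
    by_cases hjn : j = n
    · rw [dd, dd, hjn, mul_inv_cancel]; exact Commute.one_right _
    by_cases hij : i = j
    · subst hij; exact (h.h6 o i n hin).symm
    · exact (dd_comm2 hB1 s o hjn hin (Ne.symm hij)).symm
  rw [← e1, ← e2, g7 c1 c2 c3 c4 c5, zet]

/-- `Y_i(o)` and `Y_j(o + c_n)` invert `ζ_n(o)` -/
theorem S6.Y_zet {G : Type} [Group G] {s : Sys G} (h : S6 s) (o : ℕ) (n i : Fin 5) :
    cj (s.Y o i) (zet s o n) = (zet s o n)⁻¹ := by
  have hb := hB1 G s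
  have e1 : dd s o n i * s.Y o n = s.Y o i := by rw [dd, inv_mul_cancel_right]
  have c1 : Commute (dd s o n i) (s.Y o n) := by
    unfold dd; exact (hb.Y_comm o i n).mul_left (Commute.refl _).inv_left
  have c2 : Commute (dd s o n i) (s.Y (o ^^^ c n) n) := by
    by_cases hin : i = n
    · rw [dd, hin, mul_inv_cancel]; exact Commute.one_left _
    · have := b_dm hB1 hB2 s h.hC (o ^^^ c n) hin
      rw [xor_cancel] at this
      exact this.symm
  have c3 : Commute (dd s o n i) (zet s o n) := by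
    unfold zet
    rw [commutatorElement_def]
    exact ((c1.mul_right c2).mul_right c1.inv_right).mul_right c2.inv_right
  rw [← e1, mul_cj]
  have := g8 (h.sq_left hB1 hB2 o n)
  unfold zet at c3 ⊢
  rw [this, cj_of_commute c3.inv_right]

theorem S6.zet_c {G : Type} [Group G] {s : Sys G} (_ : S6 s) (o : ℕ) (n : Fin 5) :
    zet s (o ^^^ c n) n = (zet s o n)⁻¹ := by
  rw [zet, zet, xor_cancel, commutatorElement_inv]

theorem S6.Y_zet' {G : Type} [Group G] {s : Sys G} (h : S6 s) (o : ℕ) (n j : Fin 5) :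
    cj (s.Y (o ^^^ c n) j) (zet s o n) = (zet s o n)⁻¹ := by
  have h1 := h.Y_zet hB1 hB2 (o ^^^ c n) n j
  rw [h.zet_c hB1 hB2 o n, cj_inv, inv_inv] at h1
  rw [← h1, inv_inv, h1]

/-- `x_{o + c_i}` fixes `ζ` -/
theorem S6.x1 {G : Type} [Group G] {s : Sys G} (h : S6 s) (o : ℕ) {n i : Fin 5} (hin : i ≠ n) :
    cj (s.x (o ^^^ c i)) (zet s o n) = zet s o n := by
  have hb := hB1 G s
  have a1 := hb.b_ne o i n hin
  have a2 := hb.a_left (o ^^^ c n) i n hin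
  have ex : o ^^^ c n ^^^ c i ^^^ c n = o ^^^ c i := by rw [xc o, xor_cancel]
  rw [ex] at a2
  have hz := h.zet_eq hB1 hB2 o n n n
  have hi := h.Y_zet' hB1 hB2 o n n
  conv_lhs => rw [← h.zet_eq hB1 hB2 o n n i]
  rw [cj_comm, a1, a2, ← hz]
  apply g10
  rw [hz]
  exact hi

theorem S6.x2 {G : Type} [Group G] {s : Sys G} (h : S6 s) (o : ℕ) {n i j : Fin 5} (hij : i ≠ j) :
    cj (s.x (o ^^^ c i ^^^ c j)) (zet s o n) = zet s o n := by
  have hb := hB1 G s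
  by_cases hjn : j = n
  · subst hjn
    have h1 := h.x1 hB1 hB2 (o ^^^ c j) hij
    rw [h.zet_c hB1 hB2, cj_inv, inv_inj, xc] at h1
    exact h1
  by_cases hin : i = n
  · subst hin
    have h1 := h.x1 hB1 hB2 (o ^^^ c i) (Ne.symm hij)
    rw [h.zet_c hB1 hB2, cj_inv, inv_inj] at h1
    exact h1
  obtain ⟨k, l, hD⟩ := exists_D5_3 hij hin hjn
  have a1 := hb.a_left o i j hij
  have hkl : k ≠ l := hD.2.2.2.2.2.2.2.2.2
  have a2 := hb.a_left (o ^^^ c n) k l hkl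
  rw [c_two o i j n k l hD] at a2
  conv_lhs => rw [← h.zet_eq hB1 hB2 o n i k]
  rw [cj_comm, a1, a2]
  have hz := h.zet_eq hB1 hB2 o n j l
  have hi := h.Y_zet hB1 hB2 o n j
  have hi' := h.Y_zet' hB1 hB2 o n l
  have s1 : ⁅(s.Y o j)⁻¹, s.Y (o ^^^ c n) l⁆ = zet s o n := by
    rw [g11 (by rw [hz]; exact hi), hz]
  rw [g10 (by rw [s1]; exact hi'), s1]

/-- elements fixed by the 14 generators -/
def Good {G : Type} [Group G] (s : Sys G) (o : ℕ) (n : Fin 5) (w : G) : Prop :=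
  (∀ i, i ≠ n → cj (s.x (o ^^^ c i)) w = w) ∧
    ∀ i j, i ≠ j → cj (s.x (o ^^^ c i ^^^ c j)) w = w

omit hB1 hB2 in
theorem cj_z_of {G : Type} [Group G] (s : Sys G) {w : G} {q : ℕ} {i : Fin 5}
    (h1 : cj (s.x q) w = w) (h2 : cj (s.x (q ^^^ c i)) w = w) : cj (s.zo i q) w = w := by
  rw [← s.x_zo q i, mul_cj, mul_cj, mul_cj, h2, h1, h2, h1]

omit hB1 hB2 in
theorem Good.zf {G : Type} [Group G] {s : Sys G} {o : ℕ} {n : Fin 5} {w : G}
    (h : Good s o n w) (i : Fin 5) : cj (s.zf i o) w = w := by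
  have key : ∀ i n : Fin 5, ∃ a, a ≠ i ∧ a ≠ n := by decide
  obtain ⟨a, ha1, ha2⟩ := key i n
  rw [← s.zo_c_ne ha1 o]
  exact cj_z_of s (h.1 a ha2) (h.2 a i ha1)

omit hB1 hB2 in
theorem Good.zo {G : Type} [Group G] {s : Sys G} {o : ℕ} {n : Fin 5} {w : G}
    (h : Good s o n w) (i : Fin 5) : cj (s.zo i o) w = w := by
  obtain ⟨a, b, e, f, hD⟩ := exists_D5_1 i
  obtain ⟨d1, d2, d3, d4, d5, d6, d7, d8, d9, d10⟩ := hD
  have h1 : s.zo i (o ^^^ c a ^^^ c b) = s.zo i o := by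
    rw [s.zo_c_ne d2.symm, s.zf_c_ne d1.symm]
  rw [← h1]
  refine cj_z_of s (h.2 a b d5) ?_
  have ex : o ^^^ c a ^^^ c b ^^^ c i = o ^^^ c e ^^^ c f :=
    c_two o e f a b i ⟨d10, d6.symm, d8.symm, d3.symm, d7.symm, d9.symm, d4.symm, d5, d1.symm,
      d2.symm⟩
  rw [ex]
  exact h.2 e f d10

omit hB1 hB2 in
theorem Good.symm {G : Type} [Group G] {s : Sys G} {o : ℕ} {n : Fin 5} {w : G}
    (h : Good s o n w) : Good s (o ^^^ c n) n w := by
  refine ⟨fun i hin => h.2 n i hin.symm, fun i j hij => ?_⟩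
  by_cases hin : i = n
  · subst hin
    rw [xor_cancel]
    exact h.1 j hij.symm
  by_cases hjn : j = n
  · subst hjn
    rw [xc o, xor_cancel]
    exact h.1 i hij
  obtain ⟨k, l, hD⟩ := exists_D5_3 hij hin hjn
  obtain ⟨d1, d2, d3, d4, d5, d6, d7, d8, d9, d10⟩ := hD
  have ex : o ^^^ c n ^^^ c i ^^^ c j = o ^^^ c k ^^^ c l :=
    c_two o k l n i j ⟨d10, d8.symm, d3.symm, d6.symm, d9.symm, d4.symm, d7.symm, d2.symm,
      d5.symm, d1⟩
  rw [ex]
  exact h.2 k l d10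

omit hB1 hB2 in
theorem xx_swap {G : Type} [Group G] (s : Sys G) (p : ℕ) (i : Fin 5) :
    s.x (p ^^^ c i) * s.x p = s.x p * s.zo i p * s.x (p ^^^ c i) := by
  have h := s.x_zo p i
  have h1 : s.x p * (s.x (p ^^^ c i) * s.x p) * s.x (p ^^^ c i) = s.zo i p := by
    rw [← h]; simp only [mul_assoc]
  have h2 : s.x (p ^^^ c i) * s.x p = s.x p * (s.x p * (s.x (p ^^^ c i) * s.x p) *
      s.x (p ^^^ c i)) * s.x (p ^^^ c i) := by
    have e1 := s.x_sq p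
    have e2 := s.x_sq (p ^^^ c i)
    rw [mul_assoc (s.x p), mul_assoc, mul_assoc, mul_assoc, e2, mul_one, ← mul_assoc, e1, one_mul]
  rw [h2, h1]

omit hB1 hB2 in
/-- `x_o` preserves the fixed elements -/
theorem Good.x {G : Type} [Group G] {s : Sys G} {o : ℕ} {n : Fin 5} {w : G}
    (h : Good s o n w) : Good s o n (cj (s.x o) w) := by
  constructor
  · intro i hin
    rw [cj_cj, xx_swap, mul_cj, mul_cj, h.1 i hin, h.zo i]
  · intro i j hij
    rw [cj_cj, ← s.x_comm o i j hij, mul_cj, h.2 i j hij]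

omit hB1 hB2 in
theorem Good.x' {G : Type} [Group G] {s : Sys G} {o : ℕ} {n : Fin 5} {w : G}
    (h : Good s o n w) : Good s o n (cj (s.x (o ^^^ c n)) w) := by
  have := h.symm.x.symm
  rwa [xor_cancel] at this

omit hB1 hB2 in
theorem Good.xx {G : Type} [Group G] {s : Sys G} {o : ℕ} {n : Fin 5} {w : G}
    (h : Good s o n w) : cj (s.x (o ^^^ c n)) (cj (s.x o) w) =
      cj (s.x o) (cj (s.x (o ^^^ c n)) w) := by
  rw [cj_cj, xx_swap]
  -- `z` commutes with `x_{o+c_n}`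
  have h1 : s.zo n o * s.x (o ^^^ c n) = s.x (o ^^^ c n) * s.zo n o := by
    have := s.zo_x n (o ^^^ c n)
    rwa [s.zo_c_self] at this
  rw [mul_assoc, h1, mul_cj, mul_cj, h.zo n]

omit hB1 hB2 in
theorem Good.fc {G : Type} [Group G] {s : Sys G} (hgen : closure (Set.range s.x) = ⊤)
    {o : ℕ} {n : Fin 5} {w : G} (h : Good s o n w) :
    Pool.Agent.Lib.MP_f02039_co.Diet.FC w := by
  refine Pool.Agent.Lib.MP_f02039_co.Diet.fc_of_stable_gens
    (T := {w, cj (s.x o) w, cj (s.x (o ^^^ c n)) w, cj (s.x o) (cj (s.x (o ^^^ c n)) w)}) hgen ?_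
    (Set.toFinite _) ?_ (by simp)
  · rintro _ ⟨p, rfl⟩; exact s.x_sq p
  · rintro _ ⟨p, rfl⟩ t ht
    have e : s.x p * t * s.x p = cj (s.x p) t := by rw [cj, s.x_inv]
    rw [e]
    have hgood : Good s o n t := by
      simp only [Set.mem_insert_iff, Set.mem_singleton_iff] at ht
      rcases ht with rfl | rfl | rfl | rfl
      · exact h
      · exact h.x
      · exact h.x'
      · exact h.x'.x
    rcases mod_cases o p with hp | ⟨i, hp⟩ | ⟨i, j, hij, hp⟩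
    · rw [s.x_congr hp]
      simp only [Set.mem_insert_iff, Set.mem_singleton_iff] at ht ⊢
      rcases ht with rfl | rfl | rfl | rfl
      · right; left; rfl
      · left; exact s.cj_x_x o w
      · right; right; right; rfl
      · right; right; left; exact s.cj_x_x o _
    · rw [s.x_congr hp]
      by_cases hin : i = n
      · subst hin
        simp only [Set.mem_insert_iff, Set.mem_singleton_iff] at ht ⊢
        rcases ht with rfl | rfl | rfl | rfl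
        · right; right; left; rfl
        · right; right; right; exact h.xx
        · left; exact s.cj_x_x _ w
        · right; left; rw [h.x'.xx, s.cj_x_x]
      · rw [hgood.1 i hin]; exact ht
    · rw [s.x_congr hp, hgood.2 i j hij]; exact ht

theorem S6.good {G : Type} [Group G] {s : Sys G} (h : S6 s) (o : ℕ) (n : Fin 5) :
    Good s o n (zet s o n) :=
  ⟨fun _ hin => h.x1 hB1 hB2 o hin, fun _ _ hij => h.x2 hB1 hB2 o hij⟩

theorem S6.zet_sq {G : Type} [Group G] {s : Sys G} (h : S6 s) (o : ℕ) (n : Fin 5) :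
    zet s o n ^ 2 = 1 := by
  obtain ⟨i, hin⟩ : ∃ i, i ≠ n := exists_ne n
  have h1 := h.Y_zet hB1 hB2 o n i
  have hg := h.good hB1 hB2 o n
  rw [Sys.Y, mul_cj, mul_cj, mul_cj, hg.1 i hin, hg.zf i, hg.1 i hin, hg.zf i] at h1
  rw [pow_two]
  nth_rewrite 1 [h1]
  exact inv_mul_cancel _

theorem specR7 : SpecR7 := by
  intro hP G _ s hgen hst
  have h6 : S6 s := S6.of hst
  have hb := hB1 G s
  have hcongr : ∀ (p q : ℕ) (n : Fin 5), p % 16 = q % 16 → zet s p n = zet s q n := by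
    intro p q n h
    rw [zet, zet, s.Y_congr n h, s.Y_congr n (Sys.congr_c h n)]
  refine finite_of_kill hP s hgen (Set.range fun p : Fin 16 × Fin 5 => zet s p.1 p.2)
    (Set.finite_range _) ?_ ?_ ?_
  · rintro _ ⟨⟨o, n⟩, rfl⟩
    exact (h6.good hB1 hB2 o n).fc hgen
  · rintro _ ⟨⟨o, n⟩, rfl⟩
    rw [isOfFinOrder_iff_pow_eq_one]
    exact ⟨2, by norm_num, h6.zet_sq hB1 hB2 o n⟩
  · intro H _ f hf
    have hf1 : ∀ (o : ℕ) (n : Fin 5), f (zet s o n) = 1 := by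
      intro o n
      rw [← hcongr (o % 16) o n (Nat.mod_mod _ _)]
      exact hf _ ⟨(⟨o % 16, Nat.mod_lt _ (by norm_num)⟩, n), rfl⟩
    refine ⟨⟨fun q => ?_, fun o => ?_⟩, fun o o' i j => ?_⟩
    · rw [map_C, h6.hC, map_one]
    · rw [map_dl, hst.1.2, map_one]
    · rw [map_Y, map_Y]
      rcases mod_cases o o' with hp | ⟨n, hp⟩ | ⟨a, b, hab, hp⟩
      · rw [s.Y_congr j hp]
        exact (hb.Y_comm o i j).map f
      · rw [s.Y_congr j hp, ← commutatorElement_eq_one_iff_commute, ← map_commutatorElement,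
          h6.zet_eq hB1 hB2, hf1]
      · rw [s.Y_congr j hp]
        exact (h6.dist2 hB1 hB2 o hab i j).map f

end R7

end MPf02039
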