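import Pool.Agent.Lib.MP_f02039_co.Spec
import Pool.Agent.Lib.MP_f02039_co.Diet

/-!
MP_f02039_co, steps R8 and R8b: killing the `Θ_q` and the `e_o`.
-/

namespace MPf02039

open scoped commutatorElement
open Pool.Agent.Lib.MP_f02039_co

namespace R8

/-- The general kill principle. -/
theorem kill {G : Type} [Group G] (s : Sys G) (hgen : Subgroup.closure (Set.range s.x) = ⊤)
    (T : Set G) (hT : T.Finite) (hst : ∀ (p : ℕ), ∀ t ∈ T, cj (s.x p) t ∈ T)
    (htor : ∀ t ∈ T, IsOfFinOrder t) {P : ∀ {G : Type} [Group G], Sys G → Prop}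
    (hfin : FinIf P)
    (hP : P (s.map (QuotientGroup.mk' (Subgroup.normalClosure T)))) : Finite G := by
  refine Diet.finite_of_torsion hT (fun t ht => ?_) htor ?_
  · refine Diet.fc_of_stable_gens hgen ?_ hT ?_ ht
    · rintro _ ⟨p, rfl⟩
      exact s.x_sq p
    · rintro _ ⟨p, rfl⟩ t ht
      have h := hst p t ht
      rwa [cj, s.x_inv] at h
  · refine hfin _ (s.map (QuotientGroup.mk' (Subgroup.normalClosure T))) ?_ hP
    have h1 : Set.range (s.map (QuotientGroup.mk' (Subgroup.normalClosure T))).x =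
        (QuotientGroup.mk' (Subgroup.normalClosure T)) '' Set.range s.x := by
      rw [← Set.range_comp]
      rfl
    rw [h1, ← MonoidHom.map_closure, hgen, ← MonoidHom.range_eq_map]
    exact MonoidHom.range_eq_top.2 (QuotientGroup.mk'_surjective _)

section
variable {G : Type*} [Group G] (s : Sys G)

theorem commute_cj {g a b : G} (h : Commute a b) : Commute (cj g a) (cj g b) := by
  rw [commute_iff_eq] at *
  rw [← cj_mul, ← cj_mul, h]

theorem cj_eq_of_commute {a b : G} (h : Commute a b) : cj a b = b := by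
  rw [cj_eq_self_iff]; exact h

/-- `x_p` conjugates the cusp not containing `p` -/
theorem x_zf (i : Fin 5) (p : ℕ) : cj (s.x p) (s.zf i p) = s.zf i p * s.Y (p ^^^ c i) i := by
  rw [Sys.Y, s.zf_c_self, xor_cancel, cj, s.x_inv]
  simp only [← mul_assoc]
  rw [s.zf_sq, one_mul]

theorem cj_x_zf_apply (i : Fin 5) (p : ℕ) (a : G) :
    cj (s.x p) (cj (s.zf i p) a) = cj (s.zf i p) (cj (s.Y (p ^^^ c i) i) (cj (s.x p) a)) := by
  have h := x_zf s i p
  rw [cj, s.x_inv, mul_assoc] at h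
  have h2 : s.x p * s.zf i p = s.zf i p * s.Y (p ^^^ c i) i * s.x p := by
    rw [← h, mul_assoc, mul_assoc, s.x_sq, mul_one]
  rw [← mul_cj, h2, mul_cj, mul_cj]

variable {s}

/-- `x(q + c_n) . Θ_q` -/
theorem x_Th_star (hB : Base1 s) (hB2 : Base2 s)
    (hY : ∀ (o o' : ℕ) (i j : Fin 5), Commute (s.Y o i) (s.Y o' j)) (q : ℕ) {m n : Fin 5}
    (hmn : m ≠ n) : cj (s.x (q ^^^ c n)) (s.Th q) =
      cj (s.zo m q) (s.Y (q ^^^ c m) m)⁻¹ * (s.Y (q ^^^ c m) m)⁻¹ := by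
  have h1 := hB2.Th_eq q n m hmn.symm
  have hz : s.zf m (q ^^^ c n) = s.zo m q := s.zf_c_ne hmn.symm q
  have h2 : cj (s.x (q ^^^ c n)) (s.Y (q ^^^ c m) n) = (s.Y (q ^^^ c m) m)⁻¹ := by
    have h3 := hB.a_right (q ^^^ c m) m n hmn
    rw [xor_cancel] at h3
    exact h3
  rw [← h1, cj_mul, h2, ← hz, cj_x_zf_apply, h2]
  congr 2
  exact cj_eq_of_commute ((hY _ _ _ _).inv_right)

theorem exists_ne2 (n n' : Fin 5) : ∃ m : Fin 5, m ≠ n ∧ m ≠ n' := by
  revert n n'; decide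

theorem exists_ne3 (n n' : Fin 5) (h : n ≠ n') : ∃ m a b : Fin 5, D5 m n n' a b := by
  revert n n'; decide

theorem star_indep (hB : Base1 s) (hB2 : Base2 s)
    (hY : ∀ (o o' : ℕ) (i j : Fin 5), Commute (s.Y o i) (s.Y o' j)) (q : ℕ) (n n' : Fin 5) :
    cj (s.x (q ^^^ c n)) (s.Th q) = cj (s.x (q ^^^ c n')) (s.Th q) := by
  obtain ⟨m, h1, h2⟩ := exists_ne2 n n'
  rw [x_Th_star hB hB2 hY q h1, x_Th_star hB hB2 hY q h2]

/-- `Θ*_q` -/
def star (s : Sys G) (q : ℕ) : G := cj (s.x (q ^^^ c 0)) (s.Th q)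

/-- the finite set `{Θ_q, Θ*_q}` -/
def TT (s : Sys G) : Set G := (⋃ q : Fin 16, {s.Th q}) ∪ ⋃ q : Fin 16, {star s q}

theorem TT_finite : (TT s).Finite :=
  (Set.finite_iUnion fun _ => Set.finite_singleton _).union
    (Set.finite_iUnion fun _ => Set.finite_singleton _)

theorem Th_mem (q : ℕ) : s.Th q ∈ TT s := by
  left
  rw [Set.mem_iUnion]
  refine ⟨⟨q % 16, Nat.mod_lt _ (by norm_num)⟩, ?_⟩
  rw [Set.mem_singleton_iff]
  exact s.Th_congr (by simp)

theorem star_mem (q : ℕ) : star s q ∈ TT s := by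
  right
  rw [Set.mem_iUnion]
  refine ⟨⟨q % 16, Nat.mod_lt _ (by norm_num)⟩, ?_⟩
  rw [Set.mem_singleton_iff, star, star]
  have h1 : q % 16 = (q % 16) % 16 := by simp
  rw [s.Th_congr h1, s.x_congr (Sys.congr_c h1 0)]

theorem Th_invol (hB2 : Base2 s) (hC : ∀ q, s.C q = 1) (q : ℕ) : s.Th q * s.Th q = 1 := by
  rw [hB2.Th_sq, hC, inv_one]

theorem x_comm_c (q : ℕ) {m n n' a b : Fin 5} (h : D5 m n n' a b) :
    s.x (q ^^^ c m) * s.x (q ^^^ c n ^^^ c n') = s.x (q ^^^ c n ^^^ c n') * s.x (q ^^^ c m) := by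
  have h1 : q ^^^ c n ^^^ c n' = q ^^^ c m ^^^ c a ^^^ c b := by
    have h2 : D5 n n' m a b := by
      obtain ⟨h1, h2, h3, h4, h5, h6, h7, h8, h9, h10⟩ := h
      exact ⟨h5, h1.symm, h6, h7, h2.symm, h8, h9, h3, h4, h10⟩
    exact (c_two q n n' m a b h2).symm
  rw [h1]
  exact s.x_comm _ a b h.2.2.2.2.2.2.2.2.2

theorem stable (hB : Base1 s) (hB2 : Base2 s) (hC : ∀ q, s.C q = 1)
    (hY : ∀ (o o' : ℕ) (i j : Fin 5), Commute (s.Y o i) (s.Y o' j)) (p : ℕ) :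
    ∀ t ∈ TT s, cj (s.x p) t ∈ TT s := by
  have hinv : ∀ q, (s.Th q)⁻¹ = s.Th q := fun q =>
    inv_eq_of_mul_eq_one_left (Th_invol hB2 hC q)
  have hstar : ∀ (q : ℕ) (n : Fin 5), cj (s.x (q ^^^ c n)) (s.Th q) = star s q := fun q n =>
    star_indep hB hB2 hY q n 0
  have h1 : ∀ q : ℕ, cj (s.x p) (s.Th q) ∈ TT s := by
    intro q
    rcases mod_cases q p with h | ⟨i, h⟩ | ⟨i, j, hij, h⟩
    · rw [s.x_congr h, hB2.x_Th]; exact Th_mem q
    · rw [s.x_congr h, hstar]; exact star_mem q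
    · rw [s.x_congr h, hB2.xx_Th q i j hij, hinv]; exact Th_mem q
  have h2 : ∀ q : ℕ, cj (s.x p) (star s q) ∈ TT s := by
    intro q
    rcases mod_cases q p with h | ⟨i, h⟩ | ⟨i, j, hij, h⟩
    · rw [s.x_congr h]
      have e1 : s.x q * s.x (q ^^^ c 0) = s.zo 0 q * s.x (q ^^^ c 0) * s.x q := by
        rw [← s.x_zo q 0]
        simp only [mul_assoc]
        rw [← mul_assoc (s.x (q ^^^ c 0)) (s.x (q ^^^ c 0)), s.x_sq, one_mul, s.x_sq, mul_one]
      have e2 : s.zo 0 q * s.x (q ^^^ c 0) = s.x (q ^^^ c 0) * s.zo 0 q := by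
        have := s.zo_x 0 (q ^^^ c 0)
        rwa [s.zo_c_self] at this
      have e3 : cj (s.x q) (star s q) = star s q := by
        rw [star, ← mul_cj, e1, e2, mul_assoc, mul_cj, mul_cj, hB2.x_Th, hB2.zo_Th]
      rw [e3]; exact star_mem q
    · rw [s.x_congr h, ← hstar q i, s.cj_x_x]
      exact Th_mem q
    · obtain ⟨m, a, b, hD⟩ := exists_ne3 i j hij
      rw [s.x_congr h, ← hstar q m, ← mul_cj, ← x_comm_c q hD, mul_cj, hB2.xx_Th q i j hij,
        hinv, hstar]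
      exact star_mem q
  rintro t (ht | ht)
  · rw [Set.mem_iUnion] at ht
    obtain ⟨q, hq⟩ := ht
    rw [Set.mem_singleton_iff] at hq
    rw [hq]; exact h1 q
  · rw [Set.mem_iUnion] at ht
    obtain ⟨q, hq⟩ := ht
    rw [Set.mem_singleton_iff] at hq
    rw [hq]; exact h2 q

theorem torsion (hB2 : Base2 s) (hC : ∀ q, s.C q = 1) : ∀ t ∈ TT s, IsOfFinOrder t := by
  have h1 : ∀ q, IsOfFinOrder (s.Th q) := fun q => by
    rw [isOfFinOrder_iff_pow_eq_one]
    exact ⟨2, by norm_num, by rw [pow_two]; exact Th_invol hB2 hC q⟩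
  rintro t (ht | ht)
  · rw [Set.mem_iUnion] at ht
    obtain ⟨q, hq⟩ := ht
    rw [Set.mem_singleton_iff] at hq
    rw [hq]; exact h1 q
  · rw [Set.mem_iUnion] at ht
    obtain ⟨q, hq⟩ := ht
    rw [Set.mem_singleton_iff] at hq
    rw [hq, star]
    have : cj (s.x ((q : ℕ) ^^^ c 0)) (s.Th q) = MulAut.conj (s.x ((q : ℕ) ^^^ c 0)) (s.Th q) := rfl
    rw [this]
    exact (MulAut.conj (s.x ((q : ℕ) ^^^ c 0))).toMonoidHom.isOfFinOrder (h1 q)

theorem StY_map {H : Type*} [Group H] (f : G →* H) (h : StY s) : StY (s.map f) := by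
  obtain ⟨⟨h1, h2⟩, h3⟩ := h
  refine ⟨⟨fun q => by rw [map_C, h1, map_one], fun o => by rw [map_dl, h2, map_one]⟩, ?_⟩
  intro o o' i j
  rw [map_Y, map_Y]
  exact (h3 o o' i j).map f

end

end R8

theorem specR8 (hB1 : ∀ (G : Type) [Group G] (s : Sys G), Base1 s)
    (hB2 : ∀ (G : Type) [Group G] (s : Sys G), Base2 s) : SpecR8 := by
  intro hfin G _ s hgen hP
  refine R8.kill s hgen (R8.TT s) R8.TT_finite (R8.stable (hB1 G s) (hB2 G s) hP.1.1 hP.2)
    (R8.torsion (hB2 G s) hP.1.1) (P := fun s => StT s) hfin ?_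
  refine ⟨R8.StY_map _ hP, fun q => ?_⟩
  rw [map_Th]
  exact (QuotientGroup.eq_one_iff _).2 (Subgroup.subset_normalClosure (R8.Th_mem q))

end MPf02039
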