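import Pool.Agent.Lib.MP_f02039_co.R8

/-!
MP_f02039_co, step R8b: killing the `e_o = [x_o Y_k(o) x_o, Y_k(o)]`.
-/

namespace MPf02039

open scoped commutatorElement
open Pool.Agent.Lib.MP_f02039_co

namespace R8b

open R8

variable {G : Type*} [Group G] {s : Sys G}

/-- in `StT` the cusps not in the frame invert `Y` too -/
theorem zo_Y (hB : Base1 s) (hB2 : Base2 s) (hT : StT s) (o : ℕ) (m k : Fin 5) :
    cj (s.zo m o) (s.Y o k) = (s.Y o k)⁻¹ := by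
  have hne : ∀ m k : Fin 5, k ≠ m → cj (s.zo m o) (s.Y o k) = (s.Y o k)⁻¹ := by
    intro m k h
    have h1 := hB2.Th_eq (o ^^^ c m) k m h
    rw [xor_cancel, s.zo_c_self, hT.2] at h1
    exact eq_inv_of_mul_eq_one_left h1
  rcases eq_or_ne k m with h | h
  · subst h
    obtain ⟨n, hn⟩ : ∃ n : Fin 5, n ≠ k := by revert k; decide
    have h1 := hne k n hn
    have h2 := congrArg (cj (s.x (o ^^^ c n ^^^ c k))) h1
    have hz : s.zf k (o ^^^ c n ^^^ c k) = s.zo k o := by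
      rw [s.zf_c_self, s.zf_c_ne hn]
    have ha : cj (s.x (o ^^^ c n ^^^ c k)) (s.Y o n) = (s.Y o k)⁻¹ := hB.a_left o n k hn
    rw [← hz, cj_x_zf_apply, ha, cj_eq_of_commute ((hT.1.2 _ _ _ _).inv_right), cj_inv, cj_inv,
      ha, hz] at h2
    exact inv_injective h2
  · exact hne m k h

theorem zf_Y' (hB : Base1 s) (o : ℕ) (m k : Fin 5) :
    cj (s.zf m o) (s.Y o k) = (s.Y o k)⁻¹ := hB.zf_Y o k m

/-- `x_o` maps `Y` of the other frames into the group generated by the `Y` -/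
theorem x_Y (hB : Base1 s) (o o' : ℕ) (j : Fin 5) (h : o % 16 ≠ o' % 16) {g : G}
    (hg : ∀ (q : ℕ) (i : Fin 5), q % 16 ≠ o % 16 → Commute g (s.Y q i)) :
    Commute g (cj (s.x o) (s.Y o' j)) := by
  have hg' : ∀ (q : ℕ) (i : Fin 5), q % 16 ≠ o % 16 → Commute g (s.Y q i)⁻¹ :=
    fun q i hq => (hg q i hq).inv_right
  rcases mod_cases o' o with h1 | ⟨i, h1⟩ | ⟨i, i', hii, h1⟩
  · exact absurd h1 h
  · rw [s.x_congr h1]
    rcases eq_or_ne i j with h2 | h2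
    · subst h2
      rw [hB.b_self]; exact hg' _ _ h.symm
    · rw [hB.b_ne o' i j h2]; exact hg _ _ h.symm
  · rw [s.x_congr h1]
    rcases eq_or_ne i j with h2 | h2
    · subst h2
      rw [hB.a_left o' i i' hii]; exact hg' _ _ h.symm
    rcases eq_or_ne i' j with h3 | h3
    · subst h3
      rw [hB.a_right o' i i' hii]; exact hg' _ _ h.symm
    obtain ⟨l, m, hD⟩ := exists_D5_3 (i := i) (j := i') (k := j) hii h2 h3
    rw [hB.a_other o' i i' j l m hD]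
    have h4 : (o' ^^^ c l ^^^ c m) % 16 ≠ o % 16 := by
      rw [h1]
      simp only [xor_c_mod]
      have : ∀ (a : Fin 16) (i i' j l m : Fin 5), D5 i i' j l m →
          a.val ^^^ c l ^^^ c m ≠ a.val ^^^ c i ^^^ c i' := by decide
      exact this ⟨o' % 16, Nat.mod_lt _ (by norm_num)⟩ i i' j l m hD
    exact ((hg' _ _ h4).mul_right (hg' _ _ h4)).mul_right (hg' _ _ h.symm)

/-- `Q_k(o)` -/
def Q (s : Sys G) (o : ℕ) (k : Fin 5) : G := cj (s.x o) (s.Y o k)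

theorem x_Q (o : ℕ) (k : Fin 5) : cj (s.x o) (Q s o k) = s.Y o k := s.cj_x_x _ _

/-- `Q_k(o)` commutes with the `Y` of the other frames -/
theorem Q_Y (hB : Base1 s) (hT : StT s) (o o' : ℕ) (j k : Fin 5) (h : o % 16 ≠ o' % 16) :
    Commute (Q s o k) (s.Y o' j) := by
  have h1 : Commute (s.Y o k) (cj (s.x o) (s.Y o' j)) :=
    x_Y hB o o' j h (fun q i _ => hT.1.2 _ _ _ _)
  have h2 := commute_cj (g := s.x o) h1
  rwa [s.cj_x_x] at h2

theorem Q_comm (hT : StT s) (o : ℕ) (j k : Fin 5) : Commute (Q s o j) (Q s o k) :=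
  commute_cj (hT.1.2 _ _ _ _)

theorem comm_mul_left {a b d : G} (h1 : Commute d a) (h2 : Commute d b) :
    ⁅d * a, b⁆ = ⁅a, b⁆ := by
  have h1' := h1.eq
  have h3 : Commute d (a * b * a⁻¹) := (h1.mul_right h2).mul_right h1.inv_right
  have h4 := h3.eq
  simp only [commutatorElement_def, mul_inv_rev]
  calc d * a * b * (a⁻¹ * d⁻¹) * b⁻¹ = (d * (a * b * a⁻¹)) * d⁻¹ * b⁻¹ := by group
    _ = _ := by rw [h4]; group

theorem comm_mul_right {a b d : G} (h1 : Commute d a) (h2 : Commute d b) :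
    ⁅a, d * b⁆ = ⁅a, b⁆ := by
  rw [← commutatorElement_inv, comm_mul_left h2 h1, commutatorElement_inv]

theorem exists_other (j k : Fin 5) : ∃ l m : Fin 5, l ≠ m ∧ j ≠ l ∧ j ≠ m ∧ k ≠ l ∧ k ≠ m := by
  revert j k; decide

theorem frame_ne (o : ℕ) {l m : Fin 5} (h : l ≠ m) : (o ^^^ c l ^^^ c m) % 16 ≠ o % 16 := by
  simp only [xor_c_mod]
  have : ∀ (a : Fin 16) (l m : Fin 5), l ≠ m → a.val ^^^ c l ^^^ c m ≠ a.val := by decide
  exact this ⟨o % 16, Nat.mod_lt _ (by norm_num)⟩ l m h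

/-- `e_o` does not depend on the indices -/
theorem e_indep (hB : Base1 s) (hT : StT s) (o : ℕ) (i j i' j' : Fin 5) :
    ⁅Q s o i, s.Y o j⁆ = ⁅Q s o i', s.Y o j'⁆ := by
  have h1 : ∀ i i' j : Fin 5, i ≠ i' → ⁅Q s o i, s.Y o j⁆ = ⁅Q s o i', s.Y o j⁆ := by
    intro i i' j hii
    obtain ⟨l, m, hlm, hil, him, hi'l, hi'm⟩ := exists_other i i'
    have hD := hB.D_shift o i i' l m hii hlm hil him hi'l hi'm
    have hfr := frame_ne o hlm
    have e1 : Q s o i = cj (s.x o) (s.Y (o ^^^ c l ^^^ c m) i *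
        (s.Y (o ^^^ c l ^^^ c m) i')⁻¹) * Q s o i' := by
      rw [hD, Q, Q, ← cj_mul, inv_mul_cancel_right]
    rw [e1]
    apply comm_mul_left
    · exact commute_cj ((hT.1.2 _ _ _ _).mul_left (hT.1.2 _ _ _ _).inv_left)
    · rw [cj_mul, cj_inv]
      have h2 : ∀ a : Fin 5, Commute (s.Y o j) (cj (s.x o) (s.Y (o ^^^ c l ^^^ c m) a)) :=
        fun a => x_Y hB o _ a hfr.symm (fun q i _ => hT.1.2 _ _ _ _)
      exact ((h2 i).mul_right (h2 i').inv_right).symm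
  have h2 : ∀ i j j' : Fin 5, j ≠ j' → ⁅Q s o i, s.Y o j⁆ = ⁅Q s o i, s.Y o j'⁆ := by
    intro i j j' hjj
    obtain ⟨l, m, hlm, hil, him, hi'l, hi'm⟩ := exists_other j j'
    have hD := hB.D_shift o j j' l m hjj hlm hil him hi'l hi'm
    have hfr := frame_ne o hlm
    have e1 : s.Y o j = (s.Y (o ^^^ c l ^^^ c m) j * (s.Y (o ^^^ c l ^^^ c m) j')⁻¹) * s.Y o j' := by
      rw [hD, inv_mul_cancel_right]
    rw [e1]
    apply comm_mul_right
    · have h3 : ∀ a : Fin 5, Commute (s.Y (o ^^^ c l ^^^ c m) a) (Q s o i) :=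
        fun a => (Q_Y hB hT o _ a i hfr.symm).symm
      exact (h3 j).mul_left (h3 j').inv_left
    · exact (hT.1.2 _ _ _ _).mul_left (hT.1.2 _ _ _ _).inv_left
  have h3 : ⁅Q s o i, s.Y o j⁆ = ⁅Q s o i', s.Y o j⁆ := by
    rcases eq_or_ne i i' with h | h
    · rw [h]
    · exact h1 _ _ _ h
  rw [h3]
  rcases eq_or_ne j j' with h | h
  · rw [h]
  · exact h2 _ _ _ h

/-- `e_o` -/
def e (s : Sys G) (o : ℕ) : G := ⁅Q s o 0, s.Y o 0⁆

theorem e_eq (hB : Base1 s) (hT : StT s) (o : ℕ) (i j : Fin 5) : ⁅Q s o i, s.Y o j⁆ = e s o :=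
  e_indep hB hT o i j 0 0

/-- the cusps containing `o` invert `Q` -/
theorem zo_Q (hB : Base1 s) (hB2 : Base2 s) (hT : StT s) (o : ℕ) (m k : Fin 5) :
    cj (s.zo m o) (Q s o k) = (Q s o k)⁻¹ := by
  have h := s.zo_x m o
  rw [Q, ← mul_cj, h, mul_cj, zo_Y hB hB2 hT, cj_inv]

/-- the cusps of the frame `o` invert `Q` -/
theorem zf_Q (hB : Base1 s) (hT : StT s) (o : ℕ) (m k : Fin 5) :
    cj (s.zf m o) (Q s o k) = (Q s o k)⁻¹ := by
  have h1 := cj_x_zf_apply s m o (Q s o k)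
  rw [x_Q] at h1
  rw [cj_eq_of_commute (hT.1.2 _ _ _ _), hB.zf_Y] at h1
  have h2 := congrArg (cj (s.x o)) h1
  rw [s.cj_x_x, cj_inv] at h2
  exact h2

/-- `b_m` on `Q_k` -/
theorem b_Q_aux (o : ℕ) (m k : Fin 5) :
    cj (s.x (o ^^^ c m)) (Q s o k) =
      cj (s.x o) (cj (s.zo m o) (cj (s.x (o ^^^ c m)) (s.Y o k))) := by
  have h1 := s.x_zo o m
  have h2 : s.x (o ^^^ c m) * s.x o = s.x o * s.zo m o * s.x (o ^^^ c m) := by
    rw [← h1]
    simp only [mul_assoc]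
    rw [s.x_sq, mul_one, ← mul_assoc (s.x o) (s.x o), s.x_sq, one_mul]
  rw [Q, ← mul_cj, h2, mul_cj, mul_cj]

theorem b_Q_ne (hB : Base1 s) (hB2 : Base2 s) (hT : StT s) (o : ℕ) {m k : Fin 5} (h : m ≠ k) :
    cj (s.x (o ^^^ c m)) (Q s o k) = (Q s o k)⁻¹ := by
  rw [b_Q_aux, hB.b_ne o m k h, zo_Y hB hB2 hT, cj_inv, Q]

theorem b_Q_self (hB : Base1 s) (hB2 : Base2 s) (hT : StT s) (o : ℕ) (k : Fin 5) :
    cj (s.x (o ^^^ c k)) (Q s o k) = Q s o k := by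
  rw [b_Q_aux, hB.b_self o k, cj_inv, zo_Y hB hB2 hT, inv_inv, Q]

theorem b_e (hB : Base1 s) (hB2 : Base2 s) (hT : StT s) (o : ℕ) (j : Fin 5) :
    cj (s.x (o ^^^ c j)) (e s o) = e s o := by
  obtain ⟨k, hk⟩ : ∃ k : Fin 5, j ≠ k := by revert j; decide
  rw [← e_eq hB hT o j k, cj_comm, b_Q_self hB hB2 hT, hB.b_ne o j k hk]

theorem e_Qinv_Y (hB : Base1 s) (hB2 : Base2 s) (hT : StT s) (o : ℕ) :
    ⁅(Q s o 1)⁻¹, s.Y o 2⁆ = e s o := by
  have h := b_e hB hB2 hT o 0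
  rw [← e_eq hB hT o 1 2, cj_comm, b_Q_ne hB hB2 hT o (by decide), hB.b_ne o 0 2 (by decide)] at h
  exact h.trans (e_eq hB hT o 1 2)

theorem e_Q_Yinv (hB : Base1 s) (hB2 : Base2 s) (hT : StT s) (o : ℕ) :
    ⁅Q s o 1, (s.Y o 1)⁻¹⁆ = e s o := by
  have h := b_e hB hB2 hT o 1
  rw [← e_eq hB hT o 1 1, cj_comm, b_Q_self hB hB2 hT, hB.b_self] at h
  exact h.trans (e_eq hB hT o 1 1)

/-- `Q` inverts `e` -/
theorem Q_e (hB : Base1 s) (hB2 : Base2 s) (hT : StT s) (o : ℕ) :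
    cj (Q s o 1) (e s o) = (e s o)⁻¹ := by
  have h1 := e_Qinv_Y hB hB2 hT o
  have h2 := e_eq hB hT o 1 2
  have h3 : cj (Q s o 1) ⁅(Q s o 1)⁻¹, s.Y o 2⁆ = ⁅Q s o 1, s.Y o 2⁆⁻¹ := by
    simp only [commutatorElement_def, cj]; group
  rw [h1, h2] at h3
  exact h3

/-- `Y_1` inverts `e` -/
theorem Y_e (hB : Base1 s) (hB2 : Base2 s) (hT : StT s) (o : ℕ) :
    cj (s.Y o 1) (e s o) = (e s o)⁻¹ := by
  have h1 := e_Q_Yinv hB hB2 hT o
  have h2 := e_eq hB hT o 1 1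
  have h3 : cj (s.Y o 1) ⁅Q s o 1, (s.Y o 1)⁻¹⁆ = ⁅Q s o 1, s.Y o 1⁆⁻¹ := by
    simp only [commutatorElement_def, cj]; group
  rw [h1, h2] at h3
  exact h3

theorem inv_inv_e (hB : Base1 s) (hB2 : Base2 s) (hT : StT s) (o : ℕ) :
    ⁅(Q s o 1)⁻¹, (s.Y o 1)⁻¹⁆ = e s o := by
  have h1 : ⁅(Q s o 1)⁻¹, (s.Y o 1)⁻¹⁆ =
      cj (Q s o 1)⁻¹ (cj (s.Y o 1)⁻¹ ⁅Q s o 1, s.Y o 1⁆) := by
    simp only [commutatorElement_def, cj]; group
  rw [h1, e_eq hB hT]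
  have h2 : cj (s.Y o 1)⁻¹ (e s o) = (e s o)⁻¹ := by
    have := congrArg (fun a => cj (s.Y o 1)⁻¹ a⁻¹) (Y_e hB hB2 hT o)
    simp only [cj_inv, inv_inv, inv_cj_cj] at this
    exact this.symm
  have h3 : cj (Q s o 1)⁻¹ (e s o) = (e s o)⁻¹ := by
    have := congrArg (fun a => cj (Q s o 1)⁻¹ a⁻¹) (Q_e hB hB2 hT o)
    simp only [cj_inv, inv_inv, inv_cj_cj] at this
    exact this.symm
  rw [h2, cj_inv, h3, inv_inv]

theorem zf_e (hB : Base1 s) (hB2 : Base2 s) (hT : StT s) (o : ℕ) (m : Fin 5) :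
    cj (s.zf m o) (e s o) = e s o := by
  conv_lhs => rw [← e_eq hB hT o 1 1]
  rw [cj_comm, zf_Q hB hT, hB.zf_Y, inv_inv_e hB hB2 hT]

theorem e_sq (hB : Base1 s) (hB2 : Base2 s) (hT : StT s) (o : ℕ) : e s o * e s o = 1 := by
  have h1 : cj (s.Y o 1) (e s o) = e s o := by
    rw [Sys.Y, mul_cj, mul_cj, mul_cj, b_e hB hB2 hT, zf_e hB hB2 hT, b_e hB hB2 hT,
      zf_e hB hB2 hT]
  rw [Y_e hB hB2 hT] at h1
  nth_rw 1 [← h1]
  exact inv_mul_cancel _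

theorem x_e (hB : Base1 s) (hB2 : Base2 s) (hT : StT s) (o p : ℕ) :
    cj (s.x p) (e s o) = e s o := by
  have hinv : (e s o)⁻¹ = e s o := inv_eq_of_mul_eq_one_left (e_sq hB hB2 hT o)
  rcases mod_cases o p with h | ⟨i, h⟩ | ⟨i, j, hij, h⟩
  · rw [s.x_congr h]
    conv_lhs => rw [e]
    rw [cj_comm, x_Q]
    have : ⁅s.Y o 0, Q s o 0⁆ = (e s o)⁻¹ := by rw [e, commutatorElement_inv]
    rw [show cj (s.x o) (s.Y o 0) = Q s o 0 from rfl, this, hinv]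
  · rw [s.x_congr h, b_e hB hB2 hT]
  · rw [s.x_congr h]
    have h1 : cj (s.x (o ^^^ c i ^^^ c j)) (Q s o i) = (Q s o j)⁻¹ := by
      rw [Q, ← mul_cj, ← s.x_comm o i j hij, mul_cj, hB.a_left o i j hij, cj_inv, Q]
    conv_lhs => rw [← e_eq hB hT o i i]
    rw [cj_comm, h1, hB.a_left o i j hij]
    have h2 := zf_e hB hB2 hT o 0
    rw [← e_eq hB hT o j j, cj_comm, zf_Q hB hT, hB.zf_Y] at h2
    rw [h2, e_eq hB hT]

/-- the finite set of the `e_o` -/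
def TT (s : Sys G) : Set G := ⋃ q : Fin 16, {e s q}

theorem e_mem (q : ℕ) : e s q ∈ TT s := by
  unfold TT
  rw [Set.mem_iUnion]
  refine ⟨⟨q % 16, Nat.mod_lt _ (by norm_num)⟩, ?_⟩
  rw [Set.mem_singleton_iff, e, e, Q, Q]
  have h1 : q % 16 = (q % 16) % 16 := by simp
  rw [s.Y_congr 0 h1, s.x_congr h1]

end R8b

open R8b in
theorem specR8b (hB1 : ∀ (G : Type) [Group G] (s : Sys G), Base1 s)
    (hB2 : ∀ (G : Type) [Group G] (s : Sys G), Base2 s) : SpecR8b := by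
  intro hfin G _ s hgen hP
  refine R8.kill s hgen (R8b.TT s) (Set.finite_iUnion fun _ => Set.finite_singleton _) ?_ ?_
    (P := fun s => StE s) hfin ?_
  · intro p t ht
    unfold R8b.TT at ht
    rw [Set.mem_iUnion] at ht
    obtain ⟨q, hq⟩ := ht
    rw [Set.mem_singleton_iff] at hq
    rw [hq, x_e (hB1 G s) (hB2 G s) hP]
    exact e_mem q
  · intro t ht
    unfold R8b.TT at ht
    rw [Set.mem_iUnion] at ht
    obtain ⟨q, hq⟩ := ht
    rw [Set.mem_singleton_iff] at hq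
    rw [hq, isOfFinOrder_iff_pow_eq_one]
    exact ⟨2, by norm_num, by rw [pow_two]; exact e_sq (hB1 G s) (hB2 G s) hP q⟩
  · refine ⟨⟨R8.StY_map _ hP.1, fun q => by rw [map_Th, hP.2, map_one]⟩, fun o k => ?_⟩
    rw [map_Y, map_x, ← map_cj, commute_iff_eq, ← commutatorElement_eq_one_iff_mul_comm,
      ← map_commutatorElement]
    have h := e_eq (hB1 G s) hP o k k
    rw [Q] at h
    rw [h]
    exact (QuotientGroup.eq_one_iff _).2 (Subgroup.subset_normalClosure (e_mem o))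

end MPf02039
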