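import Pool.Agent.Lib.MP_f02039_co.Spec
import Pool.Agent.Lib.MP_f02039_co.Diet

/-!
MP_f02039_co: the last two steps `R9`, `R10` of the chain.
-/

namespace MPf02039

open Subgroup Pool.Agent.Lib.MP_f02039_co
open scoped commutatorElement

namespace R9

variable {G : Type*} [Group G]

theorem z_cases (s : Sys G) (i : Fin 5) (e : Bool) (o : ℕ) :
    s.z i e = s.zo i o ∨ s.z i e = s.zf i o := by
  by_cases h : e = ep i o
  · left; simp [Sys.zo, h]
  · right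
    have : e = !ep i o := by cases e <;> cases h' : ep i o <;> simp_all
    simp [Sys.zf, this]

theorem finite_range_x (s : Sys G) : (Set.range s.x).Finite := by
  refine (Set.finite_range fun p : Fin 16 => s.x p.val).subset ?_
  rintro _ ⟨p, rfl⟩
  exact ⟨⟨p % 16, Nat.mod_lt _ (by norm_num)⟩, s.x_mod p⟩

theorem finite_range_Y (s : Sys G) : (Set.range fun a : ℕ × Fin 5 => s.Y a.1 a.2).Finite := by
  refine (Set.finite_range fun a : Fin 16 × Fin 5 => s.Y a.1.val a.2).subset ?_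
  rintro _ ⟨⟨p, k⟩, rfl⟩
  exact ⟨⟨⟨p % 16, Nat.mod_lt _ (by norm_num)⟩, k⟩, s.Y_congr k (by simp)⟩

theorem x_conj (s : Sys G) (p q : ℕ) :
    s.x q * s.x p * s.x q = s.x p ∨ ∃ i, s.x q * s.x p * s.x q = s.x p * s.zo i p := by
  rcases mod_cases p q with h | ⟨i, h⟩ | ⟨i, j, hij, h⟩
  · left
    rw [s.x_congr h, s.x_sq, one_mul]
  · right
    refine ⟨i, ?_⟩
    have h1 := s.x_zo p i
    rw [← s.x_congr h] at h1
    rw [← h1, ← mul_assoc, ← mul_assoc, ← mul_assoc, s.x_sq, one_mul]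
  · left
    have h1 := s.x_comm p i j hij
    rw [← s.x_congr h] at h1
    rw [← h1, mul_assoc, s.x_sq, mul_one]

theorem isOfFinOrder_of_sq {a : G} (h : a * a = 1) : IsOfFinOrder a :=
  isOfFinOrder_iff_pow_eq_one.2 ⟨2, by norm_num, by rw [pow_two, h]⟩

theorem central_of_gens {s : Sys G} (hgen : closure (Set.range s.x) = ⊤) {a : G}
    (h : ∀ p, a * s.x p = s.x p * a) : ∀ g : G, a * g = g * a := by
  intro g
  have hg : g ∈ closure (Set.range s.x) := by rw [hgen]; trivial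
  have hle : closure (Set.range s.x) ≤ centralizer {a} := by
    rw [closure_le]
    rintro _ ⟨p, rfl⟩
    rw [SetLike.mem_coe, mem_centralizer_singleton_iff]
    exact (h p).symm
  have := hle hg
  rw [mem_centralizer_singleton_iff] at this
  exact this.symm

theorem fc_of_central {a : G} (h : ∀ g : G, a * g = g * a) : Diet.FC a := by
  refine (Set.finite_singleton a).subset ?_
  rintro _ ⟨g, rfl⟩
  rw [Set.mem_singleton_iff]
  show g * a * g⁻¹ = a
  rw [← h g, mul_inv_cancel_right]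

theorem map_gen {H : Type*} [Group H] (s : Sys G) (hgen : closure (Set.range s.x) = ⊤)
    (f : G →* H) (hf : Function.Surjective f) : closure (Set.range (s.map f).x) = ⊤ := by
  have h : Set.range (s.map f).x = f '' Set.range s.x := by
    rw [← Set.range_comp]; rfl
  rw [h, ← MonoidHom.map_closure, hgen, ← MonoidHom.range_eq_map, MonoidHom.range_eq_top.2 hf]

/-- a finite set of pairwise commuting torsion elements generates a finite group -/
theorem finite_closure_of_comm {S : Set G} (hS : S.Finite)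
    (hc : ∀ a ∈ S, ∀ b ∈ S, a * b = b * a) (ht : ∀ a ∈ S, IsOfFinOrder a) :
    Finite (closure S) := by
  refine Diet.dietz_top (G := closure S) (S := {s : closure S | (s : G) ∈ S}) ?_ ?_ ?_ ?_
  · exact hS.preimage Subtype.val_injective.injOn
  · rw [← closure_closure_coe_preimage (k := S)]
    rfl
  · intro a ha
    refine fc_of_central ?_
    intro g
    apply Subtype.ext
    have hle : closure S ≤ centralizer {(a : G)} := by
      rw [closure_le]
      intro b hb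
      rw [SetLike.mem_coe, mem_centralizer_singleton_iff]
      exact hc b hb a ha
    have := hle g.2
    rw [mem_centralizer_singleton_iff] at this
    exact this.symm
  · intro a ha
    exact Submonoid.isOfFinOrder_coe.1 (ht a ha)

end R9

theorem specR10 : SpecR10 := by
  intro G _ s hgen hY
  have hzx : ∀ (i : Fin 5) (e : Bool) (p : ℕ), s.z i e * s.x p = s.x p * s.z i e := by
    intro i e p
    rcases R9.z_cases s i e p with h | h
    · rw [h]; exact s.zo_x i p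
    · have h1 := hY (p ^^^ c i) i
      rw [Sys.Y, xor_cancel, s.zf_c_self, ← h] at h1
      have h2 : (s.z i e * s.x p) * (s.z i e * s.x p) = 1 := by
        rw [← mul_assoc]; exact h1
      have h3 := eq_inv_of_mul_eq_one_left h2
      rw [mul_inv_rev, s.x_inv, s.z_inv] at h3
      exact h3
  have hcen : ∀ (i : Fin 5) (e : Bool) (g : G), s.z i e * g = g * s.z i e :=
    fun i e => R9.central_of_gens hgen (hzx i e)
  set Z : Set G := Set.range fun a : Fin 5 × Bool => s.z a.1 a.2 with hZ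
  have hWfin : Finite (closure Z) := by
    refine R9.finite_closure_of_comm (Set.finite_range _) ?_ ?_
    · rintro _ ⟨a, rfl⟩ _ ⟨b, rfl⟩
      exact hcen _ _ _
    · rintro _ ⟨a, rfl⟩
      exact R9.isOfFinOrder_of_sq (s.z_sq _ _)
  have hWcen : ∀ w ∈ closure Z, ∀ g : G, w * g = g * w := by
    intro w hw g
    have hle : closure Z ≤ centralizer {g} := by
      rw [closure_le]
      rintro _ ⟨a, rfl⟩
      rw [SetLike.mem_coe, mem_centralizer_singleton_iff]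
      exact hcen _ _ _
    have := hle hw
    rwa [mem_centralizer_singleton_iff] at this
  have hTfin : (Set.image2 (fun a b : G => a * b) (Set.range s.x) (closure Z : Set G)).Finite :=
    Set.Finite.image2 _ (R9.finite_range_x s) (Set.toFinite _)
  refine Diet.dietz_top (R9.finite_range_x s) hgen ?_ ?_
  · rintro _ ⟨p, rfl⟩
    refine Diet.fc_of_stable_gens (S := Set.range s.x) hgen ?_ hTfin ?_ (t := s.x p) ?_
    · rintro _ ⟨q, rfl⟩; exact s.x_sq q
    · rintro _ ⟨q, rfl⟩ _ ⟨_, ⟨p, rfl⟩, w, hw, rfl⟩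
      have e1 : s.x q * (s.x p * w) * s.x q = (s.x q * s.x p * s.x q) * w := by
        rw [mul_assoc, mul_assoc (s.x p), hWcen w hw (s.x q)]; simp only [mul_assoc]
      rw [e1]
      rcases R9.x_conj s p q with h | ⟨i, h⟩
      · rw [h]; exact ⟨_, ⟨p, rfl⟩, w, hw, rfl⟩
      · rw [h]
        refine ⟨_, ⟨p, rfl⟩, s.zo i p * w, ?_, by simp only [mul_assoc]⟩
        exact mul_mem (subset_closure ⟨(i, ep i p), rfl⟩) hw
    · exact ⟨_, ⟨p, rfl⟩, 1, one_mem _, by simp⟩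
  · rintro _ ⟨p, rfl⟩
    exact R9.isOfFinOrder_of_sq (s.x_sq p)


namespace R9

variable {G : Type*} [Group G]

theorem cj_commute {a b : G} (g : G) (h : Commute a b) : Commute (cj g a) (cj g b) := by
  show cj g a * cj g b = cj g b * cj g a
  rw [← cj_mul, ← cj_mul, h.eq]

theorem commute_of_cj {a b : G} (s : Sys G) (p : ℕ) (h : Commute (cj (s.x p) a) b) :
    Commute a (cj (s.x p) b) := by
  have := cj_commute (s.x p) h
  rwa [s.cj_x_x] at this

/-- hypotheses of the last but one stage -/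
structure Hyp (s : Sys G) : Prop where
  b1 : Base1 s
  b2 : Base2 s
  YY : ∀ (o o' : ℕ) (i j : Fin 5), Commute (s.Y o i) (s.Y o' j)
  Th1 : ∀ q : ℕ, s.Th q = 1
  QY : ∀ (o : ℕ) (k : Fin 5), Commute (cj (s.x o) (s.Y o k)) (s.Y o k)

variable {s : Sys G} (H : Hyp s)

include H in
theorem zo_Y_ne (o : ℕ) (i k : Fin 5) (hik : k ≠ i) : cj (s.zo i o) (s.Y o k) = (s.Y o k)⁻¹ := by
  have h := H.b2.Th_eq (o ^^^ c i) k i hik
  rw [xor_cancel, s.zo_c_self, H.Th1] at h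
  exact eq_inv_of_mul_eq_one_left h

include H in
theorem zo_Y_self (o : ℕ) (k : Fin 5) : cj (s.zo k o) (s.Y o k) = (s.Y o k)⁻¹ := by
  obtain ⟨n, _, _, _, hD⟩ := exists_D5_1 k
  have hkn : k ≠ n := hD.1
  have e1 : cj (s.x (o ^^^ c k ^^^ c n)) (s.Y o n) = (s.Y o k)⁻¹ := H.b1.a_right o k n hkn
  have e2 : s.Y (o ^^^ c n) k = s.zo k o * s.x (o ^^^ c k ^^^ c n) * s.zo k o *
      s.x (o ^^^ c k ^^^ c n) := by
    rw [Sys.Y, s.zf_c_ne hkn.symm, show o ^^^ c n ^^^ c k = o ^^^ c k ^^^ c n by ac_rfl]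
  have e3 : s.zo k o * s.x (o ^^^ c k ^^^ c n) =
      s.x (o ^^^ c k ^^^ c n) * s.zo k o * s.Y (o ^^^ c n) k := by
    rw [e2]
    have h1 := s.x_sq (o ^^^ c k ^^^ c n)
    have h2 := s.zo_sq k o
    simp only [mul_assoc]
    rw [← mul_assoc (s.zo k o) (s.zo k o), h2, one_mul,
      ← mul_assoc (s.x (o ^^^ c k ^^^ c n)) (s.x (o ^^^ c k ^^^ c n)), h1, one_mul]
  have e4 : cj (s.Y (o ^^^ c n) k) (s.Y o n) = s.Y o n := by
    rw [cj_eq_self_iff]; exact H.YY _ _ _ _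
  have e5 : cj (s.zo k o) ((s.Y o k)⁻¹) = s.Y o k := by
    rw [← e1, ← mul_cj, e3, mul_cj, mul_cj, e4, zo_Y_ne H o k n hkn.symm, cj_inv, e1, inv_inv]
  rw [cj_inv] at e5
  exact inv_eq_iff_eq_inv.mp e5

include H in
theorem z_Y (i : Fin 5) (e : Bool) (o : ℕ) (k : Fin 5) :
    cj (s.z i e) (s.Y o k) = (s.Y o k)⁻¹ := by
  rcases z_cases s i e o with h | h
  · rw [h]
    by_cases hki : k = i
    · rw [hki]; exact zo_Y_self H o i
    · exact zo_Y_ne H o i k hki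
  · rw [h]; exact H.b1.zf_Y o k i

/-- the group generated by the `Y`'s -/
def YG (s : Sys G) : Subgroup G := closure (Set.range fun a : ℕ × Fin 5 => s.Y a.1 a.2)

theorem Y_mem (s : Sys G) (o : ℕ) (k : Fin 5) : s.Y o k ∈ YG s := subset_closure ⟨(o, k), rfl⟩

theorem YG_comm {a : G} (h : ∀ (o : ℕ) (k : Fin 5), Commute a (s.Y o k)) {v : G}
    (hv : v ∈ YG s) : Commute a v := by
  have hle : YG s ≤ centralizer {a} := by
    rw [YG, closure_le]
    rintro _ ⟨b, rfl⟩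
    rw [SetLike.mem_coe, mem_centralizer_singleton_iff]
    exact (h _ _).symm
  have := hle hv
  rw [mem_centralizer_singleton_iff] at this
  exact this.symm

include H in
theorem xY_mem (p o : ℕ) (k : Fin 5) (hpo : p % 16 ≠ o % 16) : cj (s.x p) (s.Y o k) ∈ YG s := by
  rcases mod_cases o p with h | ⟨i, h⟩ | ⟨i, j, hij, h⟩
  · exact absurd h hpo
  · rw [s.x_congr h]
    by_cases hik : i = k
    · rw [hik, H.b1.b_self]; exact inv_mem (Y_mem s _ _)
    · rw [H.b1.b_ne o i k hik]; exact Y_mem s _ _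
  · rw [s.x_congr h]
    by_cases hik : k = i
    · rw [hik, H.b1.a_left o i j hij]; exact inv_mem (Y_mem s _ _)
    · by_cases hjk : k = j
      · rw [hjk, H.b1.a_right o i j hij]; exact inv_mem (Y_mem s _ _)
      · obtain ⟨l, m, hD⟩ := exists_D5_3 hij (Ne.symm hik) (Ne.symm hjk)
        rw [H.b1.a_other o i j k l m hD]
        exact mul_mem (mul_mem (inv_mem (Y_mem s _ _)) (inv_mem (Y_mem s _ _)))
          (inv_mem (Y_mem s _ _))

/-- `Q_k(o)` -/
def Q (s : Sys G) (o : ℕ) (k : Fin 5) : G := cj (s.x o) (s.Y o k)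

theorem Q_congr (k : Fin 5) {p q : ℕ} (h : p % 16 = q % 16) : Q s p k = Q s q k := by
  simp only [Q, s.x_congr h, s.Y_congr k h]

include H in
theorem Q_Y (o : ℕ) (k : Fin 5) (o' : ℕ) (j : Fin 5) : Commute (Q s o k) (s.Y o' j) := by
  by_cases hoo : o % 16 = o' % 16
  · rw [← s.Y_congr j hoo]
    by_cases hjk : k = j
    · rw [hjk]; exact H.QY o j
    · obtain ⟨l, m, a, hD⟩ := exists_D5_2 hjk
      have hne : o % 16 ≠ (o ^^^ c l ^^^ c m) % 16 := by
        intro h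
        have h2 : ∀ (l m : Fin 5), l ≠ m → ∀ a : Fin 16, a.val ≠ a.val ^^^ c l ^^^ c m := by decide
        refine h2 l m ?_ ⟨o % 16, Nat.mod_lt _ (by norm_num)⟩ ?_
        · exact hD.2.2.2.2.2.2.2.1
        · rw [xor_c_mod, xor_c_mod] at h; exact h
      have e1 : s.Y o k = (s.Y (o ^^^ c l ^^^ c m) k * (s.Y (o ^^^ c l ^^^ c m) j)⁻¹) * s.Y o j := by
        rw [H.b1.D_shift o k j l m hjk hD.2.2.2.2.2.2.2.1 hD.2.1 hD.2.2.1 hD.2.2.2.2.1
          hD.2.2.2.2.2.1, inv_mul_cancel_right]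
      have e2 : Q s o k = (cj (s.x o) (s.Y (o ^^^ c l ^^^ c m) k) *
          (cj (s.x o) (s.Y (o ^^^ c l ^^^ c m) j))⁻¹) * Q s o j := by
        rw [Q, e1, cj_mul, cj_mul, cj_inv]; rfl
      rw [e2]
      have h3 : ∀ n, Commute (cj (s.x o) (s.Y (o ^^^ c l ^^^ c m) n)) (s.Y o j) := fun n =>
        (YG_comm (fun o1 k1 => H.YY o o1 j k1) (xY_mem H o _ n hne)).symm
      exact ((h3 k).mul_left (h3 j).inv_left).mul_left (H.QY o j)
  · have h1 : Commute (s.Y o k) (cj (s.x o) (s.Y o' j)) :=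
      YG_comm (fun o1 k1 => H.YY o o1 k k1) (xY_mem H o o' j hoo)
    have := cj_commute (s.x o) h1
    rwa [s.cj_x_x] at this

/-- the abelian normal subgroup -/
def M (s : Sys G) : Subgroup G :=
  closure ((Set.range fun a : ℕ × Fin 5 => s.Y a.1 a.2) ∪ Set.range fun a : ℕ × Fin 5 => Q s a.1 a.2)

theorem Y_M (s : Sys G) (o : ℕ) (k : Fin 5) : s.Y o k ∈ M s := subset_closure (Or.inl ⟨(o, k), rfl⟩)
theorem Q_M (s : Sys G) (o : ℕ) (k : Fin 5) : Q s o k ∈ M s := subset_closure (Or.inr ⟨(o, k), rfl⟩)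
theorem YG_le (s : Sys G) : YG s ≤ M s := closure_mono Set.subset_union_left

theorem M_ind {P : G → Prop} (hY : ∀ o k, P (s.Y o k)) (hQ : ∀ o k, P (Q s o k)) (h1 : P 1)
    (hmul : ∀ a b, a ∈ M s → b ∈ M s → P a → P b → P (a * b))
    (hinv : ∀ a, a ∈ M s → P a → P a⁻¹) {v : G} (hv : v ∈ M s) : P v := by
  refine closure_induction (p := fun v _ => P v) ?_ h1 ?_ ?_ hv
  · rintro _ (⟨a, rfl⟩ | ⟨a, rfl⟩)
    · exact hY _ _
    · exact hQ _ _
  · exact fun a b ha hb => hmul a b ha hb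
  · exact fun a ha => hinv a ha

/-- `x_o` maps the group generated by the `Y`'s into `M` -/
theorem xYG_mem (H : Hyp s) (p : ℕ) {v : G} (hv : v ∈ YG s) : cj (s.x p) v ∈ M s := by
  refine closure_induction (p := fun v _ => cj (s.x p) v ∈ M s) ?_ ?_ ?_ ?_ hv
  · rintro _ ⟨⟨o, k⟩, rfl⟩
    by_cases hpo : p % 16 = o % 16
    · have : cj (s.x p) (s.Y o k) = Q s o k := by rw [Q, s.x_congr hpo]
      show cj (s.x p) (s.Y o k) ∈ M s
      rw [this]; exact Q_M s o k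
    · exact YG_le s (xY_mem H p o k hpo)
  · simp [one_mem]
  · intro a b _ _ ha hb; rw [cj_mul]; exact mul_mem ha hb
  · intro a _ ha; rw [cj_inv]; exact inv_mem ha

theorem xYG_comm (H : Hyp s) (o : ℕ) (k : Fin 5) (p : ℕ) {v : G} (hv : v ∈ YG s) :
    Commute (s.Y o k) (cj (s.x p) v) := by
  refine closure_induction (p := fun v _ => Commute (s.Y o k) (cj (s.x p) v)) ?_ ?_ ?_ ?_ hv
  · rintro _ ⟨⟨o', j⟩, rfl⟩
    by_cases hpo : p % 16 = o' % 16
    · have : cj (s.x p) (s.Y o' j) = Q s o' j := by rw [Q, s.x_congr hpo]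
      show Commute (s.Y o k) (cj (s.x p) (s.Y o' j))
      rw [this]; exact (Q_Y H _ _ _ _).symm
    · exact YG_comm (fun o1 k1 => H.YY o o1 k k1) (xY_mem H p o' j hpo)
  · simp
  · intro a b _ _ ha hb; rw [cj_mul]; exact ha.mul_right hb
  · intro a _ ha; rw [cj_inv]; exact ha.inv_right

/-- conjugation of `Q_k(o)` by another vertex -/
theorem xQ_eq (H : Hyp s) (p o : ℕ) (k : Fin 5) (hpo : p % 16 ≠ o % 16) :
    ∃ v ∈ YG s, cj (s.x p) (Q s o k) = cj (s.x o) v := by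
  rcases mod_cases o p with h | ⟨i, h⟩ | ⟨i, j, hij, h⟩
  · exact absurd h hpo
  · refine ⟨cj (s.x p) ((s.Y o k)⁻¹), ?_, ?_⟩
    · rw [cj_inv]; exact inv_mem (xY_mem H p o k hpo)
    · have h1 := s.x_zo o i
      rw [← s.x_congr h] at h1
      have e1 : s.x p * s.x o = s.x o * s.x p * s.zo i o := by
        have h2 : s.x p * s.zo i o = s.zo i o * s.x p := by
          have := s.zo_x i (o ^^^ c i)
          rw [s.zo_c_self, ← s.x_congr h] at this
          exact this.symm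
        rw [mul_assoc, h2, ← h1]
        simp only [← mul_assoc]
        rw [s.x_sq, one_mul, mul_assoc, s.x_sq, mul_one]
      rw [Q, ← mul_cj, e1, mul_cj, mul_cj]
      rw [show s.zo i o = s.z i (ep i o) from rfl, z_Y H]
  · refine ⟨cj (s.x p) (s.Y o k), xY_mem H p o k hpo, ?_⟩
    have h1 := s.x_comm o i j hij
    rw [← s.x_congr h] at h1
    rw [Q, ← mul_cj, ← h1, mul_cj]

theorem Q_Q (H : Hyp s) (o : ℕ) (k : Fin 5) (o' : ℕ) (j : Fin 5) :
    Commute (Q s o k) (Q s o' j) := by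
  by_cases hoo : o % 16 = o' % 16
  · rw [Q_congr k hoo]
    exact cj_commute _ (H.YY _ _ _ _)
  · obtain ⟨v, hv, e⟩ := xQ_eq H o o' j hoo
    have h1 : Commute (s.Y o k) (cj (s.x o) (Q s o' j)) := by
      rw [e]; exact xYG_comm H o k o' hv
    have := cj_commute (s.x o) h1
    rwa [s.cj_x_x] at this

theorem M_comm_aux (H : Hyp s) {a : G} (h1 : ∀ o k, Commute a (s.Y o k))
    (h2 : ∀ o k, Commute a (Q s o k)) {v : G} (hv : v ∈ M s) : Commute a v :=
  M_ind (P := fun v => Commute a v) h1 h2 (Commute.one_right a)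
    (fun _ _ _ _ ha hb => ha.mul_right hb) (fun _ _ ha => ha.inv_right) hv

theorem M_comm (H : Hyp s) {u v : G} (hu : u ∈ M s) (hv : v ∈ M s) : Commute u v := by
  refine M_comm_aux H (fun o k => ?_) (fun o k => ?_) hv
  · exact (M_comm_aux H (fun o1 k1 => H.YY _ _ _ _) (fun o1 k1 => (Q_Y H _ _ _ _).symm) hu).symm
  · exact (M_comm_aux H (fun o1 k1 => Q_Y H _ _ _ _) (fun o1 k1 => Q_Q H _ _ _ _) hu).symm

theorem xM_mem (H : Hyp s) (p : ℕ) {v : G} (hv : v ∈ M s) : cj (s.x p) v ∈ M s := by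
  refine M_ind (P := fun v => cj (s.x p) v ∈ M s) ?_ ?_ ?_ ?_ ?_ hv
  · intro o k; exact xYG_mem H p (Y_mem s o k)
  · intro o k
    by_cases hpo : p % 16 = o % 16
    · rw [Q_congr k hpo.symm, Q, s.cj_x_x]; exact Y_M s _ _
    · obtain ⟨w, hw, e⟩ := xQ_eq H p o k hpo
      rw [e]; exact xYG_mem H o hw
  · simp [one_mem]
  · intro a b _ _ ha hb; rw [cj_mul]; exact mul_mem ha hb
  · intro a _ ha; rw [cj_inv]; exact inv_mem ha

theorem zM (H : Hyp s) (i : Fin 5) (e : Bool) {v : G} (hv : v ∈ M s) : cj (s.z i e) v = v⁻¹ := by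
  refine M_ind (P := fun v => cj (s.z i e) v = v⁻¹) (fun o k => z_Y H i e o k) ?_ (by simp) ?_ ?_ hv
  · intro o k
    rcases z_cases s i e o with h | h
    · rw [h, Q, ← mul_cj, s.zo_x, mul_cj, show s.zo i o = s.z i (ep i o) from rfl, z_Y H, cj_inv]
    · have e1 : s.zf i o * s.x o = s.x o * (s.zf i o * s.Y (o ^^^ c i) i) := by
        rw [Sys.Y, xor_cancel, s.zf_c_self]
        simp only [← mul_assoc]
        rw [mul_assoc (s.x o), s.zf_sq, mul_one, s.x_sq, one_mul]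
      have e2 : cj (s.Y (o ^^^ c i) i) (s.Y o k) = s.Y o k := by
        rw [cj_eq_self_iff]; exact H.YY _ _ _ _
      rw [h, Q, ← mul_cj, e1, mul_cj, mul_cj, e2, H.b1.zf_Y, cj_inv]
  · intro a b ha hb h1 h2
    rw [cj_mul, h1, h2, mul_inv_rev, ((M_comm H ha hb).inv_inv).eq]
  · intro a _ ha; rw [cj_inv, ha]

theorem swap (H : Hyp s) (p : ℕ) (i : Fin 5) {v : G} (hv : v ∈ M s) :
    cj (s.x p) (cj (s.x (p ^^^ c i)) v) = (cj (s.x (p ^^^ c i)) (cj (s.x p) v))⁻¹ := by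
  have h1 := s.x_z p i
  have e1 : s.x p * s.x (p ^^^ c i) = s.z i (ep i p) * (s.x (p ^^^ c i) * s.x p) := by
    rw [← h1]
    simp only [mul_assoc]
    rw [← mul_assoc (s.x (p ^^^ c i)) (s.x (p ^^^ c i)), s.x_sq, one_mul, s.x_sq, mul_one]
  rw [← mul_cj, e1, mul_cj, zM H, mul_cj]
  rw [mul_cj]
  exact xM_mem H _ (xM_mem H _ hv)

theorem swap2 (p : ℕ) (i j : Fin 5) (hij : i ≠ j) (v : G) :
    cj (s.x p) (cj (s.x (p ^^^ c i ^^^ c j)) v) = cj (s.x (p ^^^ c i ^^^ c j)) (cj (s.x p) v) := by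
  rw [← mul_cj, s.x_comm p i j hij, mul_cj]

/-- two masks at distance one -/
theorem swap' (H : Hyp s) {p q : ℕ} (i : Fin 5) (h : q = p ^^^ c i) {v : G} (hv : v ∈ M s) :
    cj (s.x p) (cj (s.x q) v) = (cj (s.x q) (cj (s.x p) v))⁻¹ := by
  rw [h]; exact swap H p i hv

theorem swap2' {p q : ℕ} (i j : Fin 5) (hij : i ≠ j) (h : q = p ^^^ c i ^^^ c j)
    (v : G) : cj (s.x p) (cj (s.x q) v) = cj (s.x q) (cj (s.x p) v) := by
  rw [h]; exact swap2 p i j hij v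

/-- the key relation: every `Y` has order two -/
theorem Y_sq_zero (H : Hyp s) : s.Y 0 0 * s.Y 0 0 = 1 := by
  -- i = 0, j = 1, k = 2, l = 3, m = 4
  -- a_ij = 3, a_jk = 6, a_ik = 5, a_il = 9, a_lm = 7, a_im = 14
  have hM : s.Y 0 0 ∈ M s := Y_M s 0 0
  have L : ∀ (i j : Fin 5), i ≠ j → cj (s.x (0 ^^^ c i ^^^ c j)) (s.Y 0 i) = (s.Y 0 j)⁻¹ :=
    fun i j h => H.b1.a_left 0 i j h
  have R : ∀ (i j : Fin 5), i ≠ j → cj (s.x (0 ^^^ c i ^^^ c j)) (s.Y 0 j) = (s.Y 0 i)⁻¹ :=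
    fun i j h => H.b1.a_right 0 i j h
  have t1 : ∀ v, v = s.Y 0 0 → cj (s.x 3) (cj (s.x 6) (cj (s.x 5) v)) = (s.Y 0 0)⁻¹ := by
    rintro v rfl
    have a1 : cj (s.x 5) (s.Y 0 0) = (s.Y 0 2)⁻¹ := L 0 2 (by decide)
    have a2 : cj (s.x 6) (s.Y 0 2) = (s.Y 0 1)⁻¹ := R 1 2 (by decide)
    have a3 : cj (s.x 3) (s.Y 0 1) = (s.Y 0 0)⁻¹ := R 0 1 (by decide)
    rw [a1, cj_inv, a2, inv_inv, a3]
  have t2 : ∀ v, v = s.Y 0 0 → cj (s.x 9) (cj (s.x 7) (cj (s.x 14) v)) = (s.Y 0 0)⁻¹ := by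
    rintro v rfl
    have a1 : cj (s.x 14) (s.Y 0 0) = (s.Y 0 4)⁻¹ := L 0 4 (by decide)
    have a2 : cj (s.x 7) (s.Y 0 4) = (s.Y 0 3)⁻¹ := R 3 4 (by decide)
    have a3 : cj (s.x 9) (s.Y 0 3) = (s.Y 0 0)⁻¹ := R 0 3 (by decide)
    rw [a1, cj_inv, a2, inv_inv, a3]
  have xm : ∀ (p : ℕ) {v : G}, v ∈ M s → cj (s.x p) v ∈ M s := fun p _ hv => xM_mem H p hv
  -- swaps
  have s5_9 : ∀ v, cj (s.x 5) (cj (s.x 9) v) = cj (s.x 9) (cj (s.x 5) v) :=
    fun v => swap2' (s := s) 2 3 (by decide) (by decide) v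
  have s5_14 : ∀ v, cj (s.x 5) (cj (s.x 14) v) = cj (s.x 14) (cj (s.x 5) v) :=
    fun v => swap2' (s := s) 2 4 (by decide) (by decide) v
  have s3_9 : ∀ v, cj (s.x 3) (cj (s.x 9) v) = cj (s.x 9) (cj (s.x 3) v) :=
    fun v => swap2' (s := s) 1 3 (by decide) (by decide) v
  have s3_14 : ∀ v, cj (s.x 3) (cj (s.x 14) v) = cj (s.x 14) (cj (s.x 3) v) :=
    fun v => swap2' (s := s) 1 4 (by decide) (by decide) v
  have n5_7 : ∀ v ∈ M s, cj (s.x 5) (cj (s.x 7) v) = (cj (s.x 7) (cj (s.x 5) v))⁻¹ :=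
    fun v hv => swap' H 1 (by decide) hv
  have n6_9 : ∀ v ∈ M s, cj (s.x 6) (cj (s.x 9) v) = (cj (s.x 9) (cj (s.x 6) v))⁻¹ :=
    fun v hv => swap' H 4 (by decide) hv
  have n6_7 : ∀ v ∈ M s, cj (s.x 6) (cj (s.x 7) v) = (cj (s.x 7) (cj (s.x 6) v))⁻¹ :=
    fun v hv => swap' H 0 (by decide) hv
  have n6_14 : ∀ v ∈ M s, cj (s.x 6) (cj (s.x 14) v) = (cj (s.x 14) (cj (s.x 6) v))⁻¹ :=
    fun v hv => swap' H 3 (by decide) hv
  have n3_7 : ∀ v ∈ M s, cj (s.x 3) (cj (s.x 7) v) = (cj (s.x 7) (cj (s.x 3) v))⁻¹ :=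
    fun v hv => swap' H 2 (by decide) hv
  have key : cj (s.x 3) (cj (s.x 6) (cj (s.x 5) (cj (s.x 9) (cj (s.x 7) (cj (s.x 14) (s.Y 0 0)))))) =
      (cj (s.x 9) (cj (s.x 7) (cj (s.x 14) (cj (s.x 3) (cj (s.x 6) (cj (s.x 5) (s.Y 0 0)))))))⁻¹ := by
    rw [s5_9, n5_7 _ (xm 14 hM), s5_14]
    rw [cj_inv, cj_inv, n6_9 _ (xm 7 (xm 14 (xm 5 hM))), n6_7 _ (xm 14 (xm 5 hM)), n6_14 _ (xm 5 hM)]
    simp only [cj_inv, inv_inv]
    rw [s3_9, n3_7 _ (xm 14 (xm 6 (xm 5 hM))), s3_14]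
    simp only [cj_inv]
  rw [t2 _ rfl, t1 _ rfl] at key
  simp only [cj_inv] at key
  rw [t1 _ rfl, t2 _ rfl, inv_inv] at key
  calc s.Y 0 0 * s.Y 0 0 = s.Y 0 0 * (s.Y 0 0)⁻¹ := by rw [← key]
    _ = 1 := mul_inv_cancel _

theorem T_Th (h2 : Base2 s) (σ : Equiv.Perm (Fin 5)) (t q : ℕ) :
    (s.T σ t).Th q = s.Th (fp σ q ^^^ t) := by
  have h : fp σ (q ^^^ c 0) ^^^ t = (fp σ q ^^^ t) ^^^ c (σ 0) := by
    rw [fp_xor, fp_c]; ac_rfl
  rw [Sys.Th, T_zo, T_Y, h]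
  exact h2.Th_eq _ _ _ fun h => absurd (σ.injective h) (by decide)

theorem Y_sq (hB1 : ∀ s : Sys G, Base1 s) (hB2 : ∀ s : Sys G, Base2 s) (H : Hyp s) (o : ℕ)
    (k : Fin 5) : s.Y o k * s.Y o k = 1 := by
  have H' : Hyp (s.T (Equiv.swap 0 k) o) := by
    refine ⟨hB1 _, hB2 _, ?_, ?_, ?_⟩
    · intro a b i j; rw [T_Y, T_Y]; exact H.YY _ _ _ _
    · intro q; rw [T_Th (hB2 s)]; exact H.Th1 _
    · intro a j; rw [T_Y, T_x]; exact H.QY _ _
  have := Y_sq_zero H'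
  rwa [T_Y, fT0, Equiv.swap_apply_left] at this

end R9

theorem specR9 (hB1 : ∀ (G : Type) [Group G] (s : Sys G), Base1 s)
    (hB2 : ∀ (G : Type) [Group G] (s : Sys G), Base2 s) : SpecR9 := by
  intro hone G _ s hgen hE
  have H : R9.Hyp s := ⟨hB1 G s, hB2 G s, hE.1.1.2, hE.1.2, hE.2⟩
  have hsq : ∀ o k, s.Y o k * s.Y o k = 1 := R9.Y_sq (hB1 G) (hB2 G) H
  set T : Set G := Set.range fun a : ℕ × Fin 5 => s.Y a.1 a.2 with hT
  have hTfin : T.Finite := R9.finite_range_Y s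
  have hMfin : Finite (R9.M s) := by
    refine R9.finite_closure_of_comm ?_ ?_ ?_
    · refine hTfin.union ?_
      refine (Set.finite_range fun a : Fin 16 × Fin 5 => R9.Q s a.1.val a.2).subset ?_
      rintro _ ⟨⟨p, k⟩, rfl⟩
      exact ⟨⟨⟨p % 16, Nat.mod_lt _ (by norm_num)⟩, k⟩, R9.Q_congr k (by simp)⟩
    · intro a ha b hb
      exact R9.M_comm H (subset_closure ha) (subset_closure hb)
    · rintro _ (⟨a, rfl⟩ | ⟨a, rfl⟩)
      · exact R9.isOfFinOrder_of_sq (hsq _ _)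
      · refine R9.isOfFinOrder_of_sq ?_
        show R9.Q s a.1 a.2 * R9.Q s a.1 a.2 = 1
        rw [R9.Q, ← cj_mul, hsq, cj_one]
  refine Diet.finite_of_torsion hTfin ?_ ?_ ?_
  · rintro _ ⟨⟨o, k⟩, rfl⟩
    refine Diet.fc_of_stable_gens (S := Set.range s.x) (T := (R9.M s : Set G)) hgen ?_
      (Set.toFinite _) ?_ (R9.Y_M s o k)
    · rintro _ ⟨q, rfl⟩; exact s.x_sq q
    · rintro _ ⟨q, rfl⟩ v hv
      have := R9.xM_mem H q hv
      rw [cj, s.x_inv] at this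
      exact this
  · rintro _ ⟨⟨o, k⟩, rfl⟩
    exact R9.isOfFinOrder_of_sq (hsq _ _)
  · refine hone _ (s.map (QuotientGroup.mk' (normalClosure T)))
      (R9.map_gen s hgen _ (QuotientGroup.mk'_surjective _)) ?_
    intro o k
    rw [map_Y]
    exact (QuotientGroup.eq_one_iff _).2 (subset_normalClosure ⟨(o, k), rfl⟩)

end MPf02039
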