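import Pool.Agent.Lib.MP_f02039_co.Defs

set_option autoImplicit false

namespace Pool.Agent.Lib.MP_f02039_co.Red

theorem tblA1 {X : Type*} (f0 : X → X) (x0 : X)
    (s0 : ∀ u, f0 (f0 u) = u) :
    ∃ x1 : X, x1 = f0 x0 ∧ f0 x0 = x1 ∧
      f0 x1 = x0 := by
  obtain ⟨x1, hx1⟩ : ∃ y, y = f0 x0 := ⟨_, rfl⟩
  have e0_0 : f0 x0 = x1 := hx1.symm
  have e0_1 : f0 x1 = x0 := by rw [← e0_0]; exact s0 _
  exact ⟨x1, hx1, e0_0, e0_1⟩

theorem tblA2 {X : Type*} (f0 f1 : X → X) (x0 : X)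
    (s0 : ∀ u, f0 (f0 u) = u)
    (s1 : ∀ u, f1 (f1 u) = u)
    (b01 : ∀ u, f0 (f1 (f0 u)) = f1 (f0 (f1 u)))
    (k0 : f0 x0 = x0) :
    ∃ x1 x2 : X, x1 = f1 x0 ∧ x2 = f0 x1 ∧ f0 x0 = x0 ∧
      f0 x1 = x2 ∧
      f0 x2 = x1 ∧
      f1 x0 = x1 ∧
      f1 x1 = x0 ∧
      f1 x2 = x2 := by
  obtain ⟨x1, hx1⟩ : ∃ y, y = f1 x0 := ⟨_, rfl⟩
  obtain ⟨x2, hx2⟩ : ∃ y, y = f0 x1 := ⟨_, rfl⟩
  have e0_0 : f0 x0 = x0 := k0
  have e1_0 : f1 x0 = x1 := hx1.symm
  have e1_1 : f1 x1 = x0 := by rw [← e1_0]; exact s1 _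
  have e0_1 : f0 x1 = x2 := hx2.symm
  have e0_2 : f0 x2 = x1 := by rw [← e0_1]; exact s0 _
  have e1_2 : f1 x2 = x2 := by
    have h : f1 (f0 (f1 x2)) = f0 (f1 (f0 x2)) := (b01 _).symm
    rw [e0_2, e1_1, e0_0] at h
    have h2 := congrArg f1 h
    rw [s1, e1_0] at h2
    have h3 := congrArg f0 h2
    rw [s0, e0_1] at h3
    exact h3
  exact ⟨x1, x2, hx1, hx2, e0_0, e0_1, e0_2, e1_0, e1_1, e1_2⟩

theorem tblA3 {X : Type*} (f0 f1 f2 : X → X) (x0 : X)
    (s0 : ∀ u, f0 (f0 u) = u)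
    (s1 : ∀ u, f1 (f1 u) = u)
    (s2 : ∀ u, f2 (f2 u) = u)
    (b01 : ∀ u, f0 (f1 (f0 u)) = f1 (f0 (f1 u)))
    (c02 : ∀ u, f0 (f2 u) = f2 (f0 u))
    (b12 : ∀ u, f1 (f2 (f1 u)) = f2 (f1 (f2 u)))
    (k0 : f0 x0 = x0)
    (k1 : f1 x0 = x0) :
    ∃ x1 x2 x3 : X, x1 = f2 x0 ∧ x2 = f1 x1 ∧ x3 = f0 x2 ∧ f0 x0 = x0 ∧
      f0 x1 = x1 ∧
      f0 x2 = x3 ∧
      f0 x3 = x2 ∧
      f1 x0 = x0 ∧
      f1 x1 = x2 ∧
      f1 x2 = x1 ∧
      f1 x3 = x3 ∧
      f2 x0 = x1 ∧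
      f2 x1 = x0 ∧
      f2 x2 = x2 ∧
      f2 x3 = x3 := by
  obtain ⟨x1, hx1⟩ : ∃ y, y = f2 x0 := ⟨_, rfl⟩
  obtain ⟨x2, hx2⟩ : ∃ y, y = f1 x1 := ⟨_, rfl⟩
  obtain ⟨x3, hx3⟩ : ∃ y, y = f0 x2 := ⟨_, rfl⟩
  have e0_0 : f0 x0 = x0 := k0
  have e1_0 : f1 x0 = x0 := k1
  have e2_0 : f2 x0 = x1 := hx1.symm
  have e2_1 : f2 x1 = x0 := by rw [← e2_0]; exact s2 _
  have e1_1 : f1 x1 = x2 := hx2.symm
  have e1_2 : f1 x2 = x1 := by rw [← e1_1]; exact s1 _
  have e0_2 : f0 x2 = x3 := hx3.symm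
  have e0_3 : f0 x3 = x2 := by rw [← e0_2]; exact s0 _
  have e0_1 : f0 x1 = x1 := by
    have h : f2 (f0 x1) = f0 (f2 x1) := (c02 _).symm
    rw [e2_1, e0_0] at h
    have h2 := congrArg f2 h
    rw [s2, e2_0] at h2
    exact h2
  have e1_3 : f1 x3 = x3 := by
    have h : f1 (f0 (f1 x3)) = f0 (f1 (f0 x3)) := (b01 _).symm
    rw [e0_3, e1_2, e0_1] at h
    have h2 := congrArg f1 h
    rw [s1, e1_1] at h2
    have h3 := congrArg f0 h2
    rw [s0, e0_2] at h3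
    exact h3
  have e2_2 : f2 x2 = x2 := by
    have h : f2 (f1 (f2 x2)) = f1 (f2 (f1 x2)) := (b12 _).symm
    rw [e1_2, e2_1, e1_0] at h
    have h2 := congrArg f2 h
    rw [s2, e2_0] at h2
    have h3 := congrArg f1 h2
    rw [s1, e1_1] at h3
    exact h3
  have e2_3 : f2 x3 = x3 := by
    have h : f0 (f2 x3) = f2 (f0 x3) := (c02 _)
    rw [e0_3, e2_2] at h
    have h2 := congrArg f0 h
    rw [s0, e0_2] at h2
    exact h2
  exact ⟨x1, x2, x3, hx1, hx2, hx3, e0_0, e0_1, e0_2, e0_3, e1_0, e1_1, e1_2, e1_3, e2_0, e2_1, e2_2, e2_3⟩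

theorem tblA4 {X : Type*} (f0 f1 f2 f4 : X → X) (x0 : X)
    (s0 : ∀ u, f0 (f0 u) = u)
    (s1 : ∀ u, f1 (f1 u) = u)
    (s2 : ∀ u, f2 (f2 u) = u)
    (s4 : ∀ u, f4 (f4 u) = u)
    (b01 : ∀ u, f0 (f1 (f0 u)) = f1 (f0 (f1 u)))
    (c02 : ∀ u, f0 (f2 u) = f2 (f0 u))
    (c04 : ∀ u, f0 (f4 u) = f4 (f0 u))
    (b12 : ∀ u, f1 (f2 (f1 u)) = f2 (f1 (f2 u)))
    (c14 : ∀ u, f1 (f4 u) = f4 (f1 u))
    (b24 : ∀ u, f2 (f4 (f2 u)) = f4 (f2 (f4 u)))
    (k0 : f0 x0 = x0)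
    (k1 : f1 x0 = x0)
    (k2 : f2 x0 = x0) :
    ∃ x1 x2 x3 x4 : X, x1 = f4 x0 ∧ x2 = f2 x1 ∧ x3 = f1 x2 ∧ x4 = f0 x3 ∧ f0 x0 = x0 ∧
      f0 x1 = x1 ∧
      f0 x2 = x2 ∧
      f0 x3 = x4 ∧
      f0 x4 = x3 ∧
      f1 x0 = x0 ∧
      f1 x1 = x1 ∧
      f1 x2 = x3 ∧
      f1 x3 = x2 ∧
      f1 x4 = x4 ∧
      f2 x0 = x0 ∧
      f2 x1 = x2 ∧
      f2 x2 = x1 ∧
      f2 x3 = x3 ∧
      f2 x4 = x4 ∧
      f4 x0 = x1 ∧
      f4 x1 = x0 ∧
      f4 x2 = x2 ∧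
      f4 x3 = x3 ∧
      f4 x4 = x4 := by
  obtain ⟨x1, hx1⟩ : ∃ y, y = f4 x0 := ⟨_, rfl⟩
  obtain ⟨x2, hx2⟩ : ∃ y, y = f2 x1 := ⟨_, rfl⟩
  obtain ⟨x3, hx3⟩ : ∃ y, y = f1 x2 := ⟨_, rfl⟩
  obtain ⟨x4, hx4⟩ : ∃ y, y = f0 x3 := ⟨_, rfl⟩
  have e0_0 : f0 x0 = x0 := k0
  have e1_0 : f1 x0 = x0 := k1
  have e2_0 : f2 x0 = x0 := k2
  have e4_0 : f4 x0 = x1 := hx1.symm
  have e4_1 : f4 x1 = x0 := by rw [← e4_0]; exact s4 _
  have e2_1 : f2 x1 = x2 := hx2.symm
  have e2_2 : f2 x2 = x1 := by rw [← e2_1]; exact s2 _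
  have e1_2 : f1 x2 = x3 := hx3.symm
  have e1_3 : f1 x3 = x2 := by rw [← e1_2]; exact s1 _
  have e0_3 : f0 x3 = x4 := hx4.symm
  have e0_4 : f0 x4 = x3 := by rw [← e0_3]; exact s0 _
  have e0_1 : f0 x1 = x1 := by
    have h : f4 (f0 x1) = f0 (f4 x1) := (c04 _).symm
    rw [e4_1, e0_0] at h
    have h2 := congrArg f4 h
    rw [s4, e4_0] at h2
    exact h2
  have e0_2 : f0 x2 = x2 := by
    have h : f2 (f0 x2) = f0 (f2 x2) := (c02 _).symm
    rw [e2_2, e0_1] at h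
    have h2 := congrArg f2 h
    rw [s2, e2_1] at h2
    exact h2
  have e1_1 : f1 x1 = x1 := by
    have h : f4 (f1 x1) = f1 (f4 x1) := (c14 _).symm
    rw [e4_1, e1_0] at h
    have h2 := congrArg f4 h
    rw [s4, e4_0] at h2
    exact h2
  have e1_4 : f1 x4 = x4 := by
    have h : f1 (f0 (f1 x4)) = f0 (f1 (f0 x4)) := (b01 _).symm
    rw [e0_4, e1_3, e0_2] at h
    have h2 := congrArg f1 h
    rw [s1, e1_2] at h2
    have h3 := congrArg f0 h2
    rw [s0, e0_3] at h3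
    exact h3
  have e2_3 : f2 x3 = x3 := by
    have h : f2 (f1 (f2 x3)) = f1 (f2 (f1 x3)) := (b12 _).symm
    rw [e1_3, e2_2, e1_1] at h
    have h2 := congrArg f2 h
    rw [s2, e2_1] at h2
    have h3 := congrArg f1 h2
    rw [s1, e1_2] at h3
    exact h3
  have e2_4 : f2 x4 = x4 := by
    have h : f0 (f2 x4) = f2 (f0 x4) := (c02 _)
    rw [e0_4, e2_3] at h
    have h2 := congrArg f0 h
    rw [s0, e0_3] at h2
    exact h2
  have e4_2 : f4 x2 = x2 := by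
    have h : f4 (f2 (f4 x2)) = f2 (f4 (f2 x2)) := (b24 _).symm
    rw [e2_2, e4_1, e2_0] at h
    have h2 := congrArg f4 h
    rw [s4, e4_0] at h2
    have h3 := congrArg f2 h2
    rw [s2, e2_1] at h3
    exact h3
  have e4_3 : f4 x3 = x3 := by
    have h : f1 (f4 x3) = f4 (f1 x3) := (c14 _)
    rw [e1_3, e4_2] at h
    have h2 := congrArg f1 h
    rw [s1, e1_2] at h2
    exact h2
  have e4_4 : f4 x4 = x4 := by
    have h : f0 (f4 x4) = f4 (f0 x4) := (c04 _)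
    rw [e0_4, e4_3] at h
    have h2 := congrArg f0 h
    rw [s0, e0_3] at h2
    exact h2
  exact ⟨x1, x2, x3, x4, hx1, hx2, hx3, hx4, e0_0, e0_1, e0_2, e0_3, e0_4, e1_0, e1_1, e1_2, e1_3, e1_4, e2_0, e2_1, e2_2, e2_3, e2_4, e4_0, e4_1, e4_2, e4_3, e4_4⟩

theorem tblD5 {X : Type*} (f0 f1 f2 f3 f4 : X → X) (x0 : X)
    (s0 : ∀ u, f0 (f0 u) = u)
    (s1 : ∀ u, f1 (f1 u) = u)
    (s2 : ∀ u, f2 (f2 u) = u)
    (s3 : ∀ u, f3 (f3 u) = u)
    (s4 : ∀ u, f4 (f4 u) = u)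
    (b01 : ∀ u, f0 (f1 (f0 u)) = f1 (f0 (f1 u)))
    (c02 : ∀ u, f0 (f2 u) = f2 (f0 u))
    (c03 : ∀ u, f0 (f3 u) = f3 (f0 u))
    (c04 : ∀ u, f0 (f4 u) = f4 (f0 u))
    (b12 : ∀ u, f1 (f2 (f1 u)) = f2 (f1 (f2 u)))
    (c13 : ∀ u, f1 (f3 u) = f3 (f1 u))
    (c14 : ∀ u, f1 (f4 u) = f4 (f1 u))
    (b23 : ∀ u, f2 (f3 (f2 u)) = f3 (f2 (f3 u)))
    (b24 : ∀ u, f2 (f4 (f2 u)) = f4 (f2 (f4 u)))
    (c34 : ∀ u, f3 (f4 u) = f4 (f3 u))
    (k0 : f0 x0 = x0)
    (k1 : f1 x0 = x0)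
    (k2 : f2 x0 = x0)
    (k4 : f4 x0 = x0) :
    ∃ x24 x20 x18 x12 x17 x10 x9 x6 x5 x30 x3 x29 x27 x23 x15 : X, x24 = f3 x0 ∧ x20 = f2 x24 ∧ x18 = f1 x20 ∧ x12 = f4 x20 ∧ x17 = f0 x18 ∧ x10 = f4 x18 ∧ x9 = f4 x17 ∧ x6 = f2 x10 ∧ x5 = f2 x9 ∧ x30 = f3 x6 ∧ x3 = f1 x5 ∧ x29 = f3 x5 ∧ x27 = f3 x3 ∧ x23 = f2 x27 ∧ x15 = f4 x23 ∧ f0 x0 = x0 ∧
      f0 x24 = x24 ∧
      f0 x20 = x20 ∧
      f0 x18 = x17 ∧
      f0 x12 = x12 ∧
      f0 x17 = x18 ∧
      f0 x10 = x9 ∧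
      f0 x9 = x10 ∧
      f0 x6 = x5 ∧
      f0 x5 = x6 ∧
      f0 x30 = x29 ∧
      f0 x3 = x3 ∧
      f0 x29 = x30 ∧
      f0 x27 = x27 ∧
      f0 x23 = x23 ∧
      f0 x15 = x15 ∧
      f1 x0 = x0 ∧
      f1 x24 = x24 ∧
      f1 x20 = x18 ∧
      f1 x18 = x20 ∧
      f1 x12 = x10 ∧
      f1 x17 = x17 ∧
      f1 x10 = x12 ∧
      f1 x9 = x9 ∧
      f1 x6 = x6 ∧
      f1 x5 = x3 ∧
      f1 x30 = x30 ∧
      f1 x3 = x5 ∧
      f1 x29 = x27 ∧
      f1 x27 = x29 ∧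
      f1 x23 = x23 ∧
      f1 x15 = x15 ∧
      f2 x0 = x0 ∧
      f2 x24 = x20 ∧
      f2 x20 = x24 ∧
      f2 x18 = x18 ∧
      f2 x12 = x12 ∧
      f2 x17 = x17 ∧
      f2 x10 = x6 ∧
      f2 x9 = x5 ∧
      f2 x6 = x10 ∧
      f2 x5 = x9 ∧
      f2 x30 = x30 ∧
      f2 x3 = x3 ∧
      f2 x29 = x29 ∧
      f2 x27 = x23 ∧
      f2 x23 = x27 ∧
      f2 x15 = x15 ∧
      f3 x0 = x24 ∧
      f3 x24 = x0 ∧
      f3 x20 = x20 ∧
      f3 x18 = x18 ∧
      f3 x12 = x12 ∧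
      f3 x17 = x17 ∧
      f3 x10 = x10 ∧
      f3 x9 = x9 ∧
      f3 x6 = x30 ∧
      f3 x5 = x29 ∧
      f3 x30 = x6 ∧
      f3 x3 = x27 ∧
      f3 x29 = x5 ∧
      f3 x27 = x3 ∧
      f3 x23 = x23 ∧
      f3 x15 = x15 ∧
      f4 x0 = x0 ∧
      f4 x24 = x24 ∧
      f4 x20 = x12 ∧
      f4 x18 = x10 ∧
      f4 x12 = x20 ∧
      f4 x17 = x9 ∧
      f4 x10 = x18 ∧
      f4 x9 = x17 ∧
      f4 x6 = x6 ∧
      f4 x5 = x5 ∧
      f4 x30 = x30 ∧
      f4 x3 = x3 ∧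
      f4 x29 = x29 ∧
      f4 x27 = x27 ∧
      f4 x23 = x15 ∧
      f4 x15 = x23 := by
  obtain ⟨x24, hx24⟩ : ∃ y, y = f3 x0 := ⟨_, rfl⟩
  obtain ⟨x20, hx20⟩ : ∃ y, y = f2 x24 := ⟨_, rfl⟩
  obtain ⟨x18, hx18⟩ : ∃ y, y = f1 x20 := ⟨_, rfl⟩
  obtain ⟨x12, hx12⟩ : ∃ y, y = f4 x20 := ⟨_, rfl⟩
  obtain ⟨x17, hx17⟩ : ∃ y, y = f0 x18 := ⟨_, rfl⟩
  obtain ⟨x10, hx10⟩ : ∃ y, y = f4 x18 := ⟨_, rfl⟩
  obtain ⟨x9, hx9⟩ : ∃ y, y = f4 x17 := ⟨_, rfl⟩
  obtain ⟨x6, hx6⟩ : ∃ y, y = f2 x10 := ⟨_, rfl⟩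
  obtain ⟨x5, hx5⟩ : ∃ y, y = f2 x9 := ⟨_, rfl⟩
  obtain ⟨x30, hx30⟩ : ∃ y, y = f3 x6 := ⟨_, rfl⟩
  obtain ⟨x3, hx3⟩ : ∃ y, y = f1 x5 := ⟨_, rfl⟩
  obtain ⟨x29, hx29⟩ : ∃ y, y = f3 x5 := ⟨_, rfl⟩
  obtain ⟨x27, hx27⟩ : ∃ y, y = f3 x3 := ⟨_, rfl⟩
  obtain ⟨x23, hx23⟩ : ∃ y, y = f2 x27 := ⟨_, rfl⟩
  obtain ⟨x15, hx15⟩ : ∃ y, y = f4 x23 := ⟨_, rfl⟩
  have e0_0 : f0 x0 = x0 := k0
  have e1_0 : f1 x0 = x0 := k1
  have e2_0 : f2 x0 = x0 := k2
  have e4_0 : f4 x0 = x0 := k4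
  have e3_0 : f3 x0 = x24 := hx24.symm
  have e3_24 : f3 x24 = x0 := by rw [← e3_0]; exact s3 _
  have e2_24 : f2 x24 = x20 := hx20.symm
  have e2_20 : f2 x20 = x24 := by rw [← e2_24]; exact s2 _
  have e1_20 : f1 x20 = x18 := hx18.symm
  have e1_18 : f1 x18 = x20 := by rw [← e1_20]; exact s1 _
  have e4_20 : f4 x20 = x12 := hx12.symm
  have e4_12 : f4 x12 = x20 := by rw [← e4_20]; exact s4 _
  have e0_18 : f0 x18 = x17 := hx17.symm
  have e0_17 : f0 x17 = x18 := by rw [← e0_18]; exact s0 _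
  have e4_18 : f4 x18 = x10 := hx10.symm
  have e4_10 : f4 x10 = x18 := by rw [← e4_18]; exact s4 _
  have e4_17 : f4 x17 = x9 := hx9.symm
  have e4_9 : f4 x9 = x17 := by rw [← e4_17]; exact s4 _
  have e2_10 : f2 x10 = x6 := hx6.symm
  have e2_6 : f2 x6 = x10 := by rw [← e2_10]; exact s2 _
  have e2_9 : f2 x9 = x5 := hx5.symm
  have e2_5 : f2 x5 = x9 := by rw [← e2_9]; exact s2 _
  have e3_6 : f3 x6 = x30 := hx30.symm
  have e3_30 : f3 x30 = x6 := by rw [← e3_6]; exact s3 _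
  have e1_5 : f1 x5 = x3 := hx3.symm
  have e1_3 : f1 x3 = x5 := by rw [← e1_5]; exact s1 _
  have e3_5 : f3 x5 = x29 := hx29.symm
  have e3_29 : f3 x29 = x5 := by rw [← e3_5]; exact s3 _
  have e3_3 : f3 x3 = x27 := hx27.symm
  have e3_27 : f3 x27 = x3 := by rw [← e3_3]; exact s3 _
  have e2_27 : f2 x27 = x23 := hx23.symm
  have e2_23 : f2 x23 = x27 := by rw [← e2_27]; exact s2 _
  have e4_23 : f4 x23 = x15 := hx15.symm
  have e4_15 : f4 x15 = x23 := by rw [← e4_23]; exact s4 _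
  have e0_9 : f0 x9 = x10 := by
    have h : f4 (f0 x9) = f0 (f4 x9) := (c04 _).symm
    rw [e4_9, e0_17] at h
    have h2 := congrArg f4 h
    rw [s4, e4_18] at h2
    exact h2
  have e0_10 : f0 x10 = x9 := by rw [← e0_9]; exact s0 _
  have e0_24 : f0 x24 = x24 := by
    have h : f3 (f0 x24) = f0 (f3 x24) := (c03 _).symm
    rw [e3_24, e0_0] at h
    have h2 := congrArg f3 h
    rw [s3, e3_0] at h2
    exact h2
  have e1_10 : f1 x10 = x12 := by
    have h : f4 (f1 x10) = f1 (f4 x10) := (c14 _).symm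
    rw [e4_10, e1_18] at h
    have h2 := congrArg f4 h
    rw [s4, e4_20] at h2
    exact h2
  have e1_12 : f1 x12 = x10 := by rw [← e1_10]; exact s1 _
  have e1_24 : f1 x24 = x24 := by
    have h : f3 (f1 x24) = f1 (f3 x24) := (c13 _).symm
    rw [e3_24, e1_0] at h
    have h2 := congrArg f3 h
    rw [s3, e3_0] at h2
    exact h2
  have e1_27 : f1 x27 = x29 := by
    have h : f3 (f1 x27) = f1 (f3 x27) := (c13 _).symm
    rw [e3_27, e1_3] at h
    have h2 := congrArg f3 h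
    rw [s3, e3_5] at h2
    exact h2
  have e1_29 : f1 x29 = x27 := by rw [← e1_27]; exact s1 _
  have e2_18 : f2 x18 = x18 := by
    have h : f2 (f1 (f2 x18)) = f1 (f2 (f1 x18)) := (b12 _).symm
    rw [e1_18, e2_20, e1_24] at h
    have h2 := congrArg f2 h
    rw [s2, e2_24] at h2
    have h3 := congrArg f1 h2
    rw [s1, e1_20] at h3
    exact h3
  have e3_20 : f3 x20 = x20 := by
    have h : f3 (f2 (f3 x20)) = f2 (f3 (f2 x20)) := (b23 _).symm
    rw [e2_20, e3_24, e2_0] at h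
    have h2 := congrArg f3 h
    rw [s3, e3_0] at h2
    have h3 := congrArg f2 h2
    rw [s2, e2_24] at h3
    exact h3
  have e4_6 : f4 x6 = x6 := by
    have h : f4 (f2 (f4 x6)) = f2 (f4 (f2 x6)) := (b24 _).symm
    rw [e2_6, e4_10, e2_18] at h
    have h2 := congrArg f4 h
    rw [s4, e4_18] at h2
    have h3 := congrArg f2 h2
    rw [s2, e2_10] at h3
    exact h3
  have e4_24 : f4 x24 = x24 := by
    have h : f3 (f4 x24) = f4 (f3 x24) := (c34 _)
    rw [e3_24, e4_0] at h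
    have h2 := congrArg f3 h
    rw [s3, e3_0] at h2
    exact h2
  have e4_30 : f4 x30 = x30 := by
    have h : f3 (f4 x30) = f4 (f3 x30) := (c34 _)
    rw [e3_30, e4_6] at h
    have h2 := congrArg f3 h
    rw [s3, e3_6] at h2
    exact h2
  have e0_5 : f0 x5 = x6 := by
    have h : f2 (f0 x5) = f0 (f2 x5) := (c02 _).symm
    rw [e2_5, e0_9] at h
    have h2 := congrArg f2 h
    rw [s2, e2_10] at h2
    exact h2
  have e0_6 : f0 x6 = x5 := by rw [← e0_5]; exact s0 _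
  have e0_20 : f0 x20 = x20 := by
    have h : f2 (f0 x20) = f0 (f2 x20) := (c02 _).symm
    rw [e2_20, e0_24] at h
    have h2 := congrArg f2 h
    rw [s2, e2_24] at h2
    exact h2
  have e0_29 : f0 x29 = x30 := by
    have h : f3 (f0 x29) = f0 (f3 x29) := (c03 _).symm
    rw [e3_29, e0_5] at h
    have h2 := congrArg f3 h
    rw [s3, e3_6] at h2
    exact h2
  have e0_30 : f0 x30 = x29 := by rw [← e0_29]; exact s0 _
  have e1_17 : f1 x17 = x17 := by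
    have h : f1 (f0 (f1 x17)) = f0 (f1 (f0 x17)) := (b01 _).symm
    rw [e0_17, e1_18, e0_20] at h
    have h2 := congrArg f1 h
    rw [s1, e1_20] at h2
    have h3 := congrArg f0 h2
    rw [s0, e0_18] at h3
    exact h3
  have e2_12 : f2 x12 = x12 := by
    have h : f2 (f4 (f2 x12)) = f4 (f2 (f4 x12)) := (b24 _)
    rw [e4_12, e2_20, e4_24] at h
    have h2 := congrArg f2 h
    rw [s2, e2_24] at h2
    have h3 := congrArg f4 h2
    rw [s4, e4_20] at h3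
    exact h3
  have e2_17 : f2 x17 = x17 := by
    have h : f0 (f2 x17) = f2 (f0 x17) := (c02 _)
    rw [e0_17, e2_18] at h
    have h2 := congrArg f0 h
    rw [s0, e0_18] at h2
    exact h2
  have e3_12 : f3 x12 = x12 := by
    have h : f4 (f3 x12) = f3 (f4 x12) := (c34 _).symm
    rw [e4_12, e3_20] at h
    have h2 := congrArg f4 h
    rw [s4, e4_20] at h2
    exact h2
  have e3_18 : f3 x18 = x18 := by
    have h : f1 (f3 x18) = f3 (f1 x18) := (c13 _)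
    rw [e1_18, e3_20] at h
    have h2 := congrArg f1 h
    rw [s1, e1_20] at h2
    exact h2
  have e4_5 : f4 x5 = x5 := by
    have h : f0 (f4 x5) = f4 (f0 x5) := (c04 _)
    rw [e0_5, e4_6] at h
    have h2 := congrArg f0 h
    rw [s0, e0_6] at h2
    exact h2
  have e4_29 : f4 x29 = x29 := by
    have h : f0 (f4 x29) = f4 (f0 x29) := (c04 _)
    rw [e0_29, e4_30] at h
    have h2 := congrArg f0 h
    rw [s0, e0_30] at h2
    exact h2
  have e0_12 : f0 x12 = x12 := by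
    have h : f4 (f0 x12) = f0 (f4 x12) := (c04 _).symm
    rw [e4_12, e0_20] at h
    have h2 := congrArg f4 h
    rw [s4, e4_20] at h2
    exact h2
  have e1_6 : f1 x6 = x6 := by
    have h : f1 (f2 (f1 x6)) = f2 (f1 (f2 x6)) := (b12 _)
    rw [e2_6, e1_10, e2_12] at h
    have h2 := congrArg f1 h
    rw [s1, e1_12] at h2
    have h3 := congrArg f2 h2
    rw [s2, e2_10] at h3
    exact h3
  have e1_9 : f1 x9 = x9 := by
    have h : f1 (f0 (f1 x9)) = f0 (f1 (f0 x9)) := (b01 _).symm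
    rw [e0_9, e1_10, e0_12] at h
    have h2 := congrArg f1 h
    rw [s1, e1_12] at h2
    have h3 := congrArg f0 h2
    rw [s0, e0_10] at h3
    exact h3
  have e1_30 : f1 x30 = x30 := by
    have h : f3 (f1 x30) = f1 (f3 x30) := (c13 _).symm
    rw [e3_30, e1_6] at h
    have h2 := congrArg f3 h
    rw [s3, e3_6] at h2
    exact h2
  have e2_3 : f2 x3 = x3 := by
    have h : f2 (f1 (f2 x3)) = f1 (f2 (f1 x3)) := (b12 _).symm
    rw [e1_3, e2_5, e1_9] at h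
    have h2 := congrArg f2 h
    rw [s2, e2_9] at h2
    have h3 := congrArg f1 h2
    rw [s1, e1_5] at h3
    exact h3
  have e3_10 : f3 x10 = x10 := by
    have h : f1 (f3 x10) = f3 (f1 x10) := (c13 _)
    rw [e1_10, e3_12] at h
    have h2 := congrArg f1 h
    rw [s1, e1_12] at h2
    exact h2
  have e3_17 : f3 x17 = x17 := by
    have h : f0 (f3 x17) = f3 (f0 x17) := (c03 _)
    rw [e0_17, e3_18] at h
    have h2 := congrArg f0 h
    rw [s0, e0_18] at h2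
    exact h2
  have e3_23 : f3 x23 = x23 := by
    have h : f3 (f2 (f3 x23)) = f2 (f3 (f2 x23)) := (b23 _).symm
    rw [e2_23, e3_27, e2_3] at h
    have h2 := congrArg f3 h
    rw [s3, e3_3] at h2
    have h3 := congrArg f2 h2
    rw [s2, e2_27] at h3
    exact h3
  have e4_3 : f4 x3 = x3 := by
    have h : f1 (f4 x3) = f4 (f1 x3) := (c14 _)
    rw [e1_3, e4_5] at h
    have h2 := congrArg f1 h
    rw [s1, e1_5] at h2
    exact h2
  have e4_27 : f4 x27 = x27 := by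
    have h : f1 (f4 x27) = f4 (f1 x27) := (c14 _)
    rw [e1_27, e4_29] at h
    have h2 := congrArg f1 h
    rw [s1, e1_29] at h2
    exact h2
  have e0_3 : f0 x3 = x3 := by
    have h : f0 (f1 (f0 x3)) = f1 (f0 (f1 x3)) := (b01 _)
    rw [e1_3, e0_5, e1_6] at h
    have h2 := congrArg f0 h
    rw [s0, e0_6] at h2
    have h3 := congrArg f1 h2
    rw [s1, e1_5] at h3
    exact h3
  have e0_27 : f0 x27 = x27 := by
    have h : f0 (f1 (f0 x27)) = f1 (f0 (f1 x27)) := (b01 _)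
    rw [e1_27, e0_29, e1_30] at h
    have h2 := congrArg f0 h
    rw [s0, e0_30] at h2
    have h3 := congrArg f1 h2
    rw [s1, e1_29] at h3
    exact h3
  have e2_15 : f2 x15 = x15 := by
    have h : f2 (f4 (f2 x15)) = f4 (f2 (f4 x15)) := (b24 _)
    rw [e4_15, e2_23, e4_27] at h
    have h2 := congrArg f2 h
    rw [s2, e2_27] at h2
    have h3 := congrArg f4 h2
    rw [s4, e4_23] at h3
    exact h3
  have e2_30 : f2 x30 = x30 := by
    have h : f2 (f3 (f2 x30)) = f3 (f2 (f3 x30)) := (b23 _)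
    rw [e3_30, e2_6, e3_10] at h
    have h2 := congrArg f2 h
    rw [s2, e2_10] at h2
    have h3 := congrArg f3 h2
    rw [s3, e3_6] at h3
    exact h3
  have e3_9 : f3 x9 = x9 := by
    have h : f0 (f3 x9) = f3 (f0 x9) := (c03 _)
    rw [e0_9, e3_10] at h
    have h2 := congrArg f0 h
    rw [s0, e0_10] at h2
    exact h2
  have e3_15 : f3 x15 = x15 := by
    have h : f4 (f3 x15) = f3 (f4 x15) := (c34 _).symm
    rw [e4_15, e3_23] at h
    have h2 := congrArg f4 h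
    rw [s4, e4_23] at h2
    exact h2
  have e0_23 : f0 x23 = x23 := by
    have h : f2 (f0 x23) = f0 (f2 x23) := (c02 _).symm
    rw [e2_23, e0_27] at h
    have h2 := congrArg f2 h
    rw [s2, e2_27] at h2
    exact h2
  have e2_29 : f2 x29 = x29 := by
    have h : f0 (f2 x29) = f2 (f0 x29) := (c02 _)
    rw [e0_29, e2_30] at h
    have h2 := congrArg f0 h
    rw [s0, e0_30] at h2
    exact h2
  have e0_15 : f0 x15 = x15 := by
    have h : f4 (f0 x15) = f0 (f4 x15) := (c04 _).symm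
    rw [e4_15, e0_23] at h
    have h2 := congrArg f4 h
    rw [s4, e4_23] at h2
    exact h2
  have e1_23 : f1 x23 = x23 := by
    have h : f1 (f2 (f1 x23)) = f2 (f1 (f2 x23)) := (b12 _)
    rw [e2_23, e1_27, e2_29] at h
    have h2 := congrArg f1 h
    rw [s1, e1_29] at h2
    have h3 := congrArg f2 h2
    rw [s2, e2_27] at h3
    exact h3
  have e1_15 : f1 x15 = x15 := by
    have h : f4 (f1 x15) = f1 (f4 x15) := (c14 _).symm
    rw [e4_15, e1_23] at h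
    have h2 := congrArg f4 h
    rw [s4, e4_23] at h2
    exact h2
  exact ⟨x24, x20, x18, x12, x17, x10, x9, x6, x5, x30, x3, x29, x27, x23, x15, hx24, hx20, hx18, hx12, hx17, hx10, hx9, hx6, hx5, hx30, hx3, hx29, hx27, hx23, hx15, e0_0, e0_24, e0_20, e0_18, e0_12, e0_17, e0_10, e0_9, e0_6, e0_5, e0_30, e0_3, e0_29, e0_27, e0_23, e0_15, e1_0, e1_24, e1_20, e1_18, e1_12, e1_17, e1_10, e1_9, e1_6, e1_5, e1_30, e1_3, e1_29, e1_27, e1_23, e1_15, e2_0, e2_24, e2_20, e2_18, e2_12, e2_17, e2_10, e2_9, e2_6, e2_5, e2_30, e2_3, e2_29, e2_27, e2_23, e2_15, e3_0, e3_24, e3_20, e3_18, e3_12, e3_17, e3_10, e3_9, e3_6, e3_5, e3_30, e3_3, e3_29, e3_27, e3_23, e3_15, e4_0, e4_24, e4_20, e4_18, e4_12, e4_17, e4_10, e4_9, e4_6, e4_5, e4_30, e4_3, e4_29, e4_27, e4_23, e4_15⟩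

/-! ## Finiteness from a finite coset table -/

theorem finite_closure_of_table {Γ : Type*} [Group Γ] (H : Subgroup Γ) (hH : Finite H) (S : Set Γ)
    {ι : Type*} [Finite ι] (x : ι → Γ ⧸ H) (i0 : ι) (h0 : x i0 = ((1 : Γ) : Γ ⧸ H))
    (hS : ∀ s ∈ S, s * s = 1) (hx : ∀ s ∈ S, ∀ i, ∃ j, s • x i = x j) :
    Finite (Subgroup.closure S) := by
  have key : ∀ g ∈ Subgroup.closure S,
      (∀ i, ∃ j, g • x i = x j) ∧ (∀ i, ∃ j, g⁻¹ • x i = x j) := by
    intro g hg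
    induction hg using Subgroup.closure_induction with
    | mem s hs =>
      refine ⟨hx s hs, ?_⟩
      have : s⁻¹ = s := by
        have := hS s hs
        exact inv_eq_of_mul_eq_one_left this
      rw [this]; exact hx s hs
    | one => exact ⟨fun i => ⟨i, by simp⟩, fun i => ⟨i, by simp⟩⟩
    | mul a b _ _ ha hb =>
      constructor
      · intro i
        obtain ⟨j, hj⟩ := hb.1 i
        obtain ⟨k, hk⟩ := ha.1 j
        exact ⟨k, by rw [mul_smul, hj, hk]⟩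
      · intro i
        obtain ⟨j, hj⟩ := ha.2 i
        obtain ⟨k, hk⟩ := hb.2 j
        exact ⟨k, by rw [mul_inv_rev, mul_smul, hj, hk]⟩
    | inv a _ ha => exact ⟨ha.2, by simpa using ha.1⟩
  have hsub : (Subgroup.closure S : Set Γ) ⊆ ⋃ j, {g : Γ | ((g : Γ) : Γ ⧸ H) = x j} := by
    intro g hg
    obtain ⟨j, hj⟩ := (key g hg).1 i0
    rw [h0] at hj
    refine Set.mem_iUnion.2 ⟨j, ?_⟩
    simpa using hj
  have hfin : (⋃ j, {g : Γ | ((g : Γ) : Γ ⧸ H) = x j}).Finite := by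
    refine Set.finite_iUnion fun j => ?_
    by_cases hne : ({g : Γ | ((g : Γ) : Γ ⧸ H) = x j}).Nonempty
    · obtain ⟨g0, hg0⟩ := hne
      have hHf : (H : Set Γ).Finite := Set.toFinite _
      refine (hHf.image (fun h => g0 * h)).subset ?_
      intro g hg
      have h1 : ((g0 : Γ) : Γ ⧸ H) = (g : Γ ⧸ H) := by
        exact Eq.trans hg0 (Eq.symm hg)
      refine ⟨g0⁻¹ * g, ?_, by simp⟩
      exact QuotientGroup.eq.1 h1
    · rw [Set.not_nonempty_iff_eq_empty] at hne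
      rw [hne]; exact Set.finite_empty
  exact (hfin.subset hsub).to_subtype

theorem smul_base {Γ : Type*} [Group Γ] (H : Subgroup Γ) {g : Γ} (hg : g ∈ H) :
    g • ((1 : Γ) : Γ ⧸ H) = ((1 : Γ) : Γ ⧸ H) := by
  show ((g * 1 : Γ) : Γ ⧸ H) = ((1 : Γ) : Γ ⧸ H)
  rw [mul_one]
  exact (QuotientGroup.eq.2 (by simpa using hg)).symm

/-! ## The group of type `D₅` is finite -/

structure D5 {Γ : Type*} [Group Γ] (d : Fin 5 → Γ) : Prop where
  s : ∀ i, d i * d i = 1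
  b01 : d 0 * d 1 * d 0 = d 1 * d 0 * d 1
  b12 : d 1 * d 2 * d 1 = d 2 * d 1 * d 2
  b23 : d 2 * d 3 * d 2 = d 3 * d 2 * d 3
  b24 : d 2 * d 4 * d 2 = d 4 * d 2 * d 4
  c02 : d 0 * d 2 = d 2 * d 0
  c03 : d 0 * d 3 = d 3 * d 0
  c04 : d 0 * d 4 = d 4 * d 0
  c13 : d 1 * d 3 = d 3 * d 1
  c14 : d 1 * d 4 = d 4 * d 1
  c34 : d 3 * d 4 = d 4 * d 3

section

variable {Γ : Type*} [Group Γ] {d : Fin 5 → Γ}

theorem smul_s {X : Type*} [MulAction Γ X] {g : Γ} (h : g * g = 1) (u : X) : g • g • u = u := by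
  rw [smul_smul, h, one_smul]

theorem smul_c {X : Type*} [MulAction Γ X] {g k : Γ} (h : g * k = k * g) (u : X) :
    g • k • u = k • g • u := by
  rw [smul_smul, smul_smul, h]

theorem smul_b {X : Type*} [MulAction Γ X] {g k : Γ} (h : g * k * g = k * g * k) (u : X) :
    g • k • g • u = k • g • k • u := by
  rw [smul_smul, smul_smul, smul_smul, smul_smul, h]

theorem D5.finite1 (h : D5 d) : Finite (Subgroup.closure {d 0}) := by
  obtain ⟨x1, -, e0, e1⟩ := tblA1 (fun u : Γ ⧸ (⊥ : Subgroup Γ) => d 0 • u)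
    ((1 : Γ) : Γ ⧸ (⊥ : Subgroup Γ)) (smul_s (h.s 0))
  refine finite_closure_of_table ⊥ inferInstance _
    ![((1 : Γ) : Γ ⧸ (⊥ : Subgroup Γ)), x1] 0 rfl ?_ ?_
  · rintro s rfl; exact h.s 0
  · rintro s rfl i
    fin_cases i
    · exact ⟨1, e0⟩
    · exact ⟨0, e1⟩

theorem D5.finite2 (h : D5 d) : Finite (Subgroup.closure {d 0, d 1}) := by
  set H := Subgroup.closure {d 0} with hH
  have m0 : d 0 ∈ H := Subgroup.subset_closure (by simp)
  obtain ⟨x1, x2, -, -, e00, e01, e02, e10, e11, e12⟩ :=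
    tblA2 (fun u : Γ ⧸ H => d 0 • u) (fun u : Γ ⧸ H => d 1 • u) ((1 : Γ) : Γ ⧸ H)
    (smul_s (h.s 0)) (smul_s (h.s 1)) (smul_b h.b01) (smul_base H m0)
  refine finite_closure_of_table H h.finite1 _ ![((1 : Γ) : Γ ⧸ H), x1, x2] 0 rfl ?_ ?_
  · rintro s (rfl | rfl)
    · exact h.s 0
    · exact h.s 1
  · rintro s (rfl | rfl) i
    · fin_cases i
      · exact ⟨0, e00⟩
      · exact ⟨2, e01⟩
      · exact ⟨1, e02⟩
    · fin_cases i
      · exact ⟨1, e10⟩
      · exact ⟨0, e11⟩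
      · exact ⟨2, e12⟩

theorem D5.finite3 (h : D5 d) : Finite (Subgroup.closure {d 0, d 1, d 2}) := by
  set H := Subgroup.closure {d 0, d 1} with hH
  have m0 : d 0 ∈ H := Subgroup.subset_closure (by simp)
  have m1 : d 1 ∈ H := Subgroup.subset_closure (by simp)
  obtain ⟨x1, x2, x3, -, -, -, e00, e01, e02, e03, e10, e11, e12, e13, e20, e21, e22, e23⟩ :=
    tblA3 (fun u : Γ ⧸ H => d 0 • u) (fun u : Γ ⧸ H => d 1 • u) (fun u : Γ ⧸ H => d 2 • u)
    ((1 : Γ) : Γ ⧸ H)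
    (smul_s (h.s 0)) (smul_s (h.s 1)) (smul_s (h.s 2)) (smul_b h.b01) (smul_c h.c02)
    (smul_b h.b12) (smul_base H m0) (smul_base H m1)
  refine finite_closure_of_table H h.finite2 _ ![((1 : Γ) : Γ ⧸ H), x1, x2, x3] 0 rfl ?_ ?_
  · rintro s (rfl | rfl | rfl)
    · exact h.s 0
    · exact h.s 1
    · exact h.s 2
  · rintro s (rfl | rfl | rfl) i
    · fin_cases i
      · exact ⟨0, e00⟩
      · exact ⟨1, e01⟩
      · exact ⟨3, e02⟩
      · exact ⟨2, e03⟩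
    · fin_cases i
      · exact ⟨0, e10⟩
      · exact ⟨2, e11⟩
      · exact ⟨1, e12⟩
      · exact ⟨3, e13⟩
    · fin_cases i
      · exact ⟨1, e20⟩
      · exact ⟨0, e21⟩
      · exact ⟨2, e22⟩
      · exact ⟨3, e23⟩

theorem D5.finite4 (h : D5 d) : Finite (Subgroup.closure {d 0, d 1, d 2, d 4}) := by
  set H := Subgroup.closure {d 0, d 1, d 2} with hH
  have m0 : d 0 ∈ H := Subgroup.subset_closure (by simp)
  have m1 : d 1 ∈ H := Subgroup.subset_closure (by simp)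
  have m2 : d 2 ∈ H := Subgroup.subset_closure (by simp)
  obtain ⟨x1, x2, x3, x4, -, -, -, -, e00, e01, e02, e03, e04, e10, e11, e12, e13, e14,
      e20, e21, e22, e23, e24, e40, e41, e42, e43, e44⟩ :=
    tblA4 (fun u : Γ ⧸ H => d 0 • u) (fun u : Γ ⧸ H => d 1 • u) (fun u : Γ ⧸ H => d 2 • u)
    (fun u : Γ ⧸ H => d 4 • u) ((1 : Γ) : Γ ⧸ H)
    (smul_s (h.s 0)) (smul_s (h.s 1)) (smul_s (h.s 2)) (smul_s (h.s 4)) (smul_b h.b01)
    (smul_c h.c02) (smul_c h.c04) (smul_b h.b12) (smul_c h.c14) (smul_b h.b24)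
    (smul_base H m0) (smul_base H m1) (smul_base H m2)
  refine finite_closure_of_table H h.finite3 _ ![((1 : Γ) : Γ ⧸ H), x1, x2, x3, x4] 0 rfl ?_ ?_
  · rintro s (rfl | rfl | rfl | rfl)
    · exact h.s 0
    · exact h.s 1
    · exact h.s 2
    · exact h.s 4
  · rintro s (rfl | rfl | rfl | rfl) i
    · fin_cases i
      exacts [⟨0, e00⟩, ⟨1, e01⟩, ⟨2, e02⟩, ⟨4, e03⟩, ⟨3, e04⟩]
    · fin_cases i
      exacts [⟨0, e10⟩, ⟨1, e11⟩, ⟨3, e12⟩, ⟨2, e13⟩, ⟨4, e14⟩]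
    · fin_cases i
      exacts [⟨0, e20⟩, ⟨2, e21⟩, ⟨1, e22⟩, ⟨3, e23⟩, ⟨4, e24⟩]
    · fin_cases i
      exacts [⟨1, e40⟩, ⟨0, e41⟩, ⟨2, e42⟩, ⟨3, e43⟩, ⟨4, e44⟩]

/-! ## The action on the sixteen even vectors (bit masks below 32) -/

/-- swap the bits `i` and `j`. -/
def sw (i j p : ℕ) : ℕ :=
  if p.testBit i = p.testBit j then p else p ^^^ (2 ^ i + 2 ^ j)

/-- the action of the five reflections of `D₅` on masks. -/
def act : ℕ → ℕ → ℕ
  | 0, p => sw 0 1 p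
  | 1, p => sw 1 2 p
  | 2, p => sw 2 3 p
  | 3, p => if p.testBit 3 = p.testBit 4 then p ^^^ 24 else p
  | _, p => sw 3 4 p

/-- the sixteen even vectors. -/
def evens : List ℕ := [0, 3, 5, 6, 9, 10, 12, 15, 17, 18, 20, 23, 24, 27, 29, 30]

theorem masksF {X : Type*} (f : Fin 5 → X → X) (x0 : X) (s : ∀ g u, f g (f g u) = u)
    (b01 : ∀ u, f 0 (f 1 (f 0 u)) = f 1 (f 0 (f 1 u)))
    (c02 : ∀ u, f 0 (f 2 u) = f 2 (f 0 u))
    (c03 : ∀ u, f 0 (f 3 u) = f 3 (f 0 u))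
    (c04 : ∀ u, f 0 (f 4 u) = f 4 (f 0 u))
    (b12 : ∀ u, f 1 (f 2 (f 1 u)) = f 2 (f 1 (f 2 u)))
    (c13 : ∀ u, f 1 (f 3 u) = f 3 (f 1 u))
    (c14 : ∀ u, f 1 (f 4 u) = f 4 (f 1 u))
    (b23 : ∀ u, f 2 (f 3 (f 2 u)) = f 3 (f 2 (f 3 u)))
    (b24 : ∀ u, f 2 (f 4 (f 2 u)) = f 4 (f 2 (f 4 u)))
    (c34 : ∀ u, f 3 (f 4 u) = f 4 (f 3 u))
    (k0 : f 0 x0 = x0) (k1 : f 1 x0 = x0) (k2 : f 2 x0 = x0) (k4 : f 4 x0 = x0) :
    ∃ x : ℕ → X, x 0 = x0 ∧ x 24 = f 3 (x 0) ∧ x 20 = f 2 (x 24) ∧ x 18 = f 1 (x 20) ∧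
      x 12 = f 4 (x 20) ∧ x 10 = f 4 (x 18) ∧
      ∀ g : Fin 5, ∀ p ∈ evens, f g (x p) = x (act g p) := by
  obtain ⟨x24, x20, x18, x12, x17, x10, x9, x6, x5, x30, x3, x29, x27, x23, x15, hx24, hx20, hx18, hx12, hx17, hx10, hx9, hx6, hx5, hx30, hx3, hx29, hx27, hx23, hx15, e0_0, e0_24, e0_20, e0_18, e0_12, e0_17, e0_10, e0_9, e0_6, e0_5, e0_30, e0_3, e0_29, e0_27, e0_23, e0_15, e1_0, e1_24, e1_20, e1_18, e1_12, e1_17, e1_10, e1_9, e1_6, e1_5, e1_30, e1_3, e1_29, e1_27, e1_23, e1_15, e2_0, e2_24, e2_20, e2_18, e2_12, e2_17, e2_10, e2_9, e2_6, e2_5, e2_30, e2_3, e2_29, e2_27, e2_23, e2_15, e3_0, e3_24, e3_20, e3_18, e3_12, e3_17, e3_10, e3_9, e3_6, e3_5, e3_30, e3_3, e3_29, e3_27, e3_23, e3_15, e4_0, e4_24, e4_20, e4_18, e4_12, e4_17, e4_10, e4_9, e4_6, e4_5, e4_30, e4_3, e4_29, e4_27, e4_23, e4_15⟩ :=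
    tblD5 (f 0) (f 1) (f 2) (f 3) (f 4) x0 (s 0) (s 1) (s 2) (s 3) (s 4)
    b01 c02 c03 c04 b12 c13 c14 b23 b24 c34 k0 k1 k2 k4
  refine ⟨fun p => match p with
    | 0 => x0
    | 3 => x3
    | 5 => x5
    | 6 => x6
    | 9 => x9
    | 10 => x10
    | 12 => x12
    | 15 => x15
    | 17 => x17
    | 18 => x18
    | 20 => x20
    | 23 => x23
    | 24 => x24
    | 27 => x27
    | 29 => x29
    | 30 => x30
    | _ => x0, rfl, hx24, hx20, hx18, hx12, hx10, ?_⟩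
  intro g p hp
  fin_cases g
  · fin_cases hp
    exacts [e0_0, e0_3, e0_5, e0_6, e0_9, e0_10, e0_12, e0_15, e0_17, e0_18, e0_20, e0_23, e0_24, e0_27, e0_29, e0_30]
  · fin_cases hp
    exacts [e1_0, e1_3, e1_5, e1_6, e1_9, e1_10, e1_12, e1_15, e1_17, e1_18, e1_20, e1_23, e1_24, e1_27, e1_29, e1_30]
  · fin_cases hp
    exacts [e2_0, e2_3, e2_5, e2_6, e2_9, e2_10, e2_12, e2_15, e2_17, e2_18, e2_20, e2_23, e2_24, e2_27, e2_29, e2_30]
  · fin_cases hp
    exacts [e3_0, e3_3, e3_5, e3_6, e3_9, e3_10, e3_12, e3_15, e3_17, e3_18, e3_20, e3_23, e3_24, e3_27, e3_29, e3_30]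
  · fin_cases hp
    exacts [e4_0, e4_3, e4_5, e4_6, e4_9, e4_10, e4_12, e4_15, e4_17, e4_18, e4_20, e4_23, e4_24, e4_27, e4_29, e4_30]

theorem D5.finite (h : D5 d) : Finite (Subgroup.closure (Set.range d)) := by
  set H := Subgroup.closure {d 0, d 1, d 2, d 4} with hH
  have m0 : d 0 ∈ H := Subgroup.subset_closure (by simp)
  have m1 : d 1 ∈ H := Subgroup.subset_closure (by simp)
  have m2 : d 2 ∈ H := Subgroup.subset_closure (by simp)
  have m4 : d 4 ∈ H := Subgroup.subset_closure (by simp)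
  obtain ⟨x, hx0, -, -, -, -, -, hx⟩ := masksF (fun g (u : Γ ⧸ H) => d g • u) ((1 : Γ) : Γ ⧸ H)
    (fun g => smul_s (h.s g)) (smul_b h.b01) (smul_c h.c02) (smul_c h.c03) (smul_c h.c04)
    (smul_b h.b12) (smul_c h.c13) (smul_c h.c14) (smul_b h.b23) (smul_b h.b24) (smul_c h.c34)
    (smul_base H m0) (smul_base H m1) (smul_base H m2) (smul_base H m4)
  have hact : ∀ g : Fin 5, ∀ p ∈ evens, act g p ∈ evens := by decide +kernel
  refine finite_closure_of_table H h.finite4 _ (fun p : {p // p ∈ evens} => x p.1)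
    ⟨0, by decide⟩ hx0 ?_ ?_
  · rintro s ⟨g, rfl⟩; exact h.s g
  · rintro s ⟨g, rfl⟩ p
    exact ⟨⟨act g p.1, hact g p.1 p.2⟩, hx g p.1 p.2⟩

/-! ## Paths -/

/-- apply the moves coded by the base 6 digits of `w`. -/
def run {σ : Type} (A : ℕ → σ → σ) : ℕ → ℕ → σ → σ
  | 0, _, s => s
  | n + 1, w, s => if w = 0 then s else run A n (w / 6) (A (w % 6 - 1) s)

theorem run_induct {σ : Type} (A : ℕ → σ → σ) (P : σ → Prop)
    (h : ∀ g < 5, ∀ s, P s → P (A g s)) : ∀ n w s, P s → P (run A n w s) := by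
  intro n
  induction n with
  | zero => intro w s hs; exact hs
  | succ n ih =>
    intro w s hs
    unfold run
    split_ifs
    · exact hs
    · exact ih _ _ (h _ (by omega) _ hs)

/-- the vector `c i` of the four dimensional space of masks. -/
def c : ℕ → ℕ
  | 0 => 1
  | 1 => 2
  | 2 => 4
  | 3 => 8
  | _ => 15

/-- translation between masks below 16 and even vectors. -/
def V (m : ℕ) : ℕ :=
  (if m.testBit 0 then 30 else 0) ^^^ (if m.testBit 1 then 29 else 0) ^^^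
  (if m.testBit 2 then 27 else 0) ^^^ (if m.testBit 3 then 23 else 0)

/-- parity of the bits of `p` outside `i`. -/
def par (i p : ℕ) : Bool :=
  ((p.testBit 0 && (i != 0)) ^^ (p.testBit 1 && (i != 1))) ^^
  ((p.testBit 2 && (i != 2)) ^^ (p.testBit 3 && (i != 3)))

/-- base point of a cusp. -/
def bp (i : ℕ) (e : Bool) : ℕ := if e then c ((i + 1) % 5) else 0

def ppl : List ℕ := [0, 20571, 5019, 1131, 51, 20571, 0, 843, 195, 15, 5019, 843, 0, 33, 3, 1131, 195, 33, 0, 0, 51, 15, 3, 0, 0, 0, 7811907, 44763459, 226161987, 2040147267, 7811907, 0, 36166, 216999, 1301991, 44763459, 36166, 0, 1243431, 7460583, 226161987, 216999, 1243431, 0, 37693671, 2040147267, 1301991, 7460583, 37693671, 0, 0, 46816323, 216742, 1300455, 7802727, 46816323, 0, 256395075, 1344786243, 12228697923, 216742, 256395075, 0, 7122087, 42732519, 1300455, 1344786243, 7122087, 0, 224131047, 7802727, 12228697923, 42732519, 224131047, 0,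 0, 123430, 26660931, 4443495, 740583, 123430, 0, 87127107, 14521191, 2420199, 26660931, 87127107, 0, 11833638243, 949726563, 4443495, 14521191, 11833638243, 0, 158287767, 740583, 2420199, 949726563, 158287767, 0, 0, 1243174, 268525635, 7459047, 44754279, 1243174, 0, 1538315331, 42730983, 256385895, 268525635, 1538315331, 0, 5698350915, 71001820995, 7459047, 42730983, 5698350915, 0, 949725159, 44754279, 256385895, 71001820995, 949725159, 0, 0, 6505539, 30118, 1084263, 180711, 6505539, 0, 14530371, 2038117731, 224132451, 30118, 14530371, 0, 2421735, 403623, 1084263, 2038117731, 2421735, 0, 37355415, 180711, 224132451, 403623, 37355415, 0, 0, 1093443, 4452675, 340025955, 37695075, 1093443, 0, 5062, 182247, 30375, 4452675, 5062, 0, 742119, 123687, 340025955, 182247, 742119, 0, 6282519, 37695075, 30375, 123687, 6282519, 0, 0, 207195, 36123, 915, 7395, 207195, 0, 6027, 159, 1239, 36123, 6027, 0, 27, 207, 915,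 159, 27, 0, 4, 7395, 1239, 207, 4, 0, 0, 6282022, 37692135, 1356916803, 226152807, 6282022, 0, 224129511, 8068662339, 1344777063, 37692135, 224129511, 0, 34190050371, 5698341735, 1356916803, 8068662339, 34190050371, 0, 306094313283, 226152807, 1344777063, 5698341735, 306094313283, 0, 0, 1466691, 244455, 6790, 40743, 1466691, 0, 339686403, 2423139, 42733923, 244455, 339686403, 0, 403863, 7122327, 6790, 2423139, 403863, 0, 67311, 40743, 42733923, 7122327, 67311, 0, 0, 253635, 56671107, 743523, 7461987, 253635, 0, 42279, 1174, 7047, 56671107, 42279, 0, 123927, 1243671, 743523, 1174, 123927, 0, 20655, 7461987, 7047, 1243671, 20655, 0, 0, 1047003, 4803, 217347, 30723, 1047003, 0, 807, 36231, 5127, 4803, 807, 0, 135, 22, 217347, 36231, 135, 0, 855, 30723, 5127, 22, 855, 0, 0, 9445083, 43683, 183651, 1303395, 9445083, 0, 7287, 30615, 217239, 43683, 7287, 0, 202, 1215, 183651, 30615, 202, 0, 5103, 1303395, 217239,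 1215, 5103, 0, 0, 20355, 6282627, 1243779, 124035, 20355, 0, 3399, 567, 94, 6282627, 3399, 0, 207303, 20679, 1243779, 567, 207303, 0, 3447, 124035, 94, 20679, 3447, 0, 0, 67011, 11175, 1863, 310, 67011, 0, 37355523, 7122435, 403971, 11175, 37355523, 0, 1187079, 67335, 1863, 7122435, 1187079, 0, 11223, 310, 403971, 67335, 11223, 0, 0, 56670502, 340023015, 2040138087, 12240828483, 56670502, 0, 2038114791, 12228688743, 73372132419, 340023015, 2038114791, 0, 71001811815, 426010870851, 2040138087, 12228688743, 71001811815, 0, 1836565824579, 12240828483, 73372132419, 426010870851, 1836565824579, 0]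

def qql : List ℕ := [0, 0, 0, 0, 0, 0, 226174585, 7824505, 7820371, 0, 0, 0, 1304329, 1303435, 7121827, 0, 124105, 732812, 4396868, 54785348, 5698363513, 0, 0, 7462027, 1187011, 2424217, 172940, 184585, 1037636, 9435716, 29084, 0, 1106041, 174500, 1574180, 36236, 217412, 1243844, 0, 174361, 949727497, 37696009, 0, 0, 6225859, 14544409, 32972, 197828, 262345, 56614364, 5756, 26791609, 34532, 1572601, 9445148, 6032, 36188, 236183737, 6282692, 34393, 1004, 6020, 0, 9130873, 56671172, 34544, 160601017, 207260, 1047068, 5881, 87234457, 197840, 1187036, 6225884, 0, 11833639177, 340026889, 340025995, 0, 0]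

def act2 (g : ℕ) (s : ℕ × ℕ) : ℕ × ℕ := (act g s.1, act g s.2)

def act4 (g : ℕ) (s : (ℕ × ℕ) × (ℕ × ℕ)) : (ℕ × ℕ) × (ℕ × ℕ) := (act2 g s.1, act2 g s.2)

theorem path2 : ∀ m < 16, ∀ i < 5, ∀ j < 5, i ≠ j →
    run act2 20 (ppl.getD (25 * m + 5 * i + j) 0) (0, 24) = (V m, V (m ^^^ c i ^^^ c j)) := by
  decide +kernel

theorem path4 : ∀ m < 16, ∀ i < 5, m = bp i (par i m) ∨ m = bp i (par i m) ^^^ c i ∨
    run act4 20 (qql.getD (5 * m + i) 0) ((18, 12), (10, 20)) =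
      ((V m, V (m ^^^ c i)), (V (bp i (par i m)), V (bp i (par i m) ^^^ c i))) := by
  decide +kernel

/-! ## The Coxeter relations -/

/-- Coxeter relations of type `{3,3,3,4,3}`. -/
structure Cox (a : Fin 6 → Γ) : Prop where
  s : ∀ i, a i * a i = 1
  c02 : a 0 * a 2 = a 2 * a 0
  c03 : a 0 * a 3 = a 3 * a 0
  c04 : a 0 * a 4 = a 4 * a 0
  c05 : a 0 * a 5 = a 5 * a 0
  c13 : a 1 * a 3 = a 3 * a 1
  c14 : a 1 * a 4 = a 4 * a 1
  c15 : a 1 * a 5 = a 5 * a 1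
  c24 : a 2 * a 4 = a 4 * a 2
  c25 : a 2 * a 5 = a 5 * a 2
  c35 : a 3 * a 5 = a 5 * a 3
  b01 : a 0 * a 1 * a 0 = a 1 * a 0 * a 1
  b12 : a 1 * a 2 * a 1 = a 2 * a 1 * a 2
  b23 : a 2 * a 3 * a 2 = a 3 * a 2 * a 3
  b45 : a 4 * a 5 * a 4 = a 5 * a 4 * a 5
  q34 : a 3 * a 4 * a 3 * a 4 = a 4 * a 3 * a 4 * a 3

/-- the reflection `τ`. -/
def tau (a : Fin 6 → Γ) : Γ := a 5 * a 4 * a 3 * a 4 * a 5

theorem comm_of_sq {x y : Γ} (hx : x * x = 1) (hy : y * y = 1) (h : (x * y) ^ 2 = 1) :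
    x * y = y * x := by
  have hx' : x⁻¹ = x := inv_eq_of_mul_eq_one_left hx
  have hy' : y⁻¹ = y := inv_eq_of_mul_eq_one_left hy
  have : x * y = (x * y)⁻¹ := by
    rw [pow_two] at h
    exact (inv_eq_of_mul_eq_one_left h).symm
  rw [this, mul_inv_rev, hx', hy']

theorem braid_of_cube {x y : Γ} (hx : x * x = 1) (hy : y * y = 1) (h : (x * y) ^ 3 = 1) :
    x * y * x = y * x * y := by
  have hx' : x⁻¹ = x := inv_eq_of_mul_eq_one_left hx
  have hy' : y⁻¹ = y := inv_eq_of_mul_eq_one_left hy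
  have h2 : (x * y * x) * (y * x * y) = 1 := by
    rw [← h]; simp only [pow_succ, pow_zero, one_mul, mul_assoc]
  have h3 : (y * x * y)⁻¹ = y * x * y := by
    rw [mul_inv_rev, mul_inv_rev, hx', hy', mul_assoc]
  rw [← h3]; exact eq_inv_of_mul_eq_one_left h2

theorem quad_of_four {x y : Γ} (hx : x * x = 1) (hy : y * y = 1) (h : (x * y) ^ 4 = 1) :
    x * y * x * y = y * x * y * x := by
  have hx' : x⁻¹ = x := inv_eq_of_mul_eq_one_left hx
  have hy' : y⁻¹ = y := inv_eq_of_mul_eq_one_left hy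
  have h2 : (x * y * x * y) * (x * y * x * y) = 1 := by
    rw [← h]; simp only [pow_succ, pow_zero, one_mul, mul_assoc]
  have h3 : (y * x * y * x)⁻¹ = x * y * x * y := by
    simp only [mul_inv_rev, hx', hy', mul_assoc]
  rw [← h3] at h2 ⊢
  exact inv_eq_of_mul_eq_one_left h2 ▸ (by simp)

end

section

variable {Γ : Type*} [Group Γ] {a : Fin 6 → Γ}

theorem Cox.tau_eq (h : Cox a) : tau a = (a 5 * a 4) * a 3 * (a 5 * a 4)⁻¹ := by
  have h4 : (a 4)⁻¹ = a 4 := inv_eq_of_mul_eq_one_left (h.s 4)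
  have h5 : (a 5)⁻¹ = a 5 := inv_eq_of_mul_eq_one_left (h.s 5)
  rw [mul_inv_rev, h4, h5, tau]
  simp only [mul_assoc]

theorem Cox.tau_sq (h : Cox a) : tau a * tau a = 1 := by
  rw [h.tau_eq]
  have := h.s 3
  calc (a 5 * a 4) * a 3 * (a 5 * a 4)⁻¹ * ((a 5 * a 4) * a 3 * (a 5 * a 4)⁻¹)
      = (a 5 * a 4) * (a 3 * a 3) * (a 5 * a 4)⁻¹ := by group
    _ = 1 := by rw [this]; group

theorem Cox.D5 (h : Cox a) : D5 ![a 0, a 1, a 2, a 3, tau a] where
  s := by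
    intro i
    fin_cases i
    exacts [h.s 0, h.s 1, h.s 2, h.s 3, h.tau_sq]
  b01 := h.b01
  b12 := h.b12
  b23 := h.b23
  b24 := by
    show a 2 * tau a * a 2 = tau a * a 2 * tau a
    have hu : a 2 = (a 5 * a 4) * a 2 * (a 5 * a 4)⁻¹ := by
      have : (a 5 * a 4) * a 2 = a 2 * (a 5 * a 4) := by
        rw [mul_assoc, ← h.c24, ← mul_assoc, ← h.c25, mul_assoc]
      rw [this]; group
    rw [h.tau_eq]
    calc a 2 * (a 5 * a 4 * a 3 * (a 5 * a 4)⁻¹) * a 2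
        = ((a 5 * a 4) * a 2 * (a 5 * a 4)⁻¹) * (a 5 * a 4 * a 3 * (a 5 * a 4)⁻¹) *
          ((a 5 * a 4) * a 2 * (a 5 * a 4)⁻¹) := by rw [← hu]
      _ = (a 5 * a 4) * (a 2 * a 3 * a 2) * (a 5 * a 4)⁻¹ := by group
      _ = (a 5 * a 4) * (a 3 * a 2 * a 3) * (a 5 * a 4)⁻¹ := by rw [h.b23]
      _ = (a 5 * a 4 * a 3 * (a 5 * a 4)⁻¹) * ((a 5 * a 4) * a 2 * (a 5 * a 4)⁻¹) *
          (a 5 * a 4 * a 3 * (a 5 * a 4)⁻¹) := by group
      _ = _ := by rw [← hu]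
  c02 := h.c02
  c03 := h.c03
  c04 := by
    show a 0 * tau a = tau a * a 0
    have e3 : Commute (a 0) (a 3) := h.c03
    have e4 : Commute (a 0) (a 4) := h.c04
    have e5 : Commute (a 0) (a 5) := h.c05
    exact ((((e5.mul_right e4).mul_right e3).mul_right e4).mul_right e5).eq
  c13 := h.c13
  c14 := by
    show a 1 * tau a = tau a * a 1
    have e3 : Commute (a 1) (a 3) := h.c13
    have e4 : Commute (a 1) (a 4) := h.c14
    have e5 : Commute (a 1) (a 5) := h.c15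
    exact ((((e5.mul_right e4).mul_right e3).mul_right e4).mul_right e5).eq
  c34 := by
    show a 3 * tau a = tau a * a 3
    have e5 : Commute (a 3) (a 5) := h.c35
    have e4 : Commute (a 3) (a 4 * a 3 * a 4) := by
      show a 3 * (a 4 * a 3 * a 4) = (a 4 * a 3 * a 4) * a 3
      rw [← h.q34]; simp only [mul_assoc]
    have ht : tau a = a 5 * (a 4 * a 3 * a 4) * a 5 := by rw [tau]; simp only [mul_assoc]
    rw [ht]
    exact ((e5.mul_right e4).mul_right e5).eq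

theorem Cox.tau_four (h : Cox a) : tau a * a 4 = a 4 * tau a := by
  have h45 : a 4 * a 5 * a 4 = a 5 * a 4 * a 5 := h.b45
  calc a 5 * a 4 * a 3 * a 4 * a 5 * a 4 = a 5 * a 4 * a 3 * (a 4 * a 5 * a 4) := by
        simp only [mul_assoc]
    _ = a 5 * a 4 * (a 3 * a 5) * a 4 * a 5 := by rw [h45]; simp only [mul_assoc]
    _ = (a 5 * a 4 * a 5) * a 3 * a 4 * a 5 := by rw [h.c35]; simp only [mul_assoc]
    _ = a 4 * (a 5 * a 4 * a 3 * a 4 * a 5) := by rw [← h45]; simp only [mul_assoc]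

theorem conj_fix {x y : Γ} (hx : x * x = 1) (h : x * y = y * x) : x * y * x = y := by
  rw [h, mul_assoc, hx, mul_one]

theorem conj_conj {x : Γ} (hx : x * x = 1) (y : Γ) : x * (x * y * x) * x = y := by
  calc x * (x * y * x) * x = (x * x) * y * (x * x) := by simp only [mul_assoc]
    _ = y := by rw [hx, one_mul, mul_one]

/-- The sixteen involutions. -/
theorem Cox.exists_x (h : Cox a) :
    ∃ x : ℕ → Γ, x 0 = a 4 ∧ x 24 = a 3 * a 4 * a 3 ∧
      x 20 = a 2 * x 24 * a 2 ∧ x 18 = a 1 * x 20 * a 1 ∧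
      x 12 = tau a * x 20 * tau a ∧ x 10 = tau a * x 18 * tau a ∧
      ∀ g : Fin 5, ∀ p ∈ evens, (![a 0, a 1, a 2, a 3, tau a] : Fin 5 → Γ) g * x p *
        (![a 0, a 1, a 2, a 3, tau a] : Fin 5 → Γ) g = x (act g p) := by
  have hD := h.D5
  set d : Fin 5 → Γ := ![a 0, a 1, a 2, a 3, tau a] with hd
  have hc : ∀ {g k : Fin 5}, d g * d k = d k * d g → ∀ u : Γ,
      d g * (d k * u * d k) * d g = d k * (d g * u * d g) * d k := by
    intro g k hgk u
    calc d g * (d k * u * d k) * d g = (d g * d k) * u * (d k * d g) := by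
          simp only [mul_assoc]
      _ = (d k * d g) * u * (d g * d k) := by rw [hgk]
      _ = _ := by simp only [mul_assoc]
  have hb : ∀ {g k : Fin 5}, d g * d k * d g = d k * d g * d k → ∀ u : Γ,
      d g * (d k * (d g * u * d g) * d k) * d g = d k * (d g * (d k * u * d k) * d g) * d k := by
    intro g k hgk u
    calc d g * (d k * (d g * u * d g) * d k) * d g = (d g * d k * d g) * u * (d g * d k * d g) := by
          simp only [mul_assoc]
      _ = (d k * d g * d k) * u * (d k * d g * d k) := by rw [hgk]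
      _ = _ := by simp only [mul_assoc]
  obtain ⟨x, h0, h24, h20, h18, h12, h10, hx⟩ := masksF (fun g (u : Γ) => d g * u * d g) (a 4)
    (fun g u => conj_conj (hD.s g) u) (hb hD.b01) (hc hD.c02) (hc hD.c03) (hc hD.c04)
    (hb hD.b12) (hc hD.c13) (hc hD.c14) (hb hD.b23) (hb hD.b24) (hc hD.c34)
    (conj_fix (hD.s 0) h.c04) (conj_fix (hD.s 1) h.c14) (conj_fix (hD.s 2) h.c24)
    (conj_fix (hD.s 4) h.tau_four)
  refine ⟨x, h0, ?_, h20, h18, h12, h10, hx⟩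
  rw [h24, h0]; rfl

theorem act_evens : ∀ g < 5, ∀ p ∈ evens, act g p ∈ evens := by decide +kernel

/-- The sixteen involutions with all their relations. -/
theorem Cox.relations (h : Cox a)
    (hw : (a 1 * (a 2 * a 3 * a 4 * a 3 * a 2) * tau a * (a 2 * a 3 * a 4 * a 3 * a 2)) ^ 4 = 1) :
    ∃ x : ℕ → Γ, x 0 = a 4 ∧
      (∀ g : Fin 5, ∀ p ∈ evens, (![a 0, a 1, a 2, a 3, tau a] : Fin 5 → Γ) g * x p *
        (![a 0, a 1, a 2, a 3, tau a] : Fin 5 → Γ) g = x (act g p)) ∧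
      (∀ m < 16, x (V m) * x (V m) = 1) ∧
      (∀ m < 16, ∀ i < 5, ∀ j < 5, i ≠ j →
        x (V m) * x (V (m ^^^ c i ^^^ c j)) = x (V (m ^^^ c i ^^^ c j)) * x (V m)) ∧
      (∀ m < 16, ∀ i < 5, x (V m) * x (V (m ^^^ c i)) * x (V m) * x (V (m ^^^ c i)) =
        x (V (bp i (par i m))) * x (V (bp i (par i m) ^^^ c i)) * x (V (bp i (par i m))) *
          x (V (bp i (par i m) ^^^ c i))) ∧
      (∀ m < 16, ∀ i < 5, (x (V m) * x (V (m ^^^ c i)) * x (V m) * x (V (m ^^^ c i))) *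
        (x (V m) * x (V (m ^^^ c i)) * x (V m) * x (V (m ^^^ c i))) = 1) := by
  obtain ⟨x, h0, h24, h20, h18, h12, h10, hx⟩ := h.exists_x
  have hD := h.D5
  set d : Fin 5 → Γ := ![a 0, a 1, a 2, a 3, tau a] with hd
  -- conjugation step
  have hg : ∀ g < 5, ∃ e : Γ, e * e = 1 ∧ ∀ p ∈ evens, e * x p * e = x (act g p) := by
    intro g hg
    exact ⟨d ⟨g, hg⟩, hD.s _, fun p hp => hx ⟨g, hg⟩ p hp⟩
  have cm : ∀ {e : Γ}, e * e = 1 → ∀ u v : Γ, e * u * e * (e * v * e) = e * (u * v) * e := by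
    intro e he u v
    calc e * u * e * (e * v * e) = e * u * (e * e) * v * e := by simp only [mul_assoc]
      _ = _ := by rw [he]; simp only [mul_assoc, one_mul]
  have c1 : ∀ {e : Γ}, e * e = 1 → e * 1 * e = 1 := by
    intro e he; rw [mul_one, he]
  -- squares
  have hsq2 : ∀ n w, let s := run act2 n w (0, 24)
      s.1 ∈ evens ∧ x s.1 * x s.1 = 1 := by
    intro n w
    refine run_induct act2 (fun s => s.1 ∈ evens ∧ x s.1 * x s.1 = 1) ?_ n w _ ?_
    · rintro g hg5 s ⟨hs, hs2⟩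
      obtain ⟨e, he, hex⟩ := hg g hg5
      refine ⟨act_evens g hg5 _ hs, ?_⟩
      show x (act g s.1) * x (act g s.1) = 1
      rw [← hex _ hs, cm he, hs2, c1 he]
    · exact ⟨by decide, by rw [h0]; exact h.s 4⟩
  have hsq : ∀ m < 16, x (V m) * x (V m) = 1 := by
    intro m hm
    have h1 := (hsq2 20 (ppl.getD (25 * m + 5 * 0 + 1) 0)).2
    rw [path2 m hm 0 (by norm_num) 1 (by norm_num) (by norm_num)] at h1
    exact h1
  -- commutation
  have hco2 : ∀ n w, let s := run act2 n w (0, 24)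
      s.1 ∈ evens ∧ s.2 ∈ evens ∧ x s.1 * x s.2 = x s.2 * x s.1 := by
    intro n w
    refine run_induct act2 (fun s => s.1 ∈ evens ∧ s.2 ∈ evens ∧
      x s.1 * x s.2 = x s.2 * x s.1) ?_ n w _ ?_
    · rintro g hg5 s ⟨hs, hs', hs2⟩
      obtain ⟨e, he, hex⟩ := hg g hg5
      refine ⟨act_evens g hg5 _ hs, act_evens g hg5 _ hs', ?_⟩
      show x (act g s.1) * x (act g s.2) = x (act g s.2) * x (act g s.1)
      rw [← hex _ hs, ← hex _ hs', cm he, cm he, hs2]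
    · refine ⟨by decide, by decide, ?_⟩
      show x 0 * x 24 = x 24 * x 0
      rw [h0, h24]
      calc a 4 * (a 3 * a 4 * a 3) = a 4 * a 3 * a 4 * a 3 := by simp only [mul_assoc]
        _ = _ := by rw [← h.q34]
  have hco : ∀ m < 16, ∀ i < 5, ∀ j < 5, i ≠ j →
        x (V m) * x (V (m ^^^ c i ^^^ c j)) = x (V (m ^^^ c i ^^^ c j)) * x (V m) := by
    intro m hm i hi j hj hij
    have h1 := (hco2 20 (ppl.getD (25 * m + 5 * i + j) 0)).2.2
    rw [path2 m hm i hi j hj hij] at h1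
    exact h1
  -- quadruples
  have hq0 : (x 18 * x 12 * x 18 * x 12) * (x 10 * x 20 * x 10 * x 20) = 1 := by
    have e1 : Commute (x 18) (x 10) :=
      hco 13 (by norm_num) 3 (by norm_num) 4 (by norm_num) (by norm_num)
    have e2 : Commute (x 18) (x 20) :=
      hco 13 (by norm_num) 1 (by norm_num) 2 (by norm_num) (by norm_num)
    have e3 : Commute (x 12) (x 10) :=
      hco 12 (by norm_num) 1 (by norm_num) 2 (by norm_num) (by norm_num)
    have e4 : Commute (x 12) (x 20) :=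
      hco 12 (by norm_num) 3 (by norm_num) 4 (by norm_num) (by norm_num)
    have hS : a 2 * a 3 * a 4 * a 3 * a 2 = x 20 := by
      rw [h20, h24]; simp only [mul_assoc]
    rw [hS] at hw
    have hc14 : a 1 * tau a * a 1 = tau a := conj_fix (h.s 1) hD.c14
    have hW : (a 1 * x 20 * tau a * x 20) * (a 1 * x 20 * tau a * x 20) =
        x 18 * x 10 * (x 12 * x 20) := by
      symm
      rw [h12, h10, h18]
      calc a 1 * x 20 * a 1 * (tau a * (a 1 * x 20 * a 1) * tau a) *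
            (tau a * x 20 * tau a * x 20)
          = a 1 * x 20 * (a 1 * tau a * a 1) * x 20 * a 1 * (tau a * tau a) * x 20 * tau a *
            x 20 := by simp only [mul_assoc]
        _ = _ := by rw [hc14, h.tau_sq]; simp only [mul_assoc, one_mul]
    have hAB : Commute (x 18 * x 12) (x 10 * x 20) :=
      (e1.mul_right e2).mul_left (e3.mul_right e4)
    have hW2 : x 18 * x 10 * (x 12 * x 20) = (x 18 * x 12) * (x 10 * x 20) := by
      calc x 18 * x 10 * (x 12 * x 20) = x 18 * (x 10 * x 12) * x 20 := by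
            simp only [mul_assoc]
        _ = _ := by rw [← e3.eq]; simp only [mul_assoc]
    calc (x 18 * x 12 * x 18 * x 12) * (x 10 * x 20 * x 10 * x 20)
        = (x 18 * x 12) ^ 2 * (x 10 * x 20) ^ 2 := by
          simp only [pow_two, mul_assoc]
      _ = ((x 18 * x 12) * (x 10 * x 20)) ^ 2 := (hAB.mul_pow 2).symm
      _ = (a 1 * x 20 * tau a * x 20) ^ 4 := by
          rw [← hW2, ← hW]; simp only [pow_succ, pow_zero, one_mul, mul_assoc]
      _ = 1 := hw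
  have hq4 : ∀ n w, let s := run act4 n w ((18, 12), (10, 20))
      (s.1.1 ∈ evens ∧ s.1.2 ∈ evens ∧ s.2.1 ∈ evens ∧ s.2.2 ∈ evens) ∧
      (x s.1.1 * x s.1.2 * x s.1.1 * x s.1.2) * (x s.2.1 * x s.2.2 * x s.2.1 * x s.2.2) = 1 := by
    intro n w
    refine run_induct act4 (fun s => (s.1.1 ∈ evens ∧ s.1.2 ∈ evens ∧ s.2.1 ∈ evens ∧
      s.2.2 ∈ evens) ∧
      (x s.1.1 * x s.1.2 * x s.1.1 * x s.1.2) * (x s.2.1 * x s.2.2 * x s.2.1 * x s.2.2) = 1)
      ?_ n w _ ?_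
    · rintro g hg5 ⟨⟨p, q⟩, ⟨p', q'⟩⟩ ⟨⟨hp, hq, hp', hq'⟩, hs2⟩
      obtain ⟨e, he, hex⟩ := hg g hg5
      refine ⟨⟨act_evens g hg5 _ hp, act_evens g hg5 _ hq, act_evens g hg5 _ hp',
        act_evens g hg5 _ hq'⟩, ?_⟩
      show (x (act g p) * x (act g q) * x (act g p) * x (act g q)) *
        (x (act g p') * x (act g q') * x (act g p') * x (act g q')) = 1
      rw [← hex _ hp, ← hex _ hq, ← hex _ hp', ← hex _ hq']
      simp only [cm he]
      rw [hs2, c1 he]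
    · exact ⟨⟨by decide, by decide, by decide, by decide⟩, hq0⟩
  have hQ : ∀ m < 16, ∀ i < 5, m ≠ bp i (par i m) → m ≠ bp i (par i m) ^^^ c i →
      (x (V m) * x (V (m ^^^ c i)) * x (V m) * x (V (m ^^^ c i))) *
      (x (V (bp i (par i m))) * x (V (bp i (par i m) ^^^ c i)) * x (V (bp i (par i m))) *
          x (V (bp i (par i m) ^^^ c i))) = 1 := by
    intro m hm i hi h1 h2
    have h3 := (hq4 20 (qql.getD (5 * m + i) 0)).2
    rcases path4 m hm i hi with h4 | h4 | h4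
    · exact absurd h4 h1
    · exact absurd h4 h2
    · rw [h4] at h3; exact h3
  have hlt : ∀ m < 16, ∀ i < 5, m ^^^ c i < 16 ∧ (m ^^^ c i) ^^^ c i = m ∧
      par i (m ^^^ c i) = par i m ∧ bp i (par i m) < 16 ∧ par i (bp i (par i m)) = par i m ∧
      (∃ k < 16, par i k = par i m ∧ k ≠ bp i (par i k) ∧ k ≠ bp i (par i k) ^^^ c i) := by
    decide +kernel
  have hsi : ∀ m < 16, (x (V m))⁻¹ = x (V m) := fun m hm =>
    inv_eq_of_mul_eq_one_left (hsq m hm)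
  have hT : ∀ m < 16, ∀ i < 5,
      x (V (m ^^^ c i)) * x (V m) * x (V (m ^^^ c i)) * x (V m) =
      (x (V m) * x (V (m ^^^ c i)) * x (V m) * x (V (m ^^^ c i)))⁻¹ := by
    intro m hm i hi
    simp only [mul_inv_rev, hsi m hm, hsi _ (hlt m hm i hi).1, mul_assoc]
  have hB : ∀ m < 16, ∀ i < 5,
      (x (V (bp i (par i m))) * x (V (bp i (par i m) ^^^ c i)) * x (V (bp i (par i m))) *
          x (V (bp i (par i m) ^^^ c i)))⁻¹ =
      (x (V (bp i (par i m))) * x (V (bp i (par i m) ^^^ c i)) * x (V (bp i (par i m))) *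
          x (V (bp i (par i m) ^^^ c i))) := by
    intro m hm i hi
    obtain ⟨-, -, -, -, -, k, hk, hkm, hk1, hk2⟩ := hlt m hm i hi
    obtain ⟨g1, g2, g3, -, -, -⟩ := hlt k hk i hi
    have q1 := hQ k hk i hi hk1 hk2
    have q2 := hQ (k ^^^ c i) g1 i hi (by
      rw [g3]; intro h5; apply hk2; rw [← h5, g2]) (by
      rw [g3]; intro h5; apply hk1
      have h6 := congrArg (fun n => n ^^^ c i) h5
      simp only [g2] at h6
      exact h6.trans (hlt _ (hlt k hk i hi).2.2.2.1 i hi).2.1)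
    rw [g2, g3, hT k hk i hi] at q2
    rw [hkm] at q1 q2
    set T := x (V k) * x (V (k ^^^ c i)) * x (V k) * x (V (k ^^^ c i)) with hTd
    set B := x (V (bp i (par i m))) * x (V (bp i (par i m) ^^^ c i)) * x (V (bp i (par i m))) *
          x (V (bp i (par i m) ^^^ c i)) with hBd
    have r1 : T = B⁻¹ := eq_inv_of_mul_eq_one_left q1
    have r2 : T⁻¹ = B⁻¹ := eq_inv_of_mul_eq_one_left q2
    have r3 : T⁻¹ = B := by rw [r1, inv_inv]
    exact r2.symm.trans r3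
  have hall : ∀ m < 16, ∀ i < 5, x (V m) * x (V (m ^^^ c i)) * x (V m) * x (V (m ^^^ c i)) =
        x (V (bp i (par i m))) * x (V (bp i (par i m) ^^^ c i)) * x (V (bp i (par i m))) *
          x (V (bp i (par i m) ^^^ c i)) := by
    intro m hm i hi
    by_cases h1 : m = bp i (par i m)
    · rw [← h1]
    by_cases h2 : m = bp i (par i m) ^^^ c i
    · obtain ⟨g1, g2, g3, g4, g5, -⟩ := hlt m hm i hi
      have h3 : m ^^^ c i = bp i (par i m) := by
        conv_lhs => rw [h2]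
        exact (hlt _ g4 i hi).2.1
      rw [← hB m hm i hi, ← hT _ g4 i hi, ← h2, h3]
    · have q1 := hQ m hm i hi h1 h2
      rw [← hB m hm i hi]
      exact eq_inv_of_mul_eq_one_left q1
  refine ⟨x, h0, hx, hsq, hco, hall, ?_⟩
  intro m hm i hi
  rw [hall m hm i hi]
  have := hB m hm i hi
  exact inv_eq_iff_mul_eq_one.1 this

theorem c_eq (i : Fin 5) : c i.val = MPf02039.c i := by revert i; decide

theorem par_eq (i : Fin 5) (p : ℕ) : par i.val p = MPf02039.ep i p := by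
  unfold par MPf02039.ep
  cases p.testBit 0 <;> cases p.testBit 1 <;> cases p.testBit 2 <;> cases p.testBit 3 <;>
    fin_cases i <;> rfl

theorem act_V : ∀ g : Fin 5, ∀ m < 16, ∃ k < 16, act g (V m) = V k := by decide +kernel

theorem V_evens : ∀ m < 16, V m ∈ evens := by decide +kernel

theorem bp_facts : ∀ i : Fin 5, ∀ e : Bool, bp i e < 16 ∧ par i (bp i e) = e := by
  decide +kernel

/-- `Γ` is finite as soon as all groups generated by a system of sixteen involutions are finite. -/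
theorem Cox.finite {Γ : Type} [Group Γ] {a : Fin 6 → Γ} (h : Cox a)
    (hw : (a 1 * (a 2 * a 3 * a 4 * a 3 * a 2) * tau a * (a 2 * a 3 * a 4 * a 3 * a 2)) ^ 4 = 1)
    (hgen : Subgroup.closure (Set.range a) = ⊤)
    (main : ∀ (G : Type) [Group G] (s : MPf02039.Sys G),
      Subgroup.closure (Set.range s.x) = ⊤ → Finite G) : Finite Γ := by
  obtain ⟨x, h0, hx, hsq, hco, hall, hT⟩ := h.relations hw
  have hD := h.D5
  set d : Fin 5 → Γ := ![a 0, a 1, a 2, a 3, tau a] with hd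
  have m16 : ∀ p : ℕ, p % 16 < 16 := fun p => Nat.mod_lt _ (by norm_num)
  set xx : ℕ → Γ := fun p => x (V (p % 16)) with hxx
  set N : Subgroup Γ := Subgroup.closure (Set.range xx) with hN
  have hmem : ∀ p, xx p ∈ N := fun p => Subgroup.subset_closure ⟨p, rfl⟩
  have hxxV : ∀ m < 16, xx m = x (V m) := by
    intro m hm; simp only [hxx, Nat.mod_eq_of_lt hm]
  let s : MPf02039.Sys N :=
    { x := fun p => ⟨xx p, hmem p⟩
      z := fun i e => ⟨xx (bp i e), hmem _⟩ * ⟨xx (bp i e ^^^ c i), hmem _⟩ *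
        ⟨xx (bp i e), hmem _⟩ * ⟨xx (bp i e ^^^ c i), hmem _⟩
      x_mod := by
        intro p; apply Subtype.ext
        simp only [hxx, Nat.mod_mod]
      x_sq := by
        intro p; apply Subtype.ext
        exact hsq _ (m16 p)
      x_comm := by
        intro p i j hij; apply Subtype.ext
        have := hco (p % 16) (m16 p) i i.2 j j.2 (fun hh => hij (Fin.ext hh))
        rw [c_eq, c_eq] at this
        simp only [Subgroup.coe_mul, hxx, MPf02039.xor_c_mod]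
        exact this
      x_z := by
        intro p i; apply Subtype.ext
        have := hall (p % 16) (m16 p) i i.2
        rw [par_eq, MPf02039.ep_mod] at this
        have hb := bp_facts i (MPf02039.ep i p)
        simp only [Subgroup.coe_mul, hxx, MPf02039.xor_c_mod, c_eq, Nat.mod_eq_of_lt hb.1]
        rw [c_eq] at this
        exact this
      z_sq := by
        intro i e; apply Subtype.ext
        have hb := bp_facts i e
        have := hT _ hb.1 i i.2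
        simp only [Subgroup.coe_mul, Subgroup.coe_one, hxx, MPf02039.xor_c_mod, c_eq,
          Nat.mod_eq_of_lt hb.1]
        rw [c_eq] at this
        exact this }
  have hsgen : Subgroup.closure (Set.range s.x) = ⊤ := by
    have hr : Set.range s.x = ((↑) : N → Γ) ⁻¹' Set.range xx := by
      ext u
      constructor
      · rintro ⟨p, rfl⟩; exact ⟨p, rfl⟩
      · rintro ⟨p, hp⟩; exact ⟨p, Subtype.ext hp⟩
    rw [hr]
    exact Subgroup.closure_closure_coe_preimage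
  have hNfin : Finite N := main N s hsgen
  -- `D` normalises `N`
  have hdN : ∀ g : Fin 5, ∀ n ∈ N, d g * n * d g ∈ N := by
    intro g n hn
    induction hn using Subgroup.closure_induction with
    | mem y hy =>
      obtain ⟨p, rfl⟩ := hy
      obtain ⟨k, hk, hk2⟩ := act_V g (p % 16) (m16 p)
      have : d g * xx p * d g = xx k := by
        rw [hxxV k hk, ← hk2]
        exact hx g _ (V_evens _ (m16 p))
      rw [this]; exact hmem k
    | one => rw [mul_one, hD.s g]; exact N.one_mem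
    | mul u v _ _ hu hv =>
      have : d g * (u * v) * d g = (d g * u * d g) * (d g * v * d g) := by
        calc d g * (u * v) * d g = d g * u * (1 : Γ) * v * d g := by simp only [mul_assoc, one_mul]
          _ = d g * u * (d g * d g) * v * d g := by rw [hD.s g]
          _ = _ := by simp only [mul_assoc]
      rw [this]; exact N.mul_mem hu hv
    | inv u _ hu =>
      have hi : (d g)⁻¹ = d g := inv_eq_of_mul_eq_one_left (hD.s g)
      have : d g * u⁻¹ * d g = (d g * u * d g)⁻¹ := by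
        simp only [mul_inv_rev, hi, mul_assoc]
      rw [this]; exact N.inv_mem hu
  have hDN : ∀ δ ∈ Subgroup.closure (Set.range d), (∀ n ∈ N, δ * n * δ⁻¹ ∈ N) ∧
      (∀ n ∈ N, δ⁻¹ * n * δ ∈ N) := by
    intro δ hδ
    induction hδ using Subgroup.closure_induction with
    | mem y hy =>
      obtain ⟨g, rfl⟩ := hy
      have hi : (d g)⁻¹ = d g := inv_eq_of_mul_eq_one_left (hD.s g)
      rw [hi]; exact ⟨hdN g, hdN g⟩
    | one => simp
    | mul u v _ _ hu hv =>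
      constructor
      · intro n hn
        have := hu.1 _ (hv.1 n hn)
        convert this using 1; group
      · intro n hn
        have := hv.2 _ (hu.2 n hn)
        convert this using 1; group
    | inv u _ hu => exact ⟨by simpa using hu.2, by simpa using hu.1⟩
  have hDfin : Finite (Subgroup.closure (Set.range d)) := hD.finite
  -- the subgroup generated by `D` and `N`
  have hS3 : Finite (Subgroup.closure (Set.range d ∪ Set.range xx)) := by
    refine finite_closure_of_table N hNfin _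
      (fun δ : Subgroup.closure (Set.range d) => δ.1 • ((1 : Γ) : Γ ⧸ N)) 1 ?_ ?_ ?_
    · show ((1 : Γ)) • ((1 : Γ) : Γ ⧸ N) = ((1 : Γ) : Γ ⧸ N)
      rw [one_smul]
    · rintro y (⟨g, rfl⟩ | ⟨p, rfl⟩)
      · exact hD.s g
      · exact hsq _ (m16 p)
    · rintro y (⟨g, rfl⟩ | ⟨p, rfl⟩) δ
      · refine ⟨⟨d g, Subgroup.subset_closure ⟨g, rfl⟩⟩ * δ, ?_⟩
        show d g • (δ.1 • ((1 : Γ) : Γ ⧸ N)) = (d g * δ.1) • ((1 : Γ) : Γ ⧸ N)
        rw [mul_smul]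
      · refine ⟨δ, ?_⟩
        show xx p • (δ.1 • ((1 : Γ) : Γ ⧸ N)) = δ.1 • ((1 : Γ) : Γ ⧸ N)
        have e1 : xx p * δ.1 = δ.1 * (δ.1⁻¹ * xx p * δ.1) := by group
        rw [smul_smul, e1, mul_smul, smul_base N ((hDN _ δ.2).2 _ (hmem p))]
  set K : Subgroup Γ := Subgroup.closure (Set.range d ∪ Set.range xx) with hK
  have kd : ∀ g : Fin 5, d g ∈ K := fun g => Subgroup.subset_closure (Or.inl ⟨g, rfl⟩)
  have k0 : a 0 ∈ K := kd 0
  have k1 : a 1 ∈ K := kd 1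
  have k2 : a 2 ∈ K := kd 2
  have k3 : a 3 ∈ K := kd 3
  have kt : tau a ∈ K := kd 4
  have k4 : a 4 ∈ K := by
    have : xx 0 = a 4 := by rw [hxxV 0 (by norm_num)]; exact h0
    rw [← this]; exact Subgroup.subset_closure (Or.inr ⟨0, rfl⟩)
  have hfin : Finite (Subgroup.closure (Set.range a)) := by
    set o : Γ ⧸ K := ((1 : Γ) : Γ ⧸ K) with ho
    have b0 := smul_base K k0
    have b1 := smul_base K k1
    have b2 := smul_base K k2
    have b3 := smul_base K k3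
    have b4 := smul_base K k4
    have bt := smul_base K kt
    rw [← ho] at b0 b1 b2 b3 b4 bt
    refine finite_closure_of_table K hS3 _ ![o, a 5 • o, a 4 • a 5 • o] 0 rfl ?_ ?_
    · rintro y ⟨g, rfl⟩; exact h.s g
    · rintro y ⟨g, rfl⟩ i
      have f0 : a 0 • a 5 • o = a 5 • o := by rw [smul_c h.c05, b0]
      have f1 : a 1 • a 5 • o = a 5 • o := by rw [smul_c h.c15, b1]
      have f2 : a 2 • a 5 • o = a 5 • o := by rw [smul_c h.c25, b2]
      have f3 : a 3 • a 5 • o = a 5 • o := by rw [smul_c h.c35, b3]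
      have f5 : a 5 • a 5 • o = o := smul_s (h.s 5) o
      have g0 : a 0 • a 4 • a 5 • o = a 4 • a 5 • o := by rw [smul_c h.c04, f0]
      have g1 : a 1 • a 4 • a 5 • o = a 4 • a 5 • o := by rw [smul_c h.c14, f1]
      have g2 : a 2 • a 4 • a 5 • o = a 4 • a 5 • o := by rw [smul_c h.c24, f2]
      have g3 : a 3 • a 4 • a 5 • o = a 4 • a 5 • o := by
        have e : a 3 * a 4 * a 5 = a 4 * a 5 * tau a := by
          have s4 := h.s 4
          have s5 := h.s 5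
          calc a 3 * a 4 * a 5 = (1 : Γ) * (a 3 * a 4 * a 5) := (one_mul _).symm
            _ = (a 4 * (a 5 * a 5) * a 4) * (a 3 * a 4 * a 5) := by
              rw [s5, mul_one, s4]
            _ = a 4 * a 5 * tau a := by simp only [tau, mul_assoc]
        rw [smul_smul, smul_smul, e, mul_smul, bt, mul_smul]
      have g4 : a 4 • a 4 • a 5 • o = a 5 • o := smul_s (h.s 4) _
      have g5 : a 5 • a 4 • a 5 • o = a 4 • a 5 • o := by
        rw [← smul_b h.b45, b4]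
      fin_cases g
      · fin_cases i
        exacts [⟨0, b0⟩, ⟨1, f0⟩, ⟨2, g0⟩]
      · fin_cases i
        exacts [⟨0, b1⟩, ⟨1, f1⟩, ⟨2, g1⟩]
      · fin_cases i
        exacts [⟨0, b2⟩, ⟨1, f2⟩, ⟨2, g2⟩]
      · fin_cases i
        exacts [⟨0, b3⟩, ⟨1, f3⟩, ⟨2, g3⟩]
      · fin_cases i
        exacts [⟨0, b4⟩, ⟨2, rfl⟩, ⟨1, g4⟩]
      · fin_cases i
        exacts [⟨1, rfl⟩, ⟨0, f5⟩, ⟨2, g5⟩]
  rw [hgen] at hfin
  exact Finite.of_equiv _ Subgroup.topEquiv.toEquiv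

end

end Pool.Agent.Lib.MP_f02039_co.Red
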