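import Pool.Agent.Lib.MP_f02039_co.Red

set_option autoImplicit false

namespace Pool.Agent.Lib.MP_f02039_co.Red

/-- The presented group is finite as soon as all groups generated by a system are finite. -/
theorem finite_presented
    (main : ∀ (G : Type) [Group G] (s : MPf02039.Sys G),
      Subgroup.closure (Set.range s.x) = ⊤ → Finite G)
    (R : Set (FreeGroup (Fin 6)))
    (hR1 : ∀ i j : Fin 6, (FreeGroup.of i * FreeGroup.of j) ^
          (if i = j then (1 : ℕ) else
            if (i.val + 1 = j.val ∨ j.val + 1 = i.val) then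
              (if min i.val j.val = 3 then (4 : ℕ) else 3)
            else 2) ∈ R)
    (hR2 : (FreeGroup.of (1 : Fin 6) *
      (FreeGroup.of (2 : Fin 6) * FreeGroup.of (3 : Fin 6) * FreeGroup.of (4 : Fin 6) *
          FreeGroup.of (3 : Fin 6) * FreeGroup.of (2 : Fin 6)) *
      (FreeGroup.of (5 : Fin 6) * FreeGroup.of (4 : Fin 6) * FreeGroup.of (3 : Fin 6) *
          FreeGroup.of (4 : Fin 6) * FreeGroup.of (5 : Fin 6)) *
      (FreeGroup.of (2 : Fin 6) * FreeGroup.of (3 : Fin 6) * FreeGroup.of (4 : Fin 6) *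
          FreeGroup.of (3 : Fin 6) * FreeGroup.of (2 : Fin 6))) ^ 4 ∈ R) :
    Finite (PresentedGroup R) := by
  set a : Fin 6 → PresentedGroup R := PresentedGroup.of with ha
  have hof : ∀ i : Fin 6, PresentedGroup.mk R (FreeGroup.of i) = a i := fun i => rfl
  have h1 : ∀ i j : Fin 6, (a i * a j) ^
          (if i = j then (1 : ℕ) else
            if (i.val + 1 = j.val ∨ j.val + 1 = i.val) then
              (if min i.val j.val = 3 then (4 : ℕ) else 3)
            else 2) = 1 := by
    intro i j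
    have h := PresentedGroup.one_of_mem (hR1 i j)
    rwa [map_pow, map_mul, hof, hof] at h
  have h2 : (a 1 * (a 2 * a 3 * a 4 * a 3 * a 2) * (a 5 * a 4 * a 3 * a 4 * a 5) *
      (a 2 * a 3 * a 4 * a 3 * a 2)) ^ 4 = 1 := by
    have h := PresentedGroup.one_of_mem hR2
    simp only [map_pow, map_mul, hof] at h
    exact h
  have hs : ∀ i, a i * a i = 1 := by
    intro i
    have h := h1 i i
    rwa [if_pos rfl, pow_one] at h
  have hc : Cox a :=
    { s := hs
      c02 := comm_of_sq (hs _) (hs _) (h1 0 2)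
      c03 := comm_of_sq (hs _) (hs _) (h1 0 3)
      c04 := comm_of_sq (hs _) (hs _) (h1 0 4)
      c05 := comm_of_sq (hs _) (hs _) (h1 0 5)
      c13 := comm_of_sq (hs _) (hs _) (h1 1 3)
      c14 := comm_of_sq (hs _) (hs _) (h1 1 4)
      c15 := comm_of_sq (hs _) (hs _) (h1 1 5)
      c24 := comm_of_sq (hs _) (hs _) (h1 2 4)
      c25 := comm_of_sq (hs _) (hs _) (h1 2 5)
      c35 := comm_of_sq (hs _) (hs _) (h1 3 5)
      b01 := braid_of_cube (hs _) (hs _) (h1 0 1)
      b12 := braid_of_cube (hs _) (hs _) (h1 1 2)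
      b23 := braid_of_cube (hs _) (hs _) (h1 2 3)
      b45 := braid_of_cube (hs _) (hs _) (h1 4 5)
      q34 := quad_of_four (hs _) (hs _) (h1 3 4) }
  exact hc.finite h2 (PresentedGroup.closure_range_of R) main

/-- The frozen negation follows from the finiteness of all groups generated by a system. -/
theorem frozen_of_main
    (main : ∀ (G : Type) [Group G] (s : MPf02039.Sys G),
      Subgroup.closure (Set.range s.x) = ⊤ → Finite G) :
    ¬ (∀ (k s : ℕ), (k = 1 ∨ k = 2) → 2 ≤ s → ¬ (k = 1 ∧ s = 2) → ¬ (k = 2 ∧ s = 2) →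
    ¬ (k = 1 ∧ s = 3) →
  ∀ (σ τ : FreeGroup (Fin 6)),
    σ = FreeGroup.of (2 : Fin 6) * FreeGroup.of (3 : Fin 6) * FreeGroup.of (4 : Fin 6) *
          FreeGroup.of (3 : Fin 6) * FreeGroup.of (2 : Fin 6) →
    τ = FreeGroup.of (5 : Fin 6) * FreeGroup.of (4 : Fin 6) * FreeGroup.of (3 : Fin 6) *
          FreeGroup.of (4 : Fin 6) * FreeGroup.of (5 : Fin 6) →
  ∀ (R : Set (FreeGroup (Fin 6))),
    R = {w | ∃ i j : Fin 6, w = (FreeGroup.of i * FreeGroup.of j) ^
          (if i = j then (1 : ℕ) else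
            if (i.val + 1 = j.val ∨ j.val + 1 = i.val) then
              (if min i.val j.val = 3 then (4 : ℕ) else 3)
            else 2)} ∪
        {if k = 1 then (FreeGroup.of (1 : Fin 6) * σ * τ * σ) ^ s
         else (FreeGroup.of (1 : Fin 6) * σ * τ) ^ (2 * s)} →
    Infinite (PresentedGroup R) ∧
    (∀ i : Fin 6, (PresentedGroup.of i : PresentedGroup R) ≠ 1) ∧
    ∀ I J : Set (Fin 6),
      Subgroup.closure ((PresentedGroup.of : Fin 6 → PresentedGroup R) '' I) ⊓
        Subgroup.closure ((PresentedGroup.of : Fin 6 → PresentedGroup R) '' J) =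
      Subgroup.closure ((PresentedGroup.of : Fin 6 → PresentedGroup R) '' (I ∩ J))) := by
  intro hall
  have h1 := (hall 1 4 (Or.inl rfl) (by norm_num) (by norm_num) (by norm_num) (by norm_num)
    _ _ rfl rfl _ rfl).1
  refine h1.not_finite (finite_presented main _ ?_ ?_)
  · exact fun i j => Or.inl ⟨i, j, rfl⟩
  · exact Or.inr rfl

end Pool.Agent.Lib.MP_f02039_co.Red
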