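import Pool.Agent.Lib.MP_f02039_co.Spec
import Pool.Agent.Lib.MP_f02039_co.TCIndex

/-!
MP_f02039_co: a system satisfying `Base1` gives the relations `TC.Rel` of the coset enumeration
certificates (numbering `p < 16` for `x p`, `16 + 2 * i + e` for `z i e`).
-/

namespace MPf02039

open Pool.Agent.Lib.MP_f02039_co

variable {G : Type*} [Group G]

/-- numbered generators -/
def Sys.num (s : Sys G) (n : ℕ) : G :=
  if n < 16 then s.x n
  else s.z (Fin.ofNat 5 ((n - 16) / 2)) ((n - 16) % 2 == 1)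

theorem num_x (s : Sys G) {p : ℕ} (hp : p < 16) : s.num p = s.x p := by
  simp [Sys.num, hp]

theorem num_z (s : Sys G) {n : ℕ} (hn : ¬ n < 16) :
    s.num n = s.z (Fin.ofNat 5 ((n - 16) / 2)) ((n - 16) % 2 == 1) := by
  simp [Sys.num, hn]

theorem xor_pairs : ∀ a b : Fin 16, ([0, 1, 2, 4, 8, 15].elem (a.val ^^^ b.val)) = false →
    ∃ i j : Fin 5, i ≠ j ∧ b.val = a.val ^^^ c i ^^^ c j := by
  decide +kernel

theorem comm_tab : ∀ (a : Fin 16) (b : Fin 10),
    ((TC.eptab (b.val / 2)).testBit a.val == (b.val % 2 == 1)) = true →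
    (b.val % 2 == 1) = ep (Fin.ofNat 5 (b.val / 2)) a.val := by
  decide +kernel

theorem z_tab : ∀ (a : Fin 16) (e : Fin 10),
    ((TC.eptab (e.val / 2)).testBit a.val == (e.val % 2 == 1)) = true →
    TC.cc (e.val / 2) = c (Fin.ofNat 5 (e.val / 2)) ∧
    (e.val % 2 == 1) = ep (Fin.ofNat 5 (e.val / 2)) a.val := by
  decide +kernel

theorem triple_tab : ∀ (i j k : Fin 5) (e f g : Bool), i ≠ j → i ≠ k → j ≠ k →
    ∃ o : Fin 16, (!ep i o.val) = e ∧ (!ep j o.val) = f ∧ (!ep k o.val) = g := by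
  decide +kernel

theorem x_z_comm (s : Sys G) (a n : ℕ) (hn : ¬ n < 16) (hn' : n < 26) (ha : a < 16)
    (h : ((TC.eptab ((n - 16) / 2)).testBit a == ((n - 16) % 2 == 1)) = true) :
    s.x a * s.num n = s.num n * s.x a := by
  have h1 := comm_tab ⟨a, ha⟩ ⟨n - 16, by omega⟩ h
  simp only at h1
  rw [num_z s hn, h1]
  exact (s.zo_x (Fin.ofNat 5 ((n - 16) / 2)) a).symm

theorem relSys (s : Sys G) (hb : Base1 s) : TC.Rel s.num where
  sq a ha := by
    by_cases h : a < 16
    · rw [num_x s h]; exact s.x_sq a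
    · rw [num_z s h]; exact s.z_sq _ _
  comm a b ha hb' h := by
    unfold TC.commOK at h
    by_cases h1 : a < 16
    · by_cases h2 : b < 16
      · rw [if_pos h1, if_pos h2] at h
        obtain ⟨i, j, hij, hb''⟩ := xor_pairs ⟨a, h1⟩ ⟨b, h2⟩ (by
          rcases hh : ([0, 1, 2, 4, 8, 15].elem (a ^^^ b)) with _ | _
          · rfl
          · rw [hh] at h; exact absurd h (by decide))
        simp only at hb''
        rw [num_x s h1, num_x s h2, hb'']
        exact s.x_comm a i j hij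
      · rw [if_pos h1, if_neg h2] at h
        rw [num_x s h1]
        exact x_z_comm s a b h2 hb' h1 h
    · by_cases h2 : b < 16
      · rw [if_neg h1, if_pos h2] at h
        rw [num_x s h2]
        exact (x_z_comm s b a h1 ha h2 h).symm
      · rw [if_neg h1, if_neg h2] at h
        exact absurd h (by decide)
  zz a b e h := by
    simp only [TC.zOK, Bool.and_eq_true, decide_eq_true_eq, beq_iff_eq] at h
    obtain ⟨⟨⟨⟨⟨h1, h2⟩, h3⟩, h4⟩, h5⟩, h6⟩ := h
    obtain ⟨h7, h8⟩ := z_tab ⟨a, h1⟩ ⟨e - 16, by omega⟩ (by simpa using h6)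
    simp only at h7 h8
    rw [num_x s h1, num_x s h2, num_z s (by omega), h8, ← s.x_z]
    have h9 : b = a ^^^ c (Fin.ofNat 5 ((e - 16) / 2)) := by
      rw [← h7, ← h5, ← Nat.xor_assoc, Nat.xor_self, Nat.zero_xor]
    rw [← h9]
  triple a b c' h := by
    simp only [TC.tripleOK, Bool.and_eq_true, decide_eq_true_eq, bne_iff_ne] at h
    obtain ⟨⟨⟨⟨⟨⟨⟨⟨h1, h2⟩, h3⟩, h4⟩, h5⟩, h6⟩, h7⟩, h8⟩, h9⟩ := h
    have hne : ∀ u v : ℕ, u < 5 → v < 5 → u ≠ v → Fin.ofNat 5 u ≠ Fin.ofNat 5 v := by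
      intro u v hu hv huv h
      apply huv
      have := congrArg Fin.val h
      simp only [Fin.ofNat] at this
      omega
    have e1 := hne ((a - 16) / 2) ((b - 16) / 2) (by omega) (by omega) (by omega)
    have e2 := hne ((a - 16) / 2) ((c' - 16) / 2) (by omega) (by omega) (by omega)
    have e3 := hne ((b - 16) / 2) ((c' - 16) / 2) (by omega) (by omega) (by omega)
    obtain ⟨o, ho1, ho2, ho3⟩ := triple_tab _ _ _ ((a - 16) % 2 == 1) ((b - 16) % 2 == 1)
      ((c' - 16) % 2 == 1) e1 e2 e3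
    rw [num_z s (by omega : ¬ a < 16), num_z s (by omega : ¬ b < 16),
      num_z s (by omega : ¬ c' < 16), ← ho1, ← ho2, ← ho3]
    have := hb.zzz o.val _ _ _ e1 e2 e3
    simp only [Sys.zf] at this
    simpa only [mul_assoc] using this

/-- generation, in the form of `TC.index_C` -/
theorem num_gen (s : Sys G) (hgen : Subgroup.closure (Set.range s.x) = ⊤) :
    Subgroup.closure {a | ∃ p, p < 16 ∧ s.num p = a} = ⊤ := by
  rw [eq_top_iff, ← hgen]
  apply Subgroup.closure_mono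
  rintro _ ⟨p, rfl⟩
  refine ⟨p % 16, Nat.mod_lt _ (by norm_num), ?_⟩
  rw [num_x s (Nat.mod_lt _ (by norm_num)), s.x_mod]

end MPf02039
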