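import Pool.Agent.Lib.MP_f02039_co.Defs

/-!
MP_f02039_co: exact statements of all steps (see /team-store/MP_f02039_co_PROOF.md).

Facts about one system are bundled in structures (`Base1`, `Base2`, `Step1`, `Step2`, ...).
A module proves `theorem step2 (s : Sys G) (hb : Base s) (h1 : Step1 s) : Step2 s` etc.
-/

namespace MPf02039

open scoped commutatorElement

variable {G : Type*} [Group G]

/-! ### BASE1: the calculus of the `Y_i(o)` -/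

structure Base1 (s : Sys G) : Prop where
  /-- `b_j` fixes `Y_k` for `j ≠ k` -/
  b_ne : ∀ (o : ℕ) (j k : Fin 5), j ≠ k → cj (s.x (o ^^^ c j)) (s.Y o k) = s.Y o k
  /-- `b_k` inverts `Y_k` -/
  b_self : ∀ (o : ℕ) (k : Fin 5), cj (s.x (o ^^^ c k)) (s.Y o k) = (s.Y o k)⁻¹
  /-- `a_ij : Y_i ↦ Y_j⁻¹` -/
  a_left : ∀ (o : ℕ) (i j : Fin 5), i ≠ j →
    cj (s.x (o ^^^ c i ^^^ c j)) (s.Y o i) = (s.Y o j)⁻¹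
  /-- `a_ij : Y_j ↦ Y_i⁻¹` -/
  a_right : ∀ (o : ℕ) (i j : Fin 5), i ≠ j →
    cj (s.x (o ^^^ c i ^^^ c j)) (s.Y o j) = (s.Y o i)⁻¹
  /-- `a_ij : Y_k(o) ↦ Y_k(o'')⁻¹ Y_i(o'')⁻¹ Y_j(o)⁻¹`, `o'' = o + c_l + c_m` -/
  a_other : ∀ (o : ℕ) (i j k l m : Fin 5), D5 i j k l m →
    cj (s.x (o ^^^ c i ^^^ c j)) (s.Y o k) =
      (s.Y (o ^^^ c l ^^^ c m) k)⁻¹ * (s.Y (o ^^^ c l ^^^ c m) i)⁻¹ * (s.Y o j)⁻¹
  /-- the cusps of the frame `o` invert all `Y_i(o)` -/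
  zf_Y : ∀ (o : ℕ) (i j : Fin 5), cj (s.zf j o) (s.Y o i) = (s.Y o i)⁻¹
  Y_comm : ∀ (o : ℕ) (i j : Fin 5), Commute (s.Y o i) (s.Y o j)
  /-- `(z_i z_j)² = Y_i Y_j⁻¹` -/
  zz : ∀ (o : ℕ) (i j : Fin 5), i ≠ j →
    s.zf i o * s.zf j o * s.zf i o * s.zf j o = s.Y o i * (s.Y o j)⁻¹
  /-- `(z_i z_j z_k)² = 1` -/
  zzz : ∀ (o : ℕ) (i j k : Fin 5), i ≠ j → i ≠ k → j ≠ k →
    s.zf i o * s.zf j o * s.zf k o * s.zf i o * s.zf j o * s.zf k o = 1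
  /-- `Y_i Y_j⁻¹` depends only on the two cusps -/
  D_shift : ∀ (o : ℕ) (i j l m : Fin 5), i ≠ j → l ≠ m → i ≠ l → i ≠ m → j ≠ l → j ≠ m →
    s.Y (o ^^^ c l ^^^ c m) i * (s.Y (o ^^^ c l ^^^ c m) j)⁻¹ = s.Y o i * (s.Y o j)⁻¹
  /-- distance two: `[Y_i(o), Y_j(o+c_l+c_m)] = 1` for `i, j ∉ {l,m}` (`i = j` allowed) -/
  comm2 : ∀ (o : ℕ) (i j l m : Fin 5), l ≠ m → i ≠ l → i ≠ m → j ≠ l → j ≠ m →
    Commute (s.Y o i) (s.Y (o ^^^ c l ^^^ c m) j)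
  /-- distance two: `[Y_l(o), Y_m(o+c_l+c_m)] = 1` -/
  comm2' : ∀ (o : ℕ) (l m : Fin 5), l ≠ m → Commute (s.Y o l) (s.Y (o ^^^ c l ^^^ c m) m)

/-! ### BASE2: `C_q` and `Θ_q` -/

structure Base2 (s : Sys G) : Prop where
  C_eq : ∀ (q : ℕ) (l m j : Fin 5), l ≠ m → j ≠ l → j ≠ m →
    ⁅s.Y (q ^^^ c m) l, s.Y (q ^^^ c l) j⁆ = s.C q
  C_Y : ∀ (q : ℕ) (a b : Fin 5), a ≠ b → Commute (s.C q) (s.Y (q ^^^ c b) a)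
  x_C : ∀ q : ℕ, cj (s.x q) (s.C q) = s.C q
  xx_C : ∀ (q : ℕ) (i j : Fin 5), i ≠ j → cj (s.x (q ^^^ c i ^^^ c j)) (s.C q) = (s.C q)⁻¹
  zo_C : ∀ (q : ℕ) (i : Fin 5), cj (s.zo i q) (s.C q) = s.C q
  Th_eq : ∀ (q : ℕ) (k m : Fin 5), k ≠ m →
    cj (s.zo m q) (s.Y (q ^^^ c m) k) * s.Y (q ^^^ c m) k = s.Th q
  Th_Y : ∀ (q : ℕ) (a b : Fin 5), a ≠ b → Commute (s.Th q) (s.Y (q ^^^ c b) a)
  x_Th : ∀ q : ℕ, cj (s.x q) (s.Th q) = s.Th q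
  xx_Th : ∀ (q : ℕ) (i j : Fin 5), i ≠ j → cj (s.x (q ^^^ c i ^^^ c j)) (s.Th q) = (s.Th q)⁻¹
  zo_Th : ∀ (q : ℕ) (i : Fin 5), cj (s.zo i q) (s.Th q) = s.Th q
  Th_sq : ∀ q : ℕ, s.Th q * s.Th q = (s.C q)⁻¹

/-! ### STEP 1 -/

/-- the state after killing `ν` -/
def St1 (s : Sys G) : Prop :=
  ∀ (o : ℕ) (l m : Fin 5), l ≠ m → Commute (s.Th (o ^^^ c l)) (s.C (o ^^^ c m))

/-- the element `ν` -/
def SpecNu : Prop := ∀ (G : Type) [Group G] (s : Sys G), Base1 s → Base2 s →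
  ∃ ν : G, ν * ν = 1 ∧ (∀ p : ℕ, cj (s.x p) ν = ν) ∧
    ∀ (o : ℕ) (l m : Fin 5), l ≠ m → ⁅s.Th (o ^^^ c l), s.C (o ^^^ c m)⁆ = ν

structure Step1 (s : Sys G) : Prop where
  st1 : St1 s
  dl_eq : ∀ (o : ℕ) (m : Fin 5), ⁅s.Y o m, s.Th (o ^^^ c m)⁆ = s.dl o
  dl_Y : ∀ (o : ℕ) (i : Fin 5), Commute (s.dl o) (s.Y o i)
  dl_Th : ∀ (o : ℕ) (m : Fin 5), Commute (s.dl o) (s.Th (o ^^^ c m))
  dl_C : ∀ (o : ℕ) (m : Fin 5), Commute (s.dl o) (s.C (o ^^^ c m))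
  b_dl : ∀ (o : ℕ) (k : Fin 5), cj (s.x (o ^^^ c k)) (s.dl o) = (s.dl o)⁻¹
  zf_dl : ∀ (o : ℕ) (k : Fin 5), cj (s.zf k o) (s.dl o) = (s.dl o)⁻¹
  /-- the opposite cusps on `C_q` -/
  zf_C : ∀ (q : ℕ) (m : Fin 5), cj (s.zf m q) (s.C q) = s.C q * (s.dl (q ^^^ c m))⁻¹
  Y_C : ∀ (q : ℕ) (m : Fin 5),
    cj (s.Y (q ^^^ c m) m) (s.C q) = (s.dl (q ^^^ c m))⁻¹ ^ 2 * s.C q
  /-- `Y_i(o+c_l+c_m)` fixes `δ_o` for `i ∉ {l,m}` -/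
  dl_Y2 : ∀ (o : ℕ) (i l m : Fin 5), l ≠ m → i ≠ l → i ≠ m →
    Commute (s.dl o) (s.Y (o ^^^ c l ^^^ c m) i)

/-! ### STEP 2 -/

structure Step2 (s : Sys G) : Prop where
  Xi_symm : ∀ (o : ℕ) (i j : Fin 5), i ≠ j → s.Xi o j i = s.Xi o i j
  /-- `Ξ` depends only on the two cusps -/
  Xi_shift : ∀ (o : ℕ) (i j l m : Fin 5), i ≠ j → l ≠ m → i ≠ l → i ≠ m → j ≠ l → j ≠ m →
    s.Xi (o ^^^ c l ^^^ c m) i j = s.Xi o i j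
  Xi_dl : ∀ (o : ℕ) (i j : Fin 5), i ≠ j → Commute (s.Xi o i j) (s.dl o)
  Xi_C : ∀ (o : ℕ) (i j k : Fin 5), i ≠ j → k ≠ i → k ≠ j →
    Commute (s.Xi o i j) (s.C (o ^^^ c k))
  Xi_C' : ∀ (o : ℕ) (i j : Fin 5), i ≠ j → Commute (s.Xi o i j) (s.C (o ^^^ c i ^^^ c j))
  Xi_Y : ∀ (o : ℕ) (i j a : Fin 5), i ≠ j → Commute (s.Xi o i j) (s.Y o a)
  /-- `x_p` inverts `Ξ` for `p` in both cusps -/
  b_Xi : ∀ (o : ℕ) (i j k : Fin 5), i ≠ j → k ≠ i → k ≠ j →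
    cj (s.x (o ^^^ c k)) (s.Xi o i j) = (s.Xi o i j)⁻¹
  a_Xi : ∀ (o : ℕ) (i j : Fin 5), i ≠ j →
    cj (s.x (o ^^^ c i ^^^ c j)) (s.Xi o i j) = (s.Xi o i j)⁻¹
  zf_Xi : ∀ (o : ℕ) (i j k : Fin 5), i ≠ j → cj (s.zf k o) (s.Xi o i j) = (s.Xi o i j)⁻¹
  zo_Xi : ∀ (o : ℕ) (i j k : Fin 5), i ≠ j → k ≠ i → k ≠ j →
    cj (s.zo k o) (s.Xi o i j) = (s.Xi o i j)⁻¹
  /-- (X1) -/
  a_dl : ∀ (o : ℕ) (i j : Fin 5), i ≠ j →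
    cj (s.x (o ^^^ c i ^^^ c j)) (s.dl o) = (s.Xi o i j)⁻¹ * s.dl o
  /-- (X2) -/
  b_Xi' : ∀ (o : ℕ) (i j : Fin 5), i ≠ j →
    cj (s.x (o ^^^ c i)) (s.Xi o i j) = (s.dl o)⁻¹ ^ 2 * s.Xi o i j
  /-- `[Y_i(q+c_i+c_j), C_q] = Ξ` -/
  Y_C_i : ∀ (q : ℕ) (i j : Fin 5), i ≠ j →
    cj (s.Y (q ^^^ c i ^^^ c j) i) (s.C q) = s.Xi (q ^^^ c i ^^^ c j) i j * s.C q
  Y_C_k : ∀ (q : ℕ) (i j k : Fin 5), i ≠ j → k ≠ i → k ≠ j →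
    cj (s.Y (q ^^^ c i ^^^ c j) k) (s.C q) =
      s.Xi (q ^^^ c i ^^^ c j) i j * (s.dl (q ^^^ c k))⁻¹ ^ 2 * s.C q
  /-- (X3) -/
  dl_sq_comm : ∀ (o : ℕ) (l m : Fin 5), l ≠ m →
    Commute (s.dl o ^ 2) (s.dl (o ^^^ c l ^^^ c m) ^ 2)
  /-- (c1) -/
  dl_four : ∀ (o : ℕ) (l m : Fin 5), l ≠ m → Commute (s.dl o) (s.dl (o ^^^ c l ^^^ c m) ^ 4)
  /-- (c2) -/
  Xi_sq_comm : ∀ (o : ℕ) (i j k : Fin 5), i ≠ j → i ≠ k → j ≠ k →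
    Commute (s.Xi o i j ^ 2) (s.Xi o i k)
  /-- (E4) -/
  E4 : ∀ (o : ℕ) (i j k l m : Fin 5), D5 i j k l m →
    s.Xi o i j ^ 2 * s.Xi o i k ^ 2 * s.Xi o j k ^ 2 = s.dl o ^ 4 * s.dl (o ^^^ c l ^^^ c m) ^ 4
  /-- (K5): `δ_o` commutes with `Ξ⁴` of the pair (cusp `i` of `o`, opposite of the cusp `j` of `o`);
  the frame `o + c_j + c_k` contains these two cusps -/
  K5 : ∀ (o : ℕ) (i j k : Fin 5), i ≠ j → k ≠ i → k ≠ j →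
    Commute (s.dl o) (s.Xi (o ^^^ c j ^^^ c k) i j ^ 4)

/-! ### STEP 3 -/

structure Step3 (s : Sys G) : Prop where
  dl16 : ∀ o : ℕ, s.dl o ^ 16 = 1
  Xi8 : ∀ (o : ℕ) (i j : Fin 5), i ≠ j → s.Xi o i j ^ 8 = 1

/-! ### The chain of states -/

/-- everything satisfying `P` and generated by the `x_p` is finite -/
def FinIf (P : ∀ {G : Type} [Group G], Sys G → Prop) : Prop :=
  ∀ (G : Type) [Group G] (s : Sys G), Subgroup.closure (Set.range s.x) = ⊤ → P s → Finite G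

/-- all `δ` trivial (then all `Ξ` are trivial) and `ν = 1` -/
def StD (s : Sys G) : Prop := St1 s ∧ ∀ o : ℕ, s.dl o = 1

/-- all `C_q` trivial -/
def StC (s : Sys G) : Prop := (∀ q : ℕ, s.C q = 1) ∧ ∀ o : ℕ, s.dl o = 1

/-- `λ = 1`: `D(z_m, z_n)` and `D(z̄_m, z_n)` commute -/
def St6 (s : Sys G) : Prop := StC s ∧ ∀ (o : ℕ) (m n : Fin 5), m ≠ n →
  Commute (s.Y (o ^^^ c n) m * (s.Y (o ^^^ c n) n)⁻¹) (s.Y o m * (s.Y o n)⁻¹)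

/-- all `Y` commute -/
def StY (s : Sys G) : Prop := StC s ∧ ∀ (o o' : ℕ) (i j : Fin 5), Commute (s.Y o i) (s.Y o' j)

/-- all `Θ` trivial -/
def StT (s : Sys G) : Prop := StY s ∧ ∀ q : ℕ, s.Th q = 1

/-- moreover `x_o Y_k(o) x_o` commutes with `Y_k(o)` -/
def StE (s : Sys G) : Prop := StT s ∧ ∀ (o : ℕ) (k : Fin 5), Commute (cj (s.x o) (s.Y o k)) (s.Y o k)

/-- all `Y` trivial -/
def StOne (s : Sys G) : Prop := ∀ (o : ℕ) (k : Fin 5), s.Y o k = 1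

def SpecR1 : Prop := FinIf (fun s => St1 s) → FinIf (fun _ => True)
def SpecR4 : Prop := FinIf (fun s => StD s) → FinIf (fun s => St1 s)
def SpecR5 : Prop := FinIf (fun s => StC s) → FinIf (fun s => StD s)
def SpecR6 : Prop := FinIf (fun s => St6 s) → FinIf (fun s => StC s)
def SpecR7 : Prop := FinIf (fun s => StY s) → FinIf (fun s => St6 s)
def SpecR8 : Prop := FinIf (fun s => StT s) → FinIf (fun s => StY s)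
def SpecR8b : Prop := FinIf (fun s => StE s) → FinIf (fun s => StT s)
def SpecR9 : Prop := FinIf (fun s => StOne s) → FinIf (fun s => StE s)
def SpecR10 : Prop := FinIf (fun s => StOne s)

end MPf02039
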