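import Mathlib

/-!
A verified checker for coset enumeration certificates (all generators are involutions).
A certificate shows that a subgroup `H`, containing some of the generators, has finite relative
index in the subgroup generated by all of them, in every group with the given relators.
-/

namespace Pool.Agent.Lib.MP_f02039_co.TC

/-- Binary trees, used as arrays with fast kernel access (index read from the lowest bit). -/
inductive Tr (α : Type) : Type
  | leaf (a : α) : Tr α
  | node (l r : Tr α) : Tr α

/-- Look up. -/
noncomputable def Tr.get {α : Type} (t : Tr α) : ℕ → α :=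
  Tr.rec (fun a _ => a)
    (fun _ _ hl hr i => cond (Nat.beq (Nat.mod i 2) 0) (hl (Nat.div i 2)) (hr (Nat.div i 2))) t

/-- All leaves satisfy the test. -/
noncomputable def Tr.all {α : Type} (f : α → Bool) (t : Tr α) : Bool :=
  Tr.rec (fun a => f a) (fun _ _ hl hr => and hl hr) t

theorem Tr.get_leaf {α : Type} (a : α) (i : ℕ) : (Tr.leaf a).get i = a := rfl

theorem Tr.get_node {α : Type} (l r : Tr α) (i : ℕ) :
    (Tr.node l r).get i = cond (Nat.beq (Nat.mod i 2) 0) (l.get (Nat.div i 2))
      (r.get (Nat.div i 2)) := rfl

theorem Tr.all_leaf {α : Type} (f : α → Bool) (a : α) : (Tr.leaf a).all f = f a := rfl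

theorem Tr.all_node {α : Type} (f : α → Bool) (l r : Tr α) :
    (Tr.node l r).all f = and (l.all f) (r.all f) := rfl

theorem Tr.get_of_all {α : Type} {f : α → Bool} {t : Tr α} (h : t.all f = true) (i : ℕ) :
    f (t.get i) = true := by
  induction t generalizing i with
  | leaf a => exact h
  | node l r ihl ihr =>
      rw [Tr.all_node, Bool.and_eq_true] at h
      rw [Tr.get_node]
      cases Nat.beq (Nat.mod i 2) 0
      · simpa using ihr h.2 _
      · simpa using ihl h.1 _

/-- Bounded universal test. -/
noncomputable def allB (n : ℕ) (f : ℕ → Bool) : Bool :=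
  Nat.rec true (fun i ih => and (f i) ih) n

theorem allB_succ (n : ℕ) (f : ℕ → Bool) : allB (n + 1) f = and (f n) (allB n f) := rfl

theorem allB_spec {n : ℕ} {f : ℕ → Bool} (h : allB n f = true) (i : ℕ) (hi : i < n) :
    f i = true := by
  induction n with
  | zero => exact absurd hi (Nat.not_lt_zero i)
  | succ n ih =>
      rw [allB_succ, Bool.and_eq_true] at h
      rcases Nat.lt_succ_iff_lt_or_eq.1 hi with h' | h'
      · exact ih h.2 h'
      · rw [h']; exact h.1

/-- Evaluate the argument before passing it on. -/
noncomputable def force (e : ℕ) (f : ℕ → Bool) : Bool :=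
  Nat.rec (f 0) (fun n _ => f (Nat.succ n)) e

theorem force_eq (e : ℕ) (f : ℕ → Bool) : force e f = f e := by cases e <;> rfl

theorem bltlt {a b : ℕ} (h : Nat.blt a b = true) : a < b := by
  rw [Nat.blt_eq] at h; exact h

/-- Membership test. -/
noncomputable def memb (g : ℕ) (l : List ℕ) : Bool :=
  List.rec false (fun a _ ih => or (Nat.beq a g) ih) l

theorem memb_spec {g : ℕ} {l : List ℕ} (h : memb g l = true) : g ∈ l := by
  induction l with
  | nil => exact absurd h (by simp [memb])
  | cons a l ih =>
      have h' : or (Nat.beq a g) (memb g l) = true := h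
      rw [Bool.or_eq_true] at h'
      rcases h' with h | h
      · have := Nat.eq_of_beq_eq_true h
        simp [this]
      · exact List.mem_cons_of_mem _ (ih h)

section

/-- The entry of the table `tab` at coset `c`, generator `g`: the `g`-th digit of `W` bits. -/
noncomputable def ent (W : ℕ) (tab : Tr ℕ) (c g : ℕ) : ℕ :=
  Nat.mod (Nat.div (tab.get c) (Nat.pow 2 (Nat.mul W g))) (Nat.pow 2 W)

/-- Target of an entry. -/
def tgt (A e : ℕ) : ℕ := Nat.mod e (Nat.pow 2 A)

/-- Round of an entry. -/
def rnd (A B e : ℕ) : ℕ := Nat.mod (Nat.div e (Nat.pow 2 A)) (Nat.pow 2 B)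

/-- The path from `d` along the word `w` uses only entries of round less than `r` and ends
at `c`. -/
noncomputable def path (k W A B : ℕ) (tab : Tr ℕ) (r c : ℕ) (w : List ℕ) : ℕ → Bool :=
  List.rec (fun d => Nat.beq d c)
    (fun g _ ih d => and (Nat.blt g k) (force (ent W tab d g) fun e =>
      and (Nat.blt (rnd A B e) r) (ih (tgt A e)))) w

/-- The check of a single entry. -/
noncomputable def chk (n k W A B : ℕ) (rels : Tr (List ℕ)) (sub : List ℕ) (par tab : Tr ℕ)
    (c g : ℕ) : Bool :=
  force (ent W tab c g) fun e =>
  force (tgt A e) fun t =>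
  force (rnd A B e) fun r =>
  and (Nat.blt t n)
    (cond (Nat.blt t c)
      (force (ent W tab t g) fun e' => and (Nat.beq (tgt A e') c) (Nat.beq (rnd A B e') r))
      (cond (Nat.beq r 0)
        (or (and (and (Nat.beq c 0) (Nat.beq t 0)) (memb g sub))
          (and (Nat.blt c t)
              (Nat.beq (par.get t) (Nat.add c (Nat.mul (Nat.pow 2 A) g)))))
        (List.rec false (fun h w _ => and (Nat.beq h g) (path k W A B tab r c w t))
          (rels.get (Nat.div e (Nat.pow 2 (Nat.add A B)))))))

/-- The complete check.  `n` is the number of cosets, `k` the number of generators; an entry of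
`tab` is `target + 2 ^ A * (round + 2 ^ B * relatorIndex)`; `par` holds `parent + 2 ^ A * gen`. -/
noncomputable def check (n k W A B : ℕ) (rels : Tr (List ℕ)) (sub : List ℕ) (par tab : Tr ℕ) :
    Bool :=
  and (Nat.blt 0 n)
    (allB n fun c => allB k fun g => chk n k W A B rels sub par tab c g)

end

variable {G : Type*} [Group G]

/-- Coset representatives read off from the tree. -/
noncomputable def trep (A : ℕ) (par : Tr ℕ) (x : ℕ → G) : ℕ → G
  | c => if _h : tgt A (par.get c) < c then
      trep A par x (tgt A (par.get c)) * x (Nat.div (par.get c) (Nat.pow 2 A)) else 1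
  termination_by c => c

theorem tgt_lt (A e : ℕ) : tgt A e < 2 ^ A :=
  Nat.mod_lt _ (Nat.pow_pos (by norm_num))

theorem trep_step (A : ℕ) (par : Tr ℕ) (x : ℕ → G) {c d g : ℕ} (hcd : c < d) (hc : c < 2 ^ A)
    (hp : par.get d = c + 2 ^ A * g) : trep A par x d = trep A par x c * x g := by
  have h1 : tgt A (par.get d) = c := by
    rw [hp]
    show (c + 2 ^ A * g) % 2 ^ A = c
    rw [Nat.add_mul_mod_self_left, Nat.mod_eq_of_lt hc]
  have h2 : Nat.div (par.get d) (Nat.pow 2 A) = g := by
    rw [hp]
    show (c + 2 ^ A * g) / 2 ^ A = g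
    rw [Nat.add_mul_div_left _ _ (by positivity), Nat.div_eq_of_lt hc, Nat.zero_add]
  rw [trep, dif_pos (by rw [h1]; exact hcd), h1, h2]

theorem trep_zero (A : ℕ) (par : Tr ℕ) (x : ℕ → G) : trep A par x 0 = 1 := by
  rw [trep, dif_neg (Nat.not_lt_zero _)]

/-- `c` and `d` are joined by `a`: `H t_c a = H t_d`. -/
def Adj (t : ℕ → G) (H : Subgroup G) (c d : ℕ) (a : G) : Prop :=
  t c * a * (t d)⁻¹ ∈ H

theorem Adj.trans {t : ℕ → G} {H : Subgroup G} {c d e : ℕ} {a b : G}
    (h1 : Adj t H c d a) (h2 : Adj t H d e b) : Adj t H c e (a * b) := by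
  have := H.mul_mem h1 h2
  have e1 : t c * a * (t d)⁻¹ * (t d * b * (t e)⁻¹) = t c * (a * b) * (t e)⁻¹ := by group
  rw [Adj, ← e1]; exact this

theorem Adj.symm {t : ℕ → G} {H : Subgroup G} {c d : ℕ} {a : G}
    (h1 : Adj t H c d a) : Adj t H d c a⁻¹ := by
  have := H.inv_mem h1
  have e1 : (t c * a * (t d)⁻¹)⁻¹ = t d * a⁻¹ * (t c)⁻¹ := by group
  rw [Adj, ← e1]; exact this

theorem path_spec {n k W A B : ℕ} {tab : Tr ℕ} {t x : ℕ → G} {H : Subgroup G} {r c : ℕ}
    (hyp : ∀ d g, d < n → g < k → rnd A B (ent W tab d g) < r →
      tgt A (ent W tab d g) < n ∧ Adj t H d (tgt A (ent W tab d g)) (x g)) (w : List ℕ) :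
    ∀ (d : ℕ), d < n → path k W A B tab r c w d = true → Adj t H d c (w.map x).prod := by
  induction w with
  | nil =>
      intro d hd h
      have : d = c := Nat.eq_of_beq_eq_true h
      subst this
      simp [Adj]
  | cons g w ih =>
      intro d hd h
      have h' : and (Nat.blt g k) (force (ent W tab d g) fun e =>
          and (Nat.blt (rnd A B e) r) (path k W A B tab r c w (tgt A e))) = true := h
      rw [force_eq, Bool.and_eq_true, Bool.and_eq_true] at h'
      obtain ⟨h1, h2⟩ := hyp d g hd (bltlt h'.1) (bltlt h'.2.1)
      have h3 := ih _ h1 h'.2.2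
      simpa using h2.trans h3

theorem check_sound {n k W A B : ℕ} {rels : Tr (List ℕ)} {sub : List ℕ} {par tab : Tr ℕ}
    (hC : check n k W A B rels sub par tab = true) (x : ℕ → G)
    (hx : ∀ i, i < k → x i * x i = 1)
    (hrel : ∀ i, ((rels.get i).map x).prod = 1)
    (H : Subgroup G) (hsub : ∀ i ∈ sub, x i ∈ H) :
    ∀ c g, c < n → g < k →
      tgt A (ent W tab c g) < n ∧
        Adj (trep A par x) H c (tgt A (ent W tab c g)) (x g) := by
  rw [check, Bool.and_eq_true] at hC
  obtain ⟨hn, hall⟩ := hC
  have hn' : 0 < n := bltlt hn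
  have key : ∀ r c g, c < n → g < k → rnd A B (ent W tab c g) < r →
      tgt A (ent W tab c g) < n ∧
        Adj (trep A par x) H c (tgt A (ent W tab c g)) (x g) := by
    intro r
    induction r with
    | zero => intro c g _ _ h; exact absurd h (Nat.not_lt_zero _)
    | succ r ih =>
        -- first the entries with `c ≤ target`
        have half : ∀ c g, c < n → g < k → rnd A B (ent W tab c g) < r + 1 →
            tgt A (ent W tab c g) < n ∧
            (¬ tgt A (ent W tab c g) < c →
              Adj (trep A par x) H c (tgt A (ent W tab c g)) (x g)) := by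
          intro c g hc hg hr
          have hcg : chk n k W A B rels sub par tab c g = true :=
            allB_spec (allB_spec hall c hc) g hg
          rw [chk, force_eq, force_eq, force_eq, Bool.and_eq_true] at hcg
          obtain ⟨ht, hm⟩ := hcg
          have ht' : tgt A (ent W tab c g) < n := bltlt ht
          refine ⟨ht', fun hlt => ?_⟩
          have hb0 : Nat.blt (tgt A (ent W tab c g)) c = false := by
            rcases hb : Nat.blt (tgt A (ent W tab c g)) c with _ | _
            · rfl
            · exact absurd (bltlt hb) hlt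
          rw [hb0, cond_false] at hm
          rcases hb : Nat.beq (rnd A B (ent W tab c g)) 0 with _ | _
          · rw [hb, cond_false] at hm
            have hr0 : rnd A B (ent W tab c g) ≤ r := Nat.lt_succ_iff.1 hr
            rcases hw : rels.get (Nat.div (ent W tab c g) (Nat.pow 2 (Nat.add A B))) with _ | ⟨h, w⟩
            · rw [hw] at hm; exact absurd hm (by simp)
            · rw [hw] at hm
              have hm' : and (Nat.beq h g) (path k W A B tab (rnd A B (ent W tab c g)) c w
                (tgt A (ent W tab c g))) = true := hm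
              rw [Bool.and_eq_true] at hm'
              have hh : h = g := Nat.eq_of_beq_eq_true hm'.1
              subst hh
              have hp := path_spec (x := x) (t := trep A par x) (H := H)
                (fun d g' hd hg' hlt' => ih d g' hd hg' (lt_of_lt_of_le hlt' hr0)) w _ ht' hm'.2
              have hw1 := hrel (Nat.div (ent W tab c h) (Nat.pow 2 (Nat.add A B)))
              rw [hw] at hw1
              simp only [List.map_cons, List.prod_cons] at hw1
              have hw2 : (w.map x).prod = (x h)⁻¹ := eq_inv_of_mul_eq_one_right hw1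
              rw [hw2] at hp
              have := hp.symm
              simpa using this
          · rw [hb, cond_true, Bool.or_eq_true, Bool.and_eq_true, Bool.and_eq_true,
              Bool.and_eq_true] at hm
            rcases hm with ⟨⟨h1, h2⟩, h3⟩ | ⟨h1, h2⟩
            · have e1 : c = 0 := Nat.eq_of_beq_eq_true h1
              have e2 : tgt A (ent W tab c g) = 0 := Nat.eq_of_beq_eq_true h2
              rw [e2, e1]
              simp only [Adj, trep_zero, one_mul, inv_one, mul_one]
              exact hsub g (memb_spec h3)
            · have h1' := bltlt h1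
              have h2' : par.get (tgt A (ent W tab c g)) = c + 2 ^ A * g :=
                Nat.eq_of_beq_eq_true h2
              have := trep_step A par x h1' (lt_trans h1' (tgt_lt A _)) h2'
              rw [Adj, this]
              simp
        intro c g hc hg hr
        refine ⟨(half c g hc hg hr).1, ?_⟩
        by_cases hlt : tgt A (ent W tab c g) < c
        · have hcg : chk n k W A B rels sub par tab c g = true :=
            allB_spec (allB_spec hall c hc) g hg
          rw [chk, force_eq, force_eq, force_eq, Bool.and_eq_true] at hcg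
          obtain ⟨ht, hm⟩ := hcg
          have ht' : tgt A (ent W tab c g) < n := bltlt ht
          have hb0 : Nat.blt (tgt A (ent W tab c g)) c = true := by
            rw [Nat.blt_eq]; exact hlt
          rw [hb0, cond_true, force_eq, Bool.and_eq_true] at hm
          have e1 : tgt A (ent W tab (tgt A (ent W tab c g)) g) = c :=
            Nat.eq_of_beq_eq_true hm.1
          have e2 : rnd A B (ent W tab (tgt A (ent W tab c g)) g) = rnd A B (ent W tab c g) :=
            Nat.eq_of_beq_eq_true hm.2
          have h5 := (half _ g ht' hg (by rw [e2]; exact hr)).2 (by rw [e1]; exact not_lt.2 hlt.le)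
          rw [e1] at h5
          have h6 := h5.symm
          have hxi : (x g)⁻¹ = x g := inv_eq_of_mul_eq_one_left (hx g hg)
          rwa [hxi] at h6
        · exact (half c g hc hg hr).2 hlt
  intro c g hc hg
  exact key _ c g hc hg (Nat.lt_succ_self _)

/-- Finite relative index from a certificate. -/
theorem relIndex_ne_zero {n k W A B : ℕ} {rels : Tr (List ℕ)} {sub : List ℕ} {par tab : Tr ℕ}
    (hC : check n k W A B rels sub par tab = true) (x : ℕ → G)
    (hx : ∀ i, i < k → x i * x i = 1)
    (hrel : ∀ i, ((rels.get i).map x).prod = 1)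
    (H : Subgroup G) (hsub : ∀ i ∈ sub, x i ∈ H) :
    H.relIndex (Subgroup.closure {a | ∃ i, i < k ∧ x i = a}) ≠ 0 := by
  have hadj := check_sound hC x hx hrel H hsub
  have hn' : 0 < n := by
    rw [check, Bool.and_eq_true] at hC
    exact bltlt hC.1
  set K := Subgroup.closure {a | ∃ i, i < k ∧ x i = a} with hK
  -- every element of `K` lies in some `H t_c`
  have hcov : ∀ a ∈ K, ∃ c, c < n ∧ a * (trep A par x c)⁻¹ ∈ H := by
    intro a ha
    induction ha using Subgroup.closure_induction_right with
    | one => exact ⟨0, hn', by simp [trep_zero]⟩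
    | mul_right b y hy hby ih =>
        obtain ⟨i, hi, rfl⟩ := hby
        obtain ⟨c, hc, hm⟩ := ih
        obtain ⟨h1, h2⟩ := hadj c i hc hi
        refine ⟨_, h1, ?_⟩
        have := H.mul_mem hm h2
        convert this using 1
        group
    | mul_inv_cancel b y hy hby ih =>
        obtain ⟨i, hi, rfl⟩ := hby
        obtain ⟨c, hc, hm⟩ := ih
        obtain ⟨h1, h2⟩ := hadj c i hc hi
        have hxi : (x i)⁻¹ = x i := inv_eq_of_mul_eq_one_left (hx i hi)
        refine ⟨_, h1, ?_⟩
        rw [hxi]
        have := H.mul_mem hm h2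
        convert this using 1
        group
  -- an injection of the quotient into `Fin n`
  have hfin : Finite (K ⧸ H.subgroupOf K) := by
    have hch : ∀ q : K ⧸ H.subgroupOf K, ∃ c : Fin n, ∃ a : K,
        (QuotientGroup.mk a : K ⧸ H.subgroupOf K) = q ∧
          (a : G)⁻¹ * (trep A par x c)⁻¹ ∈ H := by
      intro q
      induction q using QuotientGroup.induction_on with
      | H a =>
        obtain ⟨c, hc, hm⟩ := hcov (a : G)⁻¹ (K.inv_mem a.2)
        exact ⟨⟨c, hc⟩, a, rfl, hm⟩
    choose f g hg hgm using hch
    refine Finite.of_injective f ?_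
    intro q q' hqq
    rw [← hg q, ← hg q', QuotientGroup.eq]
    have h1 := hgm q
    have h2 := hgm q'
    rw [← hqq] at h2
    have h3 := H.mul_mem h1 (H.inv_mem h2)
    show ((g q)⁻¹ * g q' : K).1 ∈ H
    convert h3 using 1
    simp [mul_assoc]
  have : (H.subgroupOf K).FiniteIndex := Subgroup.finiteIndex_of_finite_quotient
  exact this.index_ne_zero

/-- Words with trivial value. -/
theorem map_prod_rot (x : ℕ → G) (a : ℕ) (w : List ℕ)
    (h : ((w ++ [a]).map x).prod = 1) : (((a :: w)).map x).prod = 1 := by
  simp only [List.map_append, List.prod_append, List.map_cons, List.map_nil, List.prod_cons,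
    List.prod_nil, mul_one] at h ⊢
  rw [mul_eq_one_iff_eq_inv] at h
  rw [h, mul_inv_cancel]

end Pool.Agent.Lib.MP_f02039_co.TC
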