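import Pool.Agent.Lib.MP_f02039_co.TC

/-!
Relators of the coset enumeration certificates for the group with generators `x p` (`p < 16`,
numbered `p`) and `z i e` (numbered `16 + 2 * i + e`).
-/

namespace Pool.Agent.Lib.MP_f02039_co.TC

/-- The masks `c i`. -/
def cc : ℕ → ℕ
  | 0 => 1
  | 1 => 2
  | 2 => 4
  | 3 => 8
  | _ => 15

/-- Tables of the parities of the bits outside `i`. -/
def eptab : ℕ → ℕ
  | 0 => 0xC33C
  | 1 => 0xA55A
  | 2 => 0x9966
  | 3 => 0x9696
  | _ => 0x6996

theorem eptab_test : ((List.range 5).all fun i => (List.range 16).all fun p =>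
    (eptab i).testBit p == (List.range 4).foldl (fun b j => b ^^ (p.testBit j && (j != i))) false)
    = true := by
  decide

/-- The two generators commute by a relator. -/
def commOK (a b : ℕ) : Bool :=
  if a < 16 then
    if b < 16 then !([0, 1, 2, 4, 8, 15].elem (a ^^^ b))
    else (eptab ((b - 16) / 2)).testBit a == ((b - 16) % 2 == 1)
  else if b < 16 then (eptab ((a - 16) / 2)).testBit b == ((a - 16) % 2 == 1)
  else false

/-- The relator `(x_a x_b)^2 = z_e`. -/
def zOK (a b e : ℕ) : Bool :=
  a < 16 && b < 16 && 16 ≤ e && e < 26 && (a ^^^ b) == cc ((e - 16) / 2) &&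
    (eptab ((e - 16) / 2)).testBit a == ((e - 16) % 2 == 1)

/-- The relator `(z_a z_b z_c)^2 = 1`. -/
def tripleOK (a b c : ℕ) : Bool :=
  16 ≤ a && 16 ≤ b && 16 ≤ c && a < 26 && b < 26 && c < 26 &&
    a / 2 != b / 2 && b / 2 != c / 2 && a / 2 != c / 2

/-- The basic relators. -/
def base : List ℕ → Bool
  | [a, b, c, d] => a == c && b == d && commOK a b
  | [a, b, c, d, e] => a == c && b == d && zOK a b e
  | [a, b, c, d, e, f] => a == d && b == e && c == f && tripleOK a b c
  | _ => false

/-- Rotation of a word. -/
def rot : List ℕ → List ℕ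
  | [] => []
  | a :: w => w ++ [a]

/-- The allowed relators: rotations of the basic ones, all letters below `k`. -/
def valid (w : List ℕ) : Bool :=
  w.all (fun a => a < 26) &&
  (base w || base (rot w) || base (rot (rot w)) || base (rot (rot (rot w))) ||
    base (rot (rot (rot (rot w)))))

variable {G : Type*} [Group G]

/-- The relations, for numbered generators. -/
structure Rel (g : ℕ → G) : Prop where
  sq : ∀ a, a < 26 → g a * g a = 1
  comm : ∀ a b, a < 26 → b < 26 → commOK a b = true → g a * g b = g b * g a
  zz : ∀ a b e, zOK a b e = true → g a * g b * g a * g b = g e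
  triple : ∀ a b c, tripleOK a b c = true → g a * g b * g c * (g a * g b * g c) = 1

theorem prod_rot {g : ℕ → G} {w : List ℕ} (h : ((rot w).map g).prod = 1) :
    (w.map g).prod = 1 := by
  cases w with
  | nil => simp
  | cons a w => exact map_prod_rot g a w h

theorem base_sound {g : ℕ → G} (hg : Rel g) (w : List ℕ) (hk : ∀ a ∈ w, a < 26)
    (h : base w = true) : (w.map g).prod = 1 := by
  match w, hk, h with
  | [a, b, c, d], hk, h =>
      simp only [base, Bool.and_eq_true, beq_iff_eq] at h
      obtain ⟨⟨rfl, rfl⟩, h⟩ := h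
      have ha : a < 26 := hk a (by simp)
      have hb : b < 26 := hk b (by simp)
      have h1 := hg.comm a b ha hb h
      simp only [List.map_cons, List.map_nil, List.prod_cons, List.prod_nil, mul_one]
      rw [h1]
      calc g a * (g b * (g b * g a)) = g a * (g b * g b) * g a := by simp only [mul_assoc]
        _ = 1 := by rw [hg.sq b hb, mul_one, hg.sq a ha]
  | [a, b, c, d, e], hk, h =>
      simp only [base, Bool.and_eq_true, beq_iff_eq] at h
      obtain ⟨⟨rfl, rfl⟩, h⟩ := h
      have he : e < 26 := hk e (by simp)
      have h1 := hg.zz a b e h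
      simp only [List.map_cons, List.map_nil, List.prod_cons, List.prod_nil, mul_one]
      calc g a * (g b * (g a * (g b * g e))) = g a * g b * g a * g b * g e := by
            simp only [mul_assoc]
        _ = 1 := by rw [h1, hg.sq e he]
  | [a, b, c, d, e, f], hk, h =>
      simp only [base, Bool.and_eq_true, beq_iff_eq] at h
      obtain ⟨⟨⟨rfl, rfl⟩, rfl⟩, h⟩ := h
      have h1 := hg.triple a b c h
      simp only [List.map_cons, List.map_nil, List.prod_cons, List.prod_nil, mul_one]
      simpa only [mul_assoc] using h1
  | [], _, h => simp [base] at h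
  | [a], _, h => simp [base] at h
  | [a, b], _, h => simp [base] at h
  | [a, b, c], _, h => simp [base] at h
  | a :: b :: c :: d :: e :: f :: g' :: w, _, h => simp [base] at h

theorem valid_sound {g : ℕ → G} (hg : Rel g) {w : List ℕ} (h : valid w = true) :
    (w.map g).prod = 1 := by
  simp only [valid, Bool.and_eq_true, Bool.or_eq_true, List.all_eq_true, decide_eq_true_eq] at h
  obtain ⟨hk, h⟩ := h
  have hrot : ∀ w : List ℕ, (∀ a ∈ w, a < 26) → ∀ a ∈ rot w, a < 26 := by
    intro w hw a ha
    cases w with
    | nil => simp [rot] at ha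
    | cons b w =>
        simp only [rot, List.mem_append, List.mem_singleton] at ha
        rcases ha with ha | rfl
        · exact hw a (List.mem_cons_of_mem _ ha)
        · exact hw a List.mem_cons_self
  rcases h with (((h | h) | h) | h) | h
  · exact base_sound hg _ hk h
  · exact prod_rot (base_sound hg _ (hrot _ hk) h)
  · exact prod_rot (prod_rot (base_sound hg _ (hrot _ (hrot _ hk)) h))
  · exact prod_rot (prod_rot (prod_rot (base_sound hg _ (hrot _ (hrot _ (hrot _ hk))) h)))
  · exact prod_rot (prod_rot (prod_rot (prod_rot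
      (base_sound hg _ (hrot _ (hrot _ (hrot _ (hrot _ hk)))) h))))

end Pool.Agent.Lib.MP_f02039_co.TC
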